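import Pool.Agent.Helper40.ZO.Defs

/-!
# Block ZO-JCA (all but exists_proj): existence and use of the Jordan decomposition

* `exists_JC`: `Module.End.exists_isNilpotent_isSemisimple` gives `h = n + s`, `s` semisimple,
  `n` nilpotent, both in `Algebra.adjoin K {h}`. `s` is invertible with inverse in
  `Algebra.adjoin K {h}` (`h` is invertible, `n` nilpotent and commuting), `U = 1 + s⁻¹ n`,
  `m = finrank + 1`. The minimal polynomial of a semisimple endomorphism is squarefree
  (`Module.End.IsSemisimple.minpoly_squarefree`).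
* `lg_nil`, `lg_mem`: `lg K m U` is a polynomial without constant term in the nilpotent `U - 1`.
* `ss_of_lg`: `lg K m U = (U - 1) (1 + nilpotent)`, so `lg K m U = 0` implies `U = 1`, `h = S`, and
  `Module.End.isSemisimple_of_squarefree_aeval_eq_zero`.
* `exists_proj`: `G` with `G (h) = G (S)` the projection onto the generalised eigenspace of `h`
  for `l`, i.e. the eigenspace of `S`. For instance: `P = (h.charpoly) = (X - l) ^ μ R`, `R (l) ≠ 0`
  (`h` has the same characteristic polynomial as `S`, see below), Bezout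
  `a (X - l) ^ μ + b R = 1`, `G = b R`; `G (h)` is idempotent by Cayley-Hamilton, `R ∣ G`. To see
  `G (h) ∈ Algebra.adjoin K {S}`: `S` is killed by the squarefree part of `P` (its eigenvalues are those
  of `h`); `(S - l) G (h) = 0` and `(1 - G (h)) ` is killed by `∏_{l' ≠ l} (S - l')`; so `G (h) = L (S)`
  with `L` the Lagrange polynomial, `L (l) = 1`, `L (l') = 0`. If `l` is not an eigenvalue,
  `G (h) = 0`.
  `ssAt`: if `lg K m U * G (h) = 0` then `(U - 1) G (h) = 0` (as above), so on the generalised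
  eigenspace (where `G (h) v = v`) `h v = S v = l v`.
  Here `v` with `(h - l) ^ 2 v = 0` satisfies `G (h) v = v` because `(1 - G) = a (X - l) ^ μ` and
  `μ ≥ 2` or (`μ ≤ 1` and then `(h - l) v = 0` anyway: work with `(X-l)^μ` versus `(X - l)^2`:
  `v = a (h) (h - l) ^ μ v + G (h) v`, and `(h - l) ^ μ v`, if `μ < 2`, vanishes as well since the
  kernels of `(h - l) ^ μ` and of higher powers agree).
-/

set_option autoImplicit false

namespace Pool.Agent.Helper40.ZO

open Polynomial

variable {K V : Type*} [Field K] [IsAlgClosed K] [CharZero K] [AddCommGroup V] [Module K V]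
  [FiniteDimensional K V]

omit [IsAlgClosed K] [CharZero K] in
private lemma jca_inv {h s s' : Module.End K V} (hs : s ∈ Algebra.adjoin K {h})
    (hss' : s' * s = 1) : s' ∈ Algebra.adjoin K {h} := by
  let A := Algebra.adjoin K {h}
  have hfin : FiniteDimensional K A :=
    FiniteDimensional.finiteDimensional_submodule (Subalgebra.toSubmodule A)
  let f : A →ₗ[K] A := LinearMap.mulLeft K ⟨s, hs⟩
  have hinj : Function.Injective f := by
    intro a b hab
    have h1 : s * (a : Module.End K V) = s * b := congrArg Subtype.val hab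
    apply Subtype.ext
    calc (a : Module.End K V) = s' * (s * a) := by rw [← mul_assoc, hss', one_mul]
      _ = s' * (s * b) := by rw [h1]
      _ = b := by rw [← mul_assoc, hss', one_mul]
  obtain ⟨t, ht⟩ := LinearMap.injective_iff_surjective.1 hinj 1
  have h1 : s * (t : Module.End K V) = 1 := congrArg Subtype.val ht
  have h2 : s' = t := by
    calc s' = s' * (s * t) := by rw [h1, mul_one]
      _ = t := by rw [← mul_assoc, hss', one_mul]
  rw [h2]
  exact t.2

theorem exists_JC (h : (Module.End K V)ˣ) :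
    ∃ (m : ℕ) (S U : Module.End K V), JC K m (h : Module.End K V) S U := by
  obtain ⟨n, hn, s, hs, hnil, hsemi, hsum⟩ :=
    Module.End.exists_isNilpotent_isSemisimple (K := K) (f := (h : Module.End K V))
  have hcomm : ∀ a ∈ Algebra.adjoin K {(h : Module.End K V)},
      ∀ b ∈ Algebra.adjoin K {(h : Module.End K V)}, Commute a b := by
    intro a ha b hb
    exact Algebra.commute_of_mem_adjoin_singleton_of_commute hb
      (Algebra.commute_of_mem_adjoin_self ha).symm
  have hh := Algebra.self_mem_adjoin_singleton K (h : Module.End K V)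
  -- `s` is a unit
  have hsu : IsUnit s := by
    have e : s = h - n := by rw [hsum]; abel
    have hn' : IsNilpotent (-n) := hnil.neg
    have : s = -n + (h : Module.End K V) := by rw [e]; abel
    rw [this]
    exact hn'.isUnit_add_right_of_commute h.isUnit (hcomm _ hh _ (neg_mem hn)).symm
  obtain ⟨u, hu⟩ := hsu
  set s' : Module.End K V := ((u⁻¹ : (Module.End K V)ˣ) : Module.End K V) with hs'
  have h1 : s * s' = 1 := by rw [← hu, hs']; exact u.mul_inv
  have h2 : s' * s = 1 := by rw [← hu, hs']; exact u.inv_mul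
  have hs'm := jca_inv hs h2
  have hc : Commute s' n := hcomm _ hs'm _ hn
  obtain ⟨m, hm⟩ := hnil
  have hUmem : 1 + s' * n ∈ Algebra.adjoin K {(h : Module.End K V)} :=
    add_mem (one_mem _) (mul_mem hs'm hn)
  refine ⟨m + 1, s, 1 + s' * n, Nat.succ_pos m, ?_, hcomm _ hs _ hUmem,
    ⟨minpoly K s, hsemi.minpoly_squarefree, minpoly.aeval K s⟩, ?_, hs, hUmem⟩
  · rw [mul_add, mul_one, ← mul_assoc, h1, one_mul, hsum]
    abel
  · rw [add_sub_cancel_left, hc.mul_pow, pow_succ n, hm, zero_mul, mul_zero]

omit [IsAlgClosed K] [CharZero K] [FiniteDimensional K V] in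
private lemma jca_lg (m : ℕ) (U : Module.End K V) :
    lg K m U = (U - 1) * ∑ j ∈ Finset.range m, ((-1 : K) ^ j / ((j : K) + 1)) • (U - 1) ^ j := by
  unfold lg
  rw [Finset.mul_sum]
  refine Finset.sum_congr rfl fun j _ => ?_
  rw [mul_smul_comm, pow_succ']

omit [IsAlgClosed K] [CharZero K] [FiniteDimensional K V] in
private lemma jca_comm (m : ℕ) (U : Module.End K V) :
    Commute (U - 1) (∑ j ∈ Finset.range m, ((-1 : K) ^ j / ((j : K) + 1)) • (U - 1) ^ j) :=
  Commute.sum_right _ _ _ fun j _ => ((Commute.refl _).pow_right j).smul_right _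

theorem lg_nil {m : ℕ} {U : Module.End K V} (hU : (U - 1) ^ m = 0) : IsNilpotent (lg K m U) := by
  rw [jca_lg]
  exact (jca_comm m U).isNilpotent_mul_right ⟨m, hU⟩

theorem lg_mem {m : ℕ} {h S U : Module.End K V} (hJ : JC K m h S U) :
    lg K m U ∈ Algebra.adjoin K {h} := by
  unfold lg
  refine sum_mem fun j _ => Subalgebra.smul_mem _ (pow_mem (sub_mem hJ.memU (one_mem _)) _) _

theorem ss_of_lg {m : ℕ} {h S U : Module.End K V} (hJ : JC K m h S U) (h0 : lg K m U = 0) :
    h.IsSemisimple := by
  obtain ⟨m', rfl⟩ : ∃ m', m = m' + 1 := ⟨m - 1, by have := hJ.pos; omega⟩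
  have hnil : IsNilpotent (U - 1) := ⟨m' + 1, hJ.nil⟩
  rw [jca_lg] at h0
  have hQ : IsUnit (∑ j ∈ Finset.range (m' + 1), ((-1 : K) ^ j / ((j : K) + 1)) • (U - 1) ^ j) := by
    rw [Finset.sum_range_succ']
    have e0 : (((-1 : K) ^ 0 / (((0 : ℕ) : K) + 1)) • (U - 1) ^ 0 : Module.End K V) = 1 := by simp
    rw [e0]
    apply IsNilpotent.isUnit_add_one
    have e1 : ∑ k ∈ Finset.range m', ((-1 : K) ^ (k + 1) / (((k + 1 : ℕ) : K) + 1)) •
        (U - 1) ^ (k + 1) = (U - 1) * ∑ k ∈ Finset.range m',
          ((-1 : K) ^ (k + 1) / (((k + 1 : ℕ) : K) + 1)) • (U - 1) ^ k := by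
      rw [Finset.mul_sum]
      refine Finset.sum_congr rfl fun j _ => ?_
      rw [mul_smul_comm, pow_succ' (U - 1)]
    rw [e1]
    refine Commute.isNilpotent_mul_right ?_ hnil
    exact Commute.sum_right _ _ _ fun j _ => ((Commute.refl _).pow_right j).smul_right _
  have hU : U - 1 = 0 := by
    rw [hQ.mul_left_eq_zero] at h0
    exact h0
  have hU1 : U = 1 := sub_eq_zero.1 hU
  obtain ⟨p, hp, hpS⟩ := hJ.ss
  have hhS : h = S := by rw [hJ.mul, hU1, mul_one]
  rw [hhS]
  exact Module.End.isSemisimple_of_squarefree_aeval_eq_zero hp hpS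

end Pool.Agent.Helper40.ZO
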