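import Pool.Agent.Helper40.ZO.Defs

/-!
# Semisimplicity under a normal subgroup and a complement (helper40)

* `regular`: if `V` is semisimple under the `s i` and `s i Z = χ i Z s i` then there is a `T` with
  `T s i = χ i s i T` and `Z T Z = Z`.
* `eq_zero_of_trace`: `Z T Z = Z` and `trace (Z T) = 0` imply `Z = 0` in characteristic zero.
* `sup_semisimple`: if `D` normalises `A` and `V` is semisimple under `A` and under `D` then it is
  semisimple under `A` and `D` together.
-/

set_option autoImplicit false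

namespace Pool.Agent.Helper40.ZO

open Polynomial

variable {K V : Type*} [Field K] [AddCommGroup V] [Module K V] [FiniteDimensional K V]

omit [FiniteDimensional K V] in
/-- The projection onto the first of two complementary subspaces. -/
theorem exists_projection {W W' : Submodule K V} (hc : IsCompl W W') :
    ∃ e : Module.End K V, (∀ v ∈ W, e v = v) ∧ (∀ v ∈ W', e v = 0) ∧ (∀ v, e v ∈ W) ∧
      (∀ v, v - e v ∈ W') ∧
      ∀ s : Module.End K V, (∀ v ∈ W, s v ∈ W) → (∀ v ∈ W', s v ∈ W') → s * e = e * s := by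
  let e : Module.End K V := W.subtype ∘ₗ W.projectionOnto W' hc
  have he1 : ∀ v ∈ W, e v = v := by
    intro v hv
    change ((W.projectionOnto W' hc v : W) : V) = v
    rw [Submodule.projectionOnto_apply_left hc ⟨v, hv⟩]
  have he0 : ∀ v ∈ W', e v = 0 := by
    intro v hv
    change ((W.projectionOnto W' hc v : W) : V) = 0
    rw [Submodule.projectionOnto_apply_right hc ⟨v, hv⟩]
    rfl
  have hdec : ∀ v, ∃ w ∈ W, ∃ w' ∈ W', w + w' = v := fun v =>
    Submodule.mem_sup.1 (show v ∈ W ⊔ W' by rw [hc.sup_eq_top]; trivial)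
  refine ⟨e, he1, he0, fun v => Submodule.coe_mem _, ?_, ?_⟩
  · intro v
    obtain ⟨w, hw, w', hw', rfl⟩ := hdec v
    rw [map_add, he1 w hw, he0 w' hw']
    simpa using hw'
  · intro s h1 h2
    ext v
    obtain ⟨w, hw, w', hw', rfl⟩ := hdec v
    have h5 : e (w + w') = w := by rw [map_add, he1 w hw, he0 w' hw', add_zero]
    have h6 : e (s w + s w') = s w := by
      rw [map_add, he1 _ (h1 w hw), he0 _ (h2 w' hw'), add_zero]
    rw [Module.End.mul_apply, Module.End.mul_apply, h5, map_add, h6]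

omit [FiniteDimensional K V] in
theorem regular {ι : Type*} (s : ι → Module.End K V) (χ : ι → K) (hχ : ∀ i, χ i ≠ 0)
    (hs : ActsSemisimply (Set.range s)) {Z : Module.End K V}
    (hZ : ∀ i, s i * Z = χ i • (Z * s i)) :
    ∃ T : Module.End K V, (∀ i, T * s i = χ i • (s i * T)) ∧ Z * T * Z = Z := by
  have hZ' : ∀ i v, s i (Z v) = χ i • Z (s i v) := fun i v => LinearMap.congr_fun (hZ i) v
  obtain ⟨V₁, hV₁, hc₁⟩ := hs (LinearMap.ker Z) (by
    rintro _ ⟨i, rfl⟩ v hv
    have h1 := hZ' i v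
    rw [LinearMap.mem_ker.1 hv, map_zero] at h1
    rw [LinearMap.mem_ker]
    exact (smul_eq_zero.1 h1.symm).resolve_left (hχ i))
  obtain ⟨V₂, hV₂, hc₂⟩ := hs (LinearMap.range Z) (by
    rintro _ ⟨i, rfl⟩ _ ⟨v, rfl⟩
    rw [hZ']
    exact Submodule.smul_mem _ _ ⟨_, rfl⟩)
  have hs₁ : ∀ i, ∀ v ∈ V₁, s i v ∈ V₁ := fun i => hV₁ _ ⟨i, rfl⟩
  have hs₂ : ∀ i, ∀ v ∈ V₂, s i v ∈ V₂ := fun i => hV₂ _ ⟨i, rfl⟩
  -- the inverse on the range
  have hex : ∀ w ∈ LinearMap.range Z, ∃ v ∈ V₁, Z v = w := by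
    rintro _ ⟨v, rfl⟩
    obtain ⟨a, ha, b, hb, rfl⟩ := Submodule.mem_sup.1
      (show v ∈ LinearMap.ker Z ⊔ V₁ by rw [hc₁.sup_eq_top]; trivial)
    exact ⟨b, hb, by rw [map_add, LinearMap.mem_ker.1 ha, zero_add]⟩
  have hinj : ∀ v ∈ V₁, Z v = 0 → v = 0 := by
    intro v hv h0
    have h1 : v ∈ LinearMap.ker Z ⊓ V₁ := ⟨h0, hv⟩
    rw [hc₁.inf_eq_bot] at h1
    exact h1
  let e : V₁ ≃ₗ[K] LinearMap.range Z := LinearEquiv.ofBijective
    ((Z.domRestrict V₁).codRestrict (LinearMap.range Z) fun v => ⟨v, rfl⟩) (by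
      constructor
      · rw [← LinearMap.ker_eq_bot, LinearMap.ker_eq_bot']
        rintro ⟨v, hv⟩ h0
        have h1 : Z v = 0 := congrArg Subtype.val h0
        exact Subtype.ext (hinj v hv h1)
      · rintro ⟨w, hw⟩
        obtain ⟨v, hv, rfl⟩ := hex w hw
        exact ⟨⟨v, hv⟩, rfl⟩)
  have he : ∀ v : V₁, ((e v : LinearMap.range Z) : V) = Z v := fun v => rfl
  let T : Module.End K V := V₁.subtype ∘ₗ e.symm.toLinearMap ∘ₗ
    (LinearMap.range Z).projectionOnto V₂ hc₂
  have hT1 : ∀ v ∈ V₁, T (Z v) = v := by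
    intro v hv
    have h1 : (LinearMap.range Z).projectionOnto V₂ hc₂ (Z v) = e ⟨v, hv⟩ := by
      have h2 := Submodule.projectionOnto_apply_left hc₂ (e ⟨v, hv⟩)
      rw [he] at h2
      exact h2
    change ((e.symm ((LinearMap.range Z).projectionOnto V₂ hc₂ (Z v)) : V₁) : V) = v
    rw [h1, LinearEquiv.symm_apply_apply]
  have hT2 : ∀ v ∈ V₂, T v = 0 := by
    intro v hv
    change ((e.symm ((LinearMap.range Z).projectionOnto V₂ hc₂ v) : V₁) : V) = 0
    rw [Submodule.projectionOnto_apply_right hc₂ ⟨v, hv⟩, map_zero]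
    rfl
  refine ⟨T, ?_, ?_⟩
  · intro i
    ext v
    obtain ⟨w, hw, u, hu, rfl⟩ := Submodule.mem_sup.1
      (show v ∈ LinearMap.range Z ⊔ V₂ by rw [hc₂.sup_eq_top]; trivial)
    obtain ⟨v₁, hv₁, rfl⟩ := hex w hw
    rw [Module.End.mul_apply, LinearMap.smul_apply, Module.End.mul_apply]
    simp only [map_add, hT1 v₁ hv₁, hT2 u hu, hT2 _ (hs₂ i u hu), hZ', map_smul,
      hT1 _ (hs₁ i v₁ hv₁), add_zero, map_zero]
  · ext v
    obtain ⟨a, ha, b, hb, rfl⟩ := Submodule.mem_sup.1
      (show v ∈ LinearMap.ker Z ⊔ V₁ by rw [hc₁.sup_eq_top]; trivial)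
    rw [Module.End.mul_apply, Module.End.mul_apply, map_add, LinearMap.mem_ker.1 ha, zero_add,
      hT1 b hb]

theorem eq_zero_of_trace [CharZero K] {Z T : Module.End K V} (h : Z * T * Z = Z)
    (h0 : LinearMap.trace K V (Z * T) = 0) : Z = 0 := by
  have hid : IsIdempotentElem (Z * T) := by
    change Z * T * (Z * T) = Z * T
    rw [← mul_assoc, h]
  have h1 := LinearMap.IsIdempotentElem.isProj_range (Z * T) hid
  have h2 := h1.trace
  rw [h0] at h2
  have h3 : Module.finrank K (LinearMap.range (Z * T)) = 0 := by exact_mod_cast h2.symm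
  have h4 : LinearMap.range (Z * T) = ⊥ := Submodule.finrank_eq_zero.1 h3
  have h5 : Z * T = 0 := LinearMap.range_eq_bot.1 h4
  rw [← h, h5, zero_mul]

/-- The commutant. -/
def commutant {G : Type*} [Group G] (ρ : G →* Module.End K V) (A : Subgroup G) :
    Submodule K (Module.End K V) where
  carrier := {X | ∀ a ∈ A, ρ a * X = X * ρ a}
  add_mem' := by
    intro X Y hX hY a ha
    rw [mul_add, add_mul, hX a ha, hY a ha]
  zero_mem' := by intro a _; rw [mul_zero, zero_mul]
  smul_mem' := by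
    intro c X hX a ha
    rw [mul_smul_comm, smul_mul_assoc, hX a ha]

theorem trace_comm3 (X Y Z : Module.End K V) :
    LinearMap.trace K V (X * Y * Z) = LinearMap.trace K V (Z * X * Y) := by
  rw [LinearMap.trace_mul_comm, mul_assoc]

/-- The trace form on the commutant is nondegenerate. -/
theorem commutant_nondeg [CharZero K] {G : Type*} [Group G] (ρ : G →* Module.End K V)
    {A : Subgroup G} (hA : ActsSemisimply (ρ '' (A : Set G))) {Z : Module.End K V}
    (hZ : Z ∈ commutant ρ A) (h : ∀ Y ∈ commutant ρ A, LinearMap.trace K V (Z * Y) = 0) :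
    Z = 0 := by
  have hr : Set.range (fun a : A => ρ a) = ρ '' (A : Set G) := by
    ext X
    constructor
    · rintro ⟨a, rfl⟩; exact ⟨a, a.2, rfl⟩
    · rintro ⟨a, ha, rfl⟩; exact ⟨⟨a, ha⟩, rfl⟩
  obtain ⟨T, hT, hZT⟩ := regular (fun a : A => ρ a) (fun _ => (1 : K)) (fun _ => one_ne_zero)
    (by rw [hr]; exact hA) (Z := Z) (fun a => by rw [one_smul]; exact hZ a a.2)
  refine eq_zero_of_trace hZT (h T ?_)
  intro a ha
  have h1 := hT ⟨a, ha⟩
  rw [one_smul] at h1
  exact h1.symm

/-- The projection onto the commutant. -/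
theorem exists_trace_proj [CharZero K] {G : Type*} [Group G] (ρ : G →* Module.End K V)
    {A : Subgroup G} (hA : ActsSemisimply (ρ '' (A : Set G))) (X : Module.End K V) :
    ∃ c ∈ commutant ρ A, ∀ Y ∈ commutant ρ A,
      LinearMap.trace K V (c * Y) = LinearMap.trace K V (X * Y) := by
  let C := commutant ρ A
  let B : C →ₗ[K] Module.Dual K C :=
    { toFun := fun Z =>
        { toFun := fun Y => LinearMap.trace K V ((Z : Module.End K V) * (Y : Module.End K V))
          map_add' := fun Y Y' => by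
            rw [Submodule.coe_add, mul_add, map_add]
          map_smul' := fun r Y => by
            rw [Submodule.coe_smul, mul_smul_comm, map_smul, RingHom.id_apply] }
      map_add' := fun Z Z' => by
        ext Y
        change LinearMap.trace K V (((Z + Z' : C) : Module.End K V) * (Y : Module.End K V)) = _
        rw [Submodule.coe_add, add_mul, map_add]
        rfl
      map_smul' := fun r Z => by
        ext Y
        change LinearMap.trace K V (((r • Z : C) : Module.End K V) * (Y : Module.End K V)) = _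
        rw [Submodule.coe_smul, smul_mul_assoc, map_smul]
        rfl }
  have hinj : Function.Injective B := by
    rw [← LinearMap.ker_eq_bot, LinearMap.ker_eq_bot']
    intro Z hZ
    apply Subtype.ext
    refine commutant_nondeg ρ hA Z.2 ?_
    intro Y hY
    exact LinearMap.congr_fun hZ ⟨Y, hY⟩
  have hsurj : Function.Surjective B :=
    (LinearMap.injective_iff_surjective_of_finrank_eq_finrank
      (Subspace.dual_finrank_eq (K := K) (V := C)).symm).1 hinj
  obtain ⟨c, hc⟩ := hsurj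
    { toFun := fun Y => LinearMap.trace K V (X * (Y : Module.End K V))
      map_add' := fun Y Y' => by rw [Submodule.coe_add, mul_add, map_add]
      map_smul' := fun r Y => by
        rw [Submodule.coe_smul, mul_smul_comm, map_smul, RingHom.id_apply] }
  exact ⟨c, c.2, fun Y hY => LinearMap.congr_fun hc ⟨Y, hY⟩⟩

/-- If `D` normalises `A` and `V` is semisimple under `A` and under `D`, then every subspace stable
under `A` and `D` has a complement stable under `A` and `D`. -/
theorem sup_semisimple [CharZero K] {G : Type*} [Group G] (ρ : G →* Module.End K V)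
    {A D : Subgroup G} (hAD : ∀ d ∈ D, ∀ a ∈ A, d * a * d⁻¹ ∈ A)
    (hA : ActsSemisimply (ρ '' (A : Set G))) (hD : ActsSemisimply (ρ '' (D : Set G)))
    {W : Submodule K V} (hWA : Stable (ρ '' (A : Set G)) W)
    (hWD : Stable (ρ '' (D : Set G)) W) :
    ∃ W' : Submodule K V, Stable (ρ '' (A : Set G)) W' ∧ Stable (ρ '' (D : Set G)) W' ∧
      IsCompl W W' := by
  have hinv : ∀ g : G, ρ g * ρ g⁻¹ = 1 := fun g => by rw [← map_mul, mul_inv_cancel, map_one]
  have hinv' : ∀ g : G, ρ g⁻¹ * ρ g = 1 := fun g => by rw [← map_mul, inv_mul_cancel, map_one]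
  obtain ⟨W₁, hW₁, hc₁⟩ := hA W hWA
  obtain ⟨W₂, hW₂, hc₂⟩ := hD W hWD
  obtain ⟨e, he1, he0, heW, -, hecomm⟩ := exists_projection hc₁
  obtain ⟨p, hp1, hp0, hpW, -, hpcomm⟩ := exists_projection hc₂
  have heC : e ∈ commutant ρ A := by
    intro a ha
    exact hecomm _ (hWA _ ⟨a, ha, rfl⟩) (hW₁ _ ⟨a, ha, rfl⟩)
  have hpD : ∀ d ∈ D, ρ d * p = p * ρ d := by
    intro d hd
    exact hpcomm _ (hWD _ ⟨d, hd, rfl⟩) (hW₂ _ ⟨d, hd, rfl⟩)
  have hep : e * p = p := by
    ext v
    exact he1 _ (hpW v)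
  have hpe : p * e = e := by
    ext v
    exact hp1 _ (heW v)
  obtain ⟨c, hc, hcp⟩ := exists_trace_proj ρ hA p
  have hmul : ∀ X ∈ commutant ρ A, ∀ Y ∈ commutant ρ A, X * Y ∈ commutant ρ A := by
    intro X hX Y hY a ha
    rw [← mul_assoc, hX a ha, mul_assoc, hY a ha, mul_assoc]
  have huniq : ∀ X ∈ commutant ρ A, ∀ X' ∈ commutant ρ A, (∀ Y ∈ commutant ρ A,
      LinearMap.trace K V (X * Y) = LinearMap.trace K V (X' * Y)) → X = X' := by
    intro X hX X' hX' h
    refine sub_eq_zero.1 (commutant_nondeg ρ hA (Submodule.sub_mem _ hX hX') ?_)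
    intro Y hY
    rw [sub_mul, map_sub, h Y hY, sub_self]
  have hec : e * c = c := by
    refine huniq _ (hmul _ heC _ hc) _ hc ?_
    intro Y hY
    rw [mul_assoc, LinearMap.trace_mul_comm, mul_assoc, hcp _ (hmul _ hY _ heC), ← mul_assoc,
      trace_comm3, hep, hcp Y hY]
  have hce : c * e = e := by
    refine huniq _ (hmul _ hc _ heC) _ heC ?_
    intro Y hY
    rw [mul_assoc, hcp _ (hmul _ heC _ hY), ← mul_assoc, hpe]
  have hcD : ∀ d ∈ D, ρ d * c = c * ρ d := by
    intro d hd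
    have h1 : ∀ d ∈ D, ∀ X ∈ commutant ρ A, ρ d * X * ρ d⁻¹ ∈ commutant ρ A := by
      intro d hd X hX a ha
      have h2 : d⁻¹ * a * d ∈ A := by
        have := hAD d⁻¹ (D.inv_mem hd) a ha
        rwa [inv_inv] at this
      have h3 : ρ a * ρ d = ρ d * ρ (d⁻¹ * a * d) := by
        rw [← map_mul, ← map_mul]
        congr 1
        group
      have h4 : ρ d⁻¹ * ρ a = ρ (d⁻¹ * a * d) * ρ d⁻¹ := by
        rw [← map_mul, ← map_mul]
        congr 1
        group
      calc ρ a * (ρ d * X * ρ d⁻¹) = (ρ a * ρ d) * X * ρ d⁻¹ := by simp only [mul_assoc]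
        _ = ρ d * (ρ (d⁻¹ * a * d) * X) * ρ d⁻¹ := by rw [h3]; simp only [mul_assoc]
        _ = ρ d * X * (ρ (d⁻¹ * a * d) * ρ d⁻¹) := by rw [hX _ h2]; simp only [mul_assoc]
        _ = ρ d * X * ρ d⁻¹ * ρ a := by rw [← h4]; simp only [mul_assoc]
    have h5 : ρ d * c * ρ d⁻¹ = c := by
      refine huniq _ (h1 d hd c hc) _ hc ?_
      intro Y hY
      have h6 : ρ d⁻¹ * Y * ρ d ∈ commutant ρ A := by
        have := h1 d⁻¹ (D.inv_mem hd) Y hY
        rwa [inv_inv] at this
      have h7 : LinearMap.trace K V (ρ d * c * ρ d⁻¹ * Y) =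
          LinearMap.trace K V (c * (ρ d⁻¹ * Y * ρ d)) := by
        rw [show ρ d * c * ρ d⁻¹ * Y = ρ d * (c * (ρ d⁻¹ * Y)) by simp only [mul_assoc],
          LinearMap.trace_mul_comm]
        simp only [mul_assoc]
      have h8 : LinearMap.trace K V (p * (ρ d⁻¹ * Y * ρ d)) = LinearMap.trace K V (p * Y) := by
        rw [show p * (ρ d⁻¹ * Y * ρ d) = (p * ρ d⁻¹ * Y) * ρ d by simp only [mul_assoc],
          LinearMap.trace_mul_comm]
        rw [show ρ d * (p * ρ d⁻¹ * Y) = (ρ d * p) * ρ d⁻¹ * Y by simp only [mul_assoc],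
          hpD d hd, mul_assoc p, hinv, mul_one]
      rw [h7, hcp _ h6, h8, hcp Y hY]
    calc ρ d * c = ρ d * c * (ρ d⁻¹ * ρ d) := by rw [hinv', mul_one]
      _ = ρ d * c * ρ d⁻¹ * ρ d := by simp only [mul_assoc]
      _ = c * ρ d := by rw [h5]
  have hcW : ∀ v, c v ∈ W := by
    intro v
    have h1 := LinearMap.congr_fun hec v
    rw [Module.End.mul_apply] at h1
    rw [← h1]
    exact heW _
  have hc1 : ∀ v ∈ W, c v = v := by
    intro v hv
    have h1 := LinearMap.congr_fun hce v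
    rw [Module.End.mul_apply, he1 v hv] at h1
    exact h1
  refine ⟨LinearMap.ker c, ?_, ?_, ?_⟩
  · rintro _ ⟨a, ha, rfl⟩ v hv
    rw [LinearMap.mem_ker] at hv ⊢
    have h1 := LinearMap.congr_fun (hc a ha) v
    rw [Module.End.mul_apply, Module.End.mul_apply, hv, map_zero] at h1
    exact h1.symm
  · rintro _ ⟨d, hd, rfl⟩ v hv
    rw [LinearMap.mem_ker] at hv ⊢
    have h1 := LinearMap.congr_fun (hcD d hd) v
    rw [Module.End.mul_apply, Module.End.mul_apply, hv, map_zero] at h1
    exact h1.symm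
  · rw [isCompl_iff, disjoint_iff, codisjoint_iff]
    constructor
    · rw [eq_bot_iff]
      rintro v ⟨hv1, hv2⟩
      rw [Submodule.mem_bot, ← hc1 v hv1]
      exact hv2
    · rw [eq_top_iff]
      intro v _
      have h1 : v = c v + (v - c v) := by abel
      rw [h1]
      refine Submodule.add_mem_sup (hcW v) ?_
      rw [LinearMap.mem_ker, map_sub, hc1 _ (hcW v), sub_self]

end Pool.Agent.Helper40.ZO
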