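import Pool.Agent.Helper40.ZO.Cliff
import Pool.Agent.Helper40.ZO.Sum

/-!
# Semisimplicity and subgroups of finite index (helper40)
-/

set_option autoImplicit false

namespace Pool.Agent.Helper40.ZO

open Polynomial

variable {K V : Type*} [Field K] [AddCommGroup V] [Module K V] [FiniteDimensional K V]

omit [FiniteDimensional K V] in
/-- Semisimplicity under a subgroup of finite index implies semisimplicity. -/
theorem maschke [CharZero K] {G : Type*} [Group G] (ρ : G →* Module.End K V) {B H : Subgroup G}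
    (hBH : B ≤ H) (hfin : (B.subgroupOf H).FiniteIndex)
    (hB : ActsSemisimply (ρ '' (B : Set G))) : ActsSemisimply (ρ '' (H : Set G)) := by
  classical
  have hinv : ∀ g : G, ρ g * ρ g⁻¹ = 1 := fun g => by rw [← map_mul, mul_inv_cancel, map_one]
  have hinv' : ∀ g : G, ρ g⁻¹ * ρ g = 1 := fun g => by rw [← map_mul, inv_mul_cancel, map_one]
  intro W hW
  have hWH : ∀ g ∈ H, ∀ v ∈ W, ρ g v ∈ W := fun g hg => hW _ ⟨g, hg, rfl⟩
  obtain ⟨W₁, hW₁, hc₁⟩ := hB W (by
    rintro _ ⟨b, hb, rfl⟩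
    exact hWH b (hBH hb))
  obtain ⟨e, he1, he0, heW, -, hecomm⟩ := exists_projection hc₁
  have heB : ∀ b ∈ B, ρ b * e = e * ρ b := fun b hb =>
    hecomm _ (hWH b (hBH hb)) (hW₁ _ ⟨b, hb, rfl⟩)
  haveI : Finite (H ⧸ B.subgroupOf H) := Subgroup.finite_quotient_of_finiteIndex
  haveI : Fintype (H ⧸ B.subgroupOf H) := Fintype.ofFinite _
  let f : H ⧸ B.subgroupOf H → Module.End K V := Quotient.lift
    (fun h : H => ρ h * e * ρ (h : G)⁻¹) (by
      intro h₁ h₂ h12
      have h3 : h₁⁻¹ * h₂ ∈ B.subgroupOf H := QuotientGroup.leftRel_apply.1 h12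
      have h4 : (h₁ : G)⁻¹ * h₂ ∈ B := h3
      obtain ⟨b, hb, h5⟩ : ∃ b ∈ B, (h₂ : G) = h₁ * b := ⟨_, h4, by group⟩
      change ρ h₁ * e * ρ (h₁ : G)⁻¹ = ρ h₂ * e * ρ (h₂ : G)⁻¹
      rw [h5, mul_inv_rev, map_mul, map_mul]
      calc ρ (h₁ : G) * e * ρ (h₁ : G)⁻¹
          = ρ (h₁ : G) * (e * (ρ b * ρ b⁻¹)) * ρ (h₁ : G)⁻¹ := by rw [hinv, mul_one]
        _ = ρ (h₁ : G) * ((ρ b * e) * ρ b⁻¹) * ρ (h₁ : G)⁻¹ := by rw [← mul_assoc e, heB b hb]
        _ = _ := by simp only [mul_assoc])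
  have hf : ∀ h : H, f (h : H ⧸ B.subgroupOf H) = ρ h * e * ρ (h : G)⁻¹ := fun h => rfl
  have hfW : ∀ q v, f q v ∈ W := by
    intro q v
    obtain ⟨h, rfl⟩ := QuotientGroup.mk_surjective q
    rw [hf]
    exact hWH h h.2 _ (heW _)
  have hf1 : ∀ q, ∀ v ∈ W, f q v = v := by
    intro q v hv
    obtain ⟨h, rfl⟩ := QuotientGroup.mk_surjective q
    rw [hf, Module.End.mul_apply, Module.End.mul_apply, he1 _ (hWH _ (H.inv_mem h.2) v hv)]
    have h1 := LinearMap.congr_fun (hinv (h : G)) v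
    rwa [Module.End.mul_apply] at h1
  have hfg : ∀ (g : H) (q : H ⧸ B.subgroupOf H), ρ g * f q * ρ (g : G)⁻¹ = f (g • q) := by
    intro g q
    obtain ⟨h, rfl⟩ := QuotientGroup.mk_surjective q
    have h1 : (g • (h : H ⧸ B.subgroupOf H)) = ((g * h : H) : H ⧸ B.subgroupOf H) := rfl
    rw [h1, hf, hf, Subgroup.coe_mul, mul_inv_rev, map_mul, map_mul]
    simp only [mul_assoc]
  have hn0 : ((Fintype.card (H ⧸ B.subgroupOf H) : ℕ) : K) ≠ 0 := by
    have : Fintype.card (H ⧸ B.subgroupOf H) ≠ 0 := Fintype.card_ne_zero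
    exact_mod_cast this
  obtain ⟨c, hcdef⟩ : ∃ c : Module.End K V, c =
    ((Fintype.card (H ⧸ B.subgroupOf H) : ℕ) : K)⁻¹ • ∑ q, f q := ⟨_, rfl⟩
  have hcapp : ∀ v, c v = ((Fintype.card (H ⧸ B.subgroupOf H) : ℕ) : K)⁻¹ • ∑ q, f q v := by
    intro v
    rw [hcdef, LinearMap.smul_apply, LinearMap.sum_apply]
  have hcW : ∀ v, c v ∈ W := by
    intro v
    rw [hcapp]
    exact W.smul_mem _ (W.sum_mem fun q _ => hfW q v)
  have hc1 : ∀ v ∈ W, c v = v := by
    intro v hv
    rw [hcapp, Finset.sum_congr rfl fun q _ => hf1 q v hv, Finset.sum_const, Finset.card_univ,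
      ← Nat.cast_smul_eq_nsmul K, smul_smul, inv_mul_cancel₀ hn0, one_smul]
  have hcg : ∀ g ∈ H, ρ g * c = c * ρ g := by
    intro g hg
    have h1 : ρ g * c * ρ g⁻¹ = c := by
      rw [hcdef, mul_smul_comm, smul_mul_assoc, Finset.mul_sum, Finset.sum_mul]
      congr 1
      rw [Finset.sum_congr rfl fun q _ => hfg ⟨g, hg⟩ q]
      exact Fintype.sum_equiv (MulAction.toPerm (⟨g, hg⟩ : H)) _ _ fun q => rfl
    calc ρ g * c = ρ g * c * (ρ g⁻¹ * ρ g) := by rw [hinv', mul_one]
      _ = ρ g * c * ρ g⁻¹ * ρ g := by simp only [mul_assoc]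
      _ = c * ρ g := by rw [h1]
  refine ⟨LinearMap.ker c, ?_, ?_⟩
  · rintro _ ⟨g, hg, rfl⟩ v hv
    rw [LinearMap.mem_ker] at hv ⊢
    have h1 := LinearMap.congr_fun (hcg g hg) v
    rw [Module.End.mul_apply, Module.End.mul_apply, hv, map_zero] at h1
    exact h1.symm
  · rw [isCompl_iff, disjoint_iff, codisjoint_iff]
    constructor
    · rw [eq_bot_iff]
      rintro v ⟨hv1, hv2⟩
      rw [Submodule.mem_bot, ← hc1 v hv1]
      exact hv2
    · rw [eq_top_iff]
      intro v _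
      have h1 : v = c v + (v - c v) := by abel
      rw [h1]
      refine Submodule.add_mem_sup (hcW v) ?_
      rw [LinearMap.mem_ker, map_sub, hc1 _ (hcW v), sub_self]

/-- Semisimplicity is inherited by subgroups of finite index. -/
theorem finiteIndex_semisimple [CharZero K] {G : Type*} [Group G] (ρ : G →* Module.End K V)
    {H : Subgroup G} [H.FiniteIndex] (hG : ActsSemisimply (ρ '' (Set.univ : Set G))) :
    ActsSemisimply (ρ '' (H : Set G)) := by
  have hn : H.normalCore.Normal := inferInstance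
  have h1 : ActsSemisimply (ρ '' (H.normalCore : Set G)) :=
    clifford ρ (A := ⊤) le_top (fun a _ b hb => hn.conj_mem b hb a)
      (by rw [Subgroup.coe_top]; exact hG)
  refine maschke ρ (Subgroup.normalCore_le H) ?_ h1
  infer_instance

omit [FiniteDimensional K V] in
/-- A subspace stable under a set of group elements is stable under its closure. -/
theorem stable_closure {P : Type*} [Group P] [TopologicalSpace P] [TopologicalSpace K] [T2Space K]
    (ρ : P →* Module.End K V)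
    (hρ : ∀ (v : V) (f : Module.Dual K V), Continuous fun x => f (ρ x v))
    {S : Set P} {W : Submodule K V} (hW : Stable (ρ '' S) W) :
    Stable (ρ '' closure S) W := by
  rintro _ ⟨x, hx, rfl⟩ v hv
  by_contra hcon
  obtain ⟨f, hf1, hf2⟩ := Submodule.exists_le_ker_of_notMem hcon
  apply hf1
  have hclosed : IsClosed {y : P | f (ρ y v) = 0} := isClosed_singleton.preimage (hρ v f)
  have hsub : S ⊆ {y : P | f (ρ y v) = 0} := by
    intro y hy
    exact hf2 (hW _ ⟨y, hy, rfl⟩ v hv)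
  exact closure_minimal hsub hclosed hx

end Pool.Agent.Helper40.ZO
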