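import Pool.Agent.Helper40.ZO.Dens
import Pool.Agent.Helper40.ZO.Fidx

/-!
# Irreducible cosets (helper40)

* `exists_irr`: for a continuous representation of a profinite group there is an open normal subgroup
  `Γ₀` such that for all open `Γ ≤ Γ₀` the polynomial functions on `Γ` form a domain.
* `finite_sup`: if `B₀ ≤ C`, `C` normal, `C / B₀` finite then `B₀ ⊔ Z` has finite index in `C ⊔ Z`.
-/

set_option autoImplicit false

namespace Pool.Agent.Helper40.ZO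

open MeasureTheory

theorem exists_irr {P : Type*} [Group P] [TopologicalSpace P] [IsTopologicalGroup P]
    [CompactSpace P] [TotallyDisconnectedSpace P] {K : Type*} [Field K] [TopologicalSpace K]
    [IsTopologicalRing K] [T2Space K] {n : ℕ} (ρ : P →* Mat n K) (hρ : Continuous ρ) :
    ∃ Γ₀ : Subgroup P, Γ₀.Normal ∧ IsOpen (Γ₀ : Set P) ∧
      ∀ Γ : Subgroup P, IsOpen (Γ : Set P) → Γ ≤ Γ₀ →
        ∀ f g : MvPolynomial (Fin n × Fin n) K,
          (∀ γ ∈ Γ, val (ρ γ) f = 0 ∨ val (ρ γ) g = 0) →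
          (∀ γ ∈ Γ, val (ρ γ) f = 0) ∨ ∀ γ ∈ Γ, val (ρ γ) g = 0 := by
  obtain ⟨Γ₀, hn, ho, hmin⟩ := exists_min ρ
  refine ⟨Γ₀, hn, ho, ?_⟩
  intro Γ hΓ hle f g hfg
  borelize P
  let μ : Measure P := Measure.haarMeasure ⊤
  by_contra hcon
  push Not at hcon
  obtain ⟨⟨a, ha, hfa⟩, ⟨b, hb, hgb⟩⟩ := hcon
  have hprod : ∀ γ ∈ Γ₀, val (ρ γ) (f * g) = 0 := by
    refine hmin Γ hΓ hle (f * g) ?_
    intro γ hγ
    have h1 : val (ρ γ) (f * g) = val (ρ γ) f * val (ρ γ) g := by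
      unfold val
      rw [map_mul]
    rw [h1]
    rcases hfg γ hγ with h | h
    · rw [h, zero_mul]
    · rw [h, mul_zero]
  have h1 := null_of_poly μ ρ hρ ho hmin (D := f) (x₀ := a) hfa
  have h2 := null_of_poly μ ρ hρ ho hmin (D := g) (x₀ := b) hgb
  have h3 : (Γ₀ : Set P) ⊆ {x | x * a⁻¹ ∈ Γ₀ ∧ val (ρ x) f = 0} ∪
      {x | x * b⁻¹ ∈ Γ₀ ∧ val (ρ x) g = 0} := by
    intro x hx
    have h4 := hprod x hx
    have h5 : val (ρ x) (f * g) = val (ρ x) f * val (ρ x) g := by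
      unfold val
      rw [map_mul]
    rw [h5] at h4
    rcases mul_eq_zero.1 h4 with h | h
    · exact Or.inl ⟨Γ₀.mul_mem hx (Γ₀.inv_mem (hle ha)), h⟩
    · exact Or.inr ⟨Γ₀.mul_mem hx (Γ₀.inv_mem (hle hb)), h⟩
  have h4 : μ (Γ₀ : Set P) = 0 := measure_mono_null h3 (measure_union_null h1 h2)
  exact (ho.measure_pos μ ⟨1, Γ₀.one_mem⟩).ne' h4

theorem finite_sup {G : Type*} [Group G] {B₀ C Z : Subgroup G} [hC : C.Normal] (hle : B₀ ≤ C)
    (hfin : (B₀.subgroupOf C).FiniteIndex) :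
    ((B₀ ⊔ Z).subgroupOf (C ⊔ Z)).FiniteIndex := by
  haveI : Finite (C ⧸ B₀.subgroupOf C) := Subgroup.finite_quotient_of_finiteIndex
  let φ : C ⧸ B₀.subgroupOf C → ((C ⊔ Z : Subgroup G) ⧸ (B₀ ⊔ Z).subgroupOf (C ⊔ Z)) :=
    Quotient.lift (fun c : C =>
      ((⟨c, le_sup_left (a := C) c.2⟩ : (C ⊔ Z : Subgroup G)) :
        (C ⊔ Z : Subgroup G) ⧸ (B₀ ⊔ Z).subgroupOf (C ⊔ Z))) (by
      intro c₁ c₂ h12
      have h3 : c₁⁻¹ * c₂ ∈ B₀.subgroupOf C := QuotientGroup.leftRel_apply.1 h12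
      have h4 : (c₁ : G)⁻¹ * c₂ ∈ B₀ := h3
      refine QuotientGroup.eq.2 ?_
      change (c₁ : G)⁻¹ * c₂ ∈ B₀ ⊔ Z
      exact le_sup_left (a := B₀) h4)
  have hφ : Function.Surjective φ := by
    intro q
    obtain ⟨⟨y, hy⟩, rfl⟩ := QuotientGroup.mk_surjective q
    obtain ⟨c, hc, z, hz, rfl⟩ := Subgroup.mem_sup_of_normal_left.1 hy
    refine ⟨((⟨c, hc⟩ : C) : C ⧸ B₀.subgroupOf C), ?_⟩
    change ((⟨c, le_sup_left (a := C) hc⟩ : (C ⊔ Z : Subgroup G)) :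
        (C ⊔ Z : Subgroup G) ⧸ (B₀ ⊔ Z).subgroupOf (C ⊔ Z)) = _
    refine QuotientGroup.eq.2 ?_
    change c⁻¹ * (c * z) ∈ B₀ ⊔ Z
    rw [inv_mul_cancel_left]
    exact le_sup_right (b := Z) hz
  haveI := Finite.of_surjective φ hφ
  exact Subgroup.finiteIndex_of_finite_quotient

/-- Semisimplicity is inherited by subgroups of finite index (relative form). -/
theorem finiteIndex_semisimple' {K V : Type*} [Field K] [CharZero K] [AddCommGroup V] [Module K V]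
    [FiniteDimensional K V] {G : Type*} [Group G] (ρ : G →* Module.End K V)
    {H Q : Subgroup G} (hHQ : H ≤ Q) (hfin : (H.subgroupOf Q).FiniteIndex)
    (hQ : ActsSemisimply (ρ '' (Q : Set G))) :
    ActsSemisimply (ρ '' (H : Set G)) := by
  have h1 : (ρ.comp Q.subtype) '' (Set.univ : Set Q) = ρ '' (Q : Set G) := by
    ext X
    constructor
    · rintro ⟨q, -, rfl⟩
      exact ⟨q, q.2, rfl⟩
    · rintro ⟨q, hq, rfl⟩
      exact ⟨⟨q, hq⟩, Set.mem_univ _, rfl⟩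
  have h2 : (ρ.comp Q.subtype) '' (H.subgroupOf Q : Set Q) = ρ '' (H : Set G) := by
    ext X
    constructor
    · rintro ⟨q, hq, rfl⟩
      exact ⟨q, hq, rfl⟩
    · rintro ⟨q, hq, rfl⟩
      exact ⟨⟨q, hHQ hq⟩, hq, rfl⟩
  have h3 := finiteIndex_semisimple (ρ.comp Q.subtype) (H := H.subgroupOf Q) (by rw [h1]; exact hQ)
  rwa [h2] at h3

end Pool.Agent.Helper40.ZO
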