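import Pool.Agent.Helper40.ZO.Fin3
import Pool.Agent.Helper40.ZO.Irr

/-!
# The semisimple elements of a coset are Zariski dense (helper40)
-/

set_option autoImplicit false

namespace Pool.Agent.Helper40.ZO

open Polynomial

section Poly

variable {K : Type*} [Field K]

/-- The value at `M B` is a polynomial in `M`. -/
theorem exists_val_right {n : ℕ} (B : Mat n K) (f : MvPolynomial (Fin n × Fin n) K) :
    ∃ g : MvPolynomial (Fin n × Fin n) K, ∀ M : Mat n K, val M g = val (M * B) f := by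
  refine ⟨MvPolynomial.bind₁ (fun k => ∑ j, MvPolynomial.X (k.1, j) *
    MvPolynomial.C (B j k.2)) f, fun M => ?_⟩
  unfold val
  rw [← MvPolynomial.coe_aeval_eq_eval, ← MvPolynomial.coe_aeval_eq_eval, RingHom.coe_coe,
    RingHom.coe_coe, MvPolynomial.aeval_bind₁]
  congr 2
  funext k
  simp [Matrix.mul_apply]

/-- Determinants of matrices of polynomials in the entries. -/
theorem exists_val_det {n r : ℕ} (F : Mat n K → Matrix (Fin r) (Fin r) K)
    (hF : ∀ i j, ∃ g : MvPolynomial (Fin n × Fin n) K, ∀ M, val M g = F M i j) :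
    ∃ g : MvPolynomial (Fin n × Fin n) K, ∀ M, val M g = (F M).det := by
  choose g hg using hF
  refine ⟨(Matrix.of fun i j => g i j).det, fun M => ?_⟩
  unfold val
  rw [RingHom.map_det]
  congr 1
  ext i j
  simp only [RingHom.mapMatrix_apply, Matrix.map_apply, Matrix.of_apply]
  exact hg i j M

/-- A linear form applied to a power is a polynomial in the entries. -/
theorem exists_val_pow {n : ℕ} (φ : Mat n K →ₗ[K] K) (k : ℕ) :
    ∃ g : MvPolynomial (Fin n × Fin n) K, ∀ M, val M g = φ (M ^ k) := by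
  refine ⟨∑ i, ∑ j, MvPolynomial.C (φ (Matrix.single i j 1)) *
    ((Matrix.mvPolynomialX (Fin n) (Fin n) K) ^ k) i j, fun M => ?_⟩
  unfold val
  have h1 : ((Matrix.mvPolynomialX (Fin n) (Fin n) K) ^ k).map
      (MvPolynomial.eval (fun k : Fin n × Fin n => M k.1 k.2)) = M ^ k := by
    rw [← RingHom.mapMatrix_apply, map_pow, RingHom.mapMatrix_apply]
    congr 1
    ext i j
    simp [Matrix.mvPolynomialX]
  rw [map_sum]
  conv_rhs => rw [Matrix.matrix_eq_sum_single (M ^ k), map_sum]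
  refine Finset.sum_congr rfl fun i _ => ?_
  rw [map_sum, map_sum]
  refine Finset.sum_congr rfl fun j _ => ?_
  rw [map_mul, MvPolynomial.eval_C, ← h1, Matrix.map_apply]
  have h2 : Matrix.single i j ((MvPolynomial.eval fun k : Fin n × Fin n => M k.1 k.2)
      (((Matrix.mvPolynomialX (Fin n) (Fin n) K) ^ k) i j)) =
      ((MvPolynomial.eval fun k : Fin n × Fin n => M k.1 k.2)
      (((Matrix.mvPolynomialX (Fin n) (Fin n) K) ^ k) i j)) • (Matrix.single i j (1 : K)) := by
    rw [Matrix.smul_single, smul_eq_mul, mul_one]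
  rw [h2, map_smul, smul_eq_mul, mul_comm]

end Poly

variable {K V : Type*} [Field K] [IsAlgClosed K] [CharZero K] [AddCommGroup V] [Module K V]
  [FiniteDimensional K V]

/-- The semisimple elements of the coset `B x` are Zariski dense. -/
theorem dense_ss {P : Type*} [Group P] [TopologicalSpace P] [IsTopologicalGroup P]
    [CompactSpace P] [TotallyDisconnectedSpace P] [TopologicalSpace K] [IsTopologicalRing K]
    [T2Space K] (ρ : P →* Module.End K V)
    (hρ : ∀ (v : V) (f : Module.Dual K V), Continuous fun x => f (ρ x v))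
    (hP : ActsSemisimply (ρ '' (Set.univ : Set P))) {B : Subgroup P} [hBn : B.Normal] {x : P}
    (hopen : IsOpen ((B ⊔ Subgroup.zpowers x).topologicalClosure : Set P)) {n : ℕ}
    (b : Module.Basis (Fin n) K V) (E : MvPolynomial (Fin n × Fin n) K)
    (hE : val (LinearMap.toMatrix b b (ρ x)) E ≠ 0) :
    ∃ g ∈ B, (ρ (g * x)).IsSemisimple ∧ val (LinearMap.toMatrix b b (ρ (g * x))) E ≠ 0 := by
  classical
  let ρ' : P →* Mat n K := (LinearMap.toMatrixAlgEquiv b : Module.End K V →* Mat n K).comp ρ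
  have hρ'x : ∀ x, ρ' x = LinearMap.toMatrix b b (ρ x) := fun x => rfl
  have hρ'c : Continuous ρ' := by
    refine continuous_matrix fun i j => ?_
    have h1 : (fun x => ρ' x i j) = fun x => (b.coord i) (ρ x (b j)) := by
      funext x
      rw [hρ'x, LinearMap.toMatrix_apply]
      rfl
    rw [h1]
    exact hρ _ _
  have hnum : ∀ x, numEig (ρ x) = numEigM (ρ' x) := by
    intro x
    unfold numEig numEigM
    rw [hρ'x, LinearMap.charpoly_toMatrix]
  have hvalc : ∀ f : MvPolynomial (Fin n × Fin n) K, Continuous fun y => val (ρ' y) f := by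
    intro f
    have h1 : Continuous fun x : P => (fun k : Fin n × Fin n => ρ' x k.1 k.2) :=
      continuous_pi fun k => hρ'c.matrix_elem k.1 k.2
    exact (MvPolynomial.continuous_eval f).comp h1
  -- the closure of `B`
  obtain ⟨C, hCdef⟩ : ∃ C : Subgroup P, C = B.topologicalClosure := ⟨_, rfl⟩
  have hCn : C.Normal := by
    rw [hCdef]
    exact Subgroup.is_normal_topologicalClosure B
  have hBC : B ≤ C := by
    rw [hCdef]
    exact Subgroup.le_topologicalClosure B
  have hCcl : (C : Set P) = closure (B : Set P) := by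
    rw [hCdef, Subgroup.topologicalClosure_coe]
  have hCclosed : IsClosed (C : Set P) := by
    rw [hCcl]
    exact isClosed_closure
  haveI : CompactSpace C := isCompact_iff_compactSpace.1 hCclosed.isCompact
  obtain ⟨Γ₀, -, hΓo, hirr⟩ := exists_irr (ρ'.comp C.subtype)
    (hρ'c.comp continuous_subtype_val)
  obtain ⟨O, hO, hOΓ⟩ := isOpen_induced_iff.1 hΓo
  obtain ⟨G₁, hG₁⟩ := ProfiniteGrp.exist_openNormalSubgroup_sub_open_nhds_of_one hO (by
    have h1 : (1 : C) ∈ (Subtype.val ⁻¹' O : Set C) := by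
      rw [hOΓ]
      exact Γ₀.one_mem
    exact h1)
  obtain ⟨G, hGdef⟩ : ∃ G : Subgroup P, G = G₁.toSubgroup := ⟨_, rfl⟩
  have hGn : G.Normal := hGdef ▸ G₁.isNormal'
  have hGo : IsOpen (G : Set P) := hGdef ▸ G₁.isOpen'
  have hGO : (G : Set P) ⊆ O := by
    intro y hy
    rw [hGdef] at hy
    exact hG₁ hy
  obtain ⟨B₀, hB₀def⟩ : ∃ B₀ : Subgroup P, B₀ = C ⊓ G := ⟨_, rfl⟩
  haveI hB₀n : B₀.Normal := by
    rw [hB₀def]
    infer_instance
  have hB₀C : B₀ ≤ C := by
    rw [hB₀def]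
    exact inf_le_left
  have hB₀mem : ∀ y, y ∈ B₀ ↔ y ∈ C ∧ y ∈ G := by
    intro y
    rw [hB₀def, Subgroup.mem_inf]
  -- `B₀` as an open subgroup of `C`
  obtain ⟨Γ, hΓdef⟩ : ∃ Γ : Subgroup C, Γ = B₀.subgroupOf C := ⟨_, rfl⟩
  have hΓmem : ∀ γ : C, γ ∈ Γ ↔ (γ : P) ∈ B₀ := by
    intro γ
    rw [hΓdef]
    rfl
  have hΓopen : IsOpen (Γ : Set C) := by
    have h1 : (Γ : Set C) = Subtype.val ⁻¹' (G : Set P) := by
      ext γ
      rw [SetLike.mem_coe, hΓmem, hB₀mem]
      exact ⟨fun h => h.2, fun h => ⟨γ.2, h⟩⟩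
    rw [h1]
    exact hGo.preimage continuous_subtype_val
  have hΓle : Γ ≤ Γ₀ := by
    intro γ hγ
    have h1 : γ ∈ (Subtype.val ⁻¹' O : Set C) := hGO ((hB₀mem _).1 ((hΓmem γ).1 hγ)).2
    rw [hOΓ] at h1
    exact h1
  have hΓfin : (B₀.subgroupOf C).FiniteIndex := by
    rw [← hΓdef]
    haveI : Finite (C ⧸ Γ) := Subgroup.quotient_finite_of_isOpen Γ hΓopen
    exact Subgroup.finiteIndex_of_finite_quotient
  -- the maximal number of eigenvalues on `B₀ x`
  have hne : {m : ℕ | ∃ g ∈ B₀, numEig (ρ (g * x)) = m}.Nonempty := ⟨_, 1, B₀.one_mem, rfl⟩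
  have hbdd : BddAbove {m : ℕ | ∃ g ∈ B₀, numEig (ρ (g * x)) = m} := by
    refine ⟨n, ?_⟩
    rintro m ⟨g, -, rfl⟩
    rw [hnum]
    unfold numEigM
    refine (Multiset.toFinset_card_le _).trans ((Polynomial.card_roots' _).trans ?_)
    rw [Matrix.charpoly_natDegree_eq_dim, Fintype.card_fin]
  obtain ⟨g₀, hg₀, hg₀r⟩ := Nat.sSup_mem hne hbdd
  obtain ⟨r, hr⟩ : ∃ r, r = numEig (ρ (g₀ * x)) := ⟨_, rfl⟩
  have hmax : ∀ g ∈ B₀, numEig (ρ (g * x)) ≤ r := by
    intro g hg
    rw [hr, hg₀r]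
    exact le_csSup hbdd ⟨g, hg, rfl⟩
  -- the polynomials
  obtain ⟨E', hE'⟩ := exists_val_right (ρ' x) E
  obtain ⟨D, hD⟩ := exists_val_det (n := n) (r := r)
    (fun M => Matrix.of fun a b : Fin r => Matrix.trace (M ^ ((a : ℕ) + b))) (by
      intro i j
      obtain ⟨g, hg⟩ := exists_val_pow (Matrix.traceLinearMap (Fin n) K K) ((i : ℕ) + j)
      refine ⟨g, fun M => ?_⟩
      rw [hg, Matrix.of_apply, Matrix.traceLinearMap_apply])
  obtain ⟨D', hD'⟩ := exists_val_right (ρ' x) D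
  have hDlt : ∀ g ∈ B₀, val (ρ' g) D' = 0 → numEig (ρ (g * x)) < r := by
    intro g hg h0
    rw [hD', ← map_mul, hD] at h0
    have h1 := hmax g hg
    rw [hnum] at h1 ⊢
    exact (numEigM_lt_iff h1).2 h0
  have hex : ∃ γ ∈ Γ, val (ρ' γ) E' ≠ 0 ∧ val (ρ' γ) D' ≠ 0 := by
    by_contra hcon
    push Not at hcon
    rcases hirr Γ hΓopen hΓle E' D' (by
      intro γ hγ
      by_cases h1 : val (ρ' γ) E' = 0
      · exact Or.inl h1
      · exact Or.inr (hcon γ hγ h1)) with h | h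
    · have h1 := h 1 Γ.one_mem
      rw [map_one, hE', one_mul] at h1
      exact hE h1
    · have h1 := h ⟨g₀, hB₀C hg₀⟩ ((hΓmem _).2 hg₀)
      have h2 := hDlt g₀ hg₀ h1
      rw [← hr] at h2
      exact lt_irrefl _ h2
  obtain ⟨γ, hγ, hγE, hγD⟩ := hex
  -- move `γ` into `B`
  have hop : IsOpen {y : P | y ∈ G ∧ val (ρ' y) E' ≠ 0 ∧ val (ρ' y) D' ≠ 0} := by
    refine hGo.inter (IsOpen.inter ?_ ?_)
    · exact isOpen_ne.preimage (hvalc E')
    · exact isOpen_ne.preimage (hvalc D')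
  have hγcl : (γ : P) ∈ closure (B : Set P) := by
    rw [← hCcl]
    exact γ.2
  obtain ⟨g, ⟨hgG, hgE, hgD⟩, hgB⟩ := mem_closure_iff.1 hγcl _ hop
    ⟨((hB₀mem _).1 ((hΓmem γ).1 hγ)).2, hγE, hγD⟩
  have hgB₀ : g ∈ B₀ := (hB₀mem g).2 ⟨hBC hgB, hgG⟩
  refine ⟨g, hgB, ?_, ?_⟩
  · -- semisimple
    have hnumr : numEig (ρ (g * x)) = r := by
      refine le_antisymm (hmax g hgB₀) ?_
      by_contra hlt
      apply hgD
      rw [hD', ← map_mul, hD]
      have h1 := hmax g hgB₀
      rw [hnum] at h1 hlt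
      exact (numEigM_lt_iff h1).1 (not_le.1 hlt)
    have hB₀ss : ActsSemisimply (ρ '' (B₀ : Set P)) :=
      clifford ρ (A := ⊤) le_top (fun x _ y hy => hB₀n.conj_mem y hy x)
        (by rw [Subgroup.coe_top]; exact hP)
    -- semisimplicity under `C` and `x`
    have hCx : ActsSemisimply (ρ '' ((C ⊔ Subgroup.zpowers x : Subgroup P) : Set P)) := by
      haveI : Finite (P ⧸ (B ⊔ Subgroup.zpowers x).topologicalClosure) :=
        Subgroup.quotient_finite_of_isOpen _ hopen
      haveI : (B ⊔ Subgroup.zpowers x).topologicalClosure.FiniteIndex :=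
        Subgroup.finiteIndex_of_finite_quotient
      have hH := finiteIndex_semisimple ρ (H := (B ⊔ Subgroup.zpowers x).topologicalClosure) hP
      intro W hW
      have hBZ : B ⊔ Subgroup.zpowers x ≤ C ⊔ Subgroup.zpowers x := sup_le_sup_right hBC _
      obtain ⟨W', h1, h2⟩ := hH W (by
        rw [Subgroup.topologicalClosure_coe]
        refine stable_closure ρ hρ ?_
        rintro _ ⟨y, hy, rfl⟩
        exact hW _ ⟨y, hBZ hy, rfl⟩)
      refine ⟨W', ?_, h2⟩
      have hCle : C ⊔ Subgroup.zpowers x ≤ (B ⊔ Subgroup.zpowers x).topologicalClosure := by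
        refine sup_le ?_ ?_
        · rw [hCdef]
          exact Subgroup.topologicalClosure_mono le_sup_left
        · exact le_sup_right.trans (Subgroup.le_topologicalClosure _)
      rintro _ ⟨y, hy, rfl⟩
      exact h1 _ ⟨y, hCle hy, rfl⟩
    have hB₀x := finiteIndex_semisimple' ρ
      (H := B₀ ⊔ Subgroup.zpowers x) (Q := C ⊔ Subgroup.zpowers x) (sup_le_sup_right hB₀C _)
      (finite_sup (Z := Subgroup.zpowers x) hB₀C hΓfin) hCx
    refine pointwise_rep_max ρ (B := B₀) hB₀ss (x := g * x) ?_ ?_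
    · intro W hW hgx
      have hgW : ∀ y ∈ B₀, ∀ v ∈ W, ρ y v ∈ W := fun y hy => hW _ ⟨y, hy, rfl⟩
      have hxW : ∀ v ∈ W, ρ x v ∈ W := by
        intro v hv
        have h1 := hgW g⁻¹ (B₀.inv_mem hgB₀) _ (hgx v hv)
        rw [← Module.End.mul_apply, ← map_mul, inv_mul_cancel_left] at h1
        exact h1
      obtain ⟨W', h1, h2⟩ := hB₀x W (stable_sup' ρ hW (stable_zpowers ρ hxW))
      refine ⟨W', ?_, ?_, h2⟩
      · rintro _ ⟨y, hy, rfl⟩
        exact h1 _ ⟨y, le_sup_left (a := B₀) hy, rfl⟩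
      · intro v hv
        rw [map_mul, Module.End.mul_apply]
        refine h1 _ ⟨g, le_sup_left (a := B₀) hgB₀, rfl⟩ _ ?_
        exact h1 _ ⟨x, le_sup_right (a := B₀) (Subgroup.mem_zpowers x), rfl⟩ v hv
    · intro y hy
      rw [hnumr, ← mul_assoc]
      exact hmax _ (B₀.mul_mem hy hgB₀)
  · rw [hE', ← map_mul] at hgE
    exact hgE

end Pool.Agent.Helper40.ZO
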