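import Pool.Agent.Helper40.ZO.Stab
import Pool.Agent.Helper40.ZO.Sum

/-!
# The logarithm commutes with the commutant (helper40)

If `x` normalises `B` and `V` is semisimple under `B` and `x` together then conjugation by `x` is
semisimple on the commutant of `B` (`ad_eq_zero`), so the logarithm of the unipotent part of `x`
commutes with the commutant of `B` (`comm_of_ss`).
-/

set_option autoImplicit false

namespace Pool.Agent.Helper40.ZO

open Polynomial

variable {K V : Type*} [Field K] [AddCommGroup V] [Module K V] [FiniteDimensional K V]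

/-- If `X` commutes with `B`, `Z = x X x⁻¹ - μ X` and `x Z x⁻¹ = μ Z` then `Z = 0`. -/
theorem ad_eq_zero [CharZero K] {G : Type*} [Group G] (ρ : G →* Module.End K V) {B : Subgroup G}
    {x : G} (hx : ∀ b ∈ B, x⁻¹ * b * x ∈ B)
    (hss : ∀ W : Submodule K V, Stable (ρ '' (B : Set G)) W → (∀ v ∈ W, ρ x v ∈ W) →
      ∃ W' : Submodule K V, Stable (ρ '' (B : Set G)) W' ∧ (∀ v ∈ W', ρ x v ∈ W') ∧ IsCompl W W')
    {X : Module.End K V} (hX : X ∈ commutant ρ B) {μ : K} (hμ : μ ≠ 0)
    (hZ : ρ x * (ρ x * X * ρ x⁻¹ - μ • X) * ρ x⁻¹ = μ • (ρ x * X * ρ x⁻¹ - μ • X)) :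
    ρ x * X * ρ x⁻¹ = μ • X := by
  have hinv : ∀ g : G, ρ g * ρ g⁻¹ = 1 := fun g => by rw [← map_mul, mul_inv_cancel, map_one]
  have hinv' : ∀ g : G, ρ g⁻¹ * ρ g = 1 := fun g => by rw [← map_mul, inv_mul_cancel, map_one]
  have hXx : ρ x * X * ρ x⁻¹ ∈ commutant ρ B := by
    intro a ha
    have h3 : ρ a * ρ x = ρ x * ρ (x⁻¹ * a * x) := by
      rw [← map_mul, ← map_mul]
      congr 1
      group
    have h4 : ρ x⁻¹ * ρ a = ρ (x⁻¹ * a * x) * ρ x⁻¹ := by
      rw [← map_mul, ← map_mul]
      congr 1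
      group
    calc ρ a * (ρ x * X * ρ x⁻¹) = (ρ a * ρ x) * X * ρ x⁻¹ := by simp only [mul_assoc]
      _ = ρ x * (ρ (x⁻¹ * a * x) * X) * ρ x⁻¹ := by rw [h3]; simp only [mul_assoc]
      _ = ρ x * X * (ρ (x⁻¹ * a * x) * ρ x⁻¹) := by rw [hX _ (hx a ha)]; simp only [mul_assoc]
      _ = ρ x * X * ρ x⁻¹ * ρ a := by rw [← h4]; simp only [mul_assoc]
  obtain ⟨Z, hZdef⟩ : ∃ Z, Z = ρ x * X * ρ x⁻¹ - μ • X := ⟨_, rfl⟩
  rw [← hZdef] at hZ
  have hZC : Z ∈ commutant ρ B := by
    rw [hZdef]
    exact Submodule.sub_mem _ hXx (Submodule.smul_mem _ _ hX)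
  have hZx : ρ x * Z = μ • (Z * ρ x) := by
    calc ρ x * Z = ρ x * Z * ρ x⁻¹ * ρ x := by rw [mul_assoc (ρ x * Z), hinv', mul_one]
      _ = μ • (Z * ρ x) := by rw [hZ, smul_mul_assoc]
  -- the regular element
  let s : Option B → Module.End K V := fun i => i.elim (ρ x) fun b => ρ b
  let χ : Option B → K := fun i => i.elim μ fun _ => 1
  obtain ⟨T, hT, hZT⟩ := regular s χ (by
      intro i
      cases i with
      | none => exact hμ
      | some b => exact one_ne_zero) (by
      intro W hW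
      obtain ⟨W', h1, h2, h3⟩ := hss W (by
        rintro _ ⟨b, hb, rfl⟩
        exact hW _ ⟨some ⟨b, hb⟩, rfl⟩) (hW _ ⟨none, rfl⟩)
      refine ⟨W', ?_, h3⟩
      rintro _ ⟨i, rfl⟩
      cases i with
      | none => exact h2
      | some b => exact h1 _ ⟨b, b.2, rfl⟩) (Z := Z) (by
      intro i
      cases i with
      | none => exact hZx
      | some b =>
        change ρ b * Z = (1 : K) • (Z * ρ b)
        rw [one_smul]
        exact hZC b b.2)
  have hTx : T * ρ x = μ • (ρ x * T) := hT none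
  have hTx' : ρ x⁻¹ * T * ρ x = μ • T := by
    rw [mul_assoc, hTx, mul_smul_comm, ← mul_assoc, hinv', one_mul]
  have htr : LinearMap.trace K V (Z * T) = 0 := by
    rw [hZdef, sub_mul, map_sub, smul_mul_assoc, map_smul]
    have h1 : LinearMap.trace K V (ρ x * X * ρ x⁻¹ * T) =
        LinearMap.trace K V (X * (ρ x⁻¹ * T * ρ x)) := by
      rw [show ρ x * X * ρ x⁻¹ * T = ρ x * (X * (ρ x⁻¹ * T)) by simp only [mul_assoc],
        LinearMap.trace_mul_comm]
      simp only [mul_assoc]
    rw [h1, hTx', mul_smul_comm, map_smul, sub_self]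
  have h0 := eq_zero_of_trace hZT htr
  rw [hZdef] at h0
  exact sub_eq_zero.1 h0

/-- If `(f - μ) ^ 2 v = 0` implies `(f - μ) v = 0` then the space is the sum of the eigenspaces. -/
theorem iSup_eigenspace_of_sq [IsAlgClosed K] {E : Type*} [AddCommGroup E] [Module K E]
    [FiniteDimensional K E] {f : Module.End K E}
    (h : ∀ (μ : K) (v : E), f (f v - μ • v) = μ • (f v - μ • v) → f v = μ • v) :
    ⨆ μ : K, Module.End.eigenspace f μ = ⊤ := by
  rw [eq_top_iff, ← Module.End.iSup_maxGenEigenspace_eq_top f]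
  refine iSup_mono fun μ => ?_
  intro v hv
  rw [Module.End.mem_maxGenEigenspace] at hv
  obtain ⟨k, hk⟩ := hv
  have key : ∀ k : ℕ, ∀ v : E, ((f - μ • (1 : Module.End K E)) ^ k) v = 0 → f v = μ • v := by
    intro k
    induction k with
    | zero =>
      intro v hv
      rw [pow_zero, Module.End.one_apply] at hv
      rw [hv, map_zero, smul_zero]
    | succ k ih =>
      intro v hv
      rw [pow_succ, Module.End.mul_apply] at hv
      have h1 := ih _ hv
      have h2 : (f - μ • (1 : Module.End K E)) v = f v - μ • v := by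
        rw [LinearMap.sub_apply, LinearMap.smul_apply, Module.End.one_apply]
      rw [h2] at h1
      exact h μ v h1
  rw [Module.End.mem_eigenspace_iff]
  exact key k v hk

theorem comm_of_ss [IsAlgClosed K] [CharZero K] {G : Type*} [Group G] (ρ : G →* Module.End K V)
    {B : Subgroup G} {x : G} (hx : ∀ b ∈ B, x⁻¹ * b * x ∈ B)
    (hss : ∀ W : Submodule K V, Stable (ρ '' (B : Set G)) W → (∀ v ∈ W, ρ x v ∈ W) →
      ∃ W' : Submodule K V, Stable (ρ '' (B : Set G)) W' ∧ (∀ v ∈ W', ρ x v ∈ W') ∧ IsCompl W W')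
    {h : (Module.End K V)ˣ} (hh : (h : Module.End K V) = ρ x)
    (hh' : ((h⁻¹ : (Module.End K V)ˣ) : Module.End K V) = ρ x⁻¹) {m : ℕ} {S U : Module.End K V}
    (hJ : JC K m (h : Module.End K V) S U) :
    ∀ X ∈ commutant ρ B, Commute (lg K m U) X := by
  have hinv : ∀ g : G, ρ g * ρ g⁻¹ = 1 := fun g => by rw [← map_mul, mul_inv_cancel, map_one]
  have hinv' : ∀ g : G, ρ g⁻¹ * ρ g = 1 := fun g => by rw [← map_mul, inv_mul_cancel, map_one]
  have hstab : ∀ X ∈ commutant ρ B, ρ x * X * ρ x⁻¹ ∈ commutant ρ B := by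
    intro X hX a ha
    have h3 : ρ a * ρ x = ρ x * ρ (x⁻¹ * a * x) := by
      rw [← map_mul, ← map_mul]
      congr 1
      group
    have h4 : ρ x⁻¹ * ρ a = ρ (x⁻¹ * a * x) * ρ x⁻¹ := by
      rw [← map_mul, ← map_mul]
      congr 1
      group
    calc ρ a * (ρ x * X * ρ x⁻¹) = (ρ a * ρ x) * X * ρ x⁻¹ := by simp only [mul_assoc]
      _ = ρ x * (ρ (x⁻¹ * a * x) * X) * ρ x⁻¹ := by rw [h3]; simp only [mul_assoc]
      _ = ρ x * X * (ρ (x⁻¹ * a * x) * ρ x⁻¹) := by rw [hX _ (hx a ha)]; simp only [mul_assoc]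
      _ = ρ x * X * ρ x⁻¹ * ρ a := by rw [← h4]; simp only [mul_assoc]
  let f : Module.End K (commutant ρ B) :=
    { toFun := fun X => ⟨ρ x * (X : Module.End K V) * ρ x⁻¹, hstab _ X.2⟩
      map_add' := fun X Y => by
        apply Subtype.ext
        change ρ x * ((X : Module.End K V) + Y) * ρ x⁻¹ =
          ρ x * (X : Module.End K V) * ρ x⁻¹ + ρ x * (Y : Module.End K V) * ρ x⁻¹
        rw [mul_add, add_mul]
      map_smul' := fun c X => by
        apply Subtype.ext
        change ρ x * (c • (X : Module.End K V)) * ρ x⁻¹ = c • (ρ x * (X : Module.End K V) * ρ x⁻¹)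
        rw [mul_smul_comm, smul_mul_assoc] }
  have hf : ∀ X : commutant ρ B, ((f X : commutant ρ B) : Module.End K V) =
      ρ x * (X : Module.End K V) * ρ x⁻¹ := fun X => rfl
  have htop := iSup_eigenspace_of_sq (f := f) (by
    intro μ X hX
    by_cases hμ : μ = 0
    · -- `f` is injective
      have hinjf : ∀ Y : commutant ρ B, f Y = 0 → Y = 0 := by
        intro Y hY
        have h1 : ρ x * (Y : Module.End K V) * ρ x⁻¹ = 0 := by
          rw [← hf, hY]
          rfl
        apply Subtype.ext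
        have h2 : (Y : Module.End K V) = ρ x⁻¹ * (ρ x * (Y : Module.End K V) * ρ x⁻¹) * ρ x := by
          simp only [mul_assoc, hinv', mul_one]
          rw [← mul_assoc, hinv', one_mul]
        rw [h2, h1, mul_zero, zero_mul]
        rfl
      subst hμ
      rw [zero_smul, zero_smul, sub_zero] at hX
      rw [zero_smul]
      exact hinjf _ hX
    · apply Subtype.ext
      rw [hf, Submodule.coe_smul]
      have h1 := congrArg Subtype.val hX
      rw [hf, Submodule.coe_smul, Submodule.coe_sub, hf, Submodule.coe_smul] at h1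
      exact ad_eq_zero ρ hx hss X.2 hμ h1)
  let C : Submodule K (commutant ρ B) :=
    { carrier := {X | Commute (lg K m U) (X : Module.End K V)}
      add_mem' := fun {a b} ha hb => by
        change Commute _ _ at ha hb ⊢
        rw [Submodule.coe_add]
        exact ha.add_right hb
      zero_mem' := by
        change Commute _ _
        exact Commute.zero_right _
      smul_mem' := fun c a ha => by
        change Commute _ _ at ha ⊢
        rw [Submodule.coe_smul]
        exact ha.smul_right c }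
  have hC : ⨆ μ : K, Module.End.eigenspace f μ ≤ C := by
    refine iSup_le fun μ => ?_
    intro X hX
    rw [Module.End.mem_eigenspace_iff] at hX
    have h1 := congrArg Subtype.val hX
    rw [hf, Submodule.coe_smul] at h1
    refine comm_lg hJ (χ := μ) ?_
    rw [hh, hh']
    exact h1
  rw [htop, top_le_iff] at hC
  intro X hX
  have : (⟨X, hX⟩ : commutant ρ B) ∈ C := by rw [hC]; trivial
  exact this

end Pool.Agent.Helper40.ZO
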