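import Pool.Agent.Helper40.ZO.Defs

/-!
# Block ZO-HANKA: Hankel determinants of the traces of powers

* `trace_aeval`: `trace (aeval M f) = ∑ f (l)` over the roots of the characteristic polynomial with
  multiplicity (triangularise, or `Matrix.charpoly` of `aeval M f` and
  `Matrix.trace_eq_sum_roots_charpoly`; Mathlib may have it:
  `Matrix.aeval_...`/`LinearMap.trace_...`; or decompose into generalised eigenspaces).
* `hankel_vanish`. Let `p = ∏ (X - l)` over the different eigenvalues of `M`, of degree `e ≤ r`;
  `p (M)` is nilpotent (`M.charpoly ∣ p ^ n`, Cayley-Hamilton) and so is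
  `aeval M f * M ^ a * aeval M p` (commuting factors), trace `0`. So the vector of the coefficients of
  `p` (nonzero, `p` is monic of degree `≤ r`) is killed by the matrix
  (`Matrix.exists_mulVec_eq_zero_iff`).
* `numEigM_lt_iff`: for `M` with `e ≤ r` different eigenvalues `l_i` of multiplicities `m_i`:
  `trace (M ^ (a+b)) = ∑ m_i l_i ^ a l_i ^ b`, so the matrix is `v diag (m) vᵀ`, `v` the `r × e`
  Vandermonde matrix; if `e = r` the determinant is `∏ m_i * det v ^ 2 ≠ 0` (`K` has characteristic
  zero), if `e < r` the coefficient vector of `p` is killed as before.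
-/

set_option autoImplicit false

namespace Pool.Agent.Helper40.ZO

open Polynomial

variable {K : Type*} [Field K] [IsAlgClosed K] [CharZero K]

omit [CharZero K] in
private lemma card_roots_charpoly {n : ℕ} (M : Mat n K) : Multiset.card M.charpoly.roots = n := by
  have h := (IsAlgClosed.splits M.charpoly).natDegree_eq_card_roots
  rw [Matrix.charpoly_natDegree_eq_dim, Fintype.card_fin] at h
  exact h.symm

omit [CharZero K] in
private lemma det_aeval_X_sub_C {n : ℕ} (M : Mat n K) (a : K) :
    (aeval M (X - C a)).det = (M.charpoly.roots.map fun l => l - a).prod := by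
  have h1 : (Matrix.scalar (Fin n) a - M).det = (M.charpoly.roots.map fun l => a - l).prod := by
    rw [← Matrix.eval_charpoly,
      (IsAlgClosed.splits M.charpoly).eval_eq_prod_roots_of_monic M.charpoly_monic a]
  have h2 : aeval M (X - C a) = -(Matrix.scalar (Fin n) a - M) := by
    rw [map_sub, aeval_X, aeval_C, neg_sub]
    rfl
  have h3 : (M.charpoly.roots.map fun l => l - a) =
      (M.charpoly.roots.map fun l => a - l).map Neg.neg := by
    rw [Multiset.map_map]
    refine Multiset.map_congr rfl fun l _ => ?_
    simp
  rw [h2, Matrix.det_neg, h1, h3, Multiset.prod_map_neg, Multiset.card_map, card_roots_charpoly,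
    Fintype.card_fin]

omit [CharZero K] in
private lemma det_aeval_prod {n : ℕ} (M : Mat n K) (s : Multiset K) :
    (aeval M (s.map fun a => X - C a).prod).det =
      (M.charpoly.roots.map fun l => ((s.map fun a => X - C a).prod).eval l).prod := by
  induction s using Multiset.induction_on with
  | empty => simp
  | cons a s ih =>
    rw [Multiset.map_cons, Multiset.prod_cons, map_mul, Matrix.det_mul, ih, det_aeval_X_sub_C,
      ← Multiset.prod_map_mul]
    congr 1
    refine Multiset.map_congr rfl fun l _ => ?_
    rw [eval_mul, eval_sub, eval_X, eval_C]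

omit [CharZero K] in
private lemma det_aeval {n : ℕ} (M : Mat n K) (g : K[X]) :
    (aeval M g).det = (M.charpoly.roots.map fun l => g.eval l).prod := by
  have h := (IsAlgClosed.splits g).eq_prod_roots
  rw [h, map_mul, aeval_C, Matrix.det_mul, det_aeval_prod]
  have h1 : (algebraMap K (Mat n K) g.leadingCoeff).det = g.leadingCoeff ^ n := by
    rw [Matrix.algebraMap_eq_diagonal, Matrix.det_diagonal]
    simp
  have h2 : g.leadingCoeff ^ n =
      (M.charpoly.roots.map fun _ => g.leadingCoeff).prod := by
    rw [Multiset.map_const', Multiset.prod_replicate, card_roots_charpoly]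
  rw [h1, h2, ← Multiset.prod_map_mul]
  congr 1
  refine Multiset.map_congr rfl fun l _ => ?_
  rw [eval_mul, eval_C]

omit [CharZero K] in
private lemma charpoly_aeval {n : ℕ} (M : Mat n K) (f : K[X]) :
    (aeval M f).charpoly = ((M.charpoly.roots.map fun l => f.eval l).map fun a => X - C a).prod := by
  have : Infinite K := IsAlgClosed.instInfinite
  refine Polynomial.funext fun x => ?_
  rw [Matrix.eval_charpoly]
  have h1 : Matrix.scalar (Fin n) x - aeval M f = aeval M (C x - f) := by
    rw [map_sub, aeval_C]
    rfl
  rw [h1, det_aeval, Multiset.map_map, eval_multiset_prod, Multiset.map_map]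
  congr 1
  refine Multiset.map_congr rfl fun l _ => ?_
  simp

omit [CharZero K] in
private lemma trace_aeval_aux {n : ℕ} (M : Mat n K) (f : K[X]) :
    Matrix.trace (aeval M f) = (M.charpoly.roots.map fun l => f.eval l).sum := by
  rw [Matrix.trace_eq_sum_roots_charpoly, charpoly_aeval, roots_multiset_prod_X_sub_C]

theorem trace_aeval {n : ℕ} (M : Mat n K) (f : K[X]) :
    Matrix.trace (aeval M f) = (M.charpoly.roots.map fun l => f.eval l).sum :=
  trace_aeval_aux M f

omit [IsAlgClosed K] [CharZero K] in
open Classical in
private lemma pol_props {n : ℕ} (M : Mat n K) :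
    (∏ l ∈ M.charpoly.roots.toFinset, (X - C l)).Monic ∧
    (∏ l ∈ M.charpoly.roots.toFinset, (X - C l)).natDegree = numEigM M ∧
    ∀ l ∈ M.charpoly.roots, (∏ l ∈ M.charpoly.roots.toFinset, (X - C l)).eval l = 0 := by
  refine ⟨monic_prod_X_sub_C _ _, ?_, fun l hl => ?_⟩
  · rw [natDegree_prod_of_monic _ _ fun l _ => monic_X_sub_C l]
    simp [numEigM]
  · rw [eval_prod]
    refine Finset.prod_eq_zero (i := l) (Multiset.mem_toFinset.2 hl) ?_
    simp

omit [CharZero K] in
/-- the Hankel determinant vanishes -/
private lemma hankel_aux {n s : ℕ} (M : Mat n K) (h : numEigM M < s) (f : K[X]) :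
    (Matrix.of fun a b : Fin s =>
      Matrix.trace (aeval M f * M ^ ((a : ℕ) + b))).det = 0 := by
  classical
  obtain ⟨hmon, hdeg, hroot⟩ := pol_props M
  set p : K[X] := ∏ l ∈ M.charpoly.roots.toFinset, (X - C l) with hp
  rw [← Matrix.exists_mulVec_eq_zero_iff]
  refine ⟨fun b => p.coeff b, ?_, ?_⟩
  · intro h0
    have h1 := congrFun h0 ⟨numEigM M, h⟩
    simp only [Pi.zero_apply] at h1
    rw [← hdeg] at h1
    have h2 : p.coeff p.natDegree = 1 := hmon.coeff_natDegree
    rw [h2] at h1
    exact one_ne_zero h1
  · funext a
    have hsum : aeval M p = ∑ b : Fin s, p.coeff b • M ^ (b : ℕ) := by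
      rw [aeval_eq_sum_range' (n := s) (by rw [hdeg]; exact h), Finset.sum_range]
    have e1 : (Matrix.of fun a b : Fin s =>
        Matrix.trace (aeval M f * M ^ ((a : ℕ) + b))).mulVec (fun b => p.coeff b) a =
        Matrix.trace (aeval M (f * X ^ (a : ℕ) * p)) := by
      rw [map_mul, hsum, Finset.mul_sum, Matrix.trace_sum]
      change ∑ b : Fin s, Matrix.trace (aeval M f * M ^ ((a : ℕ) + b)) * p.coeff b = _
      refine Finset.sum_congr rfl fun b _ => ?_
      rw [map_mul, map_pow, aeval_X, mul_smul_comm, Matrix.trace_smul, pow_add,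
        mul_assoc, smul_eq_mul, mul_comm]
    rw [e1, trace_aeval_aux]
    simp only [Pi.zero_apply]
    refine Multiset.sum_eq_zero fun y hy => ?_
    rw [Multiset.mem_map] at hy
    obtain ⟨l, hl, rfl⟩ := hy
    rw [eval_mul, hroot l hl, mul_zero]

theorem hankel_vanish {n r : ℕ} (M : Mat n K) (h : numEigM M ≤ r) (f : K[X]) :
    (Matrix.of fun a b : Fin (r + 1) =>
      Matrix.trace (aeval M f * M ^ ((a : ℕ) + b))).det = 0 :=
  hankel_aux M (Nat.lt_succ_of_le h) f

theorem numEigM_lt_iff {n r : ℕ} {M : Mat n K} (h : numEigM M ≤ r) :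
    numEigM M < r ↔
      (Matrix.of fun a b : Fin r => Matrix.trace (M ^ ((a : ℕ) + b))).det = 0 := by
  classical
  constructor
  · intro hlt
    have h1 := hankel_aux M hlt 1
    simpa only [map_one, one_mul] using h1
  · intro hdet
    by_contra hnot
    have her : numEigM M = r := le_antisymm h (not_lt.1 hnot)
    rw [← Matrix.exists_mulVec_eq_zero_iff] at hdet
    obtain ⟨v, hv, hv0⟩ := hdet
    set R : Finset K := M.charpoly.roots.toFinset with hR
    have hcard : R.card = r := by
      rw [← her]
      simp [numEigM, hR]
    set q : K[X] := ∑ b : Fin r, C (v b) * X ^ (b : ℕ) with hq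
    have hqdeg : q.degree < (r : ℕ) := by
      exact degree_sum_fin_lt v
    have hqcoeff : ∀ b : Fin r, q.coeff b = v b := by
      intro b
      rw [hq, finsetSum_coeff, Finset.sum_eq_single b]
      · simp
      · intro c _ hcb
        rw [coeff_C_mul, coeff_X_pow, if_neg, mul_zero]
        intro hbc
        exact hcb (Fin.ext hbc.symm)
      · simp
    -- orthogonality to all polynomials of degree `< r`
    have horth : ∀ g : K[X], g.natDegree < r → Matrix.trace (aeval M (g * q)) = 0 := by
      intro g hg
      have hmono : ∀ a : Fin r, Matrix.trace (aeval M (X ^ (a : ℕ) * q)) = 0 := by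
        intro a
        have h1 := congrFun hv0 a
        rw [Pi.zero_apply] at h1
        rw [← h1, hq, Finset.mul_sum, map_sum, Matrix.trace_sum]
        change _ = ∑ b : Fin r, Matrix.trace (M ^ ((a : ℕ) + b)) * v b
        refine Finset.sum_congr rfl fun b _ => ?_
        have h2 : (X : K[X]) ^ (a : ℕ) * (C (v b) * X ^ (b : ℕ)) = C (v b) * X ^ ((a : ℕ) + b) := by
          rw [pow_add]
          ring
        rw [h2, map_mul, aeval_C, map_pow, aeval_X, ← Algebra.smul_def, Matrix.trace_smul,
          smul_eq_mul, mul_comm]
      have hg' : g = ∑ a : Fin r, C (g.coeff a) * X ^ (a : ℕ) := by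
        conv_lhs => rw [g.as_sum_range' r hg]
        rw [Finset.sum_range]
        refine Finset.sum_congr rfl fun a _ => ?_
        rw [C_mul_X_pow_eq_monomial]
      rw [hg', Finset.sum_mul, map_sum, Matrix.trace_sum]
      refine Finset.sum_eq_zero fun a _ => ?_
      rw [mul_assoc, map_mul, aeval_C, ← Algebra.smul_def, Matrix.trace_smul, hmono a, smul_zero]
    have hroots : ∀ l ∈ R, q.eval l = 0 := by
      intro l hl
      set g : K[X] := ∏ l' ∈ R.erase l, (X - C l') with hg
      have hgdeg : g.natDegree < r := by
        rw [hg, natDegree_prod_of_monic _ _ fun l _ => monic_X_sub_C l]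
        simp only [natDegree_X_sub_C, Finset.sum_const, smul_eq_mul, mul_one]
        rw [← hcard]
        exact Finset.card_erase_lt_of_mem hl
      have h1 := horth g hgdeg
      rw [trace_aeval, Finset.sum_multiset_map_count] at h1
      rw [← hR, Finset.sum_eq_single l] at h1
      · rw [nsmul_eq_mul, eval_mul] at h1
        have h2 : (Multiset.count l M.charpoly.roots : K) ≠ 0 := by
          rw [Nat.cast_ne_zero]
          exact (Multiset.count_pos.2 (Multiset.mem_toFinset.1 hl)).ne'
        have h3 : g.eval l ≠ 0 := by
          rw [hg, eval_prod, Finset.prod_ne_zero_iff]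
          intro l' hl'
          rw [eval_sub, eval_X, eval_C, sub_ne_zero]
          exact (Finset.ne_of_mem_erase hl').symm
        rcases mul_eq_zero.1 h1 with h4 | h4
        · exact absurd h4 h2
        · rcases mul_eq_zero.1 h4 with h5 | h5
          · exact absurd h5 h3
          · exact h5
      · intro l' hl' hne
        have h2 : g.eval l' = 0 := by
          rw [hg, eval_prod]
          refine Finset.prod_eq_zero (i := l') (Finset.mem_erase.2 ⟨hne, hl'⟩) ?_
          simp
        rw [eval_mul, h2, zero_mul, smul_zero]
      · intro hl'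
        exact absurd hl hl'
    have hq0 : q = 0 := by
      refine eq_zero_of_degree_lt_of_eval_finset_eq_zero R ?_ hroots
      rw [hcard]
      exact hqdeg
    apply hv
    funext b
    rw [← hqcoeff b, hq0, coeff_zero, Pi.zero_apply]

end Pool.Agent.Helper40.ZO
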