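import Pool.Agent.Helper40.ZO.Defs

/-!
# Block ZO-NULLB (cosets_of_null): closed sets in profinite groups and Haar measure

* `exists_meet`. `Y` closed, `μ Y > 0`. By outer regularity there is an open `O ⊇ Y` with
  `μ O < 2 μ Y`. `Y` is compact, so there is an open subgroup `W` with `W Y ⊆ O` (open subgroups
  are a basis of neighbourhoods of `1`, Mathlib: `ProfiniteGrp`, `TopologicalGroup`,
  `exist_openNormalSubgroup_sub_open_nhds_of_one`; tube lemma / finite cover). For `γ ∈ W`: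
  `γ Y ∪ Y ⊆ O`, `μ (γ Y) = μ Y`, so `μ (γ Y ∩ Y) ≥ 2 μ Y - μ O > 0`.
* `cosets_of_null`. `Z` closed, `μ Z = 0`: open `O ⊇ Z` with `μ O < ε μ univ`, open normal `N` with
  `N Z ⊆ O`. The number of cosets of `N` meeting `Z` times `μ N` is `≤ μ O`, and
  `μ univ = Nat.card (P ⧸ N) * μ N`.
-/

set_option autoImplicit false

namespace Pool.Agent.Helper40.ZO

open MeasureTheory

variable {P : Type*} [Group P] [TopologicalSpace P] [IsTopologicalGroup P] [CompactSpace P]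
  [TotallyDisconnectedSpace P] [MeasurableSpace P] [BorelSpace P]
  (μ : Measure P) [μ.IsHaarMeasure] [μ.Regular]

open Pointwise in
theorem cosets_of_null {Z : Set P} (hZ : IsClosed Z) (h0 : μ Z = 0) {ε : ℝ} (hε : 0 < ε) :
    ∃ N : Subgroup P, N.Normal ∧ IsOpen (N : Set P) ∧
      ((Set.ncard {c : P ⧸ N | ∃ x ∈ Z, (x : P ⧸ N) = c} : ℕ) : ℝ) ≤ ε * Nat.card (P ⧸ N) := by
  classical
  have hu0 : 0 < μ Set.univ := isOpen_univ.measure_pos μ Set.univ_nonempty
  have hut : μ Set.univ ≠ ⊤ := (isCompact_univ.measure_lt_top (μ := μ)).ne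
  have hr : μ Z < ENNReal.ofReal ε * μ Set.univ := by
    rw [h0]
    exact ENNReal.mul_pos (ENNReal.ofReal_pos.2 hε).ne' hu0.ne'
  obtain ⟨O, hZO, hO, hOμ⟩ := Z.exists_isOpen_lt_of_lt _ hr
  obtain ⟨V, hV, hVZ⟩ := compact_open_separated_mul_left hZ.isCompact hO hZO
  obtain ⟨U, hUV, hUo, h1U⟩ := mem_nhds_iff.1 hV
  obtain ⟨H, hH⟩ := ProfiniteGrp.exist_openNormalSubgroup_sub_open_nhds_of_one hUo h1U
  obtain ⟨N, hNdef⟩ : ∃ N : Subgroup P, N = H.toSubgroup := ⟨_, rfl⟩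
  have hNn : N.Normal := hNdef ▸ H.isNormal'
  have hNo : IsOpen (N : Set P) := hNdef ▸ H.isOpen'
  have hNV : (N : Set P) ⊆ V := by
    intro x hx
    rw [hNdef] at hx
    exact hUV (hH hx)
  refine ⟨N, hNn, hNo, ?_⟩
  have : Finite (P ⧸ N) := Subgroup.quotient_finite_of_isOpen N hNo
  have : Fintype (P ⧸ N) := Fintype.ofFinite _
  set q : P → P ⧸ N := fun x => (x : P ⧸ N) with hq
  have hfib : ∀ x : P, q ⁻¹' {q x} = x • (N : Set P) := by
    intro x
    ext y
    rw [Set.mem_preimage, Set.mem_singleton_iff, Set.mem_smul_set_iff_inv_smul_mem, smul_eq_mul,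
      SetLike.mem_coe, hq]
    exact eq_comm.trans QuotientGroup.eq
  have hμfib : ∀ c : P ⧸ N, μ (q ⁻¹' {c}) = μ (N : Set P) := by
    intro c
    obtain ⟨x, rfl⟩ := QuotientGroup.mk_surjective c
    have h1 : q ⁻¹' {(x : P ⧸ N)} = x • (N : Set P) := hfib x
    rw [h1, measure_smul]
  have hmeas : ∀ c : P ⧸ N, MeasurableSet (q ⁻¹' {c}) := by
    intro c
    obtain ⟨x, rfl⟩ := QuotientGroup.mk_surjective c
    have h1 : q ⁻¹' {(x : P ⧸ N)} = x • (N : Set P) := hfib x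
    rw [h1]
    exact (hNo.smul x).measurableSet
  have hsum : ∀ s : Finset (P ⧸ N), μ (q ⁻¹' (s : Set (P ⧸ N))) = s.card * μ (N : Set P) := by
    intro s
    rw [← sum_measure_preimage_singleton s fun c _ => hmeas c, Finset.sum_congr rfl fun c _ => hμfib c,
      Finset.sum_const, nsmul_eq_mul]
  have huniv : μ Set.univ = (Nat.card (P ⧸ N) : ENNReal) * μ (N : Set P) := by
    have h1 := hsum Finset.univ
    rw [Finset.coe_univ, Set.preimage_univ, Finset.card_univ] at h1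
    rw [h1, Nat.card_eq_fintype_card]
  have hN0 : 0 < μ (N : Set P) := hNo.measure_pos μ ⟨1, N.one_mem⟩
  have hNt : μ (N : Set P) ≠ ⊤ := ((measure_mono (Set.subset_univ _)).trans_lt hut.lt_top).ne
  set S : Finset (P ⧸ N) := {c : P ⧸ N | ∃ x ∈ Z, (x : P ⧸ N) = c}.toFinset with hS
  have hSc : Set.ncard {c : P ⧸ N | ∃ x ∈ Z, (x : P ⧸ N) = c} = S.card := by
    rw [hS, Set.ncard_eq_toFinset_card']
  have hSO : q ⁻¹' (S : Set (P ⧸ N)) ⊆ O := by
    intro y hy
    rw [Set.mem_preimage, Finset.mem_coe, hS, Set.mem_toFinset] at hy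
    obtain ⟨x, hx, hxy⟩ := hy
    have h1 : x⁻¹ * y ∈ N := QuotientGroup.eq.1 hxy
    have h2 : y * x⁻¹ ∈ N := by
      have h3 := hNn.conj_mem _ h1 x
      have h4 : x * (x⁻¹ * y) * x⁻¹ = y * x⁻¹ := by group
      rwa [h4] at h3
    have h5 : y = (y * x⁻¹) * x := by group
    rw [h5]
    exact hVZ (Set.mul_mem_mul (hNV h2) hx)
  have hlt : (S.card : ENNReal) * μ (N : Set P) <
      ENNReal.ofReal ε * ((Nat.card (P ⧸ N) : ENNReal) * μ (N : Set P)) := by
    rw [← hsum S, ← huniv]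
    exact (measure_mono hSO).trans_lt hOμ
  rw [← mul_assoc, ENNReal.mul_lt_mul_iff_left hN0.ne' hNt] at hlt
  rw [hSc]
  have h6 := (ENNReal.toReal_le_toReal (ENNReal.natCast_ne_top _)
    (ENNReal.mul_ne_top ENNReal.ofReal_ne_top (ENNReal.natCast_ne_top _))).2 hlt.le
  rw [ENNReal.toReal_natCast, ENNReal.toReal_mul, ENNReal.toReal_ofReal hε.le, ENNReal.toReal_natCast] at h6
  exact h6

end Pool.Agent.Helper40.ZO
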