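import Pool.Agent.Helper40.ZO.AlgB
import Pool.Agent.Helper40.ZO.NullB
import Pool.Agent.Helper40.ZO.HankA

/-!
# Block ZO-DENS: the elements with too few eigenvalues

* `dens`: take a basis of `V` (matrices `ρ'`, continuous), `Γ₀` from `exists_min`,
  `μ = haarMeasure ⊤` (regular; `borelize P`). `Z = {x | ∃ γ ∈ Γ₀, numEig (ρ x) < numEig (ρ (γ x))}` is
  the union over the finitely many cosets `Γ₀ x₀`, `x₀` chosen with maximal `r = numEig (ρ x₀)` in its
  coset (`numEig ≤ finrank`), of `{x ∈ Γ₀ x₀ | numEig (ρ x) < r} = {x ∈ Γ₀ x₀ | D_r (ρ x) = 0}`,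
  `D_r` = the determinant of `numEigM_lt_iff` as a polynomial in the entries. These sets are closed and
  null by `null_of_poly`; use `cosets_of_null`.
-/

set_option autoImplicit false

namespace Pool.Agent.Helper40.ZO

open MeasureTheory

variable {P : Type*} [Group P] [TopologicalSpace P] [IsTopologicalGroup P] [CompactSpace P]
  [TotallyDisconnectedSpace P]

variable {K : Type*} [Field K] [IsAlgClosed K] [CharZero K]

/-- The Hankel determinant of the traces of the powers as a polynomial in the entries. -/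
private noncomputable def hankelPoly (K : Type*) [Field K] (n r : ℕ) :
    MvPolynomial (Fin n × Fin n) K :=
  (Matrix.of fun a b : Fin r =>
    Matrix.trace ((Matrix.mvPolynomialX (Fin n) (Fin n) K) ^ ((a : ℕ) + b))).det

omit [IsAlgClosed K] [CharZero K] in
private lemma val_hankel {n r : ℕ} (M : Mat n K) :
    val M (hankelPoly K n r) =
      (Matrix.of fun a b : Fin r => Matrix.trace (M ^ ((a : ℕ) + b))).det := by
  unfold val hankelPoly
  rw [RingHom.map_det]
  congr 1
  ext a b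
  simp only [RingHom.mapMatrix_apply, Matrix.map_apply, Matrix.of_apply]
  rw [Matrix.trace, Matrix.trace, map_sum]
  refine Finset.sum_congr rfl fun i _ => ?_
  rw [Matrix.diag_apply, Matrix.diag_apply]
  have h1 : ((Matrix.mvPolynomialX (Fin n) (Fin n) K) ^ ((a : ℕ) + b)).map
      (MvPolynomial.eval (fun k : Fin n × Fin n => M k.1 k.2)) = M ^ ((a : ℕ) + b) := by
    rw [← RingHom.mapMatrix_apply, map_pow, RingHom.mapMatrix_apply]
    congr 1
    ext i j
    simp [Matrix.mvPolynomialX]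
  rw [← h1, Matrix.map_apply]

omit [IsAlgClosed K] [CharZero K] in
private lemma numEigM_le {n : ℕ} (M : Mat n K) : numEigM M ≤ n := by
  classical
  unfold numEigM
  refine (Multiset.toFinset_card_le _).trans ((Polynomial.card_roots' _).trans ?_)
  rw [Matrix.charpoly_natDegree_eq_dim, Fintype.card_fin]

theorem dens {V : Type*} [AddCommGroup V] [Module K V] [FiniteDimensional K V]
    [TopologicalSpace K] [IsTopologicalRing K] [T2Space K] (ρ : P →* Module.End K V)
    (hρ : ∀ (v : V) (f : Module.Dual K V), Continuous fun x => f (ρ x v)) :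
    ∃ Γ₀ : Subgroup P, Γ₀.Normal ∧ IsOpen (Γ₀ : Set P) ∧ ∀ ε : ℝ, 0 < ε →
      ∃ N : Subgroup P, N.Normal ∧ IsOpen (N : Set P) ∧
        ((Set.ncard {c : P ⧸ N | ∃ x : P, (x : P ⧸ N) = c ∧
          ∃ γ ∈ Γ₀, numEig (ρ x) < numEig (ρ (γ * x))} : ℕ) : ℝ) ≤ ε * Nat.card (P ⧸ N) := by
  classical
  set n := Module.finrank K V with hn
  let b := Module.finBasis K V
  let ρ' : P →* Mat n K := (LinearMap.toMatrixAlgEquiv b : Module.End K V →* Mat n K).comp ρ
  have hρ'x : ∀ x, ρ' x = LinearMap.toMatrix b b (ρ x) := fun x => rfl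
  have hρ'c : Continuous ρ' := by
    refine continuous_matrix fun i j => ?_
    have h1 : (fun x => ρ' x i j) = fun x => (b.coord i) (ρ x (b j)) := by
      funext x
      rw [hρ'x, LinearMap.toMatrix_apply]
      rfl
    rw [h1]
    exact hρ _ _
  have hnum : ∀ x, numEig (ρ x) = numEigM (ρ' x) := by
    intro x
    unfold numEig numEigM
    rw [hρ'x, LinearMap.charpoly_toMatrix]
  obtain ⟨Γ₀, hnorm, hopen, hmin⟩ := exists_min ρ'
  refine ⟨Γ₀, hnorm, hopen, ?_⟩
  intro ε hε
  borelize P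
  let μ : Measure P := Measure.haarMeasure ⊤
  have hfin : Finite (P ⧸ Γ₀) := by
    have := QuotientGroup.discreteTopology hopen
    exact finite_of_compact_of_discrete
  -- a point with the maximal number of eigenvalues in each coset
  have hmax : ∀ c : P ⧸ Γ₀, ∃ x₀ : P, (x₀ : P ⧸ Γ₀) = c ∧
      ∀ x : P, (x : P ⧸ Γ₀) = c → numEigM (ρ' x) ≤ numEigM (ρ' x₀) := by
    intro c
    have hne : {m : ℕ | ∃ x : P, (x : P ⧸ Γ₀) = c ∧ numEigM (ρ' x) = m}.Nonempty := by
      obtain ⟨x, rfl⟩ := QuotientGroup.mk_surjective c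
      exact ⟨_, x, rfl, rfl⟩
    have hbdd : BddAbove {m : ℕ | ∃ x : P, (x : P ⧸ Γ₀) = c ∧ numEigM (ρ' x) = m} := by
      refine ⟨n, ?_⟩
      rintro m ⟨x, -, rfl⟩
      exact numEigM_le _
    obtain ⟨x₀, h1, h2⟩ := Nat.sSup_mem hne hbdd
    exact ⟨x₀, h1, fun x hx => h2 ▸ le_csSup hbdd ⟨x, hx, rfl⟩⟩
  choose x₀ hx₀ hx₀max using hmax
  let Zc : P ⧸ Γ₀ → Set P := fun c =>
    {x | x * (x₀ c)⁻¹ ∈ Γ₀ ∧ val (ρ' x) (hankelPoly K n (numEigM (ρ' (x₀ c)))) = 0}
  have hcoset : ∀ x y : P, x * y⁻¹ ∈ Γ₀ ↔ (x : P ⧸ Γ₀) = (y : P ⧸ Γ₀) := by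
    intro x y
    rw [eq_comm, QuotientGroup.eq]
    constructor
    · intro h
      have h1 := hnorm.conj_mem _ h y⁻¹
      simpa [mul_assoc] using h1
    · intro h
      have h1 := hnorm.conj_mem _ h y
      simpa [mul_assoc] using h1
  have hclosed : ∀ c, IsClosed (Zc c) := by
    intro c
    refine IsClosed.inter ?_ ?_
    · exact (Subgroup.isClosed_of_isOpen _ hopen).preimage (continuous_id.mul continuous_const)
    · refine isClosed_eq ?_ continuous_const
      unfold val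
      refine (MvPolynomial.continuous_eval _).comp ?_
      exact continuous_pi fun k => hρ'c.matrix_elem k.1 k.2
  have hnull : ∀ c, μ (Zc c) = 0 := by
    intro c
    refine null_of_poly μ ρ' hρ'c hopen hmin ?_
    rw [val_hankel]
    intro h0
    exact absurd ((numEigM_lt_iff le_rfl).2 h0) (lt_irrefl _)
  obtain ⟨N, hN1, hN2, hN3⟩ := cosets_of_null μ (Z := ⋃ c, Zc c) (isClosed_iUnion_of_finite hclosed)
    (measure_iUnion_null hnull) hε
  refine ⟨N, hN1, hN2, ?_⟩
  refine le_trans (le_of_eq ?_) hN3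
  congr 2
  ext c
  constructor
  · rintro ⟨x, hx, γ, hγ, hlt⟩
    refine ⟨x, Set.mem_iUnion.2 ⟨(x : P ⧸ Γ₀), ?_, ?_⟩, hx⟩
    · rw [hcoset, hx₀]
    · have hγx : ((γ * x : P) : P ⧸ Γ₀) = (x : P ⧸ Γ₀) := by
        rw [← hcoset]
        simpa [mul_assoc] using hγ
      rw [val_hankel, ← numEigM_lt_iff (hx₀max _ _ rfl)]
      rw [hnum, hnum] at hlt
      exact lt_of_lt_of_le hlt (hx₀max _ _ hγx)
  · rintro ⟨x, hx, rfl⟩
    obtain ⟨c, hc1, hc2⟩ := Set.mem_iUnion.1 hx
    refine ⟨x, rfl, (x₀ c) * x⁻¹, ?_, ?_⟩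
    · have := Γ₀.inv_mem hc1
      simpa using this
    · have hxc : (x : P ⧸ Γ₀) = c := by rw [(hcoset _ _).1 hc1, hx₀]
      rw [val_hankel, ← numEigM_lt_iff (hx₀max _ _ hxc)] at hc2
      rw [hnum, hnum]
      simpa using hc2

end Pool.Agent.Helper40.ZO
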