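import Pool.Agent.Helper40.ZO.PointM
import Pool.Agent.Helper40.ZO.Dens
import Pool.Agent.Helper40.ZO.Adx
import Pool.Agent.Helper40.ZO.Fidx

/-!
# The zero-one law, general form (helper40)
-/

set_option autoImplicit false

namespace Pool.Agent.Helper40.ZO

open Polynomial

variable {K V : Type*} [Field K] [AddCommGroup V] [Module K V] [FiniteDimensional K V]

section Algebra

variable {G : Type*} [Group G] (ρ : G →* Module.End K V)

include ρ in
/-- A subspace stable under `x` is stable under the group generated by `x`. -/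
theorem stable_zpowers {x : G} {W : Submodule K V} (h : ∀ v ∈ W, ρ x v ∈ W) :
    Stable (ρ '' (Subgroup.zpowers x : Set G)) W := by
  have hinv' : ∀ g : G, ρ g⁻¹ * ρ g = 1 := fun g => by rw [← map_mul, inv_mul_cancel, map_one]
  have hinj : Function.Injective (ρ x) := by
    intro u v huv
    have h4 : ρ x⁻¹ (ρ x u) = ρ x⁻¹ (ρ x v) := by rw [huv]
    have h5 : ∀ w, ρ x⁻¹ (ρ x w) = w := by
      intro w
      have h6 := LinearMap.congr_fun (hinv' x) w
      rwa [Module.End.mul_apply] at h6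
    rwa [h5, h5] at h4
  have hmap : W.map (ρ x) = W := by
    refine Submodule.eq_of_le_of_finrank_eq ?_ ?_
    · rintro _ ⟨v, hv, rfl⟩
      exact h v hv
    · exact (LinearEquiv.finrank_eq (Submodule.equivMapOfInjective (ρ x) hinj W)).symm
  let st : Subgroup G :=
    { carrier := {y | W.map (ρ y) = W}
      mul_mem' := by
        intro y z hy hz
        change W.map (ρ (y * z)) = W
        rw [map_mul]
        have : (ρ y * ρ z : Module.End K V) = (ρ y).comp (ρ z) := rfl
        rw [this, Submodule.map_comp, show W.map (ρ z) = W from hz]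
        exact hy
      one_mem' := by
        change W.map (ρ 1) = W
        rw [map_one]
        exact Submodule.map_id W
      inv_mem' := by
        intro y hy
        change W.map (ρ y⁻¹) = W
        have hy' : W.map (ρ y) = W := hy
        conv_lhs => rw [← hy', ← Submodule.map_comp]
        have : (ρ y⁻¹).comp (ρ y) = LinearMap.id := hinv' y
        rw [this, Submodule.map_id] }
  have hle : Subgroup.zpowers x ≤ st := by
    rw [Subgroup.zpowers_le]
    exact hmap
  rintro _ ⟨y, hy, rfl⟩ v hv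
  have h4 : W.map (ρ y) = W := hle hy
  rw [← h4]
  exact Submodule.mem_map_of_mem hv

omit [FiniteDimensional K V] in
/-- A subspace stable under `A` and `D` is stable under `A ⊔ D`. -/
theorem stable_sup' {A D : Subgroup G} {W : Submodule K V} (hA : Stable (ρ '' (A : Set G)) W)
    (hD : Stable (ρ '' (D : Set G)) W) : Stable (ρ '' ((A ⊔ D : Subgroup G) : Set G)) W := by
  let st : Subgroup G :=
    { carrier := {y | (∀ v ∈ W, ρ y v ∈ W) ∧ ∀ v ∈ W, ρ y⁻¹ v ∈ W}
      mul_mem' := by
        rintro y z ⟨h1, h2⟩ ⟨h3, h4⟩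
        refine ⟨fun v hv => ?_, fun v hv => ?_⟩
        · rw [map_mul, Module.End.mul_apply]
          exact h1 _ (h3 v hv)
        · rw [mul_inv_rev, map_mul, Module.End.mul_apply]
          exact h4 _ (h2 v hv)
      one_mem' := by
        refine ⟨fun v hv => ?_, fun v hv => ?_⟩
        · rw [map_one, Module.End.one_apply]
          exact hv
        · rw [inv_one, map_one, Module.End.one_apply]
          exact hv
      inv_mem' := by
        rintro y ⟨h1, h2⟩
        refine ⟨h2, fun v hv => ?_⟩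
        rw [inv_inv]
        exact h1 v hv }
  have hle : A ⊔ D ≤ st := sup_le
    (fun a ha => ⟨hA _ ⟨a, ha, rfl⟩, hA _ ⟨a⁻¹, A.inv_mem ha, rfl⟩⟩)
    (fun d hd => ⟨hD _ ⟨d, hd, rfl⟩, hD _ ⟨d⁻¹, D.inv_mem hd, rfl⟩⟩)
  rintro _ ⟨y, hy, rfl⟩
  exact (hle hy).1

/-- If `ρ x` is semisimple then `V` is semisimple under the group generated by `x`. -/
theorem zpowers_semisimple {x : G} (h : (ρ x).IsSemisimple) :
    ActsSemisimply (ρ '' (Subgroup.zpowers x : Set G)) := by
  intro W hW
  rw [Module.End.isSemisimple_iff] at h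
  obtain ⟨q, hq, hc⟩ := h W (by
    rw [Module.End.mem_invtSubmodule_iff_forall_mem_of_mem]
    exact hW _ ⟨x, Subgroup.mem_zpowers x, rfl⟩)
  rw [Module.End.mem_invtSubmodule_iff_forall_mem_of_mem] at hq
  exact ⟨q, stable_zpowers ρ hq, hc⟩

omit [FiniteDimensional K V] in
/-- If the commutant of the normal subgroup is commutative then `V` is semisimple. -/
theorem semisimple_of_comm {A : Subgroup G} [hAn : A.Normal]
    (hA : ActsSemisimply (ρ '' (A : Set G)))
    (hcomm : ∀ X Y : Module.End K V, (∀ a ∈ A, Commute (ρ a) X) → (∀ a ∈ A, Commute (ρ a) Y) →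
      Commute X Y) :
    ActsSemisimply (ρ '' (Set.univ : Set G)) := by
  have hinv : ∀ g : G, ρ g * ρ g⁻¹ = 1 := fun g => by rw [← map_mul, mul_inv_cancel, map_one]
  have hinv' : ∀ g : G, ρ g⁻¹ * ρ g = 1 := fun g => by rw [← map_mul, inv_mul_cancel, map_one]
  intro W hW
  have hWg : ∀ x : G, ∀ v ∈ W, ρ x v ∈ W := fun x => hW _ ⟨x, Set.mem_univ _, rfl⟩
  obtain ⟨W', hW', hc⟩ := hA W (by
    rintro _ ⟨y, -, rfl⟩; exact hWg y)
  obtain ⟨e, he1, he0, heW, hesub, hec⟩ := exists_projection hc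
  have heA : ∀ a ∈ A, Commute (ρ a) e := fun a ha => hec _ (hWg a) (hW' _ ⟨a, ha, rfl⟩)
  have hg : ∀ g : G, ρ g * e = e * ρ g := by
    intro g
    obtain ⟨e₁, he₁⟩ : ∃ e₁, e₁ = ρ g * e * ρ g⁻¹ := ⟨_, rfl⟩
    have he₁A : ∀ a ∈ A, Commute (ρ a) e₁ := by
      intro a ha
      have h1 := (heA (g⁻¹ * a * g) (by
        have := hAn.conj_mem a ha g⁻¹
        rwa [inv_inv] at this)).eq
      have h3 : ρ a * ρ g = ρ g * ρ (g⁻¹ * a * g) := by
        rw [← map_mul, ← map_mul]
        congr 1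
        group
      have h4 : ρ g⁻¹ * ρ a = ρ (g⁻¹ * a * g) * ρ g⁻¹ := by
        rw [← map_mul, ← map_mul]
        congr 1
        group
      change ρ a * e₁ = e₁ * ρ a
      rw [he₁]
      calc ρ a * (ρ g * e * ρ g⁻¹) = (ρ a * ρ g) * e * ρ g⁻¹ := by simp only [mul_assoc]
        _ = ρ g * (ρ (g⁻¹ * a * g) * e) * ρ g⁻¹ := by rw [h3]; simp only [mul_assoc]
        _ = ρ g * e * (ρ (g⁻¹ * a * g) * ρ g⁻¹) := by rw [h1]; simp only [mul_assoc]
        _ = ρ g * e * ρ g⁻¹ * ρ a := by rw [← h4]; simp only [mul_assoc]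
    have h5 : e * e₁ = e₁ := by
      ext v
      rw [Module.End.mul_apply]
      refine he1 _ ?_
      rw [he₁]
      exact hWg g _ (heW _)
    have h6 : e₁ * e = e := by
      ext v
      rw [Module.End.mul_apply, he₁, Module.End.mul_apply, Module.End.mul_apply,
        he1 _ (hWg g⁻¹ _ (heW v))]
      have h7 := LinearMap.congr_fun (hinv g) (e v)
      rwa [Module.End.mul_apply] at h7
    have h7 : e₁ = e := by rw [← h5, (hcomm e e₁ heA he₁A).eq, h6]
    calc ρ g * e = ρ g * e * (ρ g⁻¹ * ρ g) := by rw [hinv', mul_one]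
      _ = (ρ g * e * ρ g⁻¹) * ρ g := by simp only [mul_assoc]
      _ = e * ρ g := by rw [← he₁, h7]
  refine ⟨LinearMap.ker e, ?_, ?_⟩
  · rintro _ ⟨g, -, rfl⟩ v hv
    rw [LinearMap.mem_ker] at hv ⊢
    have h1 := LinearMap.congr_fun (hg g) v
    rw [Module.End.mul_apply, Module.End.mul_apply, hv, map_zero] at h1
    exact h1.symm
  · rw [isCompl_iff, disjoint_iff, codisjoint_iff]
    constructor
    · rw [eq_bot_iff]
      rintro v ⟨hv1, hv2⟩
      rw [Submodule.mem_bot, ← he1 v hv1]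
      exact hv2
    · rw [eq_top_iff]
      intro v _
      have h1 : v = e v + (v - e v) := by abel
      rw [h1]
      refine Submodule.add_mem_sup (heW v) ?_
      rw [LinearMap.mem_ker, map_sub, he1 _ (heW v), sub_self]

/-- The pointwise criterion, `V` semisimple under the normal subgroup `B` and under `B` and `x`. -/
theorem pointwise_rep_max [IsAlgClosed K] [CharZero K] {B : Subgroup G} [hBn : B.Normal]
    (hB : ActsSemisimply (ρ '' (B : Set G))) {x : G}
    (hss : ∀ W : Submodule K V, Stable (ρ '' (B : Set G)) W → (∀ v ∈ W, ρ x v ∈ W) →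
      ∃ W' : Submodule K V, Stable (ρ '' (B : Set G)) W' ∧ (∀ v ∈ W', ρ x v ∈ W') ∧
        IsCompl W W')
    (hmax : ∀ γ ∈ B, numEig (ρ (γ * x)) ≤ numEig (ρ x)) : (ρ x).IsSemisimple := by
  let u : G →* (Module.End K V)ˣ := ρ.toHomUnits
  have hu : ∀ g, ((u g : (Module.End K V)ˣ) : Module.End K V) = ρ g := fun g => rfl
  have hui : ∀ g, (((u g)⁻¹ : (Module.End K V)ˣ) : Module.End K V) = ρ g⁻¹ := by
    intro g
    rw [← map_inv]
    rfl
  have himg : img (B.map u) = ρ '' (B : Set G) := by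
    ext X
    constructor
    · rintro ⟨_, ⟨b, hb, rfl⟩, rfl⟩
      exact ⟨b, hb, rfl⟩
    · rintro ⟨b, hb, rfl⟩
      exact ⟨u b, ⟨b, hb, rfl⟩, rfl⟩
  have hconj : ∀ g ∈ B.map u, u x * g * (u x)⁻¹ ∈ B.map u := by
    rintro _ ⟨b, hb, rfl⟩
    refine ⟨x * b * x⁻¹, hBn.conj_mem b hb x, ?_⟩
    rw [map_mul, map_mul, map_inv]
  refine pointwise_max (Γ := B.map u) (h := u x) (by rw [himg]; exact hB) hconj ?_ ?_
  · intro m S U hJ X hX
    refine comm_of_ss ρ (B := B) (x := x) ?_ hss (hu x) (hui x) hJ X ?_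
    · intro b hb
      have := hBn.conj_mem b hb x⁻¹
      rwa [inv_inv] at this
    · intro b hb
      exact hX (u b) ⟨b, hb, rfl⟩
  · rintro _ ⟨b, hb, rfl⟩
    rw [← map_mul, hu, hu]
    exact hmax b hb

end Algebra

section Top

variable {P : Type*} [Group P] [TopologicalSpace P] [IsTopologicalGroup P] [CompactSpace P]
  [TopologicalSpace K] [T2Space K] (ρ : P →* Module.End K V)
  (hρ : ∀ (v : V) (f : Module.Dual K V), Continuous fun x => f (ρ x v))

include hρ in
omit [CompactSpace P] in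
/-- A subspace stable under `A` and `D` is stable under the closure of `A ⊔ D`. -/
theorem stable_topologicalClosure {A D : Subgroup P} {W : Submodule K V}
    (hA : Stable (ρ '' (A : Set P)) W) (hD : Stable (ρ '' (D : Set P)) W) :
    Stable (ρ '' ((A ⊔ D).topologicalClosure : Set P)) W := by
  rw [Subgroup.topologicalClosure_coe]
  exact stable_closure ρ hρ (stable_sup' ρ hA hD)

include hρ in
/-- Semisimple under the normal subgroup `A` and under `D`, where `A` and `D` generate an open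
subgroup: then semisimple. -/
theorem semisimple_of_sup [CharZero K] {A D : Subgroup P} [hAn : A.Normal]
    (hA : ActsSemisimply (ρ '' (A : Set P))) (hD : ActsSemisimply (ρ '' (D : Set P)))
    (hopen : IsOpen ((A ⊔ D).topologicalClosure : Set P)) :
    ActsSemisimply (ρ '' (Set.univ : Set P)) := by
  have h1 : ActsSemisimply (ρ '' ((A ⊔ D).topologicalClosure : Set P)) := by
    intro W hW
    have hle : A ⊔ D ≤ (A ⊔ D).topologicalClosure := Subgroup.le_topologicalClosure _
    obtain ⟨W', h2, h3, h4⟩ := sup_semisimple ρ (A := A) (D := D)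
      (fun d _ a ha => hAn.conj_mem a ha d) hA hD (W := W)
      (by rintro _ ⟨a, ha, rfl⟩; exact hW _ ⟨a, hle (le_sup_left (a := A) ha), rfl⟩)
      (by rintro _ ⟨a, ha, rfl⟩; exact hW _ ⟨a, hle (le_sup_right (b := D) ha), rfl⟩)
    exact ⟨W', stable_topologicalClosure ρ hρ h2 h3, h4⟩
  haveI : Finite (P ⧸ (A ⊔ D).topologicalClosure) := Subgroup.quotient_finite_of_isOpen _ hopen
  haveI : (A ⊔ D).topologicalClosure.FiniteIndex := Subgroup.finiteIndex_of_finite_quotient
  have h2 := maschke ρ (B := (A ⊔ D).topologicalClosure) (H := ⊤) le_top inferInstance h1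
  rwa [Subgroup.coe_top] at h2

include hρ in
/-- The pointwise criterion if `V` is semisimple and `B` and `x` generate an open subgroup. -/
theorem criterion_open [IsAlgClosed K] [CharZero K]
    (hP : ActsSemisimply (ρ '' (Set.univ : Set P))) {B : Subgroup P} [hBn : B.Normal] {x : P}
    (hopen : IsOpen ((B ⊔ Subgroup.zpowers x).topologicalClosure : Set P))
    (hmax : ∀ γ ∈ B, numEig (ρ (γ * x)) ≤ numEig (ρ x)) : (ρ x).IsSemisimple := by
  have hB : ActsSemisimply (ρ '' (B : Set P)) :=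
    clifford ρ (A := ⊤) le_top (fun x _ y hy => hBn.conj_mem y hy x)
      (by rw [Subgroup.coe_top]; exact hP)
  haveI : Finite (P ⧸ (B ⊔ Subgroup.zpowers x).topologicalClosure) :=
    Subgroup.quotient_finite_of_isOpen _ hopen
  haveI : (B ⊔ Subgroup.zpowers x).topologicalClosure.FiniteIndex :=
    Subgroup.finiteIndex_of_finite_quotient
  have hH := finiteIndex_semisimple ρ (H := (B ⊔ Subgroup.zpowers x).topologicalClosure) hP
  have hle : B ⊔ Subgroup.zpowers x ≤ (B ⊔ Subgroup.zpowers x).topologicalClosure :=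
    Subgroup.le_topologicalClosure _
  refine pointwise_rep_max ρ hB ?_ hmax
  intro W hW hx
  obtain ⟨W', h1, h2⟩ := hH W (stable_topologicalClosure ρ hρ hW (stable_zpowers ρ hx))
  refine ⟨W', ?_, ?_, h2⟩
  · rintro _ ⟨a, ha, rfl⟩
    exact h1 _ ⟨a, hle (le_sup_left (a := B) ha), rfl⟩
  · exact h1 _ ⟨x, hle (le_sup_right (a := B) (Subgroup.mem_zpowers x)), rfl⟩

include hρ in
/-- The elements which are not semisimple lie in few cosets of an open normal subgroup. -/
theorem few_cosets [IsAlgClosed K] [CharZero K] [TotallyDisconnectedSpace P] [IsTopologicalRing K]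
    (hP : ActsSemisimply (ρ '' (Set.univ : Set P))) {ε : ℝ} (hε : 0 < ε) :
    ∃ N : Subgroup P, N.Normal ∧ IsOpen (N : Set P) ∧
      ((Set.ncard {c : P ⧸ N | ∃ x : P, (x : P ⧸ N) = c ∧ ¬ (ρ x).IsSemisimple} : ℕ) : ℝ) ≤
        ε * Nat.card (P ⧸ N) := by
  obtain ⟨Γ₀, hn, ho, h⟩ := dens ρ hρ
  obtain ⟨N, hN1, hN2, hN3⟩ := h ε hε
  refine ⟨N, hN1, hN2, le_trans ?_ hN3⟩
  haveI : Finite (P ⧸ N) := Subgroup.quotient_finite_of_isOpen N hN2
  have hsub : {c : P ⧸ N | ∃ x : P, (x : P ⧸ N) = c ∧ ¬ (ρ x).IsSemisimple} ⊆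
      {c : P ⧸ N | ∃ x : P, (x : P ⧸ N) = c ∧
          ∃ γ ∈ Γ₀, numEig (ρ x) < numEig (ρ (γ * x))} := by
    rintro c ⟨x, hx, hns⟩
    refine ⟨x, hx, ?_⟩
    by_contra hcon
    push Not at hcon
    refine hns (criterion_open ρ hρ hP (B := Γ₀) ?_ hcon)
    exact Subgroup.isOpen_mono (le_sup_left.trans (Subgroup.le_topologicalClosure _)) ho
  exact_mod_cast Set.ncard_le_ncard hsub (Set.toFinite _)

end Top

end Pool.Agent.Helper40.ZO
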