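import Pool.Agent.Helper40.ZO.Stab

/-!
# Block ZO-COMM: the logarithm commutes with the commutant

`T` a space of endomorphisms stable under conjugation by `h` and by the semisimple `σ`, and
`h ^ k X h⁻¹ ^ k = σ X σ⁻¹` for `X ∈ T`, `k ≥ 1`. Then `lg K m U` commutes with all elements of `T`.
PROOF. (1) `τ X = σ X σ⁻¹` is a semisimple endomorphism of `Module.End K V`: left multiplication by
`σ` and right multiplication by `σ⁻¹` are commuting semisimple endomorphisms
(`Module.End.IsSemisimple.of_mem_adjoin_pair`, `Module.End.isSemisimple_of_squarefree_aeval_eq_zero`;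
`σ⁻¹` is a polynomial in `σ`). So is its restriction to `T` (`Module.End.IsSemisimple.restrict`),
which is `f ^ k`, `f` = restriction of `X ↦ h X h⁻¹`.
(2) `of_pow`: if `f` is injective and `f ^ k`, `k ≥ 1`, is semisimple then `f` is
semisimple: `(f - μ) ^ 2 v = 0`, `w = (f - μ) v`: `f w = μ w`, `f ^ k v = μ ^ k v + k μ ^ (k-1) w`, so
`(f ^ k - μ ^ k) ^ 2 v = 0`, `(f ^ k - μ ^ k) v = 0`, `k μ ^ (k-1) w = 0`, and `μ ≠ 0` if `w ≠ 0`.
(3) `K` is algebraically closed, so `T` is the sum of the eigenspaces of `f`
(`Module.End.IsSemisimple.iSup_eigenspace_eq_top`), and eigenvectors commute with `lg K m U` by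
`comm_lg`.
-/

set_option autoImplicit false

namespace Pool.Agent.Helper40.ZO

open Polynomial

variable {K V : Type*} [Field K] [IsAlgClosed K] [CharZero K] [AddCommGroup V] [Module K V]
  [FiniteDimensional K V]

theorem of_pow {f : Module.End K V} (hf : Function.Injective f) {k : ℕ} (hk : 1 ≤ k)
    (h : (f ^ k).IsSemisimple) : f.IsSemisimple := by
  have hsq : Squarefree (minpoly K (f ^ k)) := h.minpoly_squarefree
  have hsep : (minpoly K (f ^ k)).Separable := PerfectField.separable_iff_squarefree.mpr hsq
  have hinj : Function.Injective (f ^ k) := by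
    rw [Module.End.coe_pow]
    exact hf.iterate k
  have h0 : (minpoly K (f ^ k)).coeff 0 ≠ 0 := by
    intro h0
    have h1 : (minpoly K (f ^ k)).IsRoot 0 := by rwa [IsRoot, ← coeff_zero_eq_eval_zero]
    have h2 := Module.End.hasEigenvalue_of_isRoot h1
    obtain ⟨v, hv⟩ := h2.exists_hasEigenvector
    have h3 := hv.apply_eq_smul
    rw [zero_smul] at h3
    exact hv.2 (hinj (by rw [h3, map_zero]))
  have hsep2 : (expand K k (minpoly K (f ^ k))).Separable := by
    unfold Separable
    rw [derivative_expand]
    refine IsCoprime.mul_right ?_ (IsCoprime.mul_right ?_ (IsCoprime.pow_right ?_))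
    · have h7 : IsCoprime (minpoly K (f ^ k)) (derivative (minpoly K (f ^ k))) := hsep
      exact h7.map (expand K k).toRingHom
    · have : IsUnit ((k : K[X])) := by
        rw [← C_eq_natCast]
        exact (isUnit_C.2 (IsUnit.mk0 _ (by exact_mod_cast (by omega : k ≠ 0))))
      obtain ⟨u, hu⟩ := this
      exact ⟨0, (u⁻¹ : (K[X])ˣ), by rw [← hu]; simp⟩
    · have h4 : IsCoprime (minpoly K (f ^ k)) X := by
        rw [isCoprime_comm]
        rw [(irreducible_X).coprime_iff_not_dvd, X_dvd_iff]
        exact h0
      have h5 := h4.map (expand K k).toRingHom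
      have h6 : (expand K k).toRingHom X = (X : K[X]) ^ k := expand_X k
      rw [h6] at h5
      exact (IsCoprime.pow_right_iff (by omega)).1 h5
  refine Module.End.isSemisimple_of_squarefree_aeval_eq_zero hsep2.squarefree ?_
  rw [expand_aeval, minpoly.aeval]

omit [IsAlgClosed K] [CharZero K] in
/-- the inverse of a semisimple unit is semisimple -/
lemma Comm_inv {σ : (Module.End K V)ˣ} (hσ : (σ : Module.End K V).IsSemisimple) :
    ((σ⁻¹ : (Module.End K V)ˣ) : Module.End K V).IsSemisimple := by
  rw [Module.End.isSemisimple_iff] at hσ ⊢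
  have key : ∀ (g : (Module.End K V)ˣ) (p : Submodule K V), p ≤ p.comap (g : Module.End K V) →
      p ≤ p.comap ((g⁻¹ : (Module.End K V)ˣ) : Module.End K V) := by
    intro g p hp
    have h1 : p.map (g : Module.End K V) ≤ p := Submodule.map_le_iff_le_comap.2 hp
    have hgi : Function.Injective (g : Module.End K V) := by
      intro x y hxy
      have := congrArg ((g⁻¹ : (Module.End K V)ˣ) : Module.End K V) hxy
      rwa [← Module.End.mul_apply, ← Module.End.mul_apply, Units.inv_mul] at this
    have h2 : p.map (g : Module.End K V) = p := by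
      apply Submodule.eq_of_le_of_finrank_eq h1
      exact (LinearEquiv.finrank_eq (Submodule.equivMapOfInjective _ hgi p)).symm
    intro x hx
    rw [← h2] at hx
    obtain ⟨y, hy, rfl⟩ := hx
    rw [Submodule.mem_comap, ← Module.End.mul_apply, Units.inv_mul]
    exact hy
  intro p hp
  rw [Module.End.mem_invtSubmodule] at hp
  have hp' := key σ⁻¹ p hp
  rw [inv_inv] at hp'
  obtain ⟨q, hq, hpq⟩ := hσ p hp'
  exact ⟨q, key σ q hq, hpq⟩

omit [IsAlgClosed K] [CharZero K] in
lemma Comm_mulLeft {σ : Module.End K V} (hσ : σ.IsSemisimple) : Module.End.IsSemisimple (LinearMap.mulLeft K σ) := by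
  have hsq := hσ.minpoly_squarefree
  refine Module.End.isSemisimple_of_squarefree_aeval_eq_zero hsq ?_
  have : LinearMap.mulLeft K σ = Algebra.lmul K (Module.End K V) σ := rfl
  rw [this, aeval_algHom_apply, minpoly.aeval, map_zero]

omit [IsAlgClosed K] [CharZero K] in
lemma Comm_mulRight {σ : Module.End K V} (hσ : σ.IsSemisimple) : Module.End.IsSemisimple (LinearMap.mulRight K σ) := by
  have hsq := hσ.minpoly_squarefree
  refine Module.End.isSemisimple_of_squarefree_aeval_eq_zero hsq ?_
  have key : ∀ p : K[X], aeval (LinearMap.mulRight K σ) p = LinearMap.mulRight K (aeval σ p) := by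
    intro p
    induction p using Polynomial.induction_on' with
    | add p q hp hq => rw [map_add, map_add, hp, hq]; ext x; simp [mul_add]
    | monomial n a =>
      rw [aeval_monomial, aeval_monomial]
      ext x
      simp [LinearMap.pow_mulRight, Algebra.smul_def]
  rw [key, minpoly.aeval]
  ext x
  simp

theorem comm_of_pow {h σ : (Module.End K V)ˣ} {m : ℕ} {S U : Module.End K V}
    (hJ : JC K m (h : Module.End K V) S U) (hσ : (σ : Module.End K V).IsSemisimple)
    {T : Submodule K (Module.End K V)}
    (hT : ∀ X ∈ T, (h : Module.End K V) * X * (h⁻¹ : (Module.End K V)ˣ) ∈ T)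
    {k : ℕ} (hk : 1 ≤ k)
    (hpow : ∀ X ∈ T, ((h ^ k : (Module.End K V)ˣ) : Module.End K V) * X *
      ((h ^ k)⁻¹ : (Module.End K V)ˣ) = (σ : Module.End K V) * X * (σ⁻¹ : (Module.End K V)ˣ)) :
    ∀ X ∈ T, Commute (lg K m U) X := by
  -- conjugation by h and by σ
  set ch : Module.End K (Module.End K V) :=
    (LinearMap.mulLeft K (h : Module.End K V)) * LinearMap.mulRight K ((h⁻¹ : (Module.End K V)ˣ) : Module.End K V) with hch
  set cs : Module.End K (Module.End K V) :=
    (LinearMap.mulLeft K (σ : Module.End K V)) * LinearMap.mulRight K ((σ⁻¹ : (Module.End K V)ˣ) : Module.End K V) with hcs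
  have hchX : ∀ X, ch X = (h : Module.End K V) * X * (h⁻¹ : (Module.End K V)ˣ) := by
    intro X
    rw [hch, Module.End.mul_apply, LinearMap.mulLeft_apply, LinearMap.mulRight_apply, mul_assoc]
  have hcsX : ∀ X, cs X = (σ : Module.End K V) * X * (σ⁻¹ : (Module.End K V)ˣ) := by
    intro X
    rw [hcs, Module.End.mul_apply, LinearMap.mulLeft_apply, LinearMap.mulRight_apply, mul_assoc]
  have hss : cs.IsSemisimple := by
    refine Module.End.IsSemisimple.mul_of_commute ?_ (Comm_mulLeft hσ) (Comm_mulRight (Comm_inv hσ))
    ext X : 1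
    simp [mul_assoc]
  have hpowX : ∀ (j : ℕ) (X : Module.End K V), (ch ^ j) X = ((h ^ j : (Module.End K V)ˣ) : Module.End K V) * X *
      ((h ^ j)⁻¹ : (Module.End K V)ˣ) := by
    intro j
    induction j with
    | zero => intro X; simp
    | succ j ih =>
      intro X
      rw [pow_succ', Module.End.mul_apply, ih, hchX]
      simp only [mul_inv_rev, Units.val_mul, pow_succ', mul_assoc]
  have hchT : ∀ X ∈ T, ch X ∈ T := by
    intro X hX
    rw [hchX]
    exact hT X hX
  have hcsT : ∀ X ∈ T, cs X ∈ T := by
    intro X hX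
    rw [hcsX, ← hpow X hX, ← hpowX]
    have : ∀ j : ℕ, (ch ^ j) X ∈ T := by
      intro j
      induction j with
      | zero => simpa using hX
      | succ j ih =>
        rw [pow_succ', Module.End.mul_apply, hchX]
        exact hT _ ih
    exact this k
  obtain ⟨f, hfX⟩ : ∃ f : Module.End K T, ∀ X : T, ((f X : T) : Module.End K V) = ch X :=
    ⟨LinearMap.restrict ch hchT, fun X => rfl⟩
  obtain ⟨g, hg, hgX⟩ : ∃ g : Module.End K T, g.IsSemisimple ∧ ∀ X : T, ((g X : T) : Module.End K V) = cs X :=
    ⟨LinearMap.restrict cs hcsT, Module.End.IsSemisimple.restrict hcsT hss, fun X => rfl⟩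
  have hfpow : ∀ (j : ℕ) (X : T), (((f ^ j) X : T) : Module.End K V) = (ch ^ j) X := by
    intro j
    induction j with
    | zero => intro X; simp
    | succ j ih =>
      intro X
      rw [pow_succ', pow_succ', Module.End.mul_apply, hfX, ih]
      rfl
  have hr : (f ^ k).IsSemisimple := by
    have h1 : f ^ k = g := by
      apply LinearMap.ext
      intro X
      apply Subtype.ext
      rw [hfpow, hgX, hpowX, hpow _ X.2, hcsX]
    rw [h1]
    exact hg
  have hinj : Function.Injective f := by
    intro X Y hXY
    have h1 := congrArg Subtype.val hXY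
    rw [hfX, hfX, hchX, hchX] at h1
    have h2 := congrArg (fun Z => ((h⁻¹ : (Module.End K V)ˣ) : Module.End K V) * Z * h) h1
    simp only [mul_assoc, Units.inv_mul, mul_one] at h2
    simp only [← mul_assoc, Units.inv_mul, one_mul] at h2
    exact Subtype.ext h2
  have hf := of_pow hinj hk hr
  have htop := hf.iSup_eigenspace_eq_top
  -- the commutant of lg as a submodule of T
  let C : Submodule K T :=
    { carrier := {X | Commute (lg K m U) (X : Module.End K V)}
      add_mem' := fun {a b} ha hb => by
        change Commute _ _ at ha hb ⊢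
        rw [Submodule.coe_add]
        exact ha.add_right hb
      zero_mem' := by
        change Commute _ _
        exact Commute.zero_right _
      smul_mem' := fun c a ha => by
        change Commute _ _ at ha ⊢
        rw [Submodule.coe_smul]
        exact ha.smul_right c }
  have hC : ⨆ μ : K, Module.End.eigenspace f μ ≤ C := by
    refine iSup_le fun μ => ?_
    intro X hX
    rw [Module.End.mem_eigenspace_iff] at hX
    have h1 := congrArg Subtype.val hX
    rw [hfX, Submodule.coe_smul, hchX] at h1
    exact comm_lg hJ h1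
  rw [htop, top_le_iff] at hC
  intro X hX
  have : (⟨X, hX⟩ : T) ∈ C := by rw [hC]; trivial
  exact this

end Pool.Agent.Helper40.ZO
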