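import Pool.Agent.Helper40.ZO.Curve

/-!
# Block ZO-STAB: spaces stable under conjugation by `h`

`h` invertible with Jordan decomposition `h = S U`, `N = lg K m U`.
Choose a basis of `V` (`LinearMap.toMatrixAlgEquiv`) to get matrices; let `A, A'` be as in
`exists_curve`.
* `stab_S`, `stab_lg`: let `φ` be a linear form on the matrices vanishing on `T`, `X ∈ T`;
  `φ` has coefficients `φ M = ∑ c_ij M_ij`. Put `r = ∑ c_ij (A * X * A')_ij ∈ EP K`; `ev k r =
  φ (h ^ k X h⁻¹ ^ k) = 0`, so `r = 0` by `EP.eq_zero`. `sp 1 r` at `0` is `φ (S X S⁻¹)`. `sp 0 r` is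
  `φ (cv m U * X * cv m U⁻¹)`, its coefficient of `X` is `φ (N X - X N)` by `cv_coeff_zero`,
  `cv_coeff_one`, `lg_inv`. A subspace is the intersection of the kernels of the linear forms
  vanishing on it (`Submodule.exists_le_ker_of_notMem` or similar).
* `comm_lg`: if `h X h⁻¹ = χ X`, `X ≠ 0` (so `χ ≠ 0`), then each entry of `A * X * A' - χ ^ a • X`
  is in `EP K` and has value zero at all `k`, so it vanishes; coefficient of `X` of `sp 0`.
-/

set_option autoImplicit false

namespace Pool.Agent.Helper40.ZO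

open Polynomial

variable {K V : Type*} [Field K] [IsAlgClosed K] [CharZero K] [AddCommGroup V] [Module K V]
  [FiniteDimensional K V]

section mat

variable {n : ℕ}

/-- the extension of a linear form to matrices over an algebra -/
private noncomputable def ext {B : Type*} [CommRing B] [Algebra K B]
    (φ : Mat n K →ₗ[K] K) (M : Mat n B) : B :=
  ∑ i, ∑ j, algebraMap K B (φ (Matrix.single i j 1)) * M i j

omit [IsAlgClosed K] [CharZero K] in
private lemma ext_map {B B' : Type*} [CommRing B] [Algebra K B] [CommRing B'] [Algebra K B']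
    (f : B →ₐ[K] B') (φ : Mat n K →ₗ[K] K) (M : Mat n B) : f (ext φ M) = ext φ (M.map f) := by
  unfold ext
  simp only [map_sum, map_mul, AlgHom.commutes, Matrix.map_apply]

omit [IsAlgClosed K] [CharZero K] in
private lemma ext_self (φ : Mat n K →ₗ[K] K) (M : Mat n K) : ext φ M = φ M := by
  unfold ext
  conv_rhs => rw [Matrix.matrix_eq_sum_single M]
  rw [map_sum]
  refine Finset.sum_congr rfl fun i _ => ?_
  rw [map_sum]
  refine Finset.sum_congr rfl fun j _ => ?_
  have h1 : Matrix.single i j (M i j) = M i j • (Matrix.single i j (1 : K)) := by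
    rw [Matrix.smul_single, smul_eq_mul, mul_one]
  rw [h1, map_smul, smul_eq_mul, mul_comm]
  rfl

omit [IsAlgClosed K] [CharZero K] in
private lemma coeff_one_mul (P Q : Mat n K[X]) : (P * Q).map (fun p => p.coeff 1) =
    P.map (fun p => p.coeff 0) * Q.map (fun p => p.coeff 1) +
      P.map (fun p => p.coeff 1) * Q.map (fun p => p.coeff 0) := by
  ext i j
  simp only [Matrix.map_apply, Matrix.mul_apply, Matrix.add_apply, finsetSum_coeff,
    mul_coeff_one, Finset.sum_add_distrib]

omit [IsAlgClosed K] [CharZero K] in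
private lemma coeff_zero_mul (P Q : Mat n K[X]) : (P * Q).map (fun p => p.coeff 0) =
    P.map (fun p => p.coeff 0) * Q.map (fun p => p.coeff 0) := by
  ext i j
  simp only [Matrix.map_apply, Matrix.mul_apply, finsetSum_coeff, mul_coeff_zero]

private lemma mat_key {m : ℕ} {h S U : Mat n K} (hJ : JC K m h S U) (hu : IsUnit h) {χ c : K}
    (hχ : χ ≠ 0) (φ : Mat n K →ₗ[K] K) (X : Mat n K)
    (hk : ∀ k : ℕ, φ (h ^ k * X * h⁻¹ ^ k) = χ ^ k * c) :
    φ (S * X * S⁻¹) = χ * c ∧ φ (lg K m U * X - X * lg K m U) = 0 := by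
  obtain ⟨A, A', h1, ⟨h2, h2'⟩, h3⟩ := exists_curve hJ hu
  let pe : EP K := ⟨fun a => C (χ ^ a), Algebra.subset_adjoin (Or.inl ⟨χ, hχ, rfl⟩)⟩
  let r : EP K := ext φ (A * X.map (algebraMap K (EP K)) * A') - algebraMap K (EP K) c * pe
  have hmap : ∀ {B : Type _} [CommRing B] [Algebra K B] (f : EP K →ₐ[K] B),
      f r = ext φ (A.map f * X.map (algebraMap K B) * A'.map f) - algebraMap K B c * f pe := by
    intro B _ _ f
    have e1 : (A * X.map (algebraMap K (EP K)) * A').map f =
        A.map f * X.map (algebraMap K B) * A'.map f := by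
      rw [Matrix.map_mul, Matrix.map_mul, Matrix.map_map]
      congr 2
      ext i j
      simp only [Matrix.map_apply, Function.comp_apply, AlgHom.commutes]
    rw [map_sub, map_mul, AlgHom.commutes, ext_map, e1]
  have hid : X.map (algebraMap K K) = X := by
    ext i j
    rfl
  have hr : r = 0 := by
    refine EP.eq_zero fun k => ?_
    rw [hmap (ev k), (h1 k).1, (h1 k).2, hid, ext_self, hk k]
    have e2 : ev k pe = χ ^ k := by
      rw [ev_apply]
      exact eval_C
    rw [e2, Algebra.algebraMap_self, RingHom.id_apply]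
    ring
  constructor
  · have h4 := hmap ((aeval (0 : K)).comp (sp 1))
    rw [hr, map_zero] at h4
    have e1 : A.map ((aeval (0 : K)).comp (sp 1)) = S ^ 1 := by
      rw [← (h3 1).1, Matrix.map_map]
      rfl
    have e1' : A'.map ((aeval (0 : K)).comp (sp 1)) = S⁻¹ ^ 1 := by
      rw [← (h3 1).2, Matrix.map_map]
      rfl
    have e2 : ((aeval (0 : K)).comp (sp 1)) pe = χ := by
      show aeval (0 : K) (C (χ ^ 1)) = χ
      rw [aeval_C, pow_one]
      rfl
    rw [e1, e1', e2, pow_one, pow_one, hid, ext_self, Algebra.algebraMap_self, RingHom.id_apply]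
      at h4
    rw [mul_comm]
    exact (sub_eq_zero.1 h4.symm)
  · have h4 := hmap (sp 0)
    rw [hr, map_zero, h2, h2'] at h4
    have e2 : sp 0 pe = 1 := by
      show C (χ ^ 0) = 1
      rw [pow_zero, C_1]
    rw [e2, mul_one] at h4
    have h5 := congrArg (fun p : K[X] => p.coeff 1) h4
    simp only [coeff_zero, coeff_sub] at h5
    have h6 : (algebraMap K K[X] c).coeff 1 = 0 := by
      rw [← C_eq_algebraMap, coeff_C, if_neg one_ne_zero]
    have h7 : ∀ M : Mat n K[X], (ext φ M).coeff 1 = φ (M.map (fun p => p.coeff 1)) := by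
      intro M
      rw [← ext_self]
      unfold ext
      rw [finsetSum_coeff]
      refine Finset.sum_congr rfl fun i _ => ?_
      rw [finsetSum_coeff]
      refine Finset.sum_congr rfl fun j _ => ?_
      rw [← C_eq_algebraMap, coeff_C_mul]
      rfl
    rw [h6, sub_zero, h7, coeff_one_mul, coeff_one_mul, coeff_zero_mul] at h5
    have hX0 : (X.map (algebraMap K K[X])).map (fun p => p.coeff 0) = X := by
      ext i j
      simp only [Matrix.map_apply]
      rw [← C_eq_algebraMap, coeff_C_zero]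
    have hX1 : (X.map (algebraMap K K[X])).map (fun p => p.coeff 1) = 0 := by
      ext i j
      simp only [Matrix.map_apply]
      rw [← C_eq_algebraMap, coeff_C, if_neg one_ne_zero]
      rfl
    obtain ⟨g1, g2⟩ := lg_inv hJ.nil
    rw [hX0, hX1, cv_coeff_zero hJ.nil, cv_coeff_one hJ.nil, cv_coeff_zero g1,
      cv_coeff_one g1, g2, Matrix.mul_zero, zero_add, Matrix.one_mul, Matrix.mul_one,
      Matrix.mul_neg] at h5
    rw [h5]
    congr 1
    abel

end mat

omit [IsAlgClosed K] [CharZero K] [FiniteDimensional K V] in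
private lemma JC.map {R R' : Type*} [Ring R] [Algebra K R] [Ring R'] [Algebra K R']
    (Φ : R →ₐ[K] R') {m : ℕ} {h S U : R} (hJ : JC K m h S U) : JC K m (Φ h) (Φ S) (Φ U) := by
  obtain ⟨p, hp, hpS⟩ := hJ.ss
  have hmem : ∀ {x : R}, x ∈ Algebra.adjoin K {h} → Φ x ∈ Algebra.adjoin K {Φ h} := by
    intro x hx
    rw [Algebra.adjoin_singleton_eq_range_aeval] at hx ⊢
    obtain ⟨q, rfl⟩ := hx
    exact ⟨q, aeval_algHom_apply Φ h q⟩
  refine ⟨hJ.pos, by rw [hJ.mul, map_mul], by rw [← map_mul, hJ.comm, map_mul],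
    ⟨p, hp, by rw [aeval_algHom_apply, hpS, map_zero]⟩, ?_, hmem hJ.memS, hmem hJ.memU⟩
  rw [← map_one Φ, ← map_sub, ← map_pow, hJ.nil, map_zero]

omit [IsAlgClosed K] [CharZero K] [FiniteDimensional K V] in
private lemma lg_map {R R' : Type*} [Ring R] [Algebra K R] [Ring R'] [Algebra K R']
    (Φ : R →ₐ[K] R') (m : ℕ) (U : R) : Φ (lg K m U) = lg K m (Φ U) := by
  unfold lg
  rw [map_sum]
  refine Finset.sum_congr rfl fun j _ => ?_
  rw [map_smul, map_pow, map_sub, map_one]

/-- the transfer of `mat_key` -/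
private lemma end_key {h : (Module.End K V)ˣ} {m : ℕ} {S U : Module.End K V}
    (hJ : JC K m (h : Module.End K V) S U) {χ c : K} (hχ : χ ≠ 0) (φ : Module.End K V →ₗ[K] K)
    (X : Module.End K V)
    (hk : ∀ k : ℕ, φ ((h : Module.End K V) ^ k * X * (h⁻¹ : (Module.End K V)ˣ) ^ k) = χ ^ k * c) :
    (∀ S' : Module.End K V, S * S' = 1 → φ (S * X * S') = χ * c) ∧
      φ (lg K m U * X - X * lg K m U) = 0 := by
  let Φ : Module.End K V ≃ₐ[K] Mat (Module.finrank K V) K :=
    LinearMap.toMatrixAlgEquiv (Module.finBasis K V)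
  have hJ' := JC.map (Φ : Module.End K V →ₐ[K] Mat (Module.finrank K V) K) hJ
  have hinv : ∀ {a b : Module.End K V}, a * b = 1 → (Φ a)⁻¹ = Φ b := by
    intro a b hab
    refine Matrix.inv_eq_right_inv ?_
    rw [← map_mul, hab, map_one]
  have hh : (Φ (h : Module.End K V))⁻¹ = Φ ((h⁻¹ : (Module.End K V)ˣ) : Module.End K V) :=
    hinv (Units.mul_inv h)
  have hu : IsUnit (Φ (h : Module.End K V)) := h.isUnit.map Φ
  obtain ⟨h1, h2⟩ := mat_key hJ' hu hχ (φ ∘ₗ (Φ.symm.toLinearMap)) (Φ X) (fun k => by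
    have e : (Φ (h : Module.End K V)) ^ k * Φ X * (Φ (h : Module.End K V))⁻¹ ^ k =
        Φ ((h : Module.End K V) ^ k * X * (h⁻¹ : (Module.End K V)ˣ) ^ k) := by
      rw [hh, map_mul, map_mul, map_pow, map_pow]
    rw [← hk k]
    show φ (Φ.symm _) = _
    refine congrArg φ ?_
    rw [AlgEquiv.symm_apply_eq]
    exact e)
  constructor
  · intro S' hS
    rw [← h1]
    show _ = φ (Φ.symm _)
    refine congrArg φ ?_
    rw [eq_comm, AlgEquiv.symm_apply_eq]
    show Φ S * Φ X * (Φ S)⁻¹ = _
    rw [hinv hS, map_mul, map_mul]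
  · rw [← h2]
    show _ = φ (Φ.symm _)
    refine congrArg φ ?_
    rw [eq_comm, AlgEquiv.symm_apply_eq, map_sub, map_mul, map_mul]
    have e := lg_map (Φ : Module.End K V →ₐ[K] Mat (Module.finrank K V) K) m U
    show lg K m (Φ U) * Φ X - Φ X * lg K m (Φ U) = _
    rw [show Φ (lg K m U) = lg K m (Φ U) from e]

omit [IsAlgClosed K] [CharZero K] [FiniteDimensional K V] in
private lemma pow_mem_T {h : (Module.End K V)ˣ} {T : Submodule K (Module.End K V)}
    (hT : ∀ X ∈ T, (h : Module.End K V) * X * (h⁻¹ : (Module.End K V)ˣ) ∈ T) {X : Module.End K V}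
    (hX : X ∈ T) (k : ℕ) :
    (h : Module.End K V) ^ k * X * ((h⁻¹ : (Module.End K V)ˣ) : Module.End K V) ^ k ∈ T := by
  induction k with
  | zero => simpa using hX
  | succ k ih =>
    have h1 := hT _ ih
    rw [pow_succ' (h : Module.End K V), pow_succ ((h⁻¹ : (Module.End K V)ˣ) : Module.End K V)]
    simpa only [mul_assoc] using h1

theorem stab_S {h : (Module.End K V)ˣ} {m : ℕ} {S U : Module.End K V}
    (hJ : JC K m (h : Module.End K V) S U) {T : Submodule K (Module.End K V)}
    (hT : ∀ X ∈ T, (h : Module.End K V) * X * (h⁻¹ : (Module.End K V)ˣ) ∈ T)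
    {S' : Module.End K V} (hS : S * S' = 1) : ∀ X ∈ T, S * X * S' ∈ T := by
  intro X hX
  by_contra hne
  obtain ⟨φ, h1, h2⟩ := Submodule.exists_le_ker_of_notMem hne
  apply h1
  have h3 := (end_key hJ (χ := 1) (c := 0) one_ne_zero φ X (fun k => by
    rw [mul_zero]
    exact h2 (pow_mem_T hT hX k))).1 S' hS
  rw [h3, mul_zero]

theorem stab_lg {h : (Module.End K V)ˣ} {m : ℕ} {S U : Module.End K V}
    (hJ : JC K m (h : Module.End K V) S U) {T : Submodule K (Module.End K V)}
    (hT : ∀ X ∈ T, (h : Module.End K V) * X * (h⁻¹ : (Module.End K V)ˣ) ∈ T) :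
    ∀ X ∈ T, lg K m U * X - X * lg K m U ∈ T := by
  intro X hX
  by_contra hne
  obtain ⟨φ, h1, h2⟩ := Submodule.exists_le_ker_of_notMem hne
  apply h1
  exact (end_key hJ (χ := 1) (c := 0) one_ne_zero φ X (fun k => by
    rw [mul_zero]
    exact h2 (pow_mem_T hT hX k))).2

theorem comm_lg {h : (Module.End K V)ˣ} {m : ℕ} {S U : Module.End K V}
    (hJ : JC K m (h : Module.End K V) S U) {X : Module.End K V} {χ : K}
    (hX : (h : Module.End K V) * X * (h⁻¹ : (Module.End K V)ˣ) = χ • X) :
    Commute (lg K m U) X := by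
  by_cases hX0 : X = 0
  · rw [hX0]
    exact Commute.zero_right _
  have hχ : χ ≠ 0 := by
    rintro rfl
    apply hX0
    rw [zero_smul] at hX
    have h1 : (h : Module.End K V) * X = 0 := by
      have := congrArg (fun Y => Y * (h : Module.End K V)) hX
      simpa [mul_assoc] using this
    have := congrArg (fun Y => ((h⁻¹ : (Module.End K V)ˣ) : Module.End K V) * Y) h1
    simpa [← mul_assoc] using this
  have hpow : ∀ k : ℕ, (h : Module.End K V) ^ k * X *
      ((h⁻¹ : (Module.End K V)ˣ) : Module.End K V) ^ k = χ ^ k • X := by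
    intro k
    induction k with
    | zero => simp
    | succ k ih =>
      have e : (h : Module.End K V) ^ (k + 1) * X *
          ((h⁻¹ : (Module.End K V)ˣ) : Module.End K V) ^ (k + 1) =
          (h : Module.End K V) * ((h : Module.End K V) ^ k * X *
          ((h⁻¹ : (Module.End K V)ˣ) : Module.End K V) ^ k) *
            ((h⁻¹ : (Module.End K V)ˣ) : Module.End K V) := by
        rw [pow_succ' (h : Module.End K V), pow_succ ((h⁻¹ : (Module.End K V)ˣ) : Module.End K V)]
        simp only [mul_assoc]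
      rw [e, ih, mul_smul_comm, smul_mul_assoc, hX, smul_smul, pow_succ]
  have h2 : lg K m U * X - X * lg K m U = 0 := by
    rw [← Module.forall_dual_apply_eq_zero_iff K]
    intro φ
    exact (end_key hJ (c := φ X) hχ φ X (fun k => by
      rw [hpow k, map_smul, smul_eq_mul])).2
  exact sub_eq_zero.1 h2

end Pool.Agent.Helper40.ZO
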