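import Pool.Agent.Helper40.ZO.Defs

/-!
# Block ZO-TR: traces and nilpotency

* `isNilpotent_of_trace`. PROOF. Let `e` be a polynomial in `X`, divisible by `X`, which is the
  projection onto the sum of the generalised eigenspaces for nonzero eigenvalues (Fitting: `X ^ N = `
  on `range (X ^ N)` it is invertible; the minimal polynomial is `T ^ a * q`, `q (0) ≠ 0`, Bezout
  `1 = u T ^ (a+1) + v q`, `e = u (X) X ^ (a+1)` is idempotent). `trace e = 0` by linearity, and the
  trace of an idempotent is its rank (`LinearMap.IsProj.trace` / `LinearMap.trace_eq_...`), so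
  `e = 0` in characteristic zero and `X ^ a = X ^ a (1 - e) = X ^ a v(X) q(X) = 0`. Any other proof is
  fine (`K` is algebraically closed: `trace (X ^ k) = ∑ m_i l_i ^ k`, Vandermonde).
* `isNilpotent_comm` (Jacobson). `Z = X Y - Y X` commutes with `X`, so
  `Z ^ (k+1) = Z ^ k (X Y - Y X) = X (Z ^ k Y) - (Z ^ k Y) X` has trace zero.
* `isNilpotent_of_mem_span`. `X = ∑ c_i N_i`, `trace (X ^ (k+1)) = ∑ c_i trace (X ^ k N_i) = 0`
  since `X ^ k N_i` is nilpotent. (Induction: the set of all `Y` with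
  `∀ k, trace (X ^ k * Y) = 0` is a subspace containing `T`.)
* `trace_mul_eq_zero`. Put `A = N Z - Z N`, it commutes with `N` and is nilpotent by
  `isNilpotent_comm`. `N ^ j Z = Z N ^ j + j A N ^ (j-1)` (induction), so
  `N Z N ^ j = N ^ (j+1) Z - j A N ^ j` and `N Z w + j A w ∈ range (N ^ (j+1))` for all
  `w ∈ range (N ^ j)`. By induction on `m`, `(N Z) ^ m w - (- j A) ^ m w ∈ range (N ^ (j+1))` for
  `w ∈ range (N ^ j)` (`A` preserves the ranges). With `A ^ m = 0` we get
  `(N Z) ^ m (range N ^ j) ⊆ range N ^ (j+1)`, hence `N Z` is nilpotent and its trace is `0`.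
-/

set_option autoImplicit false

namespace Pool.Agent.Helper40.ZO

open Polynomial

variable {K V : Type*} [Field K] [IsAlgClosed K] [CharZero K] [AddCommGroup V] [Module K V]
  [FiniteDimensional K V]

omit [IsAlgClosed K] [CharZero K] [FiniteDimensional K V] in
private theorem trace_poly59 (X : Module.End K V)
    (h : ∀ k : ℕ, LinearMap.trace K V (X ^ (k + 1)) = 0) (w : K[X]) :
    LinearMap.trace K V (aeval X (w * Polynomial.X)) = 0 := by
  induction w using Polynomial.induction_on' with
  | add p q hp hq => rw [add_mul, map_add, map_add, hp, hq, add_zero]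
  | monomial n c =>
    rw [monomial_mul_X, aeval_monomial, ← Algebra.smul_def, map_smul, h, smul_zero]

theorem isNilpotent_of_trace (X : Module.End K V)
    (h : ∀ k : ℕ, LinearMap.trace K V (X ^ (k + 1)) = 0) : IsNilpotent X := by
  obtain ⟨p, hp0, hpX⟩ : ∃ p : K[X], p ≠ 0 ∧ aeval X p = 0 :=
    ⟨minpoly K X, minpoly.ne_zero (Algebra.IsIntegral.isIntegral X), minpoly.aeval K X⟩
  obtain ⟨q, hq, hq0⟩ := Polynomial.exists_eq_pow_rootMultiplicity_mul_and_not_dvd p hp0 0
  set a := p.rootMultiplicity 0 with ha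
  rw [C_0, sub_zero] at hq hq0
  have hcop : IsCoprime (Polynomial.X ^ (a + 1) : K[X]) q := by
    apply IsCoprime.pow_left
    exact (Polynomial.irreducible_X.coprime_iff_not_dvd).2 hq0
  obtain ⟨u, v, huv⟩ := hcop
  have hXq : X ^ a * aeval X q = 0 := by
    rw [hq, map_mul, map_pow, aeval_X] at hpX
    exact hpX
  set e : Module.End K V := aeval X (u * Polynomial.X ^ (a + 1)) with he
  have h1 : e + aeval X (v * q) = 1 := by
    rw [he, ← map_add, huv, map_one]
  have h2 : e * aeval X (v * q) = 0 := by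
    have h3 : (u * Polynomial.X ^ (a + 1)) * (v * q) = (u * Polynomial.X * v) * (Polynomial.X ^ a * q) := by
      rw [pow_succ]
      ring
    rw [he, ← map_mul, h3, map_mul, map_mul (aeval X : K[X] →ₐ[K] Module.End K V) (Polynomial.X ^ a) q, map_pow,
      aeval_X, hXq, mul_zero]
  have hid : IsIdempotentElem e := by
    have h4 : e * (e + aeval X (v * q)) = e := by rw [h1, mul_one]
    rw [mul_add, h2, add_zero] at h4
    exact h4
  have htr : LinearMap.trace K V e = 0 := by
    rw [he, pow_succ, ← mul_assoc]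
    exact trace_poly59 X h _
  have he0 : e = 0 := LinearMap.IsIdempotentElem.eq_zero_of_trace_eq_zero hid htr
  rw [he0, zero_add] at h1
  refine ⟨a, ?_⟩
  have h5 : X ^ a * aeval X (v * q) = 0 := by
    have h6 : X ^ a * aeval X (v * q) = aeval X v * (X ^ a * aeval X q) :=
      calc X ^ a * aeval X (v * q) = aeval X ((Polynomial.X ^ a : K[X]) * (v * q)) := by
            rw [map_mul (aeval X : K[X] →ₐ[K] Module.End K V) (Polynomial.X ^ a) (v * q), map_pow, aeval_X]
        _ = aeval X (v * (Polynomial.X ^ a * q)) := by rw [mul_left_comm]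
        _ = aeval X v * (X ^ a * aeval X q) := by
            rw [map_mul, map_mul (aeval X : K[X] →ₐ[K] Module.End K V) (Polynomial.X ^ a) q, map_pow, aeval_X]
    rw [h6, hXq, mul_zero]
  rw [h1, mul_one] at h5
  exact h5

theorem isNilpotent_comm {X Y : Module.End K V} (h : Commute X (X * Y - Y * X)) :
    IsNilpotent (X * Y - Y * X) := by
  apply isNilpotent_of_trace
  intro k
  have h1 : Commute X ((X * Y - Y * X) ^ k) := h.pow_right k
  have h2 : (X * Y - Y * X) ^ (k + 1) = X * ((X * Y - Y * X) ^ k * Y) - ((X * Y - Y * X) ^ k * Y) * X := by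
    rw [pow_succ, mul_sub, ← mul_assoc, ← h1.eq, mul_assoc, mul_assoc]
  rw [h2, map_sub, LinearMap.trace_mul_comm, sub_self]

theorem isNilpotent_of_mem_span {X : Module.End K V} {T : Set (Module.End K V)}
    (hT : ∀ N ∈ T, IsNilpotent N ∧ Commute X N) (hX : X ∈ Submodule.span K T) :
    IsNilpotent X := by
  have h1 : ∀ Y ∈ Submodule.span K T, ∀ k : ℕ, LinearMap.trace K V (X ^ k * Y) = 0 := by
    intro Y hY
    induction hY using Submodule.span_induction with
    | mem N hN =>
      intro k
      have h2 : Commute (X ^ k) N := (hT N hN).2.pow_left k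
      have h3 : IsNilpotent (X ^ k * N) := h2.isNilpotent_mul_left (hT N hN).1
      exact (LinearMap.isNilpotent_trace_of_isNilpotent h3).eq_zero
    | zero =>
      intro k
      rw [mul_zero, map_zero]
    | add Y Z _ _ hY hZ =>
      intro k
      rw [mul_add, map_add, hY, hZ, add_zero]
    | smul c Y _ hY =>
      intro k
      rw [mul_smul_comm, map_smul, hY, smul_zero]
  apply isNilpotent_of_trace
  intro k
  rw [pow_succ]
  exact h1 X hX k

private theorem nil_aux59 {N Z A : Module.End K V} (hA : A = N * Z - Z * N) (h : Commute N A) (j : ℕ) :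
    (N * Z) * N ^ j = N ^ (j + 1) * Z - (j : Module.End K V) * (A * N ^ j) := by
  induction j with
  | zero => simp
  | succ j ih =>
    have h1 : Commute N (A * N ^ j) := h.mul_right ((Commute.refl N).pow_right j)
    have h2 : Z * N = N * Z - A := by rw [hA]; abel
    have h3 : Commute (N ^ (j + 1)) A := h.pow_left (j + 1)
    calc (N * Z) * N ^ (j + 1) = ((N * Z) * N ^ j) * N := by rw [pow_succ]; noncomm_ring
      _ = (N ^ (j + 1) * Z - (j : Module.End K V) * (A * N ^ j)) * N := by rw [ih]
      _ = N ^ (j + 1) * (Z * N) - (j : Module.End K V) * (A * (N ^ j * N)) := by noncomm_ring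
      _ = N ^ (j + 1) * (N * Z - A) - (j : Module.End K V) * (A * N ^ (j + 1)) := by rw [h2, ← pow_succ]
      _ = N ^ (j + 1) * N * Z - N ^ (j + 1) * A - (j : Module.End K V) * (A * N ^ (j + 1)) := by noncomm_ring
      _ = N ^ (j + 1 + 1) * Z - ((j + 1 : ℕ) : Module.End K V) * (A * N ^ (j + 1)) := by
          rw [← pow_succ, h3.eq, Nat.cast_add, Nat.cast_one, add_mul, one_mul]
          abel

private theorem nil_step59 {N Z A : Module.End K V} (hA : A = N * Z - Z * N) (h : Commute N A) (j m : ℕ) :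
    ∃ U : Module.End K V, (N * Z) ^ m * N ^ j = (-(j : Module.End K V)) ^ m * (A ^ m * N ^ j) + N ^ (j + 1) * U := by
  have h0 := nil_aux59 hA h j
  have h0' := nil_aux59 hA h (j + 1)
  have hj : ∀ W : Module.End K V, Commute (j : Module.End K V) W := fun W => Nat.cast_commute j W
  have hj' : ∀ W : Module.End K V, Commute ((j + 1 : ℕ) : Module.End K V) W := fun W => Nat.cast_commute (j + 1) W
  have hAN : ∀ i m : ℕ, Commute (A ^ m) (N ^ i) := fun i m => (h.symm.pow_pow m i)
  induction m with
  | zero =>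
    refine ⟨0, ?_⟩
    simp
  | succ m ih =>
    obtain ⟨U, hU⟩ := ih
    set c : Module.End K V := -(j : Module.End K V) with hc
    have hcc : ∀ W : Module.End K V, Commute c W := fun W => (hj W).neg_left
    have hcm : ∀ W : Module.End K V, Commute (c ^ m) W := fun W => (hcc W).pow_left m
    refine ⟨c ^ m * (Z * A ^ m) + (N * Z - ((j + 1 : ℕ) : Module.End K V) * A) * U, ?_⟩
    have e1 : (N * Z) * (c ^ m * (A ^ m * N ^ j)) = c ^ m * (((N * Z) * N ^ j) * A ^ m) := by
      rw [(hAN j m).eq, ← mul_assoc, ← (hcm (N * Z)).eq, mul_assoc]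
      noncomm_ring
    have e2 : ((N * Z) * N ^ j) * A ^ m = N ^ (j + 1) * (Z * A ^ m) + c * (A ^ (m + 1) * N ^ j) := by
      rw [h0, sub_mul, hc]
      have e3 : (j : Module.End K V) * (A * N ^ j) * A ^ m = (j : Module.End K V) * (A ^ (m + 1) * N ^ j) := by
        rw [mul_assoc, mul_assoc, ← (hAN j m).eq, ← mul_assoc A, ← pow_succ']
      rw [e3, mul_assoc, neg_mul, sub_eq_add_neg]
    have e4 : (N * Z) * (N ^ (j + 1) * U) = N ^ (j + 1) * ((N * Z - ((j + 1 : ℕ) : Module.End K V) * A) * U) := by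
      have e7 : N ^ (j + 1 + 1) * Z * U = N ^ (j + 1) * (N * Z * U) := by
        rw [pow_succ N (j + 1)]
        noncomm_ring
      have e8 : ((j + 1 : ℕ) : Module.End K V) * (A * N ^ (j + 1)) * U =
          N ^ (j + 1) * (((j + 1 : ℕ) : Module.End K V) * A * U) := by
        have e5 := (hAN (j + 1) 1).eq
        rw [pow_one] at e5
        rw [e5, ← mul_assoc (((j + 1 : ℕ) : Module.End K V)), (hj' (N ^ (j + 1))).eq]
        simp only [mul_assoc]
      rw [← mul_assoc, h0', sub_mul, sub_mul, mul_sub, e7, e8]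
    rw [pow_succ', mul_assoc, hU, mul_add, e1, e2, e4, mul_add, mul_add, pow_succ c m]
    have e6 : c ^ m * (N ^ (j + 1) * (Z * A ^ m)) = N ^ (j + 1) * (c ^ m * (Z * A ^ m)) := by
      rw [← mul_assoc, (hcm (N ^ (j + 1))).eq, mul_assoc]
    rw [e6, mul_assoc (c ^ m) c]
    abel

theorem trace_mul_eq_zero {N Z : Module.End K V} (hN : IsNilpotent N)
    (h : Commute N (N * Z - Z * N)) : LinearMap.trace K V (N * Z) = 0 := by
  obtain ⟨A, hA⟩ : ∃ A, A = N * Z - Z * N := ⟨_, rfl⟩
  have hAn := isNilpotent_comm h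
  rw [← hA] at h hAn
  obtain ⟨m, hm⟩ := hAn
  obtain ⟨J, hJ⟩ := hN
  have h1 : ∀ j : ℕ, ∃ W : Module.End K V, ((N * Z) ^ m) ^ j = N ^ j * W := by
    intro j
    induction j with
    | zero => exact ⟨1, by simp⟩
    | succ j ih =>
      obtain ⟨W, hW⟩ := ih
      obtain ⟨U, hU⟩ := nil_step59 hA h j m
      rw [hm, zero_mul, mul_zero, zero_add] at hU
      refine ⟨U * W, ?_⟩
      rw [pow_succ', hW, ← mul_assoc, hU, mul_assoc]
  obtain ⟨W, hW⟩ := h1 J
  rw [hJ, zero_mul, ← pow_mul] at hW
  exact (LinearMap.isNilpotent_trace_of_isNilpotent ⟨m * J, hW⟩).eq_zero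

end Pool.Agent.Helper40.ZO
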