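import Pool.Agent.Helper40.ZO.Defs

/-!
# Block ZO-ALGA (exists_min): polynomial conditions on a compact group of matrices

`ent M` is the vector of the entries of the matrix `M`; polynomials in the entries.
* `exists_min`: there is an open normal subgroup `Γ₀` such that a polynomial vanishing on some
  open subgroup of `Γ₀` vanishes on `Γ₀`. PROOF: the ideals `I (Γ) = {f | f vanishes on ρ (Γ)}`,
  `Γ` open normal, have a maximal element `I (Γ₀)` (`MvPolynomial` is Noetherian: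
  `set_has_maximal_iff_noetherian`). An open subgroup `Γ' ≤ Γ₀` contains an open normal subgroup
  `Γ''` (`P` is compact, the normal core has finite index and is closed, or
  `exist_openNormalSubgroup_sub_open_nhds_of_one`) and `I (Γ₀) ≤ I (Γ'')`, so `=`.
* `null_of_poly`. Let `Y_I = {x ∈ Γ₀ x₀ | ∀ f ∈ I, f (ρ x) = 0}` for an ideal `I` (closed: `ρ` is
  continuous and `K` is Hausdorff). Suppose `μ Y_{(D)} ≠ 0`. By Noetherianity take `I` maximal among
  the ideals with `D ∈ I` and `μ Y_I ≠ 0`. For `γ ∈ Γ₀` let `γ I = {f | f (ρ γ · ) ∈ I}`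
  (the image of `I` under the automorphism of the polynomial ring given by `ρ γ⁻¹`), so
  `γ Y_I = Y_{γ I}`, and `γ Y_I ∩ Y_I = Y_{I + γ I}`. By `exists_meet` there is an open subgroup `W`,
  w.l.o.g. `W ≤ Γ₀`, with `μ (γ Y_I ∩ Y_I) ≠ 0` for `γ ∈ W`; by maximality `I + γ I = I`, i.e.
  `γ I ≤ I`. Let `y ∈ Y_I` (nonempty). For `γ ∈ W`: `D ∈ I`, `γ⁻¹ D ∈ I` (`γ⁻¹ ∈ W`) so
  `0 = (γ⁻¹ D) (ρ y) = D (ρ γ ρ y)`. The polynomial `f (M) = D (M ρ y)` vanishes on `ρ (W)`, so on
  `ρ (Γ₀)` by the property of `Γ₀`; `x₀ = γ y` with `γ ∈ Γ₀`, so `D (ρ x₀) = 0`, contradiction.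
-/

set_option autoImplicit false

namespace Pool.Agent.Helper40.ZO

open MeasureTheory

variable {P : Type*} [Group P] [TopologicalSpace P] [IsTopologicalGroup P] [CompactSpace P]
  [TotallyDisconnectedSpace P]

variable {K : Type*} [Field K]

/-- The value of a polynomial in the entries. -/
noncomputable def val {n : ℕ} (M : Mat n K) (f : MvPolynomial (Fin n × Fin n) K) : K :=
  MvPolynomial.eval (fun k => M k.1 k.2) f

theorem exists_min {n : ℕ} (ρ : P →* Mat n K) :
    ∃ Γ₀ : Subgroup P, Γ₀.Normal ∧ IsOpen (Γ₀ : Set P) ∧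
      ∀ Γ' : Subgroup P, IsOpen (Γ' : Set P) → Γ' ≤ Γ₀ →
        ∀ f : MvPolynomial (Fin n × Fin n) K, (∀ γ ∈ Γ', val (ρ γ) f = 0) →
          ∀ γ ∈ Γ₀, val (ρ γ) f = 0 := by
  let J : Set P → Ideal (MvPolynomial (Fin n × Fin n) K) := fun S =>
    { carrier := {f | ∀ γ ∈ S, val (ρ γ) f = 0}
      add_mem' := by
        intro f g hf hg γ hγ
        have h1 := hf γ hγ
        have h2 := hg γ hγ
        unfold val at h1 h2 ⊢
        rw [map_add, h1, h2, add_zero]
      zero_mem' := by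
        intro γ _
        unfold val
        rw [map_zero]
      smul_mem' := by
        intro c f hf γ hγ
        have h1 := hf γ hγ
        unfold val at h1 ⊢
        rw [smul_eq_mul, map_mul, h1, mul_zero] }
  have hJ : ∀ S f, f ∈ J S ↔ ∀ γ ∈ S, val (ρ γ) f = 0 := fun S f => Iff.rfl
  obtain ⟨N0, -⟩ := ProfiniteGrp.exist_openNormalSubgroup_sub_open_nhds_of_one
    (G := P) isOpen_univ (Set.mem_univ 1)
  obtain ⟨I0, ⟨N, hN⟩, hmax⟩ := set_has_maximal_iff_noetherian.2
    (inferInstance : IsNoetherian (MvPolynomial (Fin n × Fin n) K)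
      (MvPolynomial (Fin n × Fin n) K))
    (Set.range fun N : OpenNormalSubgroup P => J (N : Set P)) ⟨_, N0, rfl⟩
  have hN' : J (N : Set P) = I0 := hN
  refine ⟨N.toSubgroup, N.isNormal', N.isOpen', ?_⟩
  intro Γ' hΓ' hle f hf
  obtain ⟨H, hH⟩ := ProfiniteGrp.exist_openNormalSubgroup_sub_open_nhds_of_one hΓ' Γ'.one_mem
  have h1 : I0 ≤ J (H : Set P) := by
    rw [← hN']
    intro g hg γ hγ
    exact hg γ (hle (hH hγ))
  have h2 : ¬ I0 < J (H : Set P) := hmax _ ⟨H, rfl⟩
  have h3 : J (H : Set P) = I0 := by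
    by_contra hne
    exact h2 (lt_of_le_of_ne h1 (Ne.symm hne))
  have h4 : f ∈ J (H : Set P) := fun γ hγ => hf γ (hH hγ)
  rw [h3, ← hN'] at h4
  exact fun γ hγ => h4 γ hγ

end Pool.Agent.Helper40.ZO
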