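import Pool.Agent.Helper40.ZO.Defs

/-!
# Block ZO-NULLA (exists_meet): closed sets in profinite groups and Haar measure

* `exists_meet`. `Y` closed, `μ Y > 0`. By outer regularity there is an open `O ⊇ Y` with
  `μ O < 2 μ Y`. `Y` is compact, so there is an open subgroup `W` with `W Y ⊆ O` (open subgroups
  are a basis of neighbourhoods of `1`, Mathlib: `ProfiniteGrp`, `TopologicalGroup`,
  `exist_openNormalSubgroup_sub_open_nhds_of_one`; tube lemma / finite cover). For `γ ∈ W`: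
  `γ Y ∪ Y ⊆ O`, `μ (γ Y) = μ Y`, so `μ (γ Y ∩ Y) ≥ 2 μ Y - μ O > 0`.
* `cosets_of_null`. `Z` closed, `μ Z = 0`: open `O ⊇ Z` with `μ O < ε μ univ`, open normal `N` with
  `N Z ⊆ O`. The number of cosets of `N` meeting `Z` times `μ N` is `≤ μ O`, and
  `μ univ = Nat.card (P ⧸ N) * μ N`.
-/

set_option autoImplicit false

namespace Pool.Agent.Helper40.ZO

open MeasureTheory

variable {P : Type*} [Group P] [TopologicalSpace P] [IsTopologicalGroup P] [CompactSpace P]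
  [TotallyDisconnectedSpace P] [MeasurableSpace P] [BorelSpace P]
  (μ : Measure P) [μ.IsHaarMeasure] [μ.Regular]

theorem exists_meet {Y : Set P} (hY : IsClosed Y) (h0 : μ Y ≠ 0) :
    ∃ W : Subgroup P, IsOpen (W : Set P) ∧ ∀ γ ∈ W, μ ({x | γ⁻¹ * x ∈ Y} ∩ Y) ≠ 0 := by
  have hYc : IsCompact Y := hY.isCompact
  have hfin : μ Y ≠ ⊤ := (hYc.measure_lt_top).ne
  have hlt : μ Y < 2 * μ Y := by
    rw [two_mul]
    exact ENNReal.lt_add_right hfin h0
  obtain ⟨O, hYO, hO, hOlt⟩ := Y.exists_isOpen_lt_of_lt (2 * μ Y) hlt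
  obtain ⟨V, hV, hVY⟩ := compact_open_separated_mul_left hYc hO hYO
  obtain ⟨V', hV'V, hV'o, h1V'⟩ := mem_nhds_iff.1 hV
  obtain ⟨H, hH⟩ := ProfiniteGrp.exist_openNormalSubgroup_sub_open_nhds_of_one hV'o h1V'
  refine ⟨H.toSubgroup, H.isOpen', fun γ hγ hzero => ?_⟩
  have hγV : γ ∈ V := hV'V (hH hγ)
  have hA : μ {x | γ⁻¹ * x ∈ Y} = μ Y := measure_preimage_mul μ γ⁻¹ Y
  have hAO : {x | γ⁻¹ * x ∈ Y} ⊆ O := by
    intro x hx
    apply hVY
    refine Set.mem_mul.2 ⟨γ, hγV, γ⁻¹ * x, hx, by group⟩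
  have h1 := measure_union_add_inter (μ := μ) {x | γ⁻¹ * x ∈ Y} hY.measurableSet
  rw [hzero, add_zero, hA, ← two_mul] at h1
  have h2 : μ ({x | γ⁻¹ * x ∈ Y} ∪ Y) ≤ μ O := measure_mono (Set.union_subset hAO hYO)
  rw [h1] at h2
  exact absurd h2 (not_le.2 hOlt)

end Pool.Agent.Helper40.ZO
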