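import Pool.Agent.Helper40.ZO.AlgA
import Pool.Agent.Helper40.ZO.NullA

/-!
# Block ZO-ALGB (null_of_poly): polynomial conditions on a compact group of matrices

`ent M` is the vector of the entries of the matrix `M`; polynomials in the entries.
* `exists_min`: there is an open normal subgroup `Γ₀` such that a polynomial vanishing on some
  open subgroup of `Γ₀` vanishes on `Γ₀`. PROOF: the ideals `I (Γ) = {f | f vanishes on ρ (Γ)}`,
  `Γ` open normal, have a maximal element `I (Γ₀)` (`MvPolynomial` is Noetherian: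
  `set_has_maximal_iff_noetherian`). An open subgroup `Γ' ≤ Γ₀` contains an open normal subgroup
  `Γ''` (`P` is compact, the normal core has finite index and is closed, or
  `exist_openNormalSubgroup_sub_open_nhds_of_one`) and `I (Γ₀) ≤ I (Γ'')`, so `=`.
* `null_of_poly`. Let `Y_I = {x ∈ Γ₀ x₀ | ∀ f ∈ I, f (ρ x) = 0}` for an ideal `I` (closed: `ρ` is
  continuous and `K` is Hausdorff). Suppose `μ Y_{(D)} ≠ 0`. By Noetherianity take `I` maximal among
  the ideals with `D ∈ I` and `μ Y_I ≠ 0`. For `γ ∈ Γ₀` let `γ I = {f | f (ρ γ · ) ∈ I}`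
  (the image of `I` under the automorphism of the polynomial ring given by `ρ γ⁻¹`), so
  `γ Y_I = Y_{γ I}`, and `γ Y_I ∩ Y_I = Y_{I + γ I}`. By `exists_meet` there is an open subgroup `W`,
  w.l.o.g. `W ≤ Γ₀`, with `μ (γ Y_I ∩ Y_I) ≠ 0` for `γ ∈ W`; by maximality `I + γ I = I`, i.e.
  `γ I ≤ I`. Let `y ∈ Y_I` (nonempty). For `γ ∈ W`: `D ∈ I`, `γ⁻¹ D ∈ I` (`γ⁻¹ ∈ W`) so
  `0 = (γ⁻¹ D) (ρ y) = D (ρ γ ρ y)`. The polynomial `f (M) = D (M ρ y)` vanishes on `ρ (W)`, so on
  `ρ (Γ₀)` by the property of `Γ₀`; `x₀ = γ y` with `γ ∈ Γ₀`, so `D (ρ x₀) = 0`, contradiction.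
-/

set_option autoImplicit false

namespace Pool.Agent.Helper40.ZO

open MeasureTheory

variable {P : Type*} [Group P] [TopologicalSpace P] [IsTopologicalGroup P] [CompactSpace P]
  [TotallyDisconnectedSpace P]

variable {K : Type*} [Field K]

private theorem val_left {n : ℕ} (A : Mat n K) (f : MvPolynomial (Fin n × Fin n) K) :
    ∃ g : MvPolynomial (Fin n × Fin n) K, ∀ M : Mat n K, val M g = val (A * M) f := by
  refine ⟨MvPolynomial.bind₁ (fun k => ∑ j, MvPolynomial.C (A k.1 j) *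
    MvPolynomial.X (j, k.2)) f, fun M => ?_⟩
  unfold val
  rw [← MvPolynomial.coe_aeval_eq_eval, ← MvPolynomial.coe_aeval_eq_eval, RingHom.coe_coe,
    RingHom.coe_coe, MvPolynomial.aeval_bind₁]
  congr 2
  funext k
  simp [Matrix.mul_apply]

private theorem val_right {n : ℕ} (B : Mat n K) (f : MvPolynomial (Fin n × Fin n) K) :
    ∃ g : MvPolynomial (Fin n × Fin n) K, ∀ M : Mat n K, val M g = val (M * B) f := by
  refine ⟨MvPolynomial.bind₁ (fun k => ∑ j, MvPolynomial.X (k.1, j) *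
    MvPolynomial.C (B j k.2)) f, fun M => ?_⟩
  unfold val
  rw [← MvPolynomial.coe_aeval_eq_eval, ← MvPolynomial.coe_aeval_eq_eval, RingHom.coe_coe,
    RingHom.coe_coe, MvPolynomial.aeval_bind₁]
  congr 2
  funext k
  simp [Matrix.mul_apply]

theorem null_of_poly [TopologicalSpace K] [IsTopologicalRing K] [T2Space K]
    [MeasurableSpace P] [BorelSpace P] (μ : Measure P) [μ.IsHaarMeasure] [μ.Regular]
    {n : ℕ} (ρ : P →* Mat n K) (hρ : Continuous ρ)
    {Γ₀ : Subgroup P} (hopen : IsOpen (Γ₀ : Set P))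
    (hmin : ∀ Γ' : Subgroup P, IsOpen (Γ' : Set P) → Γ' ≤ Γ₀ →
      ∀ f : MvPolynomial (Fin n × Fin n) K, (∀ γ ∈ Γ', val (ρ γ) f = 0) →
        ∀ γ ∈ Γ₀, val (ρ γ) f = 0)
    {D : MvPolynomial (Fin n × Fin n) K} {x₀ : P} (hx₀ : val (ρ x₀) D ≠ 0) :
    μ {x | x * x₀⁻¹ ∈ Γ₀ ∧ val (ρ x) D = 0} = 0 := by
  by_contra hμ
  -- the closed sets `Y I`
  let Y : Ideal (MvPolynomial (Fin n × Fin n) K) → Set P :=
    fun I => {x | x * x₀⁻¹ ∈ Γ₀ ∧ ∀ f ∈ I, val (ρ x) f = 0}
  have hcont : ∀ f : MvPolynomial (Fin n × Fin n) K, Continuous fun x => val (ρ x) f := by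
    intro f
    have h1 : Continuous fun x : P => (fun k : Fin n × Fin n => ρ x k.1 k.2) :=
      continuous_pi fun k => hρ.matrix_elem k.1 k.2
    exact (MvPolynomial.continuous_eval f).comp h1
  have hclosed : ∀ I, IsClosed (Y I) := by
    intro I
    have h1 : IsClosed {x : P | x * x₀⁻¹ ∈ Γ₀} :=
      (Γ₀.isClosed_of_isOpen hopen).preimage (continuous_mul_const x₀⁻¹)
    have h2 : IsClosed {x : P | ∀ f ∈ I, val (ρ x) f = 0} := by
      have : {x : P | ∀ f ∈ I, val (ρ x) f = 0} = ⋂ f ∈ I, {x | val (ρ x) f = 0} := by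
        ext x
        simp
      rw [this]
      exact isClosed_biInter fun f _ => isClosed_singleton.preimage (hcont f)
    exact h1.inter h2
  -- a maximal ideal of positive measure
  let S : Set (Ideal (MvPolynomial (Fin n × Fin n) K)) := {I | D ∈ I ∧ μ (Y I) ≠ 0}
  have hS : S.Nonempty := by
    refine ⟨Ideal.span {D}, Ideal.mem_span_singleton_self D, ?_⟩
    intro h
    apply hμ
    refine measure_mono_null ?_ h
    rintro x ⟨h1, h2⟩
    refine ⟨h1, fun f hf => ?_⟩
    obtain ⟨g, rfl⟩ := Ideal.mem_span_singleton'.1 hf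
    have h3 : val (ρ x) (g * D) = val (ρ x) g * val (ρ x) D := by
      unfold val
      rw [map_mul]
    rw [h3, h2, mul_zero]
  obtain ⟨I, ⟨hDI, hI⟩, hmax⟩ := set_has_maximal_iff_noetherian.2
    (inferInstance : IsNoetherian (MvPolynomial (Fin n × Fin n) K)
      (MvPolynomial (Fin n × Fin n) K)) S hS
  obtain ⟨W, hW, hWm⟩ := exists_meet μ (hclosed I) hI
  have key : ∀ γ ∈ W, ∀ y ∈ Y I, val (ρ (γ⁻¹ * y)) D = 0 := by
    intro γ hγ y hy
    obtain ⟨g, hg⟩ := val_left (ρ γ⁻¹) D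
    have hgI : g ∈ I := by
      by_contra hgI
      have hlt : I < I ⊔ Ideal.span {g} := by
        refine lt_of_le_of_ne le_sup_left fun h => hgI ?_
        rw [h]
        exact Ideal.mem_sup_right (Ideal.mem_span_singleton_self g)
      refine hmax (I ⊔ Ideal.span {g}) ⟨Ideal.mem_sup_left hDI, ?_⟩ hlt
      intro h
      refine hWm γ hγ (measure_mono_null ?_ h)
      rintro x ⟨⟨_, h2⟩, h3, h4⟩
      refine ⟨h3, fun f hf => ?_⟩
      obtain ⟨a, ha, b, hb, rfl⟩ := Submodule.mem_sup.1 hf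
      obtain ⟨c, rfl⟩ := Ideal.mem_span_singleton'.1 hb
      have h5 : val (ρ x) (a + c * g) = val (ρ x) a + val (ρ x) c * val (ρ x) g := by
        unfold val
        rw [map_add, map_mul]
      rw [h5, h4 a ha, hg, ← map_mul, h2 D hDI, mul_zero, add_zero]
    have h1 := hy.2 g hgI
    rwa [hg, ← map_mul] at h1
  obtain ⟨y, hy⟩ : (Y I).Nonempty := by
    by_contra h
    rw [Set.not_nonempty_iff_eq_empty] at h
    rw [h] at hI
    exact hI measure_empty
  obtain ⟨f, hf⟩ := val_right (ρ y) D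
  have h1 := hmin (W ⊓ Γ₀) (by
      rw [Subgroup.coe_inf]
      exact hW.inter hopen) inf_le_right f (fun γ hγ => by
      rw [hf, ← map_mul]
      have := key γ⁻¹ (W.inv_mem hγ.1) y hy
      rwa [inv_inv] at this) (x₀ * y⁻¹) (by
      have := Γ₀.inv_mem hy.1
      rwa [mul_inv_rev, inv_inv] at this)
  rw [hf, ← map_mul, inv_mul_cancel_right] at h1
  exact hx₀ h1

end Pool.Agent.Helper40.ZO
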