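import Pool.Agent.Helper40.ZO.Defs

/-!
# Block ZO-CART: Engel and Cartan for spaces of endomorphisms

* `cartan`. `B` (with the commutator) is a Lie subalgebra of `Module.End K V` (`LieRing` instance
  `LieRing.ofAssociativeRing`), `V` is a Lie module over it, the trace form is zero by `htr`. So
  `LieModule.isNilpotent_derivedSeries_of_traceForm_eq_zero` (Mathlib/Algebra/Lie/CartanCriterion)
  says that `derivedSeries K B 1` acts nilpotently on `V`, in particular every element of it is a
  nilpotent endomorphism (`LieModule.isNilpotent_iff_forall'`). Every element of the span of the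
  commutators belongs to the derived algebra.
* `act_eq_bot`. By Engel's theorem (`LieModule.isNilpotent_iff_forall'`) `V` is a nilpotent module
  over the Lie algebra `J`. So if `W = span {X v | X ∈ J, v ∈ W}` then `W = 0` (`W` is contained in
  all terms of the lower central series of `V`).
-/

set_option autoImplicit false

namespace Pool.Agent.Helper40.ZO

open Polynomial

variable {K V : Type*} [Field K] [IsAlgClosed K] [CharZero K] [AddCommGroup V] [Module K V]
  [FiniteDimensional K V]

attribute [local instance 100] LieRing.ofAssociativeRing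

private def subalg50 {K V : Type*} [Field K] [AddCommGroup V] [Module K V]
    (B : Submodule K (Module.End K V))
    (hlie : ∀ X ∈ B, ∀ Y ∈ B, X * Y - Y * X ∈ B) : LieSubalgebra K (Module.End K V) :=
  { B with lie_mem' := fun {x y} hx hy => hlie x hx y hy }

theorem cartan {B : Submodule K (Module.End K V)} (hlie : ∀ X ∈ B, ∀ Y ∈ B, X * Y - Y * X ∈ B)
    (htr : ∀ X ∈ B, ∀ Y ∈ B, LinearMap.trace K V (X * Y) = 0) {D : Module.End K V}
    (hD : D ∈ Submodule.span K {D | ∃ X ∈ B, ∃ Y ∈ B, D = X * Y - Y * X}) : IsNilpotent D := by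
  have h0 : LieModule.traceForm K (subalg50 B hlie) V = 0 := by
    ext ⟨x, hx⟩ ⟨y, hy⟩
    exact htr x hx y hy
  have h1 := LieModule.isNilpotent_derivedSeries_of_traceForm_eq_zero h0
  rw [LieModule.isNilpotent_iff_forall' (R := K)] at h1
  have h2 : D ∈ (LieAlgebra.derivedSeries K (subalg50 B hlie) 1).toSubmodule.map
      (subalg50 B hlie).toSubmodule.subtype := by
    refine Submodule.span_le.2 ?_ hD
    rintro _ ⟨X, hX, Y, hY, rfl⟩
    refine ⟨⁅(⟨X, hX⟩ : subalg50 B hlie), (⟨Y, hY⟩ : subalg50 B hlie)⁆, ?_, rfl⟩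
    rw [LieAlgebra.derivedSeries_def, LieAlgebra.derivedSeriesOfIdeal_succ,
      LieAlgebra.derivedSeriesOfIdeal_zero]
    exact LieSubmodule.lie_mem_lie (LieSubmodule.mem_top _) (LieSubmodule.mem_top _)
  obtain ⟨⟨z, hz⟩, hz1, rfl⟩ := h2
  exact h1 ⟨⟨z, hz⟩, hz1⟩

theorem act_eq_bot {J : Submodule K (Module.End K V)}
    (hlie : ∀ X ∈ J, ∀ Y ∈ J, X * Y - Y * X ∈ J) (hnil : ∀ X ∈ J, IsNilpotent X)
    {W : Submodule K V} (hW : W ≤ Submodule.span K {w | ∃ X ∈ J, ∃ v ∈ W, w = X v}) :
    W = ⊥ := by
  have h1 : LieModule.IsNilpotent (subalg50 J hlie) V := by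
    rw [LieModule.isNilpotent_iff_forall' (R := K)]
    rintro ⟨x, hx⟩
    exact hnil x hx
  obtain ⟨k, hk⟩ := (LieModule.isNilpotent_iff K (subalg50 J hlie) V).1 h1
  have h2 : ∀ n, W ≤ (LieModule.lowerCentralSeries K (subalg50 J hlie) V n).toSubmodule := by
    intro n
    induction n with
    | zero => simp
    | succ n ih =>
      refine hW.trans (Submodule.span_le.2 ?_)
      rintro _ ⟨X, hX, v, hv, rfl⟩
      rw [LieModule.lowerCentralSeries_succ]
      exact LieSubmodule.lie_mem_lie (LieSubmodule.mem_top (⟨X, hX⟩ : subalg50 J hlie)) (ih hv)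
  have h3 := h2 k
  rw [hk] at h3
  exact (Submodule.eq_bot_iff _).2 fun v hv => by simpa using h3 hv

end Pool.Agent.Helper40.ZO
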