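import Pool.Agent.Helper40.ZO.Defs

/-!
# Block ZO-CHARA (det_coeff_one, step (1)): constant multiplicity of an eigenvalue along a curve

`x` a matrix of polynomials in `t` (the variable of `K[X]`), `h = x (0)`, `x₁` the coefficient of `t`,
`P = (T - l) ^ μ R` the characteristic polynomial of `h`, and `(T - l) ^ μ` divides the
characteristic polynomial of `x` (in `K[t][T]`). Then `trace (F (h) x₁) = 0` for all multiples `F`
of `R`.
PROOF. (1) Jacobi: for a matrix `B` with entries in `A[t]`, `A` any commutative ring, the coefficient of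
`t` of `det B` is `trace (adjugate (B (0)) * B₁)` (`det` as a sum over permutations: the coefficient
of `t` of a product is the sum over the factors; column `k` of `B (0)` replaced by column `k` of
`B₁`, `Matrix.cramer`, `Matrix.mulVec_cramer`/`Matrix.cramer_eq_adjugate_mulVec`).
(2) Apply (1) to the characteristic matrix `T - x (t)` (coefficients in `K[T][t]`; exchange the two
variables, or compute the coefficient with a ring homomorphism `K[t][T] → K[T]`, `∑ c_k T ^ k ↦
∑ (coeff 1 c_k) T ^ k`, which is additive only; or use the dual numbers). With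
`𝒜 (T) = adjugate (T - h)`: the polynomial `q (T) = trace (𝒜 (T) x₁)` is divisible by `(T - l) ^ μ`,
because `(T - l) ^ μ` does not involve `t`.
(3) For `F ∈ K[T]`: `F (T) 𝒜 (T) - F (h) 𝒜 (T)` is a multiple of `(T - h) 𝒜 (T) = P (T)`. So
`trace (F (h) 𝒜 (T) x₁) ≡ F (T) q (T)` modulo `P (T)`, and this is `≡ 0` modulo `P` if `R ∣ F`. The
left side has degree `< n = deg P`, so it vanishes; its coefficient of `T ^ (n-1)` is
`trace (F (h) x₁)`, since `𝒜 (T) = T ^ (n-1) +` lower terms (from `(T - h) 𝒜 (T) = P (T)`, see
`matPolyEquiv`). (`n = 0` is trivial.)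
-/

set_option autoImplicit false

namespace Pool.Agent.Helper40.ZO

open Polynomial

variable {K : Type*} [Field K]

private theorem prod_coeff_one {A : Type*} [CommRing A] {ι : Type*} [DecidableEq ι] (s : Finset ι) (p : ι → A[X]) :
    (∏ i ∈ s, p i).coeff 1 = ∑ i ∈ s, (p i).coeff 1 * ∏ k ∈ s.erase i, (p k).coeff 0 := by
  induction s using Finset.induction_on with
  | empty => simp [Polynomial.coeff_one]
  | insert a s ha ih =>
    rw [Finset.prod_insert ha, Polynomial.mul_coeff_one, ih, Finset.sum_insert ha, Finset.erase_insert ha,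
      Polynomial.coeff_zero_prod, Finset.mul_sum, add_comm]
    congr 1
    apply Finset.sum_congr rfl
    intro i hi
    have hai : a ≠ i := fun h => ha (h ▸ hi)
    rw [Finset.erase_insert_of_ne hai, Finset.prod_insert (fun h => ha (Finset.mem_of_mem_erase h))]
    ring

theorem det_coeff_one {A : Type*} [CommRing A] {n : ℕ} (B : Mat n A[X]) :
    B.det.coeff 1 =
      Matrix.trace (Matrix.adjugate (B.map fun p => p.coeff 0) * B.map fun p => p.coeff 1) := by
  classical
  set B₀ := B.map fun p => p.coeff 0 with hB₀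
  set B₁ := B.map fun p => p.coeff 1 with hB₁
  have h1 : Matrix.trace (Matrix.adjugate B₀ * B₁) = ∑ i, (B₀.updateCol i (fun j => B₁ j i)).det := by
    unfold Matrix.trace
    apply Finset.sum_congr rfl
    intro i _
    rw [← Matrix.cramer_apply, Matrix.cramer_eq_adjugate_mulVec]
    rfl
  rw [h1, Matrix.det_apply', Polynomial.finsetSum_coeff]
  simp_rw [Matrix.det_apply']
  rw [Finset.sum_comm]
  apply Finset.sum_congr rfl
  intro σ _
  rw [← Finset.mul_sum]
  have h2 : ((((Equiv.Perm.sign σ : ℤˣ) : ℤ) : A[X]) * ∏ i, B (σ i) i).coeff 1 =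
      (((Equiv.Perm.sign σ : ℤˣ) : ℤ) : A) * (∏ i, B (σ i) i).coeff 1 := by
    rw [← Polynomial.C_eq_intCast, Polynomial.coeff_C_mul]
  rw [h2, prod_coeff_one]
  congr 1
  apply Finset.sum_congr rfl
  intro i _
  rw [← Finset.mul_prod_erase Finset.univ _ (Finset.mem_univ i), Matrix.updateCol_self]
  congr 1
  apply Finset.prod_congr rfl
  intro k hk
  rw [Matrix.updateCol_ne (Finset.ne_of_mem_erase hk)]
  rfl

end Pool.Agent.Helper40.ZO
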