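import Pool.Agent.Helper40.ZO.CharA

/-!
# Block ZO-CHARB (charpoly_deriv): constant multiplicity of an eigenvalue along a curve

`x` a matrix of polynomials in `t` (the variable of `K[X]`), `h = x (0)`, `x₁` the coefficient of `t`,
`P = (T - l) ^ μ R` the characteristic polynomial of `h`, and `(T - l) ^ μ` divides the
characteristic polynomial of `x` (in `K[t][T]`). Then `trace (F (h) x₁) = 0` for all multiples `F`
of `R`.
PROOF. (1) Jacobi: for a matrix `B` with entries in `A[t]`, `A` any commutative ring, the coefficient of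
`t` of `det B` is `trace (adjugate (B (0)) * B₁)` (`det` as a sum over permutations: the coefficient
of `t` of a product is the sum over the factors; column `k` of `B (0)` replaced by column `k` of
`B₁`, `Matrix.cramer`, `Matrix.mulVec_cramer`/`Matrix.cramer_eq_adjugate_mulVec`).
(2) Apply (1) to the characteristic matrix `T - x (t)` (coefficients in `K[T][t]`; exchange the two
variables, or compute the coefficient with a ring homomorphism `K[t][T] → K[T]`, `∑ c_k T ^ k ↦
∑ (coeff 1 c_k) T ^ k`, which is additive only; or use the dual numbers). With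
`𝒜 (T) = adjugate (T - h)`: the polynomial `q (T) = trace (𝒜 (T) x₁)` is divisible by `(T - l) ^ μ`,
because `(T - l) ^ μ` does not involve `t`.
(3) For `F ∈ K[T]`: `F (T) 𝒜 (T) - F (h) 𝒜 (T)` is a multiple of `(T - h) 𝒜 (T) = P (T)`. So
`trace (F (h) 𝒜 (T) x₁) ≡ F (T) q (T)` modulo `P (T)`, and this is `≡ 0` modulo `P` if `R ∣ F`. The
left side has degree `< n = deg P`, so it vanishes; its coefficient of `T ^ (n-1)` is
`trace (F (h) x₁)`, since `𝒜 (T) = T ^ (n-1) +` lower terms (from `(T - h) 𝒜 (T) = P (T)`, see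
`matPolyEquiv`). (`n = 0` is trivial.)
-/

set_option autoImplicit false

namespace Pool.Agent.Helper40.ZO

open Polynomial

variable {K : Type*} [Field K]

/-- (helper52) the coefficient of `t` of the characteristic polynomial of a curve -/
private lemma dvd_trace {n μ : ℕ} (x : Mat n K[X]) (l : K)
    (hdvd : (X - C (C l)) ^ μ ∣ x.charpoly) :
    (X - C l) ^ μ ∣ Matrix.trace (Matrix.adjugate (Matrix.charmatrix (x.map fun p => p.eval 0)) *
      (x.map fun p => p.coeff 1).map C) := by
  set B : Mat n K[X][X] := (Matrix.charmatrix x).map (Bivariate.swap (R := K)) with hB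
  have h1 : B.det = Bivariate.swap (R := K) x.charpoly := by
    rw [hB, Matrix.charpoly]
    exact (RingHom.map_det (Bivariate.swap (R := K)).toRingHom (Matrix.charmatrix x)).symm
  have h2 : C ((X - C l) ^ μ) ∣ B.det := by
    obtain ⟨q, hq⟩ := hdvd
    rw [h1, hq, map_mul]
    refine Dvd.intro (Bivariate.swap (R := K) q) ?_
    congr 1
    simp only [map_pow, map_sub]
    rw [Bivariate.swap_Y, Bivariate.swap_C_C]
  obtain ⟨q, hq⟩ := h2
  have h3 : (X - C l) ^ μ ∣ B.det.coeff 1 := ⟨q.coeff 1, by rw [hq, coeff_C_mul]⟩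
  rw [det_coeff_one] at h3
  have h4 : (B.map fun p => p.coeff 0) = Matrix.charmatrix (x.map fun p => p.eval 0) := by
    ext1 i j
    rw [Matrix.map_apply, hB, Matrix.map_apply]
    by_cases hij : i = j
    · subst hij
      rw [Matrix.charmatrix_apply_eq, Matrix.charmatrix_apply_eq, map_sub, Bivariate.swap_Y,
        Bivariate.swap_C, Matrix.map_apply, coeff_sub, coeff_C_zero, coeff_map, coeff_zero_eq_eval_zero]
    · rw [Matrix.charmatrix_apply_ne _ _ _ hij, Matrix.charmatrix_apply_ne _ _ _ hij, map_neg,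
        Bivariate.swap_C, Matrix.map_apply, coeff_neg, coeff_map, coeff_zero_eq_eval_zero]
  have h5 : (B.map fun p => p.coeff 1) = -((x.map fun p => p.coeff 1).map C) := by
    ext1 i j
    rw [Matrix.map_apply, hB, Matrix.map_apply, Matrix.neg_apply, Matrix.map_apply, Matrix.map_apply]
    by_cases hij : i = j
    · subst hij
      rw [Matrix.charmatrix_apply_eq, map_sub, Bivariate.swap_Y,
        Bivariate.swap_C, coeff_sub, coeff_C_of_ne_zero one_ne_zero, coeff_map, zero_sub]
    · rw [Matrix.charmatrix_apply_ne _ _ _ hij, map_neg,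
        Bivariate.swap_C, coeff_neg, coeff_map]
  rw [h4, h5, Matrix.mul_neg, Matrix.trace_neg, dvd_neg] at h3
  exact h3

/-- (helper52) the remainder theorem -/
private lemma exists_rem {n : ℕ} (h : Mat n K) (F : K[X]) :
    ∃ G : Mat n K[X], F • (1 : Mat n K[X]) - (aeval h F).map C = G * Matrix.charmatrix h := by
  have h1 := sub_dvd_eval_sub (C X : K[X][X]) (X : K[X][X]) (F.map ((C : K[X] →+* K[X][X]).comp C))
  obtain ⟨g, hg⟩ := h1
  set H : Mat n K[X] := h.map C with hH
  refine ⟨aeval H g, ?_⟩
  have h2 := congrArg (aeval H) hg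
  have e1 : (F.map ((C : K[X] →+* K[X][X]).comp C)).eval (C X : K[X][X]) = C F := by
    rw [eval_map, ← hom_eval₂]
    simp
  have e2 : (F.map ((C : K[X] →+* K[X][X]).comp C)).eval (X : K[X][X]) = F.map C := by
    rw [eval_map, ← eval₂_map, eval₂_C_X]
  rw [e1, e2, mul_comm, map_mul, map_sub, map_sub, aeval_C, aeval_C, aeval_X] at h2
  have e3 : aeval H (F.map C) = (aeval h F).map C := by
    have e4 : (aeval h F).map C = (C : K →+* K[X]).mapMatrix (aeval h F) := rfl
    rw [e4, aeval_def, aeval_def, hom_eval₂, eval₂_map]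
    congr 1
    refine RingHom.ext fun c => ?_
    ext1 i j
    rw [RingHom.comp_apply, RingHom.comp_apply, RingHom.mapMatrix_apply, Matrix.map_apply,
      Matrix.algebraMap_matrix_apply, Matrix.algebraMap_matrix_apply]
    split_ifs
    · rfl
    · exact (map_zero _).symm
  have e5 : algebraMap K[X] (Mat n K[X]) X - H = Matrix.charmatrix h := by
    ext1 i j
    by_cases hij : i = j
    · subst hij
      rw [Matrix.charmatrix_apply_eq, Matrix.sub_apply, Matrix.algebraMap_matrix_apply, if_pos rfl]
      rfl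
    · rw [Matrix.charmatrix_apply_ne _ _ _ hij, Matrix.sub_apply, Matrix.algebraMap_matrix_apply,
        if_neg hij, zero_sub]
      rfl
  rw [e3, e5] at h2
  rw [← h2, Algebra.algebraMap_eq_smul_one]

theorem charpoly_deriv {n μ : ℕ} (x : Mat n K[X]) (l : K)
    (hdvd : (X - C (C l)) ^ μ ∣ x.charpoly) {R : K[X]}
    (hR : (x.map fun p => p.eval 0).charpoly = (X - C l) ^ μ * R) {F : K[X]} (hF : R ∣ F) :
    Matrix.trace (aeval (x.map fun p => p.eval 0) F * x.map fun p => p.coeff 1) = 0 := by
  classical
  set h : Mat n K := x.map fun p => p.eval 0 with hh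
  set x1 : Mat n K := x.map fun p => p.coeff 1 with hx1
  rcases Nat.eq_zero_or_pos n with hn | hn
  · subst hn
    simp [Matrix.trace]
  have : Nonempty (Fin n) := ⟨⟨0, hn⟩⟩
  set 𝒜 : Mat n K[X] := Matrix.adjugate (Matrix.charmatrix h) with h𝒜
  obtain ⟨G, hG⟩ := exists_rem h F
  have hq := dvd_trace x l hdvd
  rw [← hh, ← hx1, ← h𝒜] at hq
  -- the trace
  set τ : K[X] := Matrix.trace ((aeval h F).map C * 𝒜 * x1.map C) with hτ
  have h1 : τ = F * Matrix.trace (𝒜 * x1.map C) - h.charpoly * Matrix.trace (G * x1.map C) := by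
    have e1 : (aeval h F).map C * 𝒜 = F • 𝒜 - h.charpoly • G := by
      have e2 : (aeval h F).map C = F • (1 : Mat n K[X]) - G * Matrix.charmatrix h := by
        rw [← hG]; abel
      rw [e2, sub_mul, smul_mul_assoc, one_mul, Matrix.mul_assoc, h𝒜, Matrix.mul_adjugate,
        Matrix.mul_smul, Matrix.mul_one]
      rfl
    rw [hτ, e1, sub_mul, smul_mul_assoc, smul_mul_assoc, Matrix.trace_sub, Matrix.trace_smul,
      Matrix.trace_smul, smul_eq_mul, smul_eq_mul]
  have h2 : h.charpoly ∣ τ := by
    rw [h1]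
    refine dvd_sub ?_ (dvd_mul_right _ _)
    rw [hR, mul_comm F]
    exact mul_dvd_mul hq hF
  -- degrees
  set A := matPolyEquiv 𝒜 with hA
  have h3 : (X - C h) * A = (h.charpoly).map (algebraMap K (Mat n K)) := by
    rw [← Matrix.matPolyEquiv_charmatrix, hA, ← map_mul, h𝒜, Matrix.mul_adjugate]
    exact matPolyEquiv_smul_one _
  have hPm : ((h.charpoly).map (algebraMap K (Mat n K))).Monic := (Matrix.charpoly_monic h).map _
  have hA0 : A ≠ 0 := by
    intro h0
    rw [h0, mul_zero] at h3
    exact hPm.ne_zero h3.symm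
  have hdeg : A.natDegree + 1 = n := by
    have h4 := (monic_X_sub_C h).natDegree_mul' hA0
    rw [h3, (Matrix.charpoly_monic h).natDegree_map, Matrix.charpoly_natDegree_eq_dim,
      natDegree_X_sub_C, Fintype.card_fin] at h4
    omega
  have hlead : A.coeff (n - 1) = 1 := by
    have h4 : A.leadingCoeff = 1 := by
      rw [← leadingCoeff_monic_mul (monic_X_sub_C h), h3]
      exact hPm
    have h5 : n - 1 = A.natDegree := by omega
    rw [h5]
    exact h4
  have hcoef : ∀ k, τ.coeff k = Matrix.trace (aeval h F * A.coeff k * x1) := by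
    intro k
    have h4 : ∀ M : Mat n K[X], (Matrix.trace M).coeff k = Matrix.trace ((matPolyEquiv M).coeff k) := by
      intro M
      rw [Matrix.trace, Matrix.trace, finsetSum_coeff]
      refine Finset.sum_congr rfl fun i _ => ?_
      rw [Matrix.diag_apply, Matrix.diag_apply, matPolyEquiv_coeff_apply]
    rw [hτ, h4, map_mul, map_mul, matPolyEquiv_map_C, matPolyEquiv_map_C, coeff_mul_C, coeff_C_mul]
  have hτ0 : τ = 0 := by
    by_contra hne
    have h4 := natDegree_le_of_dvd h2 hne
    rw [Matrix.charpoly_natDegree_eq_dim, Fintype.card_fin] at h4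
    have h5 : τ.coeff τ.natDegree = 0 := by
      rw [hcoef, coeff_eq_zero_of_natDegree_lt (by omega), mul_zero, zero_mul, Matrix.trace_zero]
    exact hne (leadingCoeff_eq_zero.1 h5)
  have h6 := hcoef (n - 1)
  rw [hτ0, coeff_zero, hlead, mul_one] at h6
  exact h6.symm

end Pool.Agent.Helper40.ZO
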