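import Pool.Agent.Helper40.ZO.Defs

/-!
# Block ZO-CLIF: Clifford's theorem

If `V` is semisimple under `A` then it is semisimple under a normal subgroup `B` of `A`.
PROOF. Call a subspace irreducible if it is `B`-stable, nonzero, and has no `B`-stable subspaces
except `0` and itself. Let `Q` be the sum of all irreducible subspaces. For `a ∈ A` and `I`
irreducible `ρ a I` is irreducible (`B` is normal in `A`), so `Q` is `A`-stable; let `Q'` be an
`A`-stable complement. If `Q' ≠ 0` it contains an irreducible subspace (minimal dimension among the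
nonzero `B`-stable subspaces of `Q'`), contained in `Q ∩ Q' = 0`, contradiction. So `V` is the sum of
the irreducible subspaces. Let `W` be `B`-stable, `W'` maximal (dimension) among the `B`-stable
subspaces with `W ∩ W' = 0`. For `I` irreducible `I ∩ (W + W')` is `0` or `I`; if it is `0` then
`W' + I` contradicts the maximality of `W'`. So `I ⊆ W + W'` for all `I`, `W + W' = V`.
-/

set_option autoImplicit false

namespace Pool.Agent.Helper40.ZO

variable {K V : Type*} [Field K] [AddCommGroup V] [Module K V] [FiniteDimensional K V]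

omit [FiniteDimensional K V] in
private lemma stable_iff (S : Set (Module.End K V)) (W : Submodule K V) :
    Stable S W ↔ ∀ A ∈ S, W ≤ W.comap A := Iff.rfl

omit [FiniteDimensional K V] in
private lemma stable_sup {S : Set (Module.End K V)} {W W' : Submodule K V} (h : Stable S W)
    (h' : Stable S W') : Stable S (W ⊔ W') := by
  rw [stable_iff] at h h' ⊢
  intro A hA
  exact sup_le ((h A hA).trans (Submodule.comap_mono le_sup_left))
    ((h' A hA).trans (Submodule.comap_mono le_sup_right))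

omit [FiniteDimensional K V] in
private lemma stable_inf {S : Set (Module.End K V)} {W W' : Submodule K V} (h : Stable S W)
    (h' : Stable S W') : Stable S (W ⊓ W') :=
  fun A hA v hv => ⟨h A hA v hv.1, h' A hA v hv.2⟩

/-- irreducible subspaces -/
private def Irr (S : Set (Module.End K V)) (I : Submodule K V) : Prop :=
  Stable S I ∧ I ≠ ⊥ ∧ ∀ J : Submodule K V, J ≤ I → Stable S J → J = ⊥ ∨ J = I

private lemma exists_irr {S : Set (Module.End K V)} {W : Submodule K V} (h : Stable S W)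
    (h0 : W ≠ ⊥) : ∃ I ≤ W, Irr S I := by
  obtain ⟨I, ⟨hI1, hI2, hI3⟩, hmin⟩ := (wellFounded_lt (α := Submodule K V)).has_min
    {I | Stable S I ∧ I ≠ ⊥ ∧ I ≤ W} ⟨W, h, h0, le_rfl⟩
  refine ⟨I, hI3, hI1, hI2, fun J hJ hJS => ?_⟩
  by_cases hJ0 : J = ⊥
  · exact Or.inl hJ0
  · right
    rcases hJ.lt_or_eq with h1 | h1
    · exact absurd h1 (hmin J ⟨hJS, hJ0, hJ.trans hI3⟩)
    · exact h1

omit [FiniteDimensional K V] in
private lemma irr_map {G : Type*} [Group G] (ρ : G →* Module.End K V) {A B : Subgroup G}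
    (hn : ∀ a ∈ A, ∀ b ∈ B, a * b * a⁻¹ ∈ B) {I : Submodule K V}
    (hI : Irr (ρ '' (B : Set G)) I) {a : G} (ha : a ∈ A) :
    Irr (ρ '' (B : Set G)) (I.map (ρ a)) := by
  have hinv : ∀ (g : G) (v : V), ρ g⁻¹ (ρ g v) = v := by
    intro g v
    rw [← Module.End.mul_apply, ← map_mul, inv_mul_cancel, map_one, Module.End.one_apply]
  have hinv' : ∀ (g : G) (v : V), ρ g (ρ g⁻¹ v) = v := by
    intro g v
    rw [← Module.End.mul_apply, ← map_mul, mul_inv_cancel, map_one, Module.End.one_apply]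
  have hst : ∀ g ∈ A, ∀ J : Submodule K V, Stable (ρ '' (B : Set G)) J →
      Stable (ρ '' (B : Set G)) (J.map (ρ g)) := by
    rintro g hg J hJ _ ⟨b, hb, rfl⟩ _ ⟨v, hv, rfl⟩
    have h1 : g⁻¹ * b * g ∈ B := by
      have := hn g⁻¹ (A.inv_mem hg) b hb
      rwa [inv_inv] at this
    refine ⟨ρ (g⁻¹ * b * g) v, hJ _ ⟨_, h1, rfl⟩ v hv, ?_⟩
    rw [← Module.End.mul_apply, ← Module.End.mul_apply, ← map_mul, ← map_mul]
    congr 2
    group
  have hmm : ∀ (g : G) (J : Submodule K V), (J.map (ρ g)).map (ρ g⁻¹) = J := by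
    intro g J
    ext v
    constructor
    · rintro ⟨_, ⟨w, hw, rfl⟩, rfl⟩
      rw [hinv]
      exact hw
    · intro hv
      exact ⟨ρ g v, ⟨v, hv, rfl⟩, hinv g v⟩
  have hmm' : ∀ (g : G) (J : Submodule K V), (J.map (ρ g⁻¹)).map (ρ g) = J := by
    intro g J
    have := hmm g⁻¹ J
    rwa [inv_inv] at this
  obtain ⟨h1, h2, h3⟩ := hI
  refine ⟨hst a ha I h1, ?_, ?_⟩
  · intro h
    apply h2
    rw [← hmm a I, h, Submodule.map_bot]
  · intro J hJ hJS
    have h4 : J.map (ρ a⁻¹) ≤ I := by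
      rw [← hmm a I]
      exact Submodule.map_mono hJ
    rcases h3 _ h4 (hst a⁻¹ (A.inv_mem ha) J hJS) with h5 | h5
    · left
      rw [← hmm' a J, h5, Submodule.map_bot]
    · right
      rw [← hmm' a J, h5]

theorem clifford {G : Type*} [Group G] (ρ : G →* Module.End K V) {A B : Subgroup G}
    (hAB : B ≤ A) (hn : ∀ a ∈ A, ∀ b ∈ B, a * b * a⁻¹ ∈ B)
    (hA : ActsSemisimply (ρ '' (A : Set G))) : ActsSemisimply (ρ '' (B : Set G)) := by
  obtain ⟨Q, hQ⟩ : ∃ Q : Submodule K V, Q = sSup {I | Irr (ρ '' (B : Set G)) I} := ⟨_, rfl⟩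
  have hQA : Stable (ρ '' (A : Set G)) Q := by
    rw [stable_iff]
    rintro _ ⟨a, ha, rfl⟩
    conv_lhs => rw [hQ]
    refine sSup_le fun I hI => ?_
    rw [← Submodule.map_le_iff_le_comap, hQ]
    exact le_sSup (irr_map ρ hn hI ha)
  obtain ⟨Q', hQ', hc⟩ := hA Q hQA
  have hQtop : Q = ⊤ := by
    have h1 : Q' = ⊥ := by
      by_contra h0
      have h2 : Stable (ρ '' (B : Set G)) Q' := by
        rintro _ ⟨b, hb, rfl⟩
        exact hQ' _ ⟨b, hAB hb, rfl⟩
      obtain ⟨I, hI1, hI2⟩ := exists_irr h2 h0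
      have h3 : I ≤ Q := by
        rw [hQ]
        exact le_sSup hI2
      exact hI2.2.1 (le_bot_iff.1 (hc.disjoint h3 hI1))
    have h2 := hc.sup_eq_top
    rwa [h1, sup_bot_eq] at h2
  intro W hW
  obtain ⟨W', ⟨h1, h2⟩, hmax⟩ := (wellFounded_gt (α := Submodule K V)).has_min
    {W' | Stable (ρ '' (B : Set G)) W' ∧ Disjoint W W'}
    ⟨⊥, fun A _ v hv => by rw [Submodule.mem_bot] at hv ⊢; rw [hv, map_zero], disjoint_bot_right⟩
  refine ⟨W', h1, h2, ?_⟩
  rw [codisjoint_iff, eq_top_iff, ← hQtop, hQ]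
  refine sSup_le fun I hI => ?_
  rcases hI.2.2 (I ⊓ (W ⊔ W')) inf_le_left (stable_inf hI.1 (stable_sup hW h1)) with h3 | h3
  · exfalso
    have h4 : Disjoint (W ⊔ W') I := by
      rw [disjoint_iff, inf_comm]
      exact h3
    have h5 := h2.disjoint_sup_right_of_disjoint_sup_left h4
    refine hmax (W' ⊔ I) ⟨stable_sup h1 hI.1, h5⟩ ?_
    refine lt_of_le_of_ne le_sup_left fun h6 => ?_
    have h7 : I ≤ W' := by
      rw [h6]
      exact le_sup_right
    exact hI.2.1 (le_bot_iff.1 (h4 (h7.trans le_sup_right) le_rfl))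
  · exact inf_eq_left.1 h3

end Pool.Agent.Helper40.ZO
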