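import Pool.Agent.Helper40.ZO.Key

/-!
# Block ZO-CURA: the powers of a matrix as exponential polynomials

`binom j` is the polynomial with `(binom j).eval k = Nat.choose k j`; `cv m U` is the matrix of
polynomials `∑_{j < m} binom j • (U - 1) ^ j`, so `cv m U` at `k` is `U ^ k` if `(U - 1) ^ m = 0`.

* `cv_eval`: `(1 + n) ^ k = ∑ choose k j n ^ j` (`Commute.add_pow`/`add_pow`), terms `j ≥ m` vanish.
* `cv_coeff_one`: `(binom j).coeff 1 = (-1) ^ (j-1) / j` for `j ≥ 1` and `0` for `j = 0`
  (derivative of `X (X-1) ⋯ (X-j+1) / j!` at `0`; `descPochhammer_succ_left` or an induction), so the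
  sum is `lg`.
* `lg_inv`: `cv m U * cv m U⁻¹ = 1` (both sides agree at all `k : ℕ`), take the coefficient of `X`
  (`(cv m U).map (coeff 0) = 1`). `(U⁻¹ - 1) ^ m = 0` since `U⁻¹ - 1 = - U⁻¹ (U - 1)`.
* `exists_curve`: let `S` be killed by the squarefree `p = c ∏ (X - χ_i)`, `χ_i` different; we may
  assume that all `χ_i ≠ 0` (`S` is invertible: `S * q (S) = 0` implies `q (S) = 0`). By Lagrange
  interpolation there are `Π_i`, polynomials in `S`, with `S ^ a = ∑ χ_i ^ a • Π_i` for all `a : ℤ`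
  (`X ^ a - ∑ χ_i ^ a ℓ_i (X)` is divisible by `∏ (X - χ_i)`; for `a ≥ 0` and for the inverse,
  `S⁻¹ ^ a = ∑ (χ_i⁻¹) ^ a • Π_i` because `Π_i` are orthogonal idempotents with sum 1, or
  diagonalise `S`). Then `A a = (∑ χ_i ^ a • Π_i) * cv m U` and
  `A' a = (∑ χ_i⁻¹ ^ a • Π_i) * cv m U⁻¹`. (Commute: `S U = U S`.)
-/

set_option autoImplicit false

namespace Pool.Agent.Helper40.ZO

open Polynomial

variable {K : Type*} [Field K] [CharZero K]

/-- `binom j` is the binomial coefficient as a polynomial. -/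
noncomputable def binom (j : ℕ) : K[X] := C ((j.factorial : K)⁻¹) * descPochhammer K j

/-- The polynomial curve with `cv m U (k) = U ^ k`. -/
noncomputable def cv {n : ℕ} (m : ℕ) (U : Mat n K) : Mat n K[X] :=
  ∑ j ∈ Finset.range m, (binom j : K[X]) • ((U - 1) ^ j).map C

private lemma binom_eval (j k : ℕ) : (binom j : K[X]).eval (k : K) = (Nat.choose k j : K) := by
  unfold binom
  rw [eval_mul, eval_C, descPochhammer_eval_eq_descFactorial, Nat.descFactorial_eq_factorial_mul_choose]
  push_cast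
  rw [← mul_assoc, inv_mul_cancel₀ (by exact_mod_cast Nat.factorial_ne_zero j), one_mul]

private lemma binom_coeff_zero (j : ℕ) : (binom j : K[X]).coeff 0 = if j = 0 then 1 else 0 := by
  have h := binom_eval (K := K) j 0
  rw [Nat.cast_zero, ← coeff_zero_eq_eval_zero] at h
  rw [h]
  rcases j with _ | j
  · simp
  · simp

omit [CharZero K] in
private lemma dp_neg_one (j : ℕ) : (descPochhammer K j).eval (-1) = (-1) ^ j * (j.factorial : K) := by
  induction j with
  | zero => simp
  | succ j ih =>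
    rw [descPochhammer_succ_right, eval_mul, ih, Nat.factorial_succ]
    simp only [eval_sub, eval_X, eval_natCast]
    push_cast
    ring

private lemma binom_coeff_one_succ (j : ℕ) : (binom (j + 1) : K[X]).coeff 1 = (-1) ^ j / ((j : K) + 1) := by
  unfold binom
  rw [coeff_C_mul, descPochhammer_succ_left, coeff_X_mul, coeff_zero_eq_eval_zero, eval_comp]
  have h1 : eval (0 : K) (X - 1) = -1 := by simp
  rw [h1, dp_neg_one, Nat.factorial_succ]
  have h2 : ((j.factorial : ℕ) : K) ≠ 0 := by exact_mod_cast Nat.factorial_ne_zero j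
  have h3 : (j : K) + 1 ≠ 0 := by exact_mod_cast Nat.succ_ne_zero j
  push_cast
  field_simp

omit [CharZero K] in
private lemma binom_coeff_one_zero : (binom 0 : K[X]).coeff 1 = 0 := by
  unfold binom
  rw [coeff_C_mul, descPochhammer_zero, coeff_one]
  simp

omit [CharZero K] in
private lemma cv_map {n : ℕ} (m : ℕ) (U : Mat n K) (φ : K[X] →ₗ[K] K) :
    (cv m U).map φ = ∑ j ∈ Finset.range m, φ (binom j) • (U - 1) ^ j := by
  ext a b
  unfold cv
  rw [Matrix.map_apply, Matrix.sum_apply, Matrix.sum_apply, map_sum]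
  refine Finset.sum_congr rfl fun j _ => ?_
  rw [Matrix.smul_apply, Matrix.smul_apply, Matrix.map_apply, smul_eq_mul, smul_eq_mul, mul_comm,
    ← smul_eq_C_mul, map_smul, smul_eq_mul, mul_comm]

theorem cv_eval {n m : ℕ} {U : Mat n K} (hU : (U - 1) ^ m = 0) (k : ℕ) :
    (cv m U).map (fun p => p.eval (k : K)) = U ^ k := by
  have h := cv_map m U (leval (k : K))
  have h0 : (cv m U).map (fun p => p.eval (k : K)) = (cv m U).map (leval (k : K)) := rfl
  rw [h0, h]
  have h1 : ∀ j, (leval (k : K) (binom j : K[X])) • (U - 1) ^ j = (Nat.choose k j : K) • (U - 1) ^ j := by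
    intro j
    rw [← binom_eval]; rfl
  simp only [h1]
  have h2 : U ^ k = ∑ j ∈ Finset.range (k + 1), (Nat.choose k j : K) • (U - 1) ^ j := by
    have h3 : U = (U - 1) + 1 := by abel
    conv_lhs => rw [h3, (Commute.one_right (U - 1)).add_pow k]
    refine Finset.sum_congr rfl fun j _ => ?_
    rw [one_pow, mul_one, ← nsmul_eq_mul', Nat.cast_smul_eq_nsmul]
  rw [h2]
  have h4 : ∑ j ∈ Finset.range m, (Nat.choose k j : K) • (U - 1) ^ j =
      ∑ j ∈ Finset.range (m + (k + 1)), (Nat.choose k j : K) • (U - 1) ^ j := by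
    refine Finset.sum_subset (Finset.range_mono (Nat.le_add_right _ _)) fun j _ hj => ?_
    have hj' : m ≤ j := by simpa using hj
    rw [← Nat.add_sub_cancel' hj', pow_add, hU, zero_mul, smul_zero]
  have h5 : ∑ j ∈ Finset.range (k + 1), (Nat.choose k j : K) • (U - 1) ^ j =
      ∑ j ∈ Finset.range (m + (k + 1)), (Nat.choose k j : K) • (U - 1) ^ j := by
    refine Finset.sum_subset (Finset.range_mono (Nat.le_add_left _ _)) fun j _ hj => ?_
    have hj' : k < j := by
      have : k + 1 ≤ j := by simpa using hj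
      omega
    rw [Nat.choose_eq_zero_of_lt hj', Nat.cast_zero, zero_smul]
  rw [h4, h5]

theorem cv_coeff_zero {n m : ℕ} {U : Mat n K} (hU : (U - 1) ^ m = 0) :
    (cv m U).map (fun p => p.coeff 0) = 1 := by
  have h0 : (cv m U).map (fun p => p.coeff 0) = (cv m U).map (lcoeff K 0) := rfl
  rw [h0, cv_map]
  have h1 : ∀ j, (lcoeff K 0 (binom j : K[X])) • (U - 1) ^ j =
      if j = 0 then (1 : Mat n K) else 0 := by
    intro j
    rw [lcoeff_apply, binom_coeff_zero]
    split_ifs with h
    · subst h; simp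
    · rw [zero_smul]
  simp only [h1]
  rcases m with _ | m
  · rw [pow_zero] at hU
    rw [Finset.range_zero, Finset.sum_empty, hU]
  · rw [Finset.sum_ite_eq' (Finset.range (m + 1)) 0 (fun _ => (1 : Mat n K))]
    simp

theorem cv_coeff_one {n m : ℕ} {U : Mat n K} (hU : (U - 1) ^ m = 0) :
    (cv m U).map (fun p => p.coeff 1) = lg K m U := by
  have h0 : (cv m U).map (fun p => p.coeff 1) = (cv m U).map (lcoeff K 1) := rfl
  rw [h0, cv_map]
  unfold lg
  rcases m with _ | m
  · simp
  · rw [Finset.sum_range_succ', Finset.sum_range_succ _ m, hU, smul_zero, add_zero]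
    have h1 : (lcoeff K 1 (binom 0 : K[X])) • (U - 1) ^ 0 = 0 := by
      rw [lcoeff_apply, binom_coeff_one_zero, zero_smul]
    rw [h1, add_zero]
    refine Finset.sum_congr rfl fun j _ => ?_
    rw [lcoeff_apply, binom_coeff_one_succ]

theorem lg_inv {n m : ℕ} {U : Mat n K} (hU : (U - 1) ^ m = 0) :
    (U⁻¹ - 1) ^ m = 0 ∧ lg K m U⁻¹ = - lg K m U := by
  have hunit : IsUnit U := by
    have h1 : IsNilpotent (U - 1) := ⟨m, hU⟩
    have h2 := h1.isUnit_one_add
    rwa [add_sub_cancel] at h2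
  have hdet : IsUnit U.det := (Matrix.isUnit_iff_isUnit_det U).1 hunit
  have hm1 : U * U⁻¹ = 1 := Matrix.mul_nonsing_inv U hdet
  have hm2 : U⁻¹ * U = 1 := Matrix.nonsing_inv_mul U hdet
  have hV : (U⁻¹ - 1) ^ m = 0 := by
    have h3 : U⁻¹ - 1 = (-U⁻¹) * (U - 1) := by
      rw [mul_sub, neg_mul, hm2, neg_mul, mul_one]
      abel
    have h4 : Commute (-U⁻¹) (U - 1) := by
      show (-U⁻¹) * (U - 1) = (U - 1) * (-U⁻¹)
      rw [mul_sub, sub_mul, neg_mul, hm2, mul_neg, hm1, mul_one, one_mul]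
    rw [h3, h4.mul_pow, hU, mul_zero]
  refine ⟨hV, ?_⟩
  have hprod : cv m U * cv m U⁻¹ = 1 := by
    refine Matrix.ext fun a b => ?_
    refine Polynomial.eq_of_infinite_eval_eq _ _
      (Set.infinite_of_injective_forall_mem (Nat.cast_injective (R := K)) fun k => ?_)
    show ((cv m U * cv m U⁻¹) a b).eval (k : K) = ((1 : Mat n K[X]) a b).eval (k : K)
    have e1 : (cv m U * cv m U⁻¹).map (evalRingHom (k : K)) =
        (cv m U).map (evalRingHom (k : K)) * (cv m U⁻¹).map (evalRingHom (k : K)) := Matrix.map_mul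
    have e2 : (cv m U).map (evalRingHom (k : K)) = U ^ k := cv_eval hU k
    have e3 : (cv m U⁻¹).map (evalRingHom (k : K)) = U⁻¹ ^ k := cv_eval hV k
    have e4 : U ^ k * U⁻¹ ^ k = 1 := by
      have hc : Commute U U⁻¹ := hm1.trans hm2.symm
      rw [← hc.mul_pow, hm1, one_pow]
    have e5 := congrFun (congrFun (e1.trans (by rw [e2, e3, e4])) a) b
    rw [Matrix.map_apply] at e5
    have e6 : ((1 : Mat n K[X]) a b).eval (k : K) = (1 : Mat n K) a b := by
      rw [Matrix.one_apply, Matrix.one_apply]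
      split_ifs <;> simp
    rw [e6, ← e5]
    rfl
  have hc : (cv m U * cv m U⁻¹).map (fun p => p.coeff 1) =
      (1 : Mat n K[X]).map (fun p => p.coeff 1) := by rw [hprod]
  have h5 : (cv m U * cv m U⁻¹).map (fun p => p.coeff 1) =
      (cv m U).map (fun p => p.coeff 0) * (cv m U⁻¹).map (fun p => p.coeff 1) +
      (cv m U).map (fun p => p.coeff 1) * (cv m U⁻¹).map (fun p => p.coeff 0) := by
    ext a b
    rw [Matrix.map_apply, Matrix.mul_apply, finsetSum_coeff, Matrix.add_apply, Matrix.mul_apply,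
      Matrix.mul_apply, ← Finset.sum_add_distrib]
    refine Finset.sum_congr rfl fun x _ => ?_
    rw [mul_coeff_one]
    rfl
  have h6 : (1 : Mat n K[X]).map (fun p => p.coeff 1) = 0 := by
    ext a b
    rw [Matrix.map_apply, Matrix.one_apply]
    split_ifs
    · rw [coeff_one]; simp
    · simp
  rw [h5, h6, cv_coeff_zero hU, cv_coeff_zero hV, cv_coeff_one hU, cv_coeff_one hV, one_mul,
    mul_one] at hc
  exact eq_neg_of_add_eq_zero_left hc

end Pool.Agent.Helper40.ZO
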