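import Pool.Agent.Helper40.ZO.CurA

/-!
# Block ZO-CURB (exists_curve): the powers of a matrix as exponential polynomials

`binom j` is the polynomial with `(binom j).eval k = Nat.choose k j`; `cv m U` is the matrix of
polynomials `∑_{j < m} binom j • (U - 1) ^ j`, so `cv m U` at `k` is `U ^ k` if `(U - 1) ^ m = 0`.

* `cv_eval`: `(1 + n) ^ k = ∑ choose k j n ^ j` (`Commute.add_pow`/`add_pow`), terms `j ≥ m` vanish.
* `cv_coeff_one`: `(binom j).coeff 1 = (-1) ^ (j-1) / j` for `j ≥ 1` and `0` for `j = 0`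
  (derivative of `X (X-1) ⋯ (X-j+1) / j!` at `0`; `descPochhammer_succ_left` or an induction), so the
  sum is `lg`.
* `lg_inv`: `cv m U * cv m U⁻¹ = 1` (both sides agree at all `k : ℕ`), take the coefficient of `X`
  (`(cv m U).map (coeff 0) = 1`). `(U⁻¹ - 1) ^ m = 0` since `U⁻¹ - 1 = - U⁻¹ (U - 1)`.
* `exists_curve`: let `S` be killed by the squarefree `p = c ∏ (X - χ_i)`, `χ_i` different; we may
  assume that all `χ_i ≠ 0` (`S` is invertible: `S * q (S) = 0` implies `q (S) = 0`). By Lagrange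
  interpolation there are `Π_i`, polynomials in `S`, with `S ^ a = ∑ χ_i ^ a • Π_i` for all `a : ℤ`
  (`X ^ a - ∑ χ_i ^ a ℓ_i (X)` is divisible by `∏ (X - χ_i)`; for `a ≥ 0` and for the inverse,
  `S⁻¹ ^ a = ∑ (χ_i⁻¹) ^ a • Π_i` because `Π_i` are orthogonal idempotents with sum 1, or
  diagonalise `S`). Then `A a = (∑ χ_i ^ a • Π_i) * cv m U` and
  `A' a = (∑ χ_i⁻¹ ^ a • Π_i) * cv m U⁻¹`. (Commute: `S U = U S`.)
-/

set_option autoImplicit false

namespace Pool.Agent.Helper40.ZO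

open Polynomial

variable {K : Type*} [Field K] [CharZero K]

/-- a polynomial which vanishes at the roots of the squarefree `p` kills `S` -/
private lemma kill [IsAlgClosed K] {n : ℕ} {S : Mat n K} {p : K[X]} (hp : Squarefree p)
    (hS : aeval S p = 0) {f : K[X]} (hf : ∀ χ ∈ p.roots, f.eval χ = 0) : aeval S f = 0 := by
  by_cases hf0 : f = 0
  · rw [hf0, map_zero]
  · have hp0 : p ≠ 0 := hp.ne_zero
    have hnd : p.roots.Nodup := nodup_roots (PerfectField.separable_iff_squarefree.2 hp)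
    have hle : p.roots ≤ f.roots := by
      rw [Multiset.le_iff_subset hnd]
      intro χ hχ
      rw [mem_roots hf0]
      exact hf χ hχ
    obtain ⟨g, hg⟩ := (IsAlgClosed.splits p).dvd_of_roots_le_roots hp0 hle
    rw [hg, map_mul, hS, zero_mul]

/-- spectral projections -/
private lemma spectral [IsAlgClosed K] {n : ℕ} {S : Mat n K} {p : K[X]} (hp : Squarefree p)
    (hS : aeval S p = 0) (hu : IsUnit S) :
    ∃ (R : Finset K) (P : K → Mat n K), (∀ χ ∈ R, χ ≠ 0) ∧ (∀ a : ℕ, S ^ a = ∑ χ ∈ R, χ ^ a • P χ) ∧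
      ∀ a : ℕ, S⁻¹ ^ a = ∑ χ ∈ R, χ⁻¹ ^ a • P χ := by
  classical
  set R0 : Finset K := p.roots.toFinset with hR0
  set P : K → Mat n K := fun χ => aeval S (Lagrange.basis R0 id χ) with hP
  have hinj : Set.InjOn (id : K → K) (R0 : Set K) := Set.injOn_id _
  have hev : ∀ χ ∈ R0, ∀ ψ ∈ R0, (Lagrange.basis R0 id χ).eval ψ = if ψ = χ then 1 else 0 := by
    intro χ hχ ψ hψ
    split_ifs with h
    · rw [h]
      exact Lagrange.eval_basis_self hinj hχ
    · exact Lagrange.eval_basis_of_ne (v := id) (fun e => h e.symm) hψ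
  have key : ∀ f : K[X], aeval S f = ∑ χ ∈ R0, f.eval χ • P χ := by
    intro f
    have h1 : aeval S (f - ∑ χ ∈ R0, C (f.eval χ) * Lagrange.basis R0 id χ) = 0 := by
      refine kill hp hS fun ψ hψ => ?_
      have hψ' : ψ ∈ R0 := Multiset.mem_toFinset.2 hψ
      rw [eval_sub, eval_finsetSum, sub_eq_zero]
      rw [Finset.sum_eq_single ψ]
      · rw [eval_mul, eval_C, hev ψ hψ' ψ hψ', if_pos rfl, mul_one]
      · intro χ hχ hne
        rw [eval_mul, hev χ hχ ψ hψ', if_neg (fun e => hne e.symm), mul_zero]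
      · exact fun h => absurd hψ' h
    rw [map_sub, sub_eq_zero] at h1
    rw [h1, map_sum]
    refine Finset.sum_congr rfl fun χ _ => ?_
    rw [map_mul, aeval_C, ← Algebra.smul_def]
  have hmul : ∀ χ ∈ R0, ∀ f : K[X], aeval S f * P χ = f.eval χ • P χ := by
    intro χ hχ f
    rw [hP]
    dsimp only
    rw [← map_mul, key]
    rw [Finset.sum_eq_single χ]
    · rw [eval_mul, hev χ hχ χ hχ, if_pos rfl, mul_one]
    · intro ψ hψ hne
      rw [eval_mul, hev χ hχ ψ hψ, if_neg hne, mul_zero, zero_smul]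
    · exact fun h => absurd hχ h
  have h0 : 0 ∈ R0 → P 0 = 0 := by
    intro h
    have h1 := hmul 0 h X
    rw [aeval_X, eval_X, zero_smul] at h1
    exact (hu.mul_right_eq_zero).1 h1
  have hsum : ∀ g : K → K, ∑ χ ∈ R0.erase 0, g χ • P χ = ∑ χ ∈ R0, g χ • P χ := by
    intro g
    by_cases h : (0 : K) ∈ R0
    · rw [← Finset.add_sum_erase _ _ h, h0 h, smul_zero, zero_add]
    · rw [Finset.erase_eq_of_notMem h]
  have hpow : ∀ a : ℕ, S ^ a = ∑ χ ∈ R0.erase 0, χ ^ a • P χ := by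
    intro a
    rw [hsum]
    have h1 := key (X ^ a)
    rw [map_pow, aeval_X] at h1
    rw [h1]
    refine Finset.sum_congr rfl fun χ _ => ?_
    rw [eval_pow, eval_X]
  refine ⟨R0.erase 0, P, fun χ h => Finset.ne_of_mem_erase h, hpow, fun a => ?_⟩
  rw [Matrix.inv_pow']
  refine Matrix.inv_eq_right_inv ?_
  rw [Finset.mul_sum]
  have h1 : ∀ χ ∈ R0.erase 0, S ^ a * (χ⁻¹ ^ a • P χ) = (χ ^ 0) • P χ := by
    intro χ hχ
    have hχ0 : χ ≠ 0 := Finset.ne_of_mem_erase hχ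
    have h2 := hmul χ (Finset.mem_of_mem_erase hχ) (X ^ a)
    rw [map_pow, aeval_X, eval_pow, eval_X] at h2
    rw [mul_smul_comm, h2, smul_smul, ← mul_pow, inv_mul_cancel₀ hχ0, one_pow, pow_zero]
  rw [Finset.sum_congr rfl h1, ← hpow 0, pow_zero]

/-- constants -/
private noncomputable def ce : K[X] →+* EP K where
  toFun p := ⟨fun _ => p, Algebra.subset_adjoin (Or.inr ⟨p, rfl⟩)⟩
  map_one' := rfl
  map_mul' _ _ := rfl
  map_zero' := rfl
  map_add' _ _ := rfl

open Classical in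
/-- powers -/
private noncomputable def pe (χ : K) : EP K :=
  if h : χ ≠ 0 then ⟨fun a => C (χ ^ a), Algebra.subset_adjoin (Or.inl ⟨χ, h, rfl⟩)⟩ else 0

omit [CharZero K] in
private lemma pe_coe {χ : K} (h : χ ≠ 0) : ((pe χ : EP K) : ℕ → K[X]) = fun a => C (χ ^ a) := by
  unfold pe
  rw [dif_pos h]

/-- the curve -/
private noncomputable def crv {n : ℕ} (R : Finset K) (e : K → K) (P : K → Mat n K) (W : Mat n K[X]) : Mat n (EP K) :=
  (∑ χ ∈ R, pe (e χ) • (P χ).map (fun z => ce (C z))) * W.map ce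

omit [CharZero K] in
private lemma map_crv {n : ℕ} {B : Type*} [CommRing B] (φ : EP K →+* B) (R : Finset K) (e : K → K) (P : K → Mat n K)
    (W : Mat n K[X]) :
    (crv R e P W).map φ = (∑ χ ∈ R, φ (pe (e χ)) • (P χ).map (fun z => φ (ce (C z)))) * W.map (fun p => φ (ce p)) := by
  unfold crv
  rw [Matrix.map_mul, Matrix.map_map]
  congr 1
  have h1 := map_sum φ.mapMatrix (fun χ => pe (e χ) • (P χ).map (fun z => ce (C z))) R
  rw [RingHom.mapMatrix_apply] at h1
  rw [h1]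
  refine Finset.sum_congr rfl fun χ _ => ?_
  rw [RingHom.mapMatrix_apply]
  ext i j
  simp [Matrix.map_apply, Matrix.smul_apply]

theorem exists_curve [IsAlgClosed K] {n m : ℕ} {h S U : Mat n K} (hJ : JC K m h S U)
    (hu : IsUnit h) :
    ∃ A A' : Mat n (EP K),
      (∀ k : ℕ, A.map (ev k) = h ^ k ∧ A'.map (ev k) = h⁻¹ ^ k) ∧
      (A.map (sp 0) = cv m U ∧ A'.map (sp 0) = cv m U⁻¹) ∧
      ∀ a : ℕ, (A.map (sp a)).map (fun p => p.eval 0) = S ^ a ∧
        (A'.map (sp a)).map (fun p => p.eval 0) = S⁻¹ ^ a := by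
  obtain ⟨p, hp, hpS⟩ := hJ.ss
  have hcomm : Commute S U := hJ.comm
  have hSU : IsUnit S ∧ IsUnit U := by
    rw [← hcomm.isUnit_mul_iff, ← hJ.mul]
    exact hu
  obtain ⟨R, P, hR, hP, hP'⟩ := spectral hp hpS hSU.1
  have hU' : (U⁻¹ - 1) ^ m = 0 := (lg_inv hJ.nil).1
  have hcomm' : Commute S⁻¹ U⁻¹ := by
    change S⁻¹ * U⁻¹ = U⁻¹ * S⁻¹
    rw [← Matrix.mul_inv_rev, ← Matrix.mul_inv_rev, hJ.comm]
  have hinv : h⁻¹ = S⁻¹ * U⁻¹ := by
    rw [hJ.mul, Matrix.mul_inv_rev]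
    exact hcomm'.eq.symm
  have hR' : ∀ χ ∈ R, χ⁻¹ ≠ 0 := fun χ hχ => inv_ne_zero (hR χ hχ)
  have hev : ∀ (k : ℕ) {χ : K}, χ ≠ 0 → ev k (pe χ) = χ ^ k := by
    intro k χ hχ
    rw [ev_apply, pe_coe hχ, eval_C]
  have hevc : ∀ (k : ℕ) (q : K[X]), ev k (ce q) = q.eval (k : K) := by
    intro k q
    rw [ev_apply]
    rfl
  have hsp : ∀ (a : ℕ) {χ : K}, χ ≠ 0 → sp a (pe χ) = C (χ ^ a) := by
    intro k χ hχ
    rw [sp_apply, pe_coe hχ]
  have hspc : ∀ (a : ℕ) (q : K[X]), sp a (ce q) = q := fun a q => rfl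
  have hone : ∑ χ ∈ R, P χ = 1 := by
    have := hP 0
    simp only [pow_zero, one_smul] at this
    exact this.symm
  -- the three specialisations for a general exponent function
  have gen : ∀ (e : K → K) (V T : Mat n K), (∀ χ ∈ R, e χ ≠ 0) → (V - 1) ^ m = 0 →
      (∀ a : ℕ, T ^ a = ∑ χ ∈ R, e χ ^ a • P χ) →
      (∀ k : ℕ, (crv R e P (cv m V)).map (ev k) = T ^ k * V ^ k) ∧
      ((crv R e P (cv m V)).map (sp 0) = cv m V) ∧
      ∀ a : ℕ, ((crv R e P (cv m V)).map (sp a)).map (fun p => p.eval 0) = T ^ a := by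
    intro e V T he hV hT
    refine ⟨fun k => ?_, ?_, fun a => ?_⟩
    · have h1 := map_crv ((ev k : EP K →ₐ[K] K) : EP K →+* K) R e P (cv m V)
      rw [← cv_eval hV k, hT k]
      refine h1.trans ?_
      congr 1
      · refine Finset.sum_congr rfl fun χ hχ => ?_
        ext i j
        simp only [Matrix.smul_apply, Matrix.map_apply, smul_eq_mul, RingHom.coe_coe]
        rw [hev k (he χ hχ), hevc, eval_C]
    · have h1 := map_crv ((sp 0 : EP K →ₐ[K] K[X]) : EP K →+* K[X]) R e P (cv m V)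
      refine h1.trans ?_
      have h2 : (∑ χ ∈ R, ((sp 0 : EP K →ₐ[K] K[X]) : EP K →+* K[X]) (pe (e χ)) •
          (P χ).map (fun z => ((sp 0 : EP K →ₐ[K] K[X]) : EP K →+* K[X]) (ce (C z)))) = (1 : Mat n K[X]) := by
        have h3 : (1 : Mat n K[X]) = (C : K →+* K[X]).mapMatrix (∑ χ ∈ R, P χ) := by rw [hone, map_one]
        rw [h3, map_sum]
        refine Finset.sum_congr rfl fun χ hχ => ?_
        ext i j
        simp only [Matrix.smul_apply, Matrix.map_apply, smul_eq_mul, RingHom.coe_coe, RingHom.mapMatrix_apply]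
        rw [hsp 0 (he χ hχ), hspc, pow_zero, C_1, one_mul]
      rw [h2, Matrix.one_mul]
      ext i j
      simp only [Matrix.map_apply, RingHom.coe_coe]
      rw [hspc]
    · have h1 := map_crv (((evalRingHom (0 : K)).comp ((sp a : EP K →ₐ[K] K[X]) : EP K →+* K[X]))) R e P (cv m V)
      have h2 : ((crv R e P (cv m V)).map (sp a)).map (fun p => p.eval 0) =
          (crv R e P (cv m V)).map (((evalRingHom (0 : K)).comp ((sp a : EP K →ₐ[K] K[X]) : EP K →+* K[X]))) := by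
        rw [Matrix.map_map]
        rfl
      rw [h2, h1, hT a]
      have h3 : (cv m V).map (fun p => ((evalRingHom (0 : K)).comp ((sp a : EP K →ₐ[K] K[X]) : EP K →+* K[X])) (ce p)) = 1 := by
        have h4 := cv_eval hV 0
        rw [pow_zero, Nat.cast_zero] at h4
        rw [← h4]
        rfl
      rw [h3, Matrix.mul_one]
      refine Finset.sum_congr rfl fun χ hχ => ?_
      ext i j
      simp only [Matrix.smul_apply, Matrix.map_apply, smul_eq_mul, RingHom.coe_comp, Function.comp_apply,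
        RingHom.coe_coe, coe_evalRingHom]
      rw [hsp a (he χ hχ), hspc, eval_C, eval_C]
  obtain ⟨g1, g2, g3⟩ := gen id U S hR hJ.nil hP
  obtain ⟨g1', g2', g3'⟩ := gen (fun χ => χ⁻¹) U⁻¹ S⁻¹ hR' hU' hP'
  refine ⟨crv R id P (cv m U), crv R (fun χ => χ⁻¹) P (cv m U⁻¹), fun k => ⟨?_, ?_⟩, ⟨g2, g2'⟩,
    fun a => ⟨g3 a, g3' a⟩⟩
  · rw [g1 k, hJ.mul, hcomm.mul_pow]
  · rw [g1' k, hinv, hcomm'.mul_pow]

end Pool.Agent.Helper40.ZO
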