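import Mathlib

/-!
# Project ZO: semisimplicity of Frobenius in families (definitions)

`V` is a finite dimensional vector space over an algebraically closed field `K` of characteristic 0.
-/

set_option autoImplicit false

namespace Pool.Agent.Helper40.ZO

open Polynomial

section

variable {K V : Type*} [Field K] [AddCommGroup V] [Module K V]

/-- The subspace `W` is stable under all elements of `S`. -/
def Stable (S : Set (Module.End K V)) (W : Submodule K V) : Prop :=
  ∀ A ∈ S, ∀ v ∈ W, A v ∈ W

/-- Every stable subspace has a stable complement. -/
def ActsSemisimply (S : Set (Module.End K V)) : Prop :=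
  ∀ W : Submodule K V, Stable S W → ∃ W' : Submodule K V, Stable S W' ∧ IsCompl W W'

/-- The endomorphisms belonging to a group of units. -/
def img (Γ : Subgroup (Module.End K V)ˣ) : Set (Module.End K V) :=
  {A | ∃ g ∈ Γ, (g : Module.End K V) = A}

/-- The number of different eigenvalues (`K` algebraically closed). -/
noncomputable def numEig [FiniteDimensional K V] (A : Module.End K V) : ℕ :=
  open Classical in A.charpoly.roots.toFinset.card

/-- Semisimplicity at the eigenvalue `l`: the generalised eigenspace is the eigenspace. -/
def SSAt (A : Module.End K V) (l : K) : Prop :=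
  ∀ v, ((A - algebraMap K (Module.End K V) l) ^ 2) v = 0 →
    (A - algebraMap K (Module.End K V) l) v = 0

/-- The logarithm of a unipotent element, as a finite sum (`(U - 1) ^ m = 0`). -/
noncomputable def lg (K : Type*) {R : Type*} [Field K] [Ring R] [Algebra K R] (m : ℕ) (U : R) : R :=
  ∑ j ∈ Finset.range m, ((-1 : K) ^ j / ((j : K) + 1)) • (U - 1) ^ (j + 1)

/-- Jordan decomposition `h = S U = U S` of an invertible element: `S` semisimple (killed by a
squarefree polynomial), `U` unipotent, both polynomials in `h`. -/
structure JC (K : Type*) {R : Type*} [Field K] [Ring R] [Algebra K R] (m : ℕ) (h S U : R) :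
    Prop where
  pos : 0 < m
  mul : h = S * U
  comm : S * U = U * S
  ss : ∃ p : K[X], Squarefree p ∧ aeval S p = 0
  nil : (U - 1) ^ m = 0
  memS : S ∈ Algebra.adjoin K {h}
  memU : U ∈ Algebra.adjoin K {h}

/-- Matrices. -/
abbrev Mat (n : ℕ) (R : Type*) : Type _ := Matrix (Fin n) (Fin n) R

/-- The number of different eigenvalues of a matrix. -/
noncomputable def numEigM {n : ℕ} (A : Mat n K) : ℕ :=
  open Classical in A.charpoly.roots.toFinset.card

end

end Pool.Agent.Helper40.ZO
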