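import Pool.Agent.Helper40.ZO.Defs

/-!
# Block ZO-ONE: one semisimple element

`A` normal in `G`, `V` semisimple under `A`, `σ = a F ^ d` (`a ∈ A`, `d ≥ 1`) acts semisimply. Then
`V` is semisimple under `⟨A, F⟩`.
PROOF. Let `W` be stable under `A` and `F` (so also under `F⁻¹`: finite dimension). Let
`CA = {X | X commutes with ρ (A)}`, `Ad (x) X = ρ x X ρ x⁻¹`; `Ad (F)`, `Ad (σ)` preserve `CA`, and
`Ad (σ) = Ad (F) ^ d` on `CA`. Let `e` be the projection onto an `A`-stable complement `W''` of `W`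
along `W`: `e ∈ CA`, `e = 0` on `W`, `e v - v ∈ W` for all `v`. Let
`H = {X ∈ CA | X = 0 on W, X V ⊆ W}`; `Ad (F)` and `Ad (σ)` preserve `H` and `Ad (σ) e - e ∈ H`.
`Ad (σ)` is semisimple on `Module.End K V` (left and right multiplications by `ρ σ`, `ρ σ⁻¹` commute
and are semisimple; `Module.End.IsSemisimple.of_mem_adjoin_pair`), hence on `CA`, so `CA = H ⊕ H'`
with `H'` stable under `Ad (σ)`: `e = b + b'`, `Ad (σ) b' - b' ∈ H ∩ H' = 0`. `b'` has the properties
of `e` (`b' ∈ CA`, `b' = 0` on `W`, `b' v - v ∈ W`) and is fixed by `Ad (F) ^ d`. The average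
`c = (1/d) ∑_{i<d} Ad (F) ^ i b'` has the same properties and is fixed by `Ad (F)`. So `c` is
idempotent with kernel `W`, and `W' = range c` is stable under `A` and `F`, a complement of `W`.
-/

set_option autoImplicit false

namespace Pool.Agent.Helper40.ZO

open Polynomial

variable {K V : Type*} [Field K] [IsAlgClosed K] [CharZero K] [AddCommGroup V] [Module K V]
  [FiniteDimensional K V]

omit [IsAlgClosed K] [CharZero K] in
/-- a subspace stable under an invertible endomorphism is stable under its inverse -/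
private lemma stable_inv_h65 {E : Type*} [AddCommGroup E] [Module K E] [FiniteDimensional K E]
    {f f' : Module.End K E} (h1 : f' * f = 1) (h2 : f * f' = 1) {W : Submodule K E}
    (hW : ∀ v ∈ W, f v ∈ W) : ∀ v ∈ W, f' v ∈ W := by
  have hle : W.map f ≤ W := by
    rintro _ ⟨v, hv, rfl⟩
    exact hW v hv
  let e : E ≃ₗ[K] E := LinearEquiv.ofLinear f f' h2 h1
  have hfin : Module.finrank K (W.map f) = Module.finrank K W := e.finrank_map_eq W
  have heq : W.map f = W := Submodule.eq_of_le_of_finrank_eq hle hfin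
  intro v hv
  rw [← heq] at hv
  obtain ⟨w, hw, rfl⟩ := hv
  have h3 : f' (f w) = (f' * f) w := rfl
  rw [h3, h1, Module.End.one_apply]
  exact hw

omit [IsAlgClosed K] [CharZero K] in
private lemma ss_inv_h65 {E : Type*} [AddCommGroup E] [Module K E] [FiniteDimensional K E]
    {f f' : Module.End K E} (h1 : f' * f = 1) (h2 : f * f' = 1) (hf : f.IsSemisimple) :
    f'.IsSemisimple := by
  rw [Module.End.isSemisimple_iff] at hf ⊢
  intro p hp
  rw [Module.End.mem_invtSubmodule_iff_forall_mem_of_mem] at hp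
  obtain ⟨q, hq, hpq⟩ := hf p (by
    rw [Module.End.mem_invtSubmodule_iff_forall_mem_of_mem]
    exact stable_inv_h65 h2 h1 hp)
  rw [Module.End.mem_invtSubmodule_iff_forall_mem_of_mem] at hq
  refine ⟨q, ?_, hpq⟩
  rw [Module.End.mem_invtSubmodule_iff_forall_mem_of_mem]
  exact stable_inv_h65 h1 h2 hq

omit [IsAlgClosed K] [CharZero K] [FiniteDimensional K V] in
private lemma aeval_mulLeft_h65 (s X : Module.End K V) (p : K[X]) :
    aeval (LinearMap.mulLeft K s) p X = aeval s p * X := by
  induction p using Polynomial.induction_on' with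
  | add p q hp hq => rw [map_add, map_add, LinearMap.add_apply, hp, hq, add_mul]
  | monomial n c =>
    rw [aeval_monomial, aeval_monomial, LinearMap.pow_mulLeft, Module.End.mul_apply,
      Module.algebraMap_end_apply, LinearMap.mulLeft_apply, ← Algebra.smul_def, smul_mul_assoc]

omit [IsAlgClosed K] [CharZero K] [FiniteDimensional K V] in
private lemma aeval_mulRight_h65 (s X : Module.End K V) (p : K[X]) :
    aeval (LinearMap.mulRight K s) p X = X * aeval s p := by
  induction p using Polynomial.induction_on' with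
  | add p q hp hq => rw [map_add, map_add, LinearMap.add_apply, hp, hq, mul_add]
  | monomial n c =>
    rw [aeval_monomial, aeval_monomial, LinearMap.pow_mulRight, Module.End.mul_apply,
      Module.algebraMap_end_apply, LinearMap.mulRight_apply, ← Algebra.smul_def, mul_smul_comm]

/-- conjugation by a semisimple invertible endomorphism is semisimple -/
private lemma ss_conj_h65 {s s' : Module.End K V} (h1 : s' * s = 1) (h2 : s * s' = 1)
    (hs : s.IsSemisimple) :
    Module.End.IsSemisimple (R := K) (M := Module.End K V)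
      (LinearMap.mulLeft K s * LinearMap.mulRight K s') := by
  have hl : Module.End.IsSemisimple (R := K) (M := Module.End K V) (LinearMap.mulLeft K s) := by
    refine Module.End.isSemisimple_of_squarefree_aeval_eq_zero hs.minpoly_squarefree ?_
    refine LinearMap.ext fun X => ?_
    rw [aeval_mulLeft_h65, minpoly.aeval, zero_mul, LinearMap.zero_apply]
  have hr : Module.End.IsSemisimple (R := K) (M := Module.End K V) (LinearMap.mulRight K s') := by
    have hs' := ss_inv_h65 h1 h2 hs
    refine Module.End.isSemisimple_of_squarefree_aeval_eq_zero hs'.minpoly_squarefree ?_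
    refine LinearMap.ext fun X => ?_
    rw [aeval_mulRight_h65, minpoly.aeval, mul_zero, LinearMap.zero_apply]
  exact Module.End.IsSemisimple.mul_of_commute (LinearMap.commute_mulLeft_right _ _) hl hr

theorem one_semisimple {G : Type*} [Group G] (ρ : G →* Module.End K V) {A : Subgroup G}
    [A.Normal] (hA : ActsSemisimply (ρ '' (A : Set G))) {F a : G} {d : ℕ} (ha : a ∈ A)
    (hd : 1 ≤ d) (hs : (ρ (a * F ^ d)).IsSemisimple) {W : Submodule K V}
    (hW : Stable (ρ '' (A : Set G)) W) (hF : ∀ v ∈ W, ρ F v ∈ W) :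
    ∃ W' : Submodule K V, Stable (ρ '' (A : Set G)) W' ∧ (∀ v ∈ W', ρ F v ∈ W') ∧
      IsCompl W W' := by
  have hinv : ∀ g : G, ρ g * ρ g⁻¹ = 1 := fun g => by rw [← map_mul, mul_inv_cancel, map_one]
  have hinv' : ∀ g : G, ρ g⁻¹ * ρ g = 1 := fun g => by rw [← map_mul, inv_mul_cancel, map_one]
  have hF' : ∀ v ∈ W, ρ F⁻¹ v ∈ W := stable_inv_h65 (hinv' F) (hinv F) hF
  have hWA : ∀ x ∈ A, ∀ v ∈ W, ρ x v ∈ W := fun x hx v hv => hW _ ⟨x, hx, rfl⟩ v hv
  -- the linear map `Ad F`
  let L : Module.End K (Module.End K V) :=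
    LinearMap.mulLeft K (ρ F) * LinearMap.mulRight K (ρ F⁻¹)
  have hL : ∀ X, L X = ρ F * X * ρ F⁻¹ := by
    intro X
    change ρ F * (X * ρ F⁻¹) = _
    rw [mul_assoc]
  -- commuting with `A`
  let CA : Module.End K V → Prop := fun X => ∀ x ∈ A, ρ x * X = X * ρ x
  have hCAL : ∀ X, CA X → CA (L X) := by
    intro X hX x hx
    rw [hL]
    have h1 : F⁻¹ * x * F ∈ A := by
      have := (inferInstance : A.Normal).conj_mem x hx F⁻¹
      rwa [inv_inv] at this
    have h2 : ρ x * ρ F = ρ F * ρ (F⁻¹ * x * F) := by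
      rw [← map_mul, ← map_mul]
      congr 1
      group
    have h3 : ρ (F⁻¹ * x * F) * ρ F⁻¹ = ρ F⁻¹ * ρ x := by
      rw [← map_mul, ← map_mul]
      congr 1
      group
    calc ρ x * (ρ F * X * ρ F⁻¹) = (ρ x * ρ F) * X * ρ F⁻¹ := by simp only [mul_assoc]
      _ = ρ F * (ρ (F⁻¹ * x * F) * X) * ρ F⁻¹ := by rw [h2]; simp only [mul_assoc]
      _ = ρ F * X * (ρ (F⁻¹ * x * F) * ρ F⁻¹) := by rw [hX _ h1]; simp only [mul_assoc]
      _ = ρ F * X * ρ F⁻¹ * ρ x := by rw [h3]; simp only [mul_assoc]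
  have hCALn : ∀ n X, CA X → CA ((L ^ n) X) := by
    intro n
    induction n with
    | zero => intro X hX; simpa using hX
    | succ n ih =>
      intro X hX
      rw [pow_succ, Module.End.mul_apply]
      exact ih _ (hCAL X hX)
  -- `Ad σ`
  let s := ρ (a * F ^ d)
  let s' := ρ (a * F ^ d)⁻¹
  let Ls : Module.End K (Module.End K V) := LinearMap.mulLeft K s * LinearMap.mulRight K s'
  have hLsapp : ∀ X, Ls X = s * X * s' := by
    intro X
    change s * (X * s') = _
    rw [mul_assoc]
  have hLn : ∀ n X, (L ^ n) X = ρ (F ^ n) * X * ρ (F ^ n)⁻¹ := by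
    intro n
    induction n with
    | zero => intro X; simp
    | succ n ih =>
      intro X
      rw [pow_succ, Module.End.mul_apply, ih, hL, pow_succ, mul_inv_rev, map_mul, map_mul]
      simp only [mul_assoc]
  have hLs : ∀ X, CA X → Ls X = (L ^ d) X := by
    intro X hX
    have h1 := hCALn d X hX a ha
    have h2 : (a * F ^ d)⁻¹ = (F ^ d)⁻¹ * a⁻¹ := by rw [mul_inv_rev]
    rw [hLsapp]
    change ρ (a * F ^ d) * X * ρ (a * F ^ d)⁻¹ = _
    rw [h2, map_mul, map_mul]
    rw [hLn] at h1 ⊢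
    calc ρ a * ρ (F ^ d) * X * (ρ (F ^ d)⁻¹ * ρ a⁻¹)
        = (ρ a * (ρ (F ^ d) * X * ρ (F ^ d)⁻¹)) * ρ a⁻¹ := by simp only [mul_assoc]
      _ = (ρ (F ^ d) * X * ρ (F ^ d)⁻¹) * (ρ a * ρ a⁻¹) := by rw [h1]; simp only [mul_assoc]
      _ = ρ (F ^ d) * X * ρ (F ^ d)⁻¹ := by rw [hinv, mul_one]
  -- the space `H`
  let H : Submodule K (Module.End K V) :=
    { carrier := {X | CA X ∧ (∀ v ∈ W, X v = 0) ∧ ∀ v, X v ∈ W}
      add_mem' := by
        rintro X Y ⟨h1, h2, h3⟩ ⟨h4, h5, h6⟩
        refine ⟨fun x hx => ?_, fun v hv => ?_, fun v => ?_⟩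
        · rw [mul_add, add_mul, h1 x hx, h4 x hx]
        · rw [LinearMap.add_apply, h2 v hv, h5 v hv, add_zero]
        · rw [LinearMap.add_apply]; exact W.add_mem (h3 v) (h6 v)
      zero_mem' := by
        refine ⟨fun x hx => ?_, fun v hv => ?_, fun v => ?_⟩
        · rw [mul_zero, zero_mul]
        · rw [LinearMap.zero_apply]
        · rw [LinearMap.zero_apply]; exact W.zero_mem
      smul_mem' := by
        rintro c X ⟨h1, h2, h3⟩
        refine ⟨fun x hx => ?_, fun v hv => ?_, fun v => ?_⟩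
        · rw [mul_smul_comm, smul_mul_assoc, h1 x hx]
        · rw [LinearMap.smul_apply, h2 v hv, smul_zero]
        · rw [LinearMap.smul_apply]; exact W.smul_mem c (h3 v) }
  have hHmem : ∀ X, X ∈ H ↔ CA X ∧ (∀ v ∈ W, X v = 0) ∧ ∀ v, X v ∈ W := fun X => Iff.rfl
  have hHL : ∀ X ∈ H, L X ∈ H := by
    intro X hX
    rw [hHmem] at hX ⊢
    obtain ⟨h1, h2, h3⟩ := hX
    refine ⟨hCAL X h1, fun v hv => ?_, fun v => ?_⟩
    · rw [hL, Module.End.mul_apply, Module.End.mul_apply, h2 _ (hF' v hv), map_zero]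
    · rw [hL, Module.End.mul_apply, Module.End.mul_apply]
      exact hF _ (h3 _)
  have hHLn : ∀ n, ∀ X ∈ H, (L ^ n) X ∈ H := by
    intro n
    induction n with
    | zero => intro X hX; simpa using hX
    | succ n ih =>
      intro X hX
      rw [pow_succ, Module.End.mul_apply]
      exact ih _ (hHL X hX)
  -- the class of the projections
  let P : Module.End K V → Prop := fun X => CA X ∧ (∀ v ∈ W, X v = 0) ∧ ∀ v, X v - v ∈ W
  have hPL : ∀ X, P X → P (L X) := by
    rintro X ⟨h1, h2, h3⟩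
    refine ⟨hCAL X h1, fun v hv => ?_, fun v => ?_⟩
    · rw [hL, Module.End.mul_apply, Module.End.mul_apply, h2 _ (hF' v hv), map_zero]
    · rw [hL, Module.End.mul_apply, Module.End.mul_apply]
      have h4 := hF _ (h3 (ρ F⁻¹ v))
      rw [map_sub] at h4
      have h5 : ρ F (ρ F⁻¹ v) = v := by
        rw [← Module.End.mul_apply, hinv, Module.End.one_apply]
      rwa [h5] at h4
  have hPLn : ∀ n, ∀ X, P X → P ((L ^ n) X) := by
    intro n
    induction n with
    | zero => intro X hX; simpa using hX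
    | succ n ih =>
      intro X hX
      rw [pow_succ, Module.End.mul_apply]
      exact ih _ (hPL X hX)
  have hPsub : ∀ X Y, P X → P Y → X - Y ∈ H := by
    rintro X Y ⟨h1, h2, h3⟩ ⟨h4, h5, h6⟩
    rw [hHmem]
    refine ⟨fun x hx => ?_, fun v hv => ?_, fun v => ?_⟩
    · rw [mul_sub, sub_mul, h1 x hx, h4 x hx]
    · rw [LinearMap.sub_apply, h2 v hv, h5 v hv, sub_zero]
    · have := W.sub_mem (h3 v) (h6 v)
      rw [LinearMap.sub_apply]
      simpa using this
  -- the first projection
  obtain ⟨W'', hW'', hcompl⟩ := hA W hW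
  let e : Module.End K V := W''.projection W hcompl.symm
  have hPe : P e := by
    have he0 : ∀ v ∈ W, e v = 0 := fun v hv =>
      (Submodule.projection_apply_eq_zero_iff hcompl.symm).2 hv
    have he1 : ∀ v ∈ W'', e v = v := fun v hv =>
      Submodule.projection_apply_of_mem_left hcompl.symm hv
    have hdec : ∀ v, ∃ w ∈ W, ∃ u ∈ W'', w + u = v := by
      intro v
      have h1 : v ∈ W ⊔ W'' := by rw [hcompl.sup_eq_top]; exact Submodule.mem_top
      exact Submodule.mem_sup.1 h1
    refine ⟨fun x hx => LinearMap.ext fun v => ?_, he0, fun v => ?_⟩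
    · obtain ⟨w, hw, u, hu, rfl⟩ := hdec v
      have h7 : e (w + u) = u := by rw [map_add, he0 w hw, he1 u hu, zero_add]
      have h8 : e (ρ x (w + u)) = ρ x u := by
        rw [map_add, map_add, he0 _ (hWA x hx w hw), he1 _ (hW'' _ ⟨x, hx, rfl⟩ u hu), zero_add]
      rw [Module.End.mul_apply, Module.End.mul_apply, h7, h8]
    · obtain ⟨w, hw, u, hu, rfl⟩ := hdec v
      rw [map_add, he0 w hw, he1 u hu, zero_add]
      have : u - (w + u) = -w := by abel
      rw [this]
      exact W.neg_mem hw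
  -- semisimplicity of `Ad σ`
  have hss : Ls.IsSemisimple := ss_conj_h65 (hinv' _) (hinv _) hs
  rw [Module.End.isSemisimple_iff] at hss
  obtain ⟨H', hH', hHc⟩ := hss H (by
    rw [Module.End.mem_invtSubmodule_iff_forall_mem_of_mem]
    intro X hX
    rw [hLs X ((hHmem X).1 hX).1]
    exact hHLn d X hX)
  rw [Module.End.mem_invtSubmodule_iff_forall_mem_of_mem] at hH'
  obtain ⟨b, hb, b', hb', hbb⟩ : ∃ b ∈ H, ∃ b' ∈ H', b + b' = e := by
    have h1 : e ∈ H ⊔ H' := by rw [hHc.sup_eq_top]; exact Submodule.mem_top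
    exact Submodule.mem_sup.1 h1
  have hPb : P b' := by
    have hb2 := (hHmem b).1 hb
    have h1 : b' = e - b := by rw [← hbb]; abel
    rw [h1]
    refine ⟨fun x hx => ?_, fun v hv => ?_, fun v => ?_⟩
    · rw [mul_sub, sub_mul, hPe.1 x hx, hb2.1 x hx]
    · rw [LinearMap.sub_apply, hPe.2.1 v hv, hb2.2.1 v hv, sub_zero]
    · rw [LinearMap.sub_apply]
      have h2 := W.sub_mem (hPe.2.2 v) (hb2.2.2 v)
      have h3 : e v - b v - v = e v - v - b v := by abel
      rw [h3]
      exact h2
  have hfix : (L ^ d) b' = b' := by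
    have h1 : (L ^ d) b' - b' ∈ H := hPsub _ _ (hPLn d b' hPb) hPb
    have h2 : (L ^ d) b' - b' ∈ H' := by
      rw [← hLs b' hPb.1]
      exact H'.sub_mem (hH' b' hb') hb'
    have h3 : (L ^ d) b' - b' ∈ H ⊓ H' := ⟨h1, h2⟩
    rw [hHc.inf_eq_bot, Submodule.mem_bot] at h3
    exact sub_eq_zero.1 h3
  -- the average
  have hd0 : (d : K) ≠ 0 := by
    have : d ≠ 0 := by omega
    exact_mod_cast this
  let c : Module.End K V := (d : K)⁻¹ • ∑ i ∈ Finset.range d, (L ^ i) b'
  have hcfix : L c = c := by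
    simp only [c]
    rw [map_smul, map_sum]
    congr 1
    have h1 : ∀ i, L ((L ^ i) b') = (L ^ (i + 1)) b' := by
      intro i
      rw [pow_succ' L i]
      rfl
    simp only [h1]
    have h2 := Finset.sum_range_succ (fun i => (L ^ i) b') d
    have h3 := Finset.sum_range_succ' (fun i => (L ^ i) b') d
    have h4 : (L ^ 0) b' = b' := by rw [pow_zero, Module.End.one_apply]
    rw [h4] at h3
    rw [hfix] at h2
    rw [h2] at h3
    exact (add_right_cancel h3).symm
  have hcA : CA c := by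
    intro x hx
    simp only [c]
    rw [mul_smul_comm, smul_mul_assoc, Finset.mul_sum, Finset.sum_mul]
    congr 1
    exact Finset.sum_congr rfl fun i _ => (hPLn i b' hPb).1 x hx
  have hc0 : ∀ v ∈ W, c v = 0 := by
    intro v hv
    simp only [c]
    rw [LinearMap.smul_apply, LinearMap.sum_apply, Finset.sum_eq_zero, smul_zero]
    exact fun i _ => (hPLn i b' hPb).2.1 v hv
  have hc1 : ∀ v, c v - v ∈ W := by
    intro v
    have h1 : c v - v = (d : K)⁻¹ • ∑ i ∈ Finset.range d, ((L ^ i) b' v - v) := by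
      simp only [c]
      rw [LinearMap.smul_apply, LinearMap.sum_apply, Finset.sum_sub_distrib, smul_sub,
        Finset.sum_const, Finset.card_range, ← Nat.cast_smul_eq_nsmul K, smul_smul,
        inv_mul_cancel₀ hd0, one_smul]
    rw [h1]
    exact W.smul_mem _ (W.sum_mem fun i _ => (hPLn i b' hPb).2.2 v)
  refine ⟨LinearMap.range c, ?_, ?_, ?_⟩
  · rintro _ ⟨x, hx, rfl⟩ _ ⟨v, rfl⟩
    refine ⟨ρ x v, ?_⟩
    have h1 := LinearMap.congr_fun (hcA x hx) v
    rw [Module.End.mul_apply, Module.End.mul_apply] at h1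
    exact h1.symm
  · rintro _ ⟨v, rfl⟩
    refine ⟨ρ F v, ?_⟩
    have h1 := LinearMap.congr_fun hcfix (ρ F v)
    rw [hL, Module.End.mul_apply, Module.End.mul_apply] at h1
    have h5 : ρ F⁻¹ (ρ F v) = v := by
      rw [← Module.End.mul_apply, hinv', Module.End.one_apply]
    rw [h5] at h1
    exact h1.symm
  · rw [isCompl_iff, disjoint_iff, codisjoint_iff]
    constructor
    · rw [eq_bot_iff]
      rintro _ ⟨hw, ⟨v, rfl⟩⟩
      have h1 : v ∈ W := by
        have h2 := W.sub_mem hw (hc1 v)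
        simpa using h2
      rw [Submodule.mem_bot, hc0 v h1]
    · rw [eq_top_iff]
      intro v _
      have h1 : v = -(c v - v) + c v := by abel
      rw [h1]
      exact Submodule.add_mem_sup (W.neg_mem (hc1 v)) ⟨v, rfl⟩

end Pool.Agent.Helper40.ZO
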