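import Pool.Agent.Helper40.ZO.Point
import Pool.Agent.Helper40.ZO.One
import Pool.Agent.Helper40.ZO.Cliff
import Pool.Agent.Helper40.ZO.Dens

/-!
# Assembly of the zero-one law (helper40)
-/

set_option autoImplicit false

namespace Pool.Agent.Helper40.ZO

open Polynomial

variable {K V : Type*} [Field K] [IsAlgClosed K] [CharZero K] [AddCommGroup V] [Module K V]
  [FiniteDimensional K V]

/-- The pointwise criterion for representations. -/
theorem pointwise_rep {G : Type*} [Group G] (ρ : G →* Module.End K V) {B : Subgroup G}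
    [hBn : B.Normal] (hB : ActsSemisimply (ρ '' (B : Set G))) {x s : G}
    (hs : (ρ s).IsSemisimple) {k : ℕ} (hk : 1 ≤ k) (hks : x ^ k * s⁻¹ ∈ B) :
    ((∀ γ ∈ B, numEig (ρ (γ * x)) ≤ numEig (ρ x)) → (ρ x).IsSemisimple) ∧
    ∀ l : K, (∀ γ ∈ B, (ρ x).charpoly.rootMultiplicity l ≤
      (ρ (γ * x)).charpoly.rootMultiplicity l) → SSAt (ρ x) l := by
  let u : G →* (Module.End K V)ˣ := ρ.toHomUnits
  have hu : ∀ g, ((u g : (Module.End K V)ˣ) : Module.End K V) = ρ g := fun g => rfl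
  have himg : img (B.map u) = ρ '' (B : Set G) := by
    ext X
    constructor
    · rintro ⟨_, ⟨b, hb, rfl⟩, rfl⟩
      exact ⟨b, hb, rfl⟩
    · rintro ⟨b, hb, rfl⟩
      exact ⟨u b, ⟨b, hb, rfl⟩, rfl⟩
  have hconj : ∀ y : G, ∀ g ∈ B.map u, u y * g * (u y)⁻¹ ∈ B.map u := by
    rintro y _ ⟨b, hb, rfl⟩
    refine ⟨y * b * y⁻¹, hBn.conj_mem b hb y, ?_⟩
    rw [map_mul, map_mul, map_inv]
  have hconj' : ∀ y : G, ∀ g ∈ B.map u, (u y)⁻¹ * g * u y ∈ B.map u := by
    intro y g hg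
    have h1 := hconj y⁻¹ g hg
    rwa [map_inv, inv_inv] at h1
  have key := pointwise (Γ := B.map u) (h := u x) (σ := u s) (by rw [himg]; exact hB)
    (hconj x) (hconj' x) (hconj' s) hs hk (by
      refine ⟨x ^ k * s⁻¹, hks, ?_⟩
      rw [map_mul, map_pow, map_inv])
  refine ⟨fun h => key.1 ?_, fun l h => key.2 l ?_⟩
  · rintro _ ⟨b, hb, rfl⟩
    rw [← map_mul, hu, hu]
    exact h b hb
  · rintro _ ⟨b, hb, rfl⟩
    rw [← map_mul, hu, hu]
    exact h b hb

section Top

variable {P : Type*} [Group P] [TopologicalSpace P] [IsTopologicalGroup P]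
  [TopologicalSpace K] [IsTopologicalRing K] [T2Space K]

omit [IsAlgClosed K] [CharZero K] [IsTopologicalGroup P] [IsTopologicalRing K] in
/-- A subspace stable under a dense subgroup is stable. -/
theorem stable_of_dense (ρ : P →* Module.End K V)
    (hρ : ∀ (v : V) (f : Module.Dual K V), Continuous fun x => f (ρ x v))
    {S : Set P} (hS : Dense S) {W : Submodule K V} (hW : Stable (ρ '' S) W) :
    Stable (ρ '' Set.univ) W := by
  rintro _ ⟨x, -, rfl⟩ v hv
  by_contra hcon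
  obtain ⟨f, hf1, hf2⟩ := Submodule.exists_le_ker_of_notMem hcon
  apply hf1
  have hclosed : IsClosed {y : P | f (ρ y v) = 0} := isClosed_singleton.preimage (hρ v f)
  have hsub : S ⊆ {y : P | f (ρ y v) = 0} := by
    intro y hy
    exact hf2 (hW _ ⟨y, hy, rfl⟩ v hv)
  have h1 : (Set.univ : Set P) ⊆ {y : P | f (ρ y v) = 0} := by
    rw [← hS.closure_eq]
    exact hclosed.closure_subset_iff.2 hsub
  exact h1 (Set.mem_univ x)

omit [IsTopologicalGroup P] [IsTopologicalRing K] in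
theorem top_semisimple (ρ : P →* Module.End K V)
    (hρ : ∀ (v : V) (f : Module.Dual K V), Continuous fun x => f (ρ x v))
    {A : Subgroup P} [A.Normal] (hA : ActsSemisimply (ρ '' (A : Set P))) {F : P}
    (hF : Dense ((A ⊔ Subgroup.zpowers F : Subgroup P) : Set P)) {a : P} {d : ℕ} (ha : a ∈ A)
    (hd : 1 ≤ d) (hs : (ρ (a * F ^ d)).IsSemisimple) :
    ActsSemisimply (ρ '' (Set.univ : Set P)) := by
  intro W hW
  obtain ⟨W', h1, h2, h3⟩ := one_semisimple ρ hA (F := F) ha hd hs (W := W)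
    (by rintro _ ⟨y, -, rfl⟩; exact hW _ ⟨y, Set.mem_univ _, rfl⟩)
    (hW _ ⟨F, Set.mem_univ _, rfl⟩)
  refine ⟨W', stable_of_dense ρ hρ hF ?_, h3⟩
  -- the stabiliser of `W'` is a subgroup
  let st : Subgroup P :=
    { carrier := {y | W'.map (ρ y) = W'}
      mul_mem' := by
        intro y z hy hz
        change W'.map (ρ (y * z)) = W'
        rw [map_mul]
        have : (ρ y * ρ z : Module.End K V) = (ρ y).comp (ρ z) := rfl
        rw [this, Submodule.map_comp, show W'.map (ρ z) = W' from hz]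
        exact hy
      one_mem' := by
        change W'.map (ρ 1) = W'
        rw [map_one]
        exact Submodule.map_id W'
      inv_mem' := by
        intro y hy
        change W'.map (ρ y⁻¹) = W'
        have hy' : W'.map (ρ y) = W' := hy
        conv_lhs => rw [← hy', ← Submodule.map_comp]
        have : (ρ y⁻¹).comp (ρ y) = LinearMap.id := by
          change ρ y⁻¹ * ρ y = 1
          rw [← map_mul, inv_mul_cancel, map_one]
        rw [this, Submodule.map_id] }
  have hmem : ∀ y, (∀ v ∈ W', ρ y v ∈ W') → y ∈ st := by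
    intro y hy
    change W'.map (ρ y) = W'
    have hinj : Function.Injective (ρ y) := by
      intro u v huv
      have h4 : ρ y⁻¹ (ρ y u) = ρ y⁻¹ (ρ y v) := by rw [huv]
      have h5 : ∀ w, ρ y⁻¹ (ρ y w) = w := by
        intro w
        change (ρ y⁻¹ * ρ y) w = w
        rw [← map_mul, inv_mul_cancel, map_one]
        rfl
      rwa [h5, h5] at h4
    refine Submodule.eq_of_le_of_finrank_eq ?_ ?_
    · rintro _ ⟨v, hv, rfl⟩
      exact hy v hv
    · exact (LinearEquiv.finrank_eq (Submodule.equivMapOfInjective (ρ y) hinj W')).symm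
  have hle : A ⊔ Subgroup.zpowers F ≤ st := by
    refine sup_le ?_ ?_
    · intro y hy
      exact hmem y (h1 _ ⟨y, hy, rfl⟩)
    · rw [Subgroup.zpowers_le]
      exact hmem F h2
  rintro _ ⟨y, hy, rfl⟩ v hv
  have h4 : W'.map (ρ y) = W' := hle hy
  rw [← h4]
  exact Submodule.mem_map_of_mem hv

end Top

/-- Generic elements: version for a normal subgroup `A` and one semisimple element. -/
theorem criterion_one {G : Type*} [Group G] (ρ : G →* Module.End K V) {A : Subgroup G}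
    [hAn : A.Normal] (hA : ActsSemisimply (ρ '' (A : Set G))) {F a b : G} {d e : ℕ} (ha : a ∈ A)
    (hd : 1 ≤ d) (hs : (ρ (a * F ^ d)).IsSemisimple) (hb : b ∈ A) (Γ : Subgroup G) [hΓ : Γ.Normal]
    [Γ.FiniteIndex] :
    ((∀ γ ∈ Γ ⊓ A, numEig (ρ (γ * (b * F ^ e))) ≤ numEig (ρ (b * F ^ e))) →
      (ρ (b * F ^ e)).IsSemisimple) ∧
    ∀ l : K, (∀ γ ∈ Γ ⊓ A, (ρ (b * F ^ e)).charpoly.rootMultiplicity l ≤
      (ρ (γ * (b * F ^ e))).charpoly.rootMultiplicity l) → SSAt (ρ (b * F ^ e)) l := by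
  have hBn : (Γ ⊓ A).Normal := inferInstance
  have hB : ActsSemisimply (ρ '' ((Γ ⊓ A : Subgroup G) : Set G)) :=
    clifford ρ inf_le_right (fun x _ y hy => hBn.conj_mem y hy x) hA
  set M := Γ.index with hM
  have hM0 : M ≠ 0 := Subgroup.FiniteIndex.index_ne_zero
  have hMpow : ∀ y : G, y ^ M ∈ Γ := fun y => Subgroup.pow_index_mem Γ y
  refine pointwise_rep ρ hB (s := (a * F ^ d) ^ (e * M)) (k := d * M) ?_ ?_ ?_
  · rw [map_pow]
    exact hs.pow _
  · exact Nat.mul_pos hd (Nat.pos_of_ne_zero hM0)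
  · refine ⟨Γ.mul_mem ?_ (Γ.inv_mem ?_), ?_⟩
    · rw [pow_mul]
      exact hMpow _
    · rw [pow_mul]
      exact hMpow _
    · change _ ∈ A
      rw [← QuotientGroup.eq_one_iff]
      have e1 : ((a : G) : G ⧸ A) = 1 := (QuotientGroup.eq_one_iff a).2 ha
      have e2 : ((b : G) : G ⧸ A) = 1 := (QuotientGroup.eq_one_iff b).2 hb
      simp only [QuotientGroup.mk_mul, QuotientGroup.mk_pow, QuotientGroup.mk_inv, e1, e2, one_mul]
      rw [← pow_mul, ← pow_mul, show e * (d * M) = d * (e * M) by ring]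
      exact mul_inv_cancel _

theorem criterion_top {G : Type*} [Group G] (ρ : G →* Module.End K V)
    (hA : ActsSemisimply (ρ '' (Set.univ : Set G))) (x : G) (Γ : Subgroup G) [hΓ : Γ.Normal]
    [Γ.FiniteIndex] :
    ((∀ γ ∈ Γ, numEig (ρ (γ * x)) ≤ numEig (ρ x)) → (ρ x).IsSemisimple) ∧
    ∀ l : K, (∀ γ ∈ Γ, (ρ x).charpoly.rootMultiplicity l ≤
      (ρ (γ * x)).charpoly.rootMultiplicity l) → SSAt (ρ x) l := by
  have hB : ActsSemisimply (ρ '' (Γ : Set G)) :=
    clifford ρ (A := ⊤) le_top (fun x _ y hy => hΓ.conj_mem y hy x)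
      (by rw [Subgroup.coe_top]; exact hA)
  have hM0 : Γ.index ≠ 0 := Subgroup.FiniteIndex.index_ne_zero
  refine pointwise_rep ρ hB (s := 1) (k := Γ.index) ?_ (Nat.pos_of_ne_zero hM0) ?_
  · rw [map_one]
    exact Module.End.isSemisimple_id
  · rw [inv_one, mul_one]
    exact Subgroup.pow_index_mem Γ x

theorem density {P : Type*} [Group P] [TopologicalSpace P] [IsTopologicalGroup P] [CompactSpace P]
    [TotallyDisconnectedSpace P] [TopologicalSpace K] [IsTopologicalRing K] [T2Space K]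
    (ρ : P →* Module.End K V)
    (hρ : ∀ (v : V) (f : Module.Dual K V), Continuous fun x => f (ρ x v))
    (hA : ActsSemisimply (ρ '' (Set.univ : Set P))) {ε : ℝ} (hε : 0 < ε) :
    ∃ N : Subgroup P, N.Normal ∧ IsOpen (N : Set P) ∧
      ((Set.ncard {c : P ⧸ N | ∃ x : P, (x : P ⧸ N) = c ∧ ¬ (ρ x).IsSemisimple} : ℕ) : ℝ) ≤
        ε * Nat.card (P ⧸ N) := by
  obtain ⟨Γ₀, hn, ho, h⟩ := dens ρ hρ
  obtain ⟨N, hN1, hN2, hN3⟩ := h ε hε
  refine ⟨N, hN1, hN2, le_trans ?_ hN3⟩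
  haveI : Γ₀.FiniteIndex := by
    haveI : Finite (P ⧸ Γ₀) := Subgroup.quotient_finite_of_isOpen Γ₀ ho
    exact Subgroup.finiteIndex_of_finite_quotient
  haveI : Finite (P ⧸ N) := Subgroup.quotient_finite_of_isOpen N hN2
  have hsub : {c : P ⧸ N | ∃ x : P, (x : P ⧸ N) = c ∧ ¬ (ρ x).IsSemisimple} ⊆
      {c : P ⧸ N | ∃ x : P, (x : P ⧸ N) = c ∧
          ∃ γ ∈ Γ₀, numEig (ρ x) < numEig (ρ (γ * x))} := by
    rintro c ⟨x, hx, hns⟩
    refine ⟨x, hx, ?_⟩
    by_contra hcon
    push Not at hcon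
    exact hns ((criterion_top ρ hA x Γ₀).1 hcon)
  exact_mod_cast Set.ncard_le_ncard hsub (Set.toFinite _)

end Pool.Agent.Helper40.ZO
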