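import Pool.Agent.Helper40.ZO.Fin

/-!
# Complements to the zero-one law (helper40)
-/

set_option autoImplicit false

namespace Pool.Agent.Helper40.ZO

open Polynomial

variable {K V : Type*} [Field K] [IsAlgClosed K] [CharZero K] [AddCommGroup V] [Module K V]
  [FiniteDimensional K V]

section Top

variable {P : Type*} [Group P] [TopologicalSpace P]
  [TopologicalSpace K] [T2Space K]

omit [IsAlgClosed K] [CharZero K] in
/-- A subspace stable under `A` and `F` is stable under the compact group. -/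
theorem stable_top (ρ : P →* Module.End K V)
    (hρ : ∀ (v : V) (f : Module.Dual K V), Continuous fun x => f (ρ x v))
    {A : Subgroup P} {F : P}
    (hF : Dense ((A ⊔ Subgroup.zpowers F : Subgroup P) : Set P)) {W' : Submodule K V}
    (h1 : Stable (ρ '' (A : Set P)) W') (h2 : ∀ v ∈ W', ρ F v ∈ W') :
    Stable (ρ '' (Set.univ : Set P)) W' := by
  refine stable_of_dense ρ hρ hF ?_
  let st : Subgroup P :=
    { carrier := {y | W'.map (ρ y) = W'}
      mul_mem' := by
        intro y z hy hz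
        change W'.map (ρ (y * z)) = W'
        rw [map_mul]
        have : (ρ y * ρ z : Module.End K V) = (ρ y).comp (ρ z) := rfl
        rw [this, Submodule.map_comp, show W'.map (ρ z) = W' from hz]
        exact hy
      one_mem' := by
        change W'.map (ρ 1) = W'
        rw [map_one]
        exact Submodule.map_id W'
      inv_mem' := by
        intro y hy
        change W'.map (ρ y⁻¹) = W'
        have hy' : W'.map (ρ y) = W' := hy
        conv_lhs => rw [← hy', ← Submodule.map_comp]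
        have : (ρ y⁻¹).comp (ρ y) = LinearMap.id := by
          change ρ y⁻¹ * ρ y = 1
          rw [← map_mul, inv_mul_cancel, map_one]
        rw [this, Submodule.map_id] }
  have hmem : ∀ y, (∀ v ∈ W', ρ y v ∈ W') → y ∈ st := by
    intro y hy
    change W'.map (ρ y) = W'
    have hinj : Function.Injective (ρ y) := by
      intro u v huv
      have h4 : ρ y⁻¹ (ρ y u) = ρ y⁻¹ (ρ y v) := by rw [huv]
      have h5 : ∀ w, ρ y⁻¹ (ρ y w) = w := by
        intro w
        change (ρ y⁻¹ * ρ y) w = w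
        rw [← map_mul, inv_mul_cancel, map_one]
        rfl
      rwa [h5, h5] at h4
    refine Submodule.eq_of_le_of_finrank_eq ?_ ?_
    · rintro _ ⟨v, hv, rfl⟩
      exact hy v hv
    · exact (LinearEquiv.finrank_eq (Submodule.equivMapOfInjective (ρ y) hinj W')).symm
  have hle : A ⊔ Subgroup.zpowers F ≤ st := by
    refine sup_le ?_ ?_
    · intro y hy
      exact hmem y (h1 _ ⟨y, hy, rfl⟩)
    · rw [Subgroup.zpowers_le]
      exact hmem F h2
  rintro _ ⟨y, hy, rfl⟩ v hv
  have h4 : W'.map (ρ y) = W' := hle hy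
  rw [← h4]
  exact Submodule.mem_map_of_mem hv

omit [IsAlgClosed K] [CharZero K] in
/-- If the commutant of the normal subgroup is commutative then `V` is semisimple. -/
theorem top_semisimple_of_comm (ρ : P →* Module.End K V)
    (hρ : ∀ (v : V) (f : Module.Dual K V), Continuous fun x => f (ρ x v))
    {A : Subgroup P} [hAn : A.Normal] (hA : ActsSemisimply (ρ '' (A : Set P))) {F : P}
    (hF : Dense ((A ⊔ Subgroup.zpowers F : Subgroup P) : Set P))
    (hcomm : ∀ X Y : Module.End K V, (∀ a ∈ A, Commute (ρ a) X) → (∀ a ∈ A, Commute (ρ a) Y) →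
      Commute X Y) :
    ActsSemisimply (ρ '' (Set.univ : Set P)) := by
  intro W hW
  obtain ⟨W', hW', hc⟩ := hA W (by
    rintro _ ⟨y, -, rfl⟩; exact hW _ ⟨y, Set.mem_univ _, rfl⟩)
  have hWF : ∀ x : P, ∀ v ∈ W, ρ x v ∈ W := fun x => hW _ ⟨x, Set.mem_univ _, rfl⟩
  -- the projection onto `W'` along `W`
  let e : Module.End K V := W'.subtype ∘ₗ W'.projectionOnto W hc.symm
  have heW : ∀ v ∈ W, e v = 0 := by
    intro v hv
    change ((W'.projectionOnto W hc.symm v : W') : V) = 0
    rw [Submodule.projectionOnto_apply_right hc.symm ⟨v, hv⟩]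
    rfl
  have heW' : ∀ v ∈ W', e v = v := by
    intro v hv
    change ((W'.projectionOnto W hc.symm v : W') : V) = v
    rw [Submodule.projectionOnto_apply_left hc.symm ⟨v, hv⟩]
  have hemem : ∀ v, e v ∈ W' := fun v => Submodule.coe_mem _
  have hker : ∀ v, v - e v ∈ W := by
    intro v
    obtain ⟨a, ha, b, hb, rfl⟩ := Submodule.mem_sup.1
      (show v ∈ W ⊔ W' by rw [hc.sup_eq_top]; trivial)
    rw [map_add, heW a ha, heW' b hb]
    simpa using ha
  have hecomm : ∀ a ∈ A, Commute (ρ a) e := by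
    intro a ha
    have h1 : ρ a * e = e * ρ a := by
      ext v
      obtain ⟨w, hw, w', hw', rfl⟩ := Submodule.mem_sup.1
        (show v ∈ W ⊔ W' by rw [hc.sup_eq_top]; trivial)
      have h5 : e (w + w') = w' := by rw [map_add, heW w hw, heW' w' hw', zero_add]
      have h6 : e (ρ a w + ρ a w') = ρ a w' := by
        rw [map_add, heW _ (hWF a w hw), heW' _ (hW' _ ⟨a, ha, rfl⟩ w' hw'), zero_add]
      rw [Module.End.mul_apply, Module.End.mul_apply, h5, map_add, h6]
    exact h1
  -- its conjugate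
  let e₁ : Module.End K V := ρ F * e * ρ F⁻¹
  have he₁comm : ∀ a ∈ A, Commute (ρ a) e₁ := by
    intro a ha
    have h1 := (hecomm (F⁻¹ * a * F) (by
      have := hAn.conj_mem a ha F⁻¹
      rwa [inv_inv] at this)).eq
    have h2 : ρ a * e₁ = ρ F * (ρ (F⁻¹ * a * F) * e) * ρ F⁻¹ := by
      have h3 : ρ a * ρ F = ρ F * ρ (F⁻¹ * a * F) := by
        rw [← map_mul, ← map_mul]
        congr 1
        group
      calc ρ a * e₁ = (ρ a * ρ F) * e * ρ F⁻¹ := by simp only [e₁, mul_assoc]
        _ = _ := by rw [h3]; simp only [mul_assoc]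
    have h4 : e₁ * ρ a = ρ F * (e * ρ (F⁻¹ * a * F)) * ρ F⁻¹ := by
      have h3 : ρ F⁻¹ * ρ a = ρ (F⁻¹ * a * F) * ρ F⁻¹ := by
        rw [← map_mul, ← map_mul]
        congr 1
        group
      calc e₁ * ρ a = ρ F * e * (ρ F⁻¹ * ρ a) := by simp only [e₁, mul_assoc]
        _ = _ := by rw [h3]; simp only [mul_assoc]
    change ρ a * e₁ = e₁ * ρ a
    rw [h2, h4, h1]
  have hee := (hcomm e e₁ hecomm he₁comm).eq
  -- both have kernel `W`, so they agree
  have h1 : e * e₁ = e := by
    ext v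
    rw [Module.End.mul_apply]
    have h2 : e₁ v - v ∈ W := by
      have h3 := hWF F _ (hker (ρ F⁻¹ v))
      have h4 : ρ F (ρ F⁻¹ v) = v := by
        change (ρ F * ρ F⁻¹) v = v
        rw [← map_mul, mul_inv_cancel, map_one]; rfl
      rw [map_sub, h4] at h3
      have h5 : e₁ v - v = -(v - ρ F (e (ρ F⁻¹ v))) := by
        rw [neg_sub]; rfl
      rw [h5]
      exact W.neg_mem h3
    have h3 := heW _ h2
    rw [map_sub, sub_eq_zero] at h3
    exact h3
  have h2 : e₁ * e = e₁ := by
    ext v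
    rw [Module.End.mul_apply]
    have h3 : ∀ w ∈ W, e₁ w = 0 := by
      intro w hw
      change ρ F (e (ρ F⁻¹ w)) = 0
      rw [heW _ (hWF F⁻¹ w hw), map_zero]
    have h4 := h3 _ (hker v)
    rw [map_sub, sub_eq_zero] at h4
    exact h4.symm
  have h3 : e₁ = e := by rw [← h2, ← hee, h1]
  refine ⟨W', stable_top ρ hρ hF hW' ?_, hc⟩
  intro v hv
  have h4 : ρ F v = e (ρ F v) := by
    have h5 : e₁ (ρ F v) = ρ F (e v) := by
      change ρ F (e (ρ F⁻¹ (ρ F v))) = ρ F (e v)
      have h6 : ρ F⁻¹ (ρ F v) = v := by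
        change (ρ F⁻¹ * ρ F) v = v
        rw [← map_mul, inv_mul_cancel, map_one]; rfl
      rw [h6]
    rw [h3, heW' v hv] at h5
    exact h5.symm
  rw [h4]
  exact hemem _

end Top

/-- If `V` is semisimple under `P` then some element of positive degree is semisimple. -/
theorem exists_good {P : Type*} [Group P] [TopologicalSpace P] [IsTopologicalGroup P]
    [CompactSpace P] [TotallyDisconnectedSpace P] [TopologicalSpace K] [IsTopologicalRing K]
    [T2Space K] (ρ : P →* Module.End K V)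
    (hρ : ∀ (v : V) (f : Module.Dual K V), Continuous fun x => f (ρ x v))
    {A : Subgroup P} [hAn : A.Normal] {F : P}
    (hF : Dense ((A ⊔ Subgroup.zpowers F : Subgroup P) : Set P))
    (hP : ActsSemisimply (ρ '' (Set.univ : Set P))) :
    ∃ a ∈ A, ∃ d : ℕ, 1 ≤ d ∧ (ρ (a * F ^ d)).IsSemisimple := by
  obtain ⟨N, hN1, hN2, hN3⟩ := density ρ hρ hP (ε := 1 / 2) (by norm_num)
  haveI : Finite (P ⧸ N) := Subgroup.quotient_finite_of_isOpen N hN2
  haveI : Fintype (P ⧸ N) := Fintype.ofFinite _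
  -- a good coset
  obtain ⟨c, hc⟩ : ∃ c : P ⧸ N, ∀ x : P, (x : P ⧸ N) = c → (ρ x).IsSemisimple := by
    by_contra hcon
    push Not at hcon
    have h1 : {c : P ⧸ N | ∃ x : P, (x : P ⧸ N) = c ∧ ¬ (ρ x).IsSemisimple} = Set.univ := by
      ext c
      simp only [Set.mem_setOf_eq, Set.mem_univ, iff_true]
      obtain ⟨x, hx1, hx2⟩ := hcon c
      exact ⟨x, hx1, hx2⟩
    rw [h1, Set.ncard_univ] at hN3
    have h2 : (0 : ℝ) < Nat.card (P ⧸ N) := by exact_mod_cast Nat.card_pos
    linarith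
  obtain ⟨x₁, rfl⟩ := QuotientGroup.mk_surjective c
  have hopen : IsOpen {y : P | (y : P ⧸ N) = (x₁ : P ⧸ N)} := by
    have h1 : {y : P | (y : P ⧸ N) = (x₁ : P ⧸ N)} = (fun y => x₁⁻¹ * y) ⁻¹' (N : Set P) := by
      ext y
      simp only [Set.mem_setOf_eq, Set.mem_preimage, SetLike.mem_coe]
      rw [eq_comm, QuotientGroup.eq]
    rw [h1]
    exact hN2.preimage (continuous_const_mul x₁⁻¹)
  obtain ⟨w, hw1, hw2⟩ := hF.exists_mem_open hopen ⟨x₁, rfl⟩
  obtain ⟨a, ha, z, hz, rfl⟩ := Subgroup.mem_sup_of_normal_left.1 hw1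
  obtain ⟨j, rfl⟩ := Subgroup.mem_zpowers_iff.1 hz
  -- make the exponent positive
  set m := N.index with hm
  haveI : N.FiniteIndex := Subgroup.finiteIndex_of_finite_quotient
  have hm0 : m ≠ 0 := Subgroup.FiniteIndex.index_ne_zero
  have hmF : F ^ m ∈ N := Subgroup.pow_index_mem N F
  obtain ⟨k, hk⟩ : ∃ k : ℕ, k = j.natAbs + 1 := ⟨_, rfl⟩
  have hd : (1 : ℤ) ≤ j + m * (k : ℤ) := by
    have h1 : 1 - (k : ℤ) ≤ j := by omega
    have h2 : (1 : ℤ) ≤ m := by exact_mod_cast Nat.one_le_iff_ne_zero.2 hm0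
    have h3 : (k : ℤ) ≤ m * (k : ℤ) := by nlinarith [Int.natCast_nonneg k]
    linarith
  refine ⟨a, ha, (j + m * (k : ℤ)).toNat, by omega, hc _ ?_⟩
  have h1 : F ^ (j + m * (k : ℤ)).toNat = F ^ j * (F ^ m) ^ k := by
    rw [← zpow_natCast, Int.toNat_of_nonneg (by linarith), zpow_add, zpow_mul, zpow_natCast,
      zpow_natCast]
  rw [h1, ← mul_assoc, QuotientGroup.mk_mul, QuotientGroup.mk_pow,
    (QuotientGroup.eq_one_iff (F ^ m)).2 hmF, one_pow, mul_one]
  exact hw2

end Pool.Agent.Helper40.ZO
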