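import Pool.Agent.Helper40.ZO.HankB

/-!
# Block ZO-HANKC: orthogonality from constant number of eigenvalues (steps (3), (4))

`p = ∏ (X - l)` over the different eigenvalues of `h = x (0)`; `hankel_deriv_sq` gives
`trace ((f p ^ 2)' (h) x₁) = 0` for all `f`.
(3) By descending induction on `j ≥ 1`: `trace (G (h) x₁) = 0` for all `G` divisible by `p ^ j`. True
for `j ≥ n` (`p (h) ^ n = 0`, Cayley-Hamilton). For `G = p ^ j G₁`: `p'` is prime to `p` (simple
roots), `G₁ = g p' + p w`; `f = g p ^ (j-1)`: `(g p ^ (j+1))' = g' p ^ (j+1) + (j+1) g p' p ^ j`, so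
`trace ((g p' p ^ j) (h) x₁) = 0`, and `p ^ (j+1) w` by induction.
(4) `F` vanishes at all eigenvalues, so `p ∣ F`; `j = 1`.
-/

set_option autoImplicit false

namespace Pool.Agent.Helper40.ZO

open Polynomial

variable {K : Type*} [Field K] [IsAlgClosed K] [CharZero K]

omit [CharZero K] in
theorem hkc_charpoly_dvd {n : ℕ} (M : Mat n K) (s : Finset K)
    (hs : ∀ l : K, M.charpoly.IsRoot l → l ∈ s) :
    M.charpoly ∣ (∏ l ∈ s, (X - C l)) ^ n := by
  classical
  have hsp : M.charpoly.Splits := IsAlgClosed.splits _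
  have hprod : M.charpoly = (M.charpoly.roots.map fun a => X - C a).prod := by
    have h := hsp.eq_prod_roots
    rw [(Matrix.charpoly_monic M).leadingCoeff] at h
    simpa using h
  have hle : M.charpoly.roots ≤ n • s.val := by
    rw [Multiset.le_iff_count]
    intro a
    by_cases ha : a ∈ M.charpoly.roots
    · have has : a ∈ s := hs a (isRoot_of_mem_roots ha)
      rw [Multiset.count_nsmul, Multiset.count_eq_one_of_mem s.nodup has, mul_one]
      refine (Multiset.count_le_card _ _).trans ?_
      refine (card_roots' _).trans ?_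
      rw [Matrix.charpoly_natDegree_eq_dim]
      simp
    · rw [Multiset.count_eq_zero_of_notMem ha]
      exact Nat.zero_le _
  have h2 : (M.charpoly.roots.map fun a => X - C a).prod ∣
      ((n • s.val).map fun a => X - C a).prod :=
    Multiset.prod_dvd_prod_of_le (Multiset.map_le_map hle)
  rw [← hprod, Multiset.map_nsmul, Multiset.prod_nsmul] at h2
  exact h2

omit [CharZero K] in
theorem hkc_nil {n : ℕ} (M : Mat n K) (s : Finset K)
    (hs : ∀ l : K, M.charpoly.IsRoot l → l ∈ s) {j : ℕ} (hj : n ≤ j) {G : K[X]}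
    (hG : (∏ l ∈ s, (X - C l)) ^ j ∣ G) : aeval M G = 0 := by
  have h1 : M.charpoly ∣ G :=
    (hkc_charpoly_dvd M s hs).trans ((pow_dvd_pow _ hj).trans hG)
  obtain ⟨q, rfl⟩ := h1
  rw [map_mul, Matrix.aeval_self_charpoly, zero_mul]

theorem hkc_step {n : ℕ} (h x1 : Mat n K) (s : Finset K)
    (hs : ∀ l : K, h.charpoly.IsRoot l → l ∈ s)
    (hsq : ∀ f : K[X], Matrix.trace
      (aeval h (derivative (f * (∏ l ∈ s, (X - C l)) ^ 2)) * x1) = 0) :
    ∀ (m j : ℕ), 1 ≤ j → n ≤ j + m → ∀ G : K[X], (∏ l ∈ s, (X - C l)) ^ j ∣ G →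
      Matrix.trace (aeval h G * x1) = 0 := by
  intro m
  induction m with
  | zero =>
    intro j _ hj G hG
    rw [hkc_nil h s hs (by simpa using hj) hG, zero_mul, Matrix.trace_zero]
  | succ m ih =>
    intro j hj1 hj G hG
    obtain ⟨G₁, rfl⟩ := hG
    obtain ⟨i, rfl⟩ : ∃ i, j = i + 1 := ⟨j - 1, by omega⟩
    have hsep : (∏ l ∈ s, (X - C l) : K[X]).Separable :=
      separable_prod_X_sub_C_iff'.mpr (fun a _ b _ hab => hab)
    set p : K[X] := ∏ l ∈ s, (X - C l) with hp
    obtain ⟨a, b, hab⟩ := hsep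
    -- a * p + b * p' = 1
    have key := hsq (G₁ * b * p ^ i)
    have hder : derivative (G₁ * b * p ^ i * p ^ 2) =
        p ^ (i + 2) * derivative (G₁ * b) +
          ((i : K[X]) + 2) * (p ^ (i + 1) * (G₁ * b * derivative p)) := by
      have : G₁ * b * p ^ i * p ^ 2 = (G₁ * b) * p ^ (i + 2) := by ring
      rw [this, derivative_mul, derivative_pow]
      push_cast
      simp only [map_add, map_natCast, Polynomial.C_ofNat]
      ring
    rw [hder, map_add, add_mul, Matrix.trace_add,
      ih (i + 2) (by omega) (by omega) _ (Dvd.intro _ rfl), zero_add] at key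
    have hcast : ((i : K[X]) + 2) * (p ^ (i + 1) * (G₁ * b * derivative p)) =
        ((i : K) + 2) • (p ^ (i + 1) * (G₁ * b * derivative p)) := by
      rw [smul_eq_C_mul, map_add, map_natCast, map_ofNat]
    rw [hcast, map_smul, smul_mul_assoc, Matrix.trace_smul, smul_eq_mul] at key
    have hne : ((i : K) + 2) ≠ 0 := by
      have : ((i + 2 : ℕ) : K) ≠ 0 := Nat.cast_ne_zero.mpr (by omega)
      simpa using this
    have key2 := (mul_eq_zero.mp key).resolve_left hne
    have hsplit : p ^ (i + 1) * G₁ =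
        p ^ (i + 2) * (G₁ * a) + p ^ (i + 1) * (G₁ * b * derivative p) := by
      calc p ^ (i + 1) * G₁ = p ^ (i + 1) * G₁ * (a * p + b * derivative p) := by
            rw [hab, mul_one]
        _ = _ := by ring
    rw [hsplit, map_add, add_mul, Matrix.trace_add,
      ih (i + 2) (by omega) (by omega) _ (Dvd.intro _ rfl), zero_add]
    exact key2

theorem hankel_deriv {n r : ℕ} (x : Mat n K[X])
    (hdet : ∀ f : K[X], (Matrix.of fun a b : Fin (r + 1) =>
      Matrix.trace (aeval x f * x ^ ((a : ℕ) + b))).det = 0)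
    (hr : numEigM (x.map fun p => p.eval 0) = r) {F : K[X]}
    (hF : ∀ l : K, (x.map fun p => p.eval 0).charpoly.IsRoot l → F.IsRoot l) :
    Matrix.trace (aeval (x.map fun p => p.eval 0) F * x.map fun p => p.coeff 1) = 0 := by
  classical
  have hsq := fun f : K[X] => hankel_deriv_sq x hdet hr f rfl
  refine hkc_step (x.map fun p => p.eval 0) (x.map fun p => p.coeff 1) _ ?_ hsq n 1 le_rfl
    (by omega) F ?_
  · intro l hl
    rw [Multiset.mem_toFinset, mem_roots (Matrix.charpoly_monic _).ne_zero]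
    exact hl
  · rw [pow_one]
    refine Finset.prod_dvd_of_coprime ?_ ?_
    · intro a _ b _ hab
      exact pairwise_coprime_X_sub_C Function.injective_id hab
    · intro l hl
      rw [dvd_iff_isRoot]
      refine hF l ?_
      rw [Multiset.mem_toFinset] at hl
      exact isRoot_of_mem_roots hl

end Pool.Agent.Helper40.ZO
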