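import Pool.Agent.Helper40.ZO.HankA

/-!
# Block ZO-HANKB: first derivative identity (step (1), (2))

`x` a matrix of polynomials, `h = x (0)`, `x₁` the coefficient of `X` of `x`, `p = ∏ (X - l)` over the
`r` different eigenvalues of `h`, `c ∈ K^(r+1)` its coefficient vector.
* `coeff_one_trace`: the coefficient of `X` of `trace (g (x))` is `trace (g' (h) x₁)`, for
  `g : K[X]`. (`g = X ^ k`: coefficient of `X` of `x ^ k` is `∑ h ^ i x₁ h ^ (k-1-i)`, the trace is
  cyclic.)
* `hankel_deriv_sq`. (1) For fixed `f` with `f (l) ≠ 0` for all eigenvalues `l` of `h`: `H` = the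
  Hankel matrix over `K[X]`, symmetric. `det H = 0` gives `v ∈ K[X]^(r+1)`, `v ≠ 0`, `H v = 0`
  (`Matrix.exists_mulVec_eq_zero_iff`), and dividing by a power of `X` we may assume `v (0) ≠ 0`.
  `H (0) v (0) = 0`: `∑_b trace (f (h) h ^ (a+b)) v_b = ∑_l m_l f (l) l ^ a w (l) = 0` for
  `a = 0, ..., r`, `w` = the polynomial with coefficients `v (0)`, `m_l > 0` the multiplicities
  (`trace_aeval`); Vandermonde for the `r` different `l`: `w (l) = 0` for all `l`, so `w = κ p`,
  `v (0) = κ c`, `κ ≠ 0`.
  The coefficient of `X` of `c ᵀ H v = 0` is `c ᵀ H₁ v (0) + c ᵀ H (0) v₁ = 0` and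
  `c ᵀ H (0) = 0` (`trace (f (h) h ^ b p (h)) = 0`, `p (h)` is nilpotent), so `c ᵀ H₁ c = 0`, `H₁` =
  coefficient of `X` of `H`; i.e. `trace ((f p ^ 2)' (h) x₁) = 0` by `coeff_one_trace`.
  (2) By linearity this holds for all `f` (`f = (f + c) - c` with a constant `c ≠ 0`,
  `c ≠ -f (l)`; `K` is infinite).
-/

set_option autoImplicit false

namespace Pool.Agent.Helper40.ZO

open Polynomial

variable {K : Type*} [Field K] [IsAlgClosed K] [CharZero K]

section Aux

variable {n : ℕ}

private lemma hb40_c1_mul (M N : Mat n K[X]) :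
    (M * N).map (fun p => p.coeff 1) = M.map (fun p => p.coeff 0) * N.map (fun p => p.coeff 1) +
      M.map (fun p => p.coeff 1) * N.map (fun p => p.coeff 0) := by
  ext i j
  simp only [Matrix.map_apply, Matrix.mul_apply, Matrix.add_apply, finset_sum_coeff, mul_coeff_one,
    Finset.sum_add_distrib]

private lemma hb40_c0_pow (M : Mat n K[X]) (k : ℕ) :
    (M ^ k).map (fun p => p.coeff 0) = (M.map fun p => p.coeff 0) ^ k := by
  have h := map_pow (constantCoeff (R := K)).mapMatrix M k
  exact h

private lemma hb40_trace_c1 (M : Mat n K[X]) :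
    (Matrix.trace M).coeff 1 = Matrix.trace (M.map fun p => p.coeff 1) := by
  simp [Matrix.trace, finset_sum_coeff]

private lemma hb40_pow (x : Mat n K[X]) (j k : ℕ) :
    Matrix.trace ((x.map fun p => p.coeff 0) ^ j * (x ^ (k + 1)).map fun p => p.coeff 1) =
      ((k : K) + 1) * Matrix.trace ((x.map fun p => p.coeff 0) ^ (j + k) *
        x.map fun p => p.coeff 1) := by
  induction k generalizing j with
  | zero => simp
  | succ k ih =>
    rw [pow_succ x, hb40_c1_mul, hb40_c0_pow, mul_add, Matrix.trace_add, ← mul_assoc, ← pow_add,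
      ← mul_assoc, Matrix.trace_mul_comm _ (x.map fun p => p.coeff 0), ← mul_assoc, ← pow_succ', ih]
    have e1 : j + 1 + k = j + (k + 1) := by ring
    rw [e1]
    push_cast
    ring

private lemma hb40_eval0 (x : Mat n K[X]) :
    (x.map fun p => p.eval 0) = x.map fun p => p.coeff 0 := by
  ext i j
  simp [coeff_zero_eq_eval_zero]

end Aux

theorem coeff_one_trace {n : ℕ} (x : Mat n K[X]) (g : K[X]) :
    (Matrix.trace (aeval x g)).coeff 1 =
      Matrix.trace (aeval (x.map fun p => p.eval 0) (derivative g) *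
        x.map fun p => p.coeff 1) := by
  rw [hb40_eval0]
  induction g using Polynomial.induction_on' with
  | add p q hp hq =>
    rw [map_add, Matrix.trace_add, coeff_add, hp, hq, derivative_add, map_add, add_mul,
      Matrix.trace_add]
  | monomial k a =>
    have e1 : aeval x (monomial k a) = a • x ^ k := by
      rw [aeval_monomial, Algebra.smul_def]
    rw [e1, Matrix.trace_smul, coeff_smul, smul_eq_mul, derivative_monomial]
    rcases k with _ | k
    · have h0 : (Matrix.trace (1 : Mat n K[X])).coeff 1 = 0 := by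
        rw [Matrix.trace_one, ← C_eq_natCast, coeff_C_ne_zero one_ne_zero]
      rw [pow_zero, h0, mul_zero, Nat.cast_zero, mul_zero, map_zero (monomial _), map_zero,
        zero_mul, Matrix.trace_zero]
    · have e2 : aeval (x.map fun p => p.coeff 0) (monomial (k + 1 - 1) (a * ((k + 1 : ℕ) : K))) =
          (a * ((k : K) + 1)) • (x.map fun p => p.coeff 0) ^ k := by
        rw [aeval_monomial, Algebra.smul_def]
        push_cast
        rfl
      rw [e2, hb40_trace_c1]
      have h1 := hb40_pow x 0 k
      rw [pow_zero, one_mul, zero_add] at h1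
      rw [h1, smul_mul_assoc, Matrix.trace_smul, smul_eq_mul]
      ring

section Main

variable {n r : ℕ}

private lemma hb40_bil {A : Type*} [CommRing A] [Algebra K A] (y : Mat n A) (f : K[X])
    (u v : Fin (r + 1) → K) :
    ∑ a, ∑ b, (u a * v b) • Matrix.trace (aeval y f * y ^ ((a : ℕ) + b)) =
      Matrix.trace (aeval y (f * (∑ a : Fin (r + 1), C (u a) * X ^ (a : ℕ)) *
        (∑ b : Fin (r + 1), C (v b) * X ^ (b : ℕ)))) := by
  rw [mul_assoc, Finset.sum_mul_sum, Finset.mul_sum, map_sum, Matrix.trace_sum]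
  refine Finset.sum_congr rfl (fun a _ => ?_)
  rw [Finset.mul_sum, map_sum, Matrix.trace_sum]
  refine Finset.sum_congr rfl (fun b _ => ?_)
  have e1 : f * (C (u a) * X ^ (a : ℕ) * (C (v b) * X ^ (b : ℕ))) =
      C (u a * v b) * (f * X ^ ((a : ℕ) + b)) := by
    rw [C_mul, pow_add]
    ring
  rw [e1, map_mul, aeval_C, ← Algebra.smul_def, map_mul, map_pow, aeval_X, Matrix.trace_smul]

private lemma hb40_poly {q : K[X]} (hq : q.natDegree ≤ r) :
    ∑ a : Fin (r + 1), C (q.coeff a) * X ^ (a : ℕ) = q := by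
  rw [Fin.sum_univ_eq_sum_range (fun a => C (q.coeff a) * X ^ a) (r + 1)]
  exact (q.as_sum_range_C_mul_X_pow' (Nat.lt_succ_of_le hq)).symm

/-- A nonzero solution with nonzero constant term. -/
private lemma hb40_primitive {H : Matrix (Fin (r + 1)) (Fin (r + 1)) K[X]} (hH : H.det = 0) :
    ∃ w : Fin (r + 1) → K[X], (∃ i, (w i).coeff 0 ≠ 0) ∧ H.mulVec w = 0 := by
  obtain ⟨v, hv0, hv⟩ := Matrix.exists_mulVec_eq_zero_iff.2 hH
  obtain ⟨i0, hi0⟩ := Function.ne_iff.1 hv0
  have key : ∀ N : ℕ, ∀ v : Fin (r + 1) → K[X], v i0 ≠ 0 → H.mulVec v = 0 →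
      (v i0).natDegree ≤ N →
      ∃ w : Fin (r + 1) → K[X], (∃ i, (w i).coeff 0 ≠ 0) ∧ H.mulVec w = 0 := by
    intro N
    induction N with
    | zero =>
      intro v h1 h2 h3
      refine ⟨v, ⟨i0, fun h4 => h1 ?_⟩, h2⟩
      rw [eq_C_of_natDegree_le_zero h3, h4, C_0]
    | succ N ih =>
      intro v h1 h2 h3
      by_cases h4 : ∃ i, (v i).coeff 0 ≠ 0
      · exact ⟨v, h4, h2⟩
      · push Not at h4
        have h5 : ∀ i, v i = X * (v i).divX := by
          intro i
          have := divX_mul_X_add (v i)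
          rw [h4 i, C_0, add_zero, mul_comm] at this
          exact this.symm
        refine ih (fun i => (v i).divX) ?_ ?_ ?_
        · intro h6
          apply h1
          rw [h5 i0]
          rw [h6, mul_zero]
        · have h6 : H.mulVec v = (X : K[X]) • H.mulVec (fun i => (v i).divX) := by
            rw [← Matrix.mulVec_smul]
            congr 1
            funext i
            rw [Pi.smul_apply, smul_eq_mul]
            exact h5 i
          rw [h2] at h6
          funext i
          have h7 := congrFun h6.symm i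
          rw [Pi.smul_apply, smul_eq_mul, Pi.zero_apply] at h7
          exact (mul_eq_zero.1 h7).resolve_left X_ne_zero
        · rw [natDegree_divX_eq_natDegree_tsub_one]
          omega
  exact key _ v hi0 hv le_rfl

open Classical in
private lemma hb40_main (x : Mat n K[X]) {f : K[X]}
    (hdet : (Matrix.of fun a b : Fin (r + 1) =>
      Matrix.trace (aeval x f * x ^ ((a : ℕ) + b))).det = 0)
    (hr : numEigM (x.map fun p => p.eval 0) = r) {p : K[X]}
    (hp : p = ∏ l ∈ (x.map fun p => p.eval 0).charpoly.roots.toFinset, (X - C l))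
    (hf : ∀ l ∈ (x.map fun p => p.eval 0).charpoly.roots, f.eval l ≠ 0) :
    Matrix.trace (aeval (x.map fun p => p.eval 0) (derivative (f * p ^ 2)) *
      x.map fun p => p.coeff 1) = 0 := by
  set h : Mat n K := x.map fun p => p.eval 0 with hh
  set H : Matrix (Fin (r + 1)) (Fin (r + 1)) K[X] := Matrix.of fun a b : Fin (r + 1) =>
      Matrix.trace (aeval x f * x ^ ((a : ℕ) + b)) with hHdef
  have hH : ∀ a b, H a b = Matrix.trace (aeval x f * x ^ ((a : ℕ) + b)) := fun a b => rfl
  have hcard : h.charpoly.roots.toFinset.card = r := by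
    rw [← hr]
    unfold numEigM
    congr
  have hpdeg : p.natDegree = r := by
    rw [hp, natDegree_finset_prod_X_sub_C_eq_card, hcard]
  have hpmonic : p.Monic := by
    rw [hp]
    exact monic_prod_of_monic _ _ fun l _ => monic_X_sub_C l
  have hproot : ∀ l ∈ h.charpoly.roots, p.eval l = 0 := by
    intro l hl
    rw [hp, eval_prod]
    exact Finset.prod_eq_zero (Multiset.mem_toFinset.2 hl) (by simp)
  have hpoly : ∑ a : Fin (r + 1), C (p.coeff a) * X ^ (a : ℕ) = p := hb40_poly hpdeg.le
  -- constant coefficients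
  have hev : ∀ g : K[X], (aeval x g).map (fun p => p.eval 0) = aeval h g := by
    intro g
    have h1 : (aeval x g).map (fun p => p.eval 0) =
        (evalRingHom (0 : K)).mapMatrix (aeval x g) := rfl
    rw [h1]
    induction g using Polynomial.induction_on' with
    | add p q hp hq => rw [map_add, map_add, map_add, hp rfl, hq rfl]
    | monomial k a =>
      rw [aeval_monomial, aeval_monomial, map_mul, map_pow]
      congr 1
      rw [Algebra.algebraMap_eq_smul_one, Algebra.algebraMap_eq_smul_one]
      ext i j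
      simp only [RingHom.mapMatrix_apply, Matrix.map_apply, Matrix.smul_apply, coe_evalRingHom,
        eval_smul]
      congr 1
      rw [Matrix.one_apply, Matrix.one_apply]
      split_ifs <;> simp
  have hc0 : ∀ a b, (H a b).coeff 0 = Matrix.trace (aeval h f * h ^ ((a : ℕ) + b)) := by
    intro a b
    rw [hH, coeff_zero_eq_eval_zero]
    have h1 : aeval x f * x ^ ((a : ℕ) + b) = aeval x (f * X ^ ((a : ℕ) + b)) := by
      rw [map_mul, map_pow, aeval_X]
    have h2 : aeval h f * h ^ ((a : ℕ) + b) = aeval h (f * X ^ ((a : ℕ) + b)) := by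
      rw [map_mul, map_pow, aeval_X]
    rw [h1, h2, ← hev]
    simp [Matrix.trace, eval_finset_sum]
  obtain ⟨w, ⟨i0, hi0⟩, hw⟩ := hb40_primitive hdet
  let w0 : Fin (r + 1) → K := fun i => (w i).coeff 0
  let W : K[X] := ∑ b : Fin (r + 1), C (w0 b) * X ^ (b : ℕ)
  have hH0 : ∀ a, ∑ b, (H a b).coeff 0 * w0 b = 0 := by
    intro a
    have h1 := congrArg (fun v : Fin (r + 1) → K[X] => (v a).coeff 0) hw
    simp only [Matrix.mulVec, dotProduct, finset_sum_coeff, mul_coeff_zero, Pi.zero_apply,
      coeff_zero] at h1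
    exact h1
  have hWq : ∀ q : K[X], q.natDegree ≤ r → Matrix.trace (aeval h (f * q * W)) = 0 := by
    intro q hq
    have h1 := hb40_bil (r := r) h f (fun a => q.coeff a) w0
    rw [hb40_poly hq] at h1
    rw [← h1]
    refine Finset.sum_eq_zero (fun a _ => ?_)
    have h2 : ∑ b, (q.coeff a * w0 b) • Matrix.trace (aeval h f * h ^ ((a : ℕ) + b)) =
        q.coeff a * ∑ b, (H a b).coeff 0 * w0 b := by
      rw [Finset.mul_sum]
      refine Finset.sum_congr rfl (fun b _ => ?_)
      rw [hc0, smul_eq_mul]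
      ring
    rw [h2, hH0, mul_zero]
  -- W vanishes at the eigenvalues
  have hWroot : ∀ l0 ∈ h.charpoly.roots.toFinset, W.eval l0 = 0 := by
    intro l0 hl0
    let q : K[X] := ∏ l ∈ h.charpoly.roots.toFinset.erase l0, (X - C l)
    have hq : q.natDegree ≤ r := by
      rw [natDegree_finset_prod_X_sub_C_eq_card, ← hcard]
      exact Finset.card_le_card (Finset.erase_subset _ _)
    have h1 := hWq q hq
    rw [trace_aeval] at h1
    have h2 : (h.charpoly.roots.map fun l => (f * q * W).eval l).sum =
        (h.charpoly.roots.count l0 : K) * (f * q * W).eval l0 := by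
      rw [Finset.sum_multiset_map_count]
      rw [Finset.sum_eq_single l0]
      · rw [nsmul_eq_mul]
      · intro l hl hne
        rw [nsmul_eq_mul, eval_mul, eval_mul]
        have h3 : q.eval l = 0 := by
          rw [eval_prod]
          exact Finset.prod_eq_zero (Finset.mem_erase.2 ⟨hne, hl⟩) (by simp)
        rw [h3, mul_zero, zero_mul, mul_zero]
      · intro h3
        exact absurd hl0 h3
    rw [h2] at h1
    have h3 : (h.charpoly.roots.count l0 : K) ≠ 0 := by
      have := Multiset.count_pos.2 (Multiset.mem_toFinset.1 hl0)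
      exact_mod_cast this.ne'
    have h4 := (mul_eq_zero.1 h1).resolve_left h3
    rw [eval_mul, eval_mul] at h4
    have h5 : f.eval l0 ≠ 0 := hf l0 (Multiset.mem_toFinset.1 hl0)
    have h6 : q.eval l0 ≠ 0 := by
      rw [eval_prod]
      refine Finset.prod_ne_zero_iff.2 (fun l hl => ?_)
      rw [eval_sub, eval_X, eval_C]
      exact sub_ne_zero.2 (Finset.ne_of_mem_erase hl).symm
    exact (mul_eq_zero.1 h4).resolve_left (mul_ne_zero h5 h6)
  have hpW : p ∣ W := by
    rw [hp]
    refine Finset.prod_dvd_of_coprime ?_ (fun l hl => dvd_iff_isRoot.2 (hWroot l hl))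
    intro a _ b _ hab
    exact isCoprime_X_sub_C_of_isUnit_sub (isUnit_iff_ne_zero.2 (sub_ne_zero.2 hab))
  have hWdeg : W.natDegree ≤ r := by
    refine natDegree_sum_le_of_forall_le _ _ (fun b _ => ?_)
    exact (natDegree_C_mul_X_pow_le _ _).trans (Nat.lt_succ_iff.1 b.2)
  have hWcoeff : ∀ b : Fin (r + 1), W.coeff b = w0 b := by
    intro b
    simp only [W, finset_sum_coeff, coeff_C_mul, coeff_X_pow]
    rw [Finset.sum_eq_single b]
    · simp
    · intro c _ hc
      rw [if_neg, mul_zero]
      intro h1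
      exact hc (Fin.ext h1.symm)
    · intro h1; exact absurd (Finset.mem_univ _) h1
  obtain ⟨κ', hκ'⟩ := hpW
  have hκ'0 : κ' ≠ 0 := by
    rintro rfl
    apply hi0
    have := hWcoeff i0
    rw [hκ', mul_zero, coeff_zero] at this
    exact this.symm
  have hκdeg : κ'.natDegree = 0 := by
    have h1 : W.natDegree = p.natDegree + κ'.natDegree := by
      rw [hκ', natDegree_mul hpmonic.ne_zero hκ'0]
    omega
  obtain ⟨κ, hκ⟩ : ∃ κ : K, κ' = C κ := ⟨κ'.coeff 0, eq_C_of_natDegree_eq_zero hκdeg⟩
  have hκ0 : κ ≠ 0 := by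
    rintro rfl
    apply hκ'0
    rw [hκ, C_0]
  have hw0 : ∀ b : Fin (r + 1), w0 b = κ * p.coeff b := by
    intro b
    rw [← hWcoeff, hκ', hκ, mul_comm p, coeff_C_mul]
  -- the coefficient of X of cᵀ H w
  have hL1 : ∀ b : Fin (r + 1), ∑ a : Fin (r + 1), p.coeff a * (H a b).coeff 0 = 0 := by
    intro b
    have h1 := hb40_bil (r := r) h (f * X ^ (b : ℕ)) (fun a => p.coeff a)
      (fun c => if c = 0 then 1 else 0)
    rw [hpoly] at h1
    have h2 : (∑ c : Fin (r + 1), C (if c = 0 then (1 : K) else 0) * X ^ (c : ℕ)) = 1 := by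
      rw [Finset.sum_eq_single 0]
      · simp
      · intro c _ hc
        simp [hc]
      · intro h3; exact absurd (Finset.mem_univ _) h3
    rw [h2, mul_one, trace_aeval] at h1
    have h3 : (h.charpoly.roots.map fun l => (f * X ^ (b : ℕ) * p).eval l).sum = 0 := by
      refine Multiset.sum_eq_zero (fun t ht => ?_)
      obtain ⟨l, hl, rfl⟩ := Multiset.mem_map.1 ht
      rw [eval_mul, hproot l hl, mul_zero]
    rw [h3] at h1
    rw [← h1]
    refine Finset.sum_congr rfl (fun a _ => ?_)
    rw [Finset.sum_eq_single 0]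
    · rw [hc0]
      simp only [if_true, mul_one, smul_eq_mul, Fin.val_zero, add_zero, map_mul, map_pow, aeval_X]
      rw [pow_add, mul_assoc (aeval h f), ← pow_add, ← pow_add, add_comm (b : ℕ)]
    · intro c _ hc
      simp [hc]
    · intro h4; exact absurd (Finset.mem_univ _) h4
  have hS : ∑ a : Fin (r + 1), ∑ b : Fin (r + 1), p.coeff a * p.coeff b * (H a b).coeff 1 = 0 := by
    have h1 : ∀ a, (∑ b, H a b * w b).coeff 1 = 0 := by
      intro a
      have h2 := congrArg (fun v : Fin (r + 1) → K[X] => (v a).coeff 1) hw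
      simp only [Matrix.mulVec, dotProduct, Pi.zero_apply, coeff_zero] at h2
      exact h2
    have h2 : ∑ a : Fin (r + 1), p.coeff a * (∑ b, H a b * w b).coeff 1 = 0 := by
      refine Finset.sum_eq_zero (fun a _ => ?_)
      rw [h1, mul_zero]
    have h3 : ∑ a : Fin (r + 1), p.coeff a * (∑ b, H a b * w b).coeff 1 =
        κ * (∑ a : Fin (r + 1), ∑ b : Fin (r + 1), p.coeff a * p.coeff b * (H a b).coeff 1) +
        ∑ b : Fin (r + 1), (w b).coeff 1 * ∑ a : Fin (r + 1), p.coeff a * (H a b).coeff 0 := by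
      have h4 : ∑ b : Fin (r + 1), (w b).coeff 1 * ∑ a : Fin (r + 1),
          p.coeff a * (H a b).coeff 0 =
          ∑ a : Fin (r + 1), ∑ b : Fin (r + 1), p.coeff a * ((H a b).coeff 0 * (w b).coeff 1) := by
        rw [Finset.sum_comm]
        refine Finset.sum_congr rfl (fun b _ => ?_)
        rw [Finset.mul_sum]
        refine Finset.sum_congr rfl (fun a _ => ?_)
        ring
      rw [h4, Finset.mul_sum, ← Finset.sum_add_distrib]
      refine Finset.sum_congr rfl (fun a _ => ?_)
      rw [finset_sum_coeff, Finset.mul_sum, Finset.mul_sum, ← Finset.sum_add_distrib]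
      refine Finset.sum_congr rfl (fun b _ => ?_)
      rw [mul_coeff_one]
      have h5 : (w b).coeff 0 = κ * p.coeff b := hw0 b
      rw [h5]
      ring
    rw [h3] at h2
    have h4 : ∑ b : Fin (r + 1), (w b).coeff 1 * ∑ a : Fin (r + 1),
        p.coeff a * (H a b).coeff 0 = 0 := by
      refine Finset.sum_eq_zero (fun b _ => ?_)
      rw [hL1, mul_zero]
    rw [h4, add_zero] at h2
    exact (mul_eq_zero.1 h2).resolve_left hκ0
  rw [← coeff_one_trace]
  have h1 := hb40_bil (r := r) x f (fun a => p.coeff a) (fun a => p.coeff a)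
  rw [hpoly] at h1
  have h2 : f * p ^ 2 = f * p * p := by ring
  rw [h2, ← h1, finset_sum_coeff, ← hS]
  refine Finset.sum_congr rfl (fun a _ => ?_)
  rw [finset_sum_coeff]
  refine Finset.sum_congr rfl (fun b _ => ?_)
  rw [coeff_smul, smul_eq_mul, hH]

end Main

open Classical in
theorem hankel_deriv_sq {n r : ℕ} (x : Mat n K[X])
    (hdet : ∀ f : K[X], (Matrix.of fun a b : Fin (r + 1) =>
      Matrix.trace (aeval x f * x ^ ((a : ℕ) + b))).det = 0)
    (hr : numEigM (x.map fun p => p.eval 0) = r) (f : K[X]) {p : K[X]}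
    (hp : p = ∏ l ∈ (x.map fun p => p.eval 0).charpoly.roots.toFinset, (X - C l)) :
    Matrix.trace (aeval (x.map fun p => p.eval 0) (derivative (f * p ^ 2)) *
      x.map fun p => p.coeff 1) = 0 := by
  obtain ⟨c, hc⟩ := Infinite.exists_notMem_finset
    (insert 0 (((x.map fun p => p.eval 0).charpoly.roots.toFinset).image fun l => - f.eval l))
  rw [Finset.mem_insert, not_or, Finset.mem_image] at hc
  obtain ⟨hc0, hc1⟩ := hc
  have h1 := hb40_main x (hdet (f + C c)) hr hp (by
    intro l hl h2
    apply hc1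
    refine ⟨l, Multiset.mem_toFinset.2 hl, ?_⟩
    rw [eval_add, eval_C] at h2
    linear_combination -h2)
  have h2 := hb40_main x (hdet (C c)) hr hp (by
    intro l hl h2
    rw [eval_C] at h2
    exact hc0 h2)
  have h3 : derivative (f * p ^ 2) = derivative ((f + C c) * p ^ 2) -
      derivative (C c * p ^ 2) := by
    rw [← derivative_sub]
    congr 1
    ring
  rw [h3, map_sub, sub_mul, Matrix.trace_sub, h1, h2, sub_zero]

end Pool.Agent.Helper40.ZO
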