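import Pool.Agent.Helper40.ZO.Dss

/-!
# Inequalities for all elements of a coset (helper40)

The semisimple elements of `B x` are Zariski dense, so the closed conditions (the minimal polynomial
has degree at most `r`; the kernel of `p (ρ x)` has dimension at least `m`) hold at `x` if they
hold at the semisimple elements of the coset.
-/

set_option autoImplicit false

namespace Pool.Agent.Helper40.ZO

open Polynomial

section Lin

variable {K : Type*} [Field K]

/-- A linear form applied to a polynomial is a polynomial in the entries. -/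
theorem exists_val_aeval {n : ℕ} (φ : Mat n K →ₗ[K] K) (p : K[X]) :
    ∃ g : MvPolynomial (Fin n × Fin n) K, ∀ M, val M g = φ (aeval M p) := by
  choose g hg using fun k => exists_val_pow φ k
  refine ⟨∑ k ∈ Finset.range (p.natDegree + 1), MvPolynomial.C (p.coeff k) * g k, fun M => ?_⟩
  rw [aeval_eq_sum_range, map_sum]
  unfold val at hg ⊢
  rw [map_sum]
  refine Finset.sum_congr rfl fun k _ => ?_
  rw [map_mul, MvPolynomial.eval_C, hg, map_smul, smul_eq_mul]

/-- Coordinates for a linearly independent family. -/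
theorem exists_coord {W : Type*} [AddCommGroup W] [Module K W] {k : ℕ} {v : Fin k → W}
    (hv : LinearIndependent K v) :
    ∃ ψ : W →ₗ[K] (Fin k → K), ∀ j, ψ (v j) = Pi.single j 1 := by
  obtain ⟨ψ, hψ⟩ := LinearMap.exists_leftInverse_of_injective (Fintype.linearCombination K v)
    (LinearMap.ker_eq_bot.2 hv.fintypeLinearCombination_injective)
  refine ⟨ψ, fun j => ?_⟩
  have h1 := LinearMap.congr_fun hψ (Pi.single j 1)
  rw [LinearMap.comp_apply, LinearMap.id_apply, Fintype.linearCombination_apply_single,
    one_smul] at h1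
  exact h1

end Lin

variable {K V : Type*} [Field K] [AddCommGroup V] [Module K V] [FiniteDimensional K V]

/-- The kernel of a product of different linear factors. -/
theorem finrank_ker_prod (A : Module.End K V) (L : Finset K) :
    Module.finrank K (LinearMap.ker (aeval A (∏ l ∈ L, (X - C l)))) =
      ∑ l ∈ L, Module.finrank K (Module.End.eigenspace A l) := by
  classical
  induction L using Finset.induction_on with
  | empty =>
    rw [Finset.prod_empty, Finset.sum_empty, map_one]
    have : LinearMap.ker (1 : Module.End K V) = ⊥ := LinearMap.ker_id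
    rw [this, finrank_bot]
  | insert l L hl ih =>
    rw [Finset.prod_insert hl, Finset.sum_insert hl, ← ih]
    have hcop : IsCoprime (X - C l) (∏ l' ∈ L, (X - C l')) := by
      refine IsCoprime.prod_right fun l' hl' => ?_
      refine isCoprime_X_sub_C_of_isUnit_sub ?_
      exact (sub_ne_zero.2 (fun h : l = l' => hl (by rw [h]; exact hl'))).isUnit
    have h1 := Polynomial.sup_ker_aeval_eq_ker_aeval_mul_of_coprime A hcop
    have h2 := Polynomial.disjoint_ker_aeval_of_isCoprime A hcop
    have h3 := Submodule.finrank_sup_add_finrank_inf_eq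
      (LinearMap.ker (aeval A (X - C l))) (LinearMap.ker (aeval A (∏ l' ∈ L, (X - C l'))))
    rw [h1, h2.eq_bot, finrank_bot, add_zero] at h3
    have h4 : LinearMap.ker (aeval A (X - C l)) = Module.End.eigenspace A l := by
      rw [map_sub, aeval_X, aeval_C, Module.End.eigenspace_def]
      rfl
    rw [h3, h4]

variable [IsAlgClosed K] [CharZero K]

/-- The degree of the minimal polynomial of a semisimple endomorphism. -/
theorem natDegree_minpoly_of_ss {A : Module.End K V} (hA : A.IsSemisimple) :
    (minpoly K A).natDegree ≤ numEig A := by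
  classical
  have h1 : (minpoly K A).Separable :=
    PerfectField.separable_iff_squarefree.mpr hA.minpoly_squarefree
  have h2 : (minpoly K A).Splits := IsAlgClosed.splits _
  have h3 : (minpoly K A).roots.Nodup := nodup_roots h1
  rw [h2.natDegree_eq_card_roots, ← Multiset.toFinset_card_of_nodup h3]
  unfold numEig
  refine Finset.card_le_card fun l hl => ?_
  rw [Multiset.mem_toFinset] at hl ⊢
  have h4 : A.HasEigenvalue l := Module.End.hasEigenvalue_of_isRoot (isRoot_of_mem_roots hl)
  have h5 := (Module.End.hasEigenvalue_iff_isRoot_charpoly A l).1 h4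
  exact (mem_roots (LinearMap.charpoly_monic A).ne_zero).2 h5

section Top

variable {P : Type*} [Group P] [TopologicalSpace P] [IsTopologicalGroup P]
    [CompactSpace P] [TotallyDisconnectedSpace P] [TopologicalSpace K] [IsTopologicalRing K]
    [T2Space K] (ρ : P →* Module.End K V)
    (hρ : ∀ (v : V) (f : Module.Dual K V), Continuous fun x => f (ρ x v))
    (hP : ActsSemisimply (ρ '' (Set.univ : Set P))) {B : Subgroup P} [hBn : B.Normal] {x : P}
    (hopen : IsOpen ((B ⊔ Subgroup.zpowers x).topologicalClosure : Set P))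

include hρ hP hopen

theorem minpoly_le {r : ℕ} (h : ∀ g ∈ B, numEig (ρ (g * x)) ≤ r) :
    (minpoly K (ρ x)).natDegree ≤ r := by
  by_contra hcon
  push Not at hcon
  let n := Module.finrank K V
  let b := Module.finBasis K V
  let φ : Module.End K V ≃ₐ[K] Mat n K := LinearMap.toMatrixAlgEquiv b
  have hφ : ∀ A, φ A = LinearMap.toMatrix b b A := fun A => rfl
  have hli : LinearIndependent K (fun j : Fin (r + 1) => (ρ x) ^ (j : ℕ)) :=
    (linearIndependent_pow (K := K) (ρ x)).comp (Fin.castLE hcon) (Fin.castLE_injective hcon)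
  obtain ⟨ψ, hψ⟩ := exists_coord hli
  obtain ⟨E, hE⟩ := exists_val_det (n := n) (r := r + 1)
    (fun M => Matrix.of fun i j : Fin (r + 1) => ψ (φ.symm (M ^ (j : ℕ))) i) (by
      intro i j
      obtain ⟨g, hg⟩ := exists_val_pow
        ((LinearMap.proj i : (Fin (r + 1) → K) →ₗ[K] K).comp
          (ψ.comp φ.symm.toLinearMap)) (j : ℕ)
      exact ⟨g, fun M => by rw [hg]; rfl⟩)
  have hEval : ∀ A : Module.End K V, val (LinearMap.toMatrix b b A) E =
      (Matrix.of fun i j : Fin (r + 1) => ψ (A ^ (j : ℕ)) i).det := by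
    intro A
    rw [hE, ← hφ]
    congr 1
    ext i j
    rw [Matrix.of_apply, Matrix.of_apply, ← map_pow, AlgEquiv.symm_apply_apply]
  obtain ⟨g, hg, hss, hne⟩ := dense_ss ρ hρ hP hopen b E (by
    rw [hEval]
    have h1 : (Matrix.of fun i j : Fin (r + 1) => ψ ((ρ x) ^ (j : ℕ)) i) = 1 := by
      ext i j
      rw [Matrix.of_apply, hψ, Matrix.one_apply, Pi.single_apply]
    rw [h1, Matrix.det_one]
    exact one_ne_zero)
  rw [hEval] at hne
  apply hne
  have hdeg := (natDegree_minpoly_of_ss hss).trans (h g hg)
  have hmon := minpoly.monic (Algebra.IsIntegral.isIntegral (R := K) (ρ (g * x)))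
  rw [← Matrix.exists_mulVec_eq_zero_iff]
  refine ⟨fun j => (minpoly K (ρ (g * x))).coeff j, ?_, ?_⟩
  · intro h0
    have h1 := congrFun h0 ⟨(minpoly K (ρ (g * x))).natDegree, Nat.lt_succ_of_le hdeg⟩
    simp only [Pi.zero_apply] at h1
    rw [hmon.coeff_natDegree] at h1
    exact one_ne_zero h1
  · have h1 : ∑ j : Fin (r + 1), (minpoly K (ρ (g * x))).coeff j • (ρ (g * x)) ^ (j : ℕ) = 0 := by
      have h2 := minpoly.aeval K (ρ (g * x))
      rw [aeval_eq_sum_range' (Nat.lt_succ_of_le hdeg)] at h2
      rw [← h2, Finset.sum_range]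
    have h2 := congrArg ψ h1
    rw [map_sum, map_zero] at h2
    ext i
    have h3 := congrFun h2 i
    rw [Finset.sum_apply] at h3
    rw [Matrix.mulVec, dotProduct, Pi.zero_apply]
    rw [Pi.zero_apply] at h3
    rw [← h3]
    refine Finset.sum_congr rfl fun j _ => ?_
    rw [map_smul, Pi.smul_apply, smul_eq_mul, Matrix.of_apply, mul_comm]

theorem ker_ge {L : Finset K} {m : ℕ}
    (h : ∀ g ∈ B, m ≤ ∑ l ∈ L, (ρ (g * x)).charpoly.rootMultiplicity l) :
    m ≤ ∑ l ∈ L, Module.finrank K (Module.End.eigenspace (ρ x) l) := by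
  by_contra hcon
  push Not at hcon
  rw [← finrank_ker_prod] at hcon
  set p : K[X] := ∏ l ∈ L, (X - C l) with hp
  let n := Module.finrank K V
  let b := Module.finBasis K V
  let φ : Module.End K V ≃ₐ[K] Mat n K := LinearMap.toMatrixAlgEquiv b
  have hφ : ∀ A, φ A = LinearMap.toMatrix b b A := fun A => rfl
  have hrank := LinearMap.finrank_range_add_finrank_ker (aeval (ρ x) p)
  obtain ⟨k, hk⟩ : ∃ k, k = Module.finrank K (LinearMap.range (aeval (ρ x) p)) := ⟨_, rfl⟩
  rw [← hk] at hrank
  let w := Module.finBasisOfFinrankEq K (LinearMap.range (aeval (ρ x) p)) hk.symm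
  have hv : ∀ j, ∃ v, aeval (ρ x) p v = (w j : V) := fun j => (w j).2
  choose v hv using hv
  have hli : LinearIndependent K (fun j : Fin k => aeval (ρ x) p (v j)) := by
    have h1 : (fun j : Fin k => aeval (ρ x) p (v j)) =
        (LinearMap.range (aeval (ρ x) p)).subtype ∘ w := by
      funext j
      exact hv j
    rw [h1]
    exact w.linearIndependent.map' _ (Submodule.ker_subtype _)
  obtain ⟨ψ, hψ⟩ := exists_coord hli
  obtain ⟨E, hE⟩ := exists_val_det (n := n) (r := k)
    (fun M => Matrix.of fun i j : Fin k => ψ (φ.symm (aeval M p) (v j)) i) (by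
      intro i j
      obtain ⟨g, hg⟩ := exists_val_aeval
        ((LinearMap.proj i : (Fin k → K) →ₗ[K] K).comp
          (ψ.comp ((LinearMap.applyₗ (v j)).comp φ.symm.toLinearMap))) p
      exact ⟨g, fun M => by rw [hg]; rfl⟩)
  have hEval : ∀ A : Module.End K V, val (LinearMap.toMatrix b b A) E =
      (Matrix.of fun i j : Fin k => ψ (aeval A p (v j)) i).det := by
    intro A
    rw [hE, ← hφ]
    congr 1
    ext i j
    rw [Matrix.of_apply, Matrix.of_apply]
    have h1 : φ.symm (aeval (φ A) p) = aeval A p := by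
      have h2 : aeval (φ A) p = φ (aeval A p) := aeval_algHom_apply φ.toAlgHom A p
      rw [h2]
      exact φ.symm_apply_apply _
    rw [h1]
  obtain ⟨g, hg, hss, hne⟩ := dense_ss ρ hρ hP hopen b E (by
    rw [hEval]
    have h1 : (Matrix.of fun i j : Fin k => ψ (aeval (ρ x) p (v j)) i) = 1 := by
      ext i j
      rw [Matrix.of_apply, hψ, Matrix.one_apply, Pi.single_apply]
    rw [h1, Matrix.det_one]
    exact one_ne_zero)
  rw [hEval] at hne
  -- the rank at `g x`
  have hker : m ≤ Module.finrank K (LinearMap.ker (aeval (ρ (g * x)) p)) := by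
    rw [finrank_ker_prod]
    refine (h g hg).trans (Finset.sum_le_sum fun l _ => ?_)
    rw [← LinearMap.finrank_maxGenEigenspace_eq,
      hss.isFinitelySemisimple.maxGenEigenspace_eq_eigenspace]
  have hrank' := LinearMap.finrank_range_add_finrank_ker (aeval (ρ (g * x)) p)
  have hlt : Module.finrank K (LinearMap.range (aeval (ρ (g * x)) p)) < k := by omega
  -- a linear relation
  apply hne
  rw [← Matrix.exists_mulVec_eq_zero_iff]
  have hdep : ¬ LinearIndependent K (fun j : Fin k =>
      (⟨aeval (ρ (g * x)) p (v j), ⟨v j, rfl⟩⟩ : LinearMap.range (aeval (ρ (g * x)) p))) := by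
    intro hli'
    have h1 := hli'.fintype_card_le_finrank
    rw [Fintype.card_fin] at h1
    omega
  rw [Fintype.not_linearIndependent_iff] at hdep
  obtain ⟨c, hc, i₀, hi₀⟩ := hdep
  refine ⟨c, fun h0 => hi₀ (by rw [h0]; rfl), ?_⟩
  have h1 : ∑ j, c j • aeval (ρ (g * x)) p (v j) = 0 := by
    have h2 := congrArg Subtype.val hc
    rw [Submodule.coe_sum] at h2
    simpa using h2
  have h2 := congrArg ψ h1
  rw [map_sum, map_zero] at h2
  ext i
  have h3 := congrFun h2 i
  rw [Finset.sum_apply, Pi.zero_apply] at h3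
  rw [Matrix.mulVec, dotProduct, Pi.zero_apply, ← h3]
  refine Finset.sum_congr rfl fun j _ => ?_
  rw [map_smul, Pi.smul_apply, smul_eq_mul, Matrix.of_apply, mul_comm]

end Top

end Pool.Agent.Helper40.ZO
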