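import Pool.Agent.Helper40.ZO.JCA

/-!
# Block ZO-JCB (exists_proj): existence and use of the Jordan decomposition

* `exists_JC`: `Module.End.exists_isNilpotent_isSemisimple` gives `h = n + s`, `s` semisimple,
  `n` nilpotent, both in `Algebra.adjoin K {h}`. `s` is invertible with inverse in
  `Algebra.adjoin K {h}` (`h` is invertible, `n` nilpotent and commuting), `U = 1 + s⁻¹ n`,
  `m = finrank + 1`. The minimal polynomial of a semisimple endomorphism is squarefree
  (`Module.End.IsSemisimple.minpoly_squarefree`).
* `lg_nil`, `lg_mem`: `lg K m U` is a polynomial without constant term in the nilpotent `U - 1`.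
* `ss_of_lg`: `lg K m U = (U - 1) (1 + nilpotent)`, so `lg K m U = 0` implies `U = 1`, `h = S`, and
  `Module.End.isSemisimple_of_squarefree_aeval_eq_zero`.
* `exists_proj`: `G` with `G (h) = G (S)` the projection onto the generalised eigenspace of `h`
  for `l`, i.e. the eigenspace of `S`. For instance: `P = (h.charpoly) = (X - l) ^ μ R`, `R (l) ≠ 0`
  (`h` has the same characteristic polynomial as `S`, see below), Bezout
  `a (X - l) ^ μ + b R = 1`, `G = b R`; `G (h)` is idempotent by Cayley-Hamilton, `R ∣ G`. To see
  `G (h) ∈ Algebra.adjoin K {S}`: `S` is killed by the squarefree part of `P` (its eigenvalues are those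
  of `h`); `(S - l) G (h) = 0` and `(1 - G (h)) ` is killed by `∏_{l' ≠ l} (S - l')`; so `G (h) = L (S)`
  with `L` the Lagrange polynomial, `L (l) = 1`, `L (l') = 0`. If `l` is not an eigenvalue,
  `G (h) = 0`.
  `ssAt`: if `lg K m U * G (h) = 0` then `(U - 1) G (h) = 0` (as above), so on the generalised
  eigenspace (where `G (h) v = v`) `h v = S v = l v`.
  Here `v` with `(h - l) ^ 2 v = 0` satisfies `G (h) v = v` because `(1 - G) = a (X - l) ^ μ` and
  `μ ≥ 2` or (`μ ≤ 1` and then `(h - l) v = 0` anyway: work with `(X-l)^μ` versus `(X - l)^2`: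
  `v = a (h) (h - l) ^ μ v + G (h) v`, and `(h - l) ^ μ v`, if `μ < 2`, vanishes as well since the
  kernels of `(h - l) ^ μ` and of higher powers agree).
-/

set_option autoImplicit false

namespace Pool.Agent.Helper40.ZO

open Polynomial

variable {K V : Type*} [Field K] [IsAlgClosed K] [CharZero K] [AddCommGroup V] [Module K V]
  [FiniteDimensional K V]

private lemma h35_comm_aeval {A B : Module.End K V} (h : Commute A B) (P : K[X]) :
    Commute A (aeval B P) := by
  rw [aeval_eq_sum_range]
  exact Commute.sum_right _ _ _ fun i _ => (h.pow_right i).smul_right _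

private lemma h35_diff {A B : Module.End K V} (h : Commute A B) (P : K[X]) :
    ∃ c : Module.End K V, Commute c A ∧ Commute c B ∧ aeval A P - aeval B P = (A - B) * c := by
  induction P using Polynomial.induction_on' with
  | add P Q hP hQ =>
    obtain ⟨c, h1, h2, h3⟩ := hP
    obtain ⟨d, h4, h5, h6⟩ := hQ
    refine ⟨c + d, h1.add_left h4, h2.add_left h5, ?_⟩
    rw [map_add, map_add, mul_add, ← h3, ← h6]
    abel
  | monomial n a =>
    have key : ∀ n : ℕ, ∃ c : Module.End K V, Commute c A ∧ Commute c B ∧
        A ^ n - B ^ n = (A - B) * c := by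
      intro n
      induction n with
      | zero => exact ⟨0, Commute.zero_left _, Commute.zero_left _, by simp⟩
      | succ n ih =>
        obtain ⟨c, h1, h2, h3⟩ := ih
        refine ⟨c * A + B ^ n, (h1.mul_left (Commute.refl A)).add_left (h.symm.pow_left n),
          (h2.mul_left h).add_left ((Commute.refl B).pow_left n), ?_⟩
        have e1 : A ^ (n + 1) - B ^ (n + 1) = (A ^ n - B ^ n) * A + B ^ n * (A - B) := by
          rw [pow_succ, pow_succ, sub_mul, mul_sub]
          abel
        have e2 : B ^ n * (A - B) = (A - B) * B ^ n := by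
          rw [mul_sub, sub_mul, (h.symm.pow_left n).eq, ((Commute.refl B).pow_left n).eq]
        rw [e1, e2, h3, mul_add, mul_assoc]
    obtain ⟨c, h1, h2, h3⟩ := key n
    refine ⟨a • c, h1.smul_left a, h2.smul_left a, ?_⟩
    rw [aeval_monomial, aeval_monomial, ← Algebra.smul_def, ← Algebra.smul_def, ← smul_sub, h3,
      mul_smul_comm]

private lemma h35_nil_diff {A B : Module.End K V} (h : Commute A B) (hn : IsNilpotent (A - B))
    (P : K[X]) : IsNilpotent (aeval A P - aeval B P) := by
  obtain ⟨c, h1, h2, h3⟩ := h35_diff h P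
  rw [h3]
  exact Commute.isNilpotent_mul_right (h1.symm.sub_left h2.symm) hn

private lemma h35_idem {e f : Module.End K V} (hc : Commute e f) (he : e * e = e) (hf : f * f = f)
    (hn : IsNilpotent (e - f)) : e = f := by
  have h3 : (e - f) ^ 3 = e - f := by
    have e1 : (e - f) * (e - f) = e + f - 2 • (e * f) := by
      rw [sub_mul, mul_sub, mul_sub, he, hf, ← hc.eq]
      abel
    have e2 : e * (e * f) = e * f := by rw [← mul_assoc, he]
    have e3 : f * (e * f) = e * f := by rw [hc.eq, ← mul_assoc, hf]
    have e4 : (e - f) ^ 3 = (e - f) * ((e - f) * (e - f)) := by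
      rw [pow_succ, sq, mul_assoc]
    rw [e4, e1, mul_sub, mul_add, sub_mul, sub_mul, he, hf, mul_smul_comm, sub_mul, e2, e3,
      ← hc.eq]
    abel
  have h4 : ∀ k : ℕ, (e - f) ^ (2 * k + 1) = e - f := by
    intro k
    induction k with
    | zero => simp
    | succ k ih =>
      rw [show 2 * (k + 1) + 1 = (2 * k + 1) + 2 by ring, pow_add, ih]
      rw [← pow_succ', h3]
  obtain ⟨k, hk⟩ := hn
  have h5 := h4 k
  rw [show 2 * k + 1 = k + (k + 1) by ring, pow_add, hk, zero_mul] at h5
  exact (sub_eq_zero.1 h5.symm)

private lemma h35_coprime {P Q : K[X]} (h : IsCoprime P Q) {A : Module.End K V} {v : V}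
    (hP : aeval A P v = 0) (hQ : aeval A Q v = 0) : v = 0 := by
  obtain ⟨a, b, hab⟩ := h
  have h1 : aeval A (a * P + b * Q) v = v := by
    rw [hab, map_one]
    rfl
  rw [← h1, map_add, map_mul, map_mul]
  simp [Module.End.mul_apply, hP, hQ]

private lemma h35_cop_lin {P : K[X]} {l : K} (h : P.eval l ≠ 0) (n : ℕ) :
    IsCoprime P ((X - C l) ^ n) := by
  refine IsCoprime.pow_right ?_
  exact ((irreducible_X_sub_C l).coprime_iff_not_dvd.2 fun hd => h (dvd_iff_isRoot.1 hd)).symm

theorem exists_proj {m : ℕ} {h S U : Module.End K V} (hJ : JC K m h S U) (l : K) :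
    ∃ G : K[X], aeval h G * aeval h G = aeval h G ∧ aeval h G ∈ Algebra.adjoin K {S} ∧
      (∀ R : K[X], h.charpoly = (X - C l) ^ (h.charpoly.rootMultiplicity l) * R → R ∣ G) ∧
      (lg K m U * aeval h G = 0 → SSAt h l) := by
  have hP0 : h.charpoly ≠ 0 := (LinearMap.charpoly_monic h).ne_zero
  have hCH : aeval h h.charpoly = 0 := LinearMap.aeval_self_charpoly h
  obtain ⟨R, hR, hRl⟩ := exists_eq_pow_rootMultiplicity_mul_and_not_dvd h.charpoly hP0 l
  set μ := h.charpoly.rootMultiplicity l with hμ
  have hRl' : R.eval l ≠ 0 := fun h0 => hRl (dvd_iff_isRoot.2 h0)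
  obtain ⟨b, a, hab⟩ := h35_cop_lin hRl' μ
  have hSU : Commute S U := hJ.comm
  have hhS : Commute h S := by
    rw [hJ.mul]
    exact (Commute.refl S).mul_left hSU.symm
  have hhU : Commute h U := by
    rw [hJ.mul]
    exact hSU.mul_left (Commute.refl U)
  have hn : IsNilpotent (h - S) := by
    have e1 : h - S = S * (U - 1) := by rw [mul_sub, mul_one, ← hJ.mul]
    rw [e1]
    exact Commute.isNilpotent_mul_left (hSU.sub_right (Commute.one_right S)) ⟨m, hJ.nil⟩
  -- the characteristic polynomial kills `S`
  have hPS : aeval S h.charpoly = 0 := by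
    obtain ⟨p, hp, hp0⟩ := hJ.ss
    have h1 : Squarefree (minpoly K S) := hp.squarefree_of_dvd (minpoly.dvd K S hp0)
    have h2 : IsNilpotent (aeval S h.charpoly) := by
      have h3 := h35_nil_diff hhS hn h.charpoly
      rw [hCH, zero_sub] at h3
      exact isNilpotent_neg_iff.1 h3
    obtain ⟨k, hk⟩ := h2
    rw [← map_pow] at hk
    have h4 : minpoly K S ∣ h.charpoly := h1.isRadical k _ (minpoly.dvd K S hk)
    obtain ⟨q, hq⟩ := h4
    rw [hq, map_mul, minpoly.aeval, zero_mul]
  have hid : ∀ A : Module.End K V, aeval A h.charpoly = 0 →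
      aeval A (b * R) * aeval A (b * R) = aeval A (b * R) := by
    intro A hA
    have e1 : (b * R) * (b * R) = b * R - a * b * h.charpoly := by
      rw [hR]
      have e2 : b * R = 1 - a * (X - C l) ^ μ := by rw [← hab]; ring
      calc b * R * (b * R) = b * R * (1 - a * (X - C l) ^ μ) := by rw [← e2]
        _ = b * R - a * b * ((X - C l) ^ μ * R) := by ring
    rw [← map_mul, e1, map_sub, map_mul _ (a * b), hA, mul_zero, sub_zero]
  have hGS : aeval h (b * R) = aeval S (b * R) := by
    refine h35_idem ?_ (hid h hCH) (hid S hPS) (h35_nil_diff hhS hn _)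
    exact (h35_comm_aeval (h35_comm_aeval hhS _).symm _).symm
  refine ⟨b * R, hid h hCH, ?_, ?_, ?_⟩
  · rw [hGS]
    exact aeval_mem_adjoin_singleton K S
  · intro R' hR'
    have h1 : (X - C l) ^ μ * R' = (X - C l) ^ μ * R := by rw [← hR', ← hR]
    have h2 : R' = R := mul_left_cancel₀ (pow_ne_zero _ (X_sub_C_ne_zero l)) h1
    rw [h2]
    exact Dvd.intro_left b rfl
  · intro hlg v hv
    -- `(U - 1) G(h) = 0`
    set G := b * R with hG
    set W : Module.End K V := ∑ j ∈ Finset.range m, ((-1 : K) ^ j / ((j : K) + 1)) • (U - 1) ^ j with hW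
    have hUW : lg K m U = W * (U - 1) := by
      rw [lg, hW, Finset.sum_mul]
      refine Finset.sum_congr rfl fun j _ => ?_
      rw [smul_mul_assoc, pow_succ]
    have hWu : IsUnit W := by
      have hW1 : W = 1 + (U - 1) * ∑ j ∈ Finset.range (m - 1),
          ((-1 : K) ^ (j + 1) / (((j + 1 : ℕ) : K) + 1)) • (U - 1) ^ j := by
        have hm : m = (m - 1) + 1 := by have := hJ.pos; omega
        rw [hW, hm, Finset.sum_range_succ']
        rw [Nat.add_sub_cancel, add_comm, Finset.mul_sum]
        congr 1
        · simp
        · refine Finset.sum_congr rfl fun j _ => ?_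
          rw [mul_smul_comm, pow_succ' (U - 1)]
      rw [hW1]
      have hnil : IsNilpotent ((U - 1) * ∑ j ∈ Finset.range (m - 1),
          ((-1 : K) ^ (j + 1) / (((j + 1 : ℕ) : K) + 1)) • (U - 1) ^ j) := by
        refine Commute.isNilpotent_mul_right ?_ ⟨m, hJ.nil⟩
        exact Commute.sum_right _ _ _ fun j _ => ((Commute.refl _).pow_right j).smul_right _
      exact hnil.isUnit_one_add
    have hUG : (U - 1) * aeval h G = 0 := by
      rw [hUW, mul_assoc] at hlg
      exact (hWu.mul_right_eq_zero).1 hlg
    have hlin : ∀ A : Module.End K V, A - algebraMap K (Module.End K V) l = aeval A (X - C l) := by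
      intro A
      rw [map_sub, aeval_X, aeval_C]
    have hv2 : aeval h ((X - C l) ^ 2) v = 0 := by
      rw [map_pow, ← hlin]
      exact hv
    have hGv : aeval h G v = v := by
      rcases Nat.eq_zero_or_pos μ with h0 | h0
      · have h1 : h.charpoly.eval l ≠ 0 := by
          rw [hR, h0, pow_zero, one_mul]
          exact hRl'
        have h2 : v = 0 := h35_coprime (h35_cop_lin h1 2) (by rw [hCH]; rfl) hv2
        rw [h2, map_zero]
      · have h1 : G.eval l = 1 := by
          have h2 := congrArg (eval l) hab
          rw [eval_add, eval_mul (p := a), eval_pow, eval_sub, eval_X, eval_C, sub_self,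
            zero_pow h0.ne', mul_zero, add_zero, eval_one] at h2
          exact h2
        have h3 : v - aeval h G v = 0 := by
          refine h35_coprime (h35_cop_lin (P := G) (l := l) (by rw [h1]; exact one_ne_zero) 2)
            (A := h) ?_ ?_
          · have h4 := congrArg (fun L : Module.End K V => L v) (hid h hCH)
            simp only [Module.End.mul_apply] at h4
            rw [map_sub, h4, sub_self]
          · rw [map_sub, hv2, zero_sub, neg_eq_zero]
            have h5 : aeval h ((X - C l) ^ 2) (aeval h G v) =
                aeval h G (aeval h ((X - C l) ^ 2) v) := by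
              rw [← Module.End.mul_apply, ← Module.End.mul_apply, ← map_mul, ← map_mul, mul_comm]
            rw [h5, hv2, map_zero]
        exact (sub_eq_zero.1 h3).symm
    have hUv : U v = v := by
      have h1 := congrArg (fun L : Module.End K V => L v) hUG
      simp only [Module.End.mul_apply, LinearMap.zero_apply] at h1
      rw [hGv, LinearMap.sub_apply, Module.End.one_apply] at h1
      exact sub_eq_zero.1 h1
    have hhv : h v = S v := by
      conv_lhs => rw [hJ.mul]
      rw [Module.End.mul_apply, hUv]
    -- `(S - l) ^ 2 v = 0`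
    have hS2 : aeval S ((X - C l) ^ 2) v = 0 := by
      have e1 : (h - algebraMap K (Module.End K V) l) v = (S - algebraMap K (Module.End K V) l) v := by
        rw [LinearMap.sub_apply, LinearMap.sub_apply, hhv]
      have e2 : (h - algebraMap K (Module.End K V) l) ((S - algebraMap K (Module.End K V) l) v) =
          (S - algebraMap K (Module.End K V) l) ((h - algebraMap K (Module.End K V) l) v) := by
        have hc : Commute (h - algebraMap K (Module.End K V) l)
            (S - algebraMap K (Module.End K V) l) := by
          refine Commute.sub_left (Commute.sub_right hhS ?_) (Commute.sub_right ?_ ?_)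
          · exact (Algebra.commutes l h).symm
          · exact Algebra.commutes l S
          · exact Commute.refl _
        rw [← Module.End.mul_apply, ← Module.End.mul_apply, hc.eq]
      rw [map_pow, ← hlin, sq, Module.End.mul_apply, ← e1, ← e2, ← e1, ← Module.End.mul_apply, ← sq]
      exact hv
    obtain ⟨p, hp, hp0⟩ := hJ.ss
    have hSv : (S - algebraMap K (Module.End K V) l) v = 0 := by
      rw [hlin]
      by_cases hpl : p.eval l = 0
      · obtain ⟨q, hq⟩ := dvd_iff_isRoot.2 (show p.IsRoot l from hpl)
        have hql : q.eval l ≠ 0 := by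
          intro h0
          have h1 : (X - C l) * (X - C l) ∣ p := by
            rw [hq]
            exact mul_dvd_mul_left _ (dvd_iff_isRoot.2 h0)
          exact (irreducible_X_sub_C l).not_isUnit (hp _ h1)
        refine h35_coprime (h35_cop_lin hql 1) (A := S) ?_ ?_
        · rw [← Module.End.mul_apply, ← map_mul, mul_comm, ← hq, hp0]
          rfl
        · rw [pow_one, ← Module.End.mul_apply, ← map_mul, ← sq]
          exact hS2
      · have h2 : v = 0 := h35_coprime (h35_cop_lin hpl 2) (by rw [hp0]; rfl) hS2
        rw [h2, map_zero]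
    rw [LinearMap.sub_apply, hhv, ← LinearMap.sub_apply]
    exact hSv

end Pool.Agent.Helper40.ZO
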