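import Pool.Agent.Helper40.ZO.Defs

/-!
# Block ZO-KEY: exponential polynomials

`EP K` is the algebra of the functions `ℕ → K[X]` generated by the constant functions and the
functions `a ↦ χ ^ a`, `χ ∈ Kˣ`. `EP.eq_zero`: if `r ∈ EP K` and `(r k) (k) = 0` for all `k : ℕ` then
`r = 0`.
PROOF. (1) Every `r ∈ EP K` is a finite sum `r a = ∑ χ ∈ s, C (χ ^ a) * P χ`, `s` a finite set of
nonzero elements, `P : K → K[X]` (`Algebra.adjoin_induction`; products: group the terms by the
product of the `χ`; or use the algebra map from `MonoidAlgebra K[X] Kˣ`).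
(2) Let `E : (ℕ → K) →ₗ (ℕ → K)` be the shift `(E φ) k = φ (k + 1)`. The sequence
`k ↦ χ ^ k * k ^ j` is in the generalised eigenspace of `E` for `χ`: by strong induction on `j`,
`(E - χ) (χ ^ k k ^ j) = χ * χ ^ k ((k+1) ^ j - k ^ j)` is a combination of the sequences with
smaller exponents. So `v χ = (k ↦ χ ^ k * (P χ).eval k)` is in `Module.End.maxGenEigenspace E χ`.
These spaces are independent (`Module.End.independent_maxGenEigenspace`), so `∑ v χ = 0` implies
that all `v χ = 0`, i.e. `(P χ).eval k = 0` for all `k : ℕ` and `P χ = 0`.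
-/

set_option autoImplicit false

namespace Pool.Agent.Helper40.ZO

open Polynomial

variable (K : Type*) [Field K] [CharZero K]

/-- Exponential polynomials. -/
noncomputable def EP : Subalgebra K (ℕ → K[X]) :=
  Algebra.adjoin K ({φ | ∃ χ : K, χ ≠ 0 ∧ φ = fun a => C (χ ^ a)} ∪
    {φ | ∃ p : K[X], φ = fun _ => p})

variable {K}

/-- The value at the integer `k`. -/
noncomputable def ev (k : ℕ) : EP K →ₐ[K] K :=
  (aeval (k : K)).comp ((Pi.evalAlgHom K (fun _ : ℕ => K[X]) k).comp (EP K).val)

/-- Only the exponents are specialised. -/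
noncomputable def sp (a : ℕ) : EP K →ₐ[K] K[X] :=
  (Pi.evalAlgHom K (fun _ : ℕ => K[X]) a).comp (EP K).val

lemma ev_apply (k : ℕ) (r : EP K) : ev k r = ((r : ℕ → K[X]) k).eval (k : K) := by
  simp [ev, coe_aeval_eq_eval]

lemma sp_apply (a : ℕ) (r : EP K) : sp a r = (r : ℕ → K[X]) a := rfl

omit [CharZero K] in
/-- Every exponential polynomial is a finite sum of elementary ones. -/
private lemma exists_sum (φ : ℕ → K[X]) (hφ : φ ∈ EP K) :
    ∃ (ι : Type) (_ : Fintype ι) (c : ι → K) (P : ι → K[X]), (∀ i, c i ≠ 0) ∧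
      ∀ a, φ a = ∑ i, C (c i ^ a) * P i := by
  induction hφ using Algebra.adjoin_induction with
  | mem φ hφ =>
    rcases hφ with ⟨χ, hχ, rfl⟩ | ⟨p, rfl⟩
    · exact ⟨Unit, inferInstance, fun _ => χ, fun _ => 1, fun _ => hχ, fun a => by simp⟩
    · exact ⟨Unit, inferInstance, fun _ => 1, fun _ => p, fun _ => one_ne_zero, fun a => by simp⟩
  | algebraMap x =>
    refine ⟨Unit, inferInstance, fun _ => 1, fun _ => C x, fun _ => one_ne_zero, fun a => ?_⟩
    simp
  | add φ ψ _ _ h1 h2 =>
    obtain ⟨ι, _, c, P, hc, hP⟩ := h1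
    obtain ⟨κ, _, d, Q, hd, hQ⟩ := h2
    refine ⟨ι ⊕ κ, inferInstance, Sum.elim c d, Sum.elim P Q, ?_, fun a => ?_⟩
    · rintro (i | i)
      · exact hc i
      · exact hd i
    · rw [Fintype.sum_sum_type, Pi.add_apply, hP, hQ]
      rfl
  | mul φ ψ _ _ h1 h2 =>
    obtain ⟨ι, _, c, P, hc, hP⟩ := h1
    obtain ⟨κ, _, d, Q, hd, hQ⟩ := h2
    refine ⟨ι × κ, inferInstance, fun x => c x.1 * d x.2, fun x => P x.1 * Q x.2,
      fun x => mul_ne_zero (hc _) (hd _), fun a => ?_⟩
    rw [Pi.mul_apply, hP, hQ, Finset.sum_mul_sum, Fintype.sum_prod_type]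
    refine Finset.sum_congr rfl fun i _ => Finset.sum_congr rfl fun j _ => ?_
    rw [mul_pow, C_mul]
    ring

/-- The shift. -/
private noncomputable def shift (K : Type*) [Field K] : Module.End K (ℕ → K) :=
  LinearMap.funLeft K K Nat.succ

omit [CharZero K] in
private lemma shift_pow (χ : K) (n : ℕ) : ∀ P : K[X], P.degree < n →
    ((shift K - χ • (1 : Module.End K (ℕ → K))) ^ n) (fun k => χ ^ k * P.eval (k : K)) = 0 := by
  induction n with
  | zero =>
    intro P hP
    have h0 : P = 0 := by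
      rw [← degree_eq_bot]
      simpa using hP
    rw [h0, pow_zero]
    ext k
    simp
  | succ n ih =>
    intro P hP
    rw [pow_succ, Module.End.mul_apply]
    have h1 : (shift K - χ • (1 : Module.End K (ℕ → K))) (fun k => χ ^ k * P.eval (k : K)) =
        fun k : ℕ => χ ^ k * (C χ * (taylor 1 P - P)).eval (k : K) := by
      ext k
      rw [LinearMap.sub_apply, LinearMap.smul_apply, Module.End.one_apply, Pi.sub_apply,
        Pi.smul_apply, smul_eq_mul, eval_mul, eval_C, eval_sub, taylor_eval]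
      show χ ^ (k + 1) * P.eval ((k + 1 : ℕ) : K) - χ * (χ ^ k * P.eval (k : K)) = _
      push_cast
      ring
    rw [h1]
    apply ih
    by_cases hP0 : P = 0
    · rw [hP0]
      simp
    · have h2 : (taylor 1 P - P).degree < (taylor 1 P).degree := by
        apply degree_sub_lt (degree_taylor P 1)
        · rw [Ne, taylor_eq_zero]
          exact hP0
        · exact leadingCoeff_taylor 1 P
      rw [degree_taylor] at h2
      have h3 : (C χ * (taylor 1 P - P)).degree ≤ (taylor 1 P - P).degree := by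
        by_cases hχ : χ = 0
        · rw [hχ]
          simp
        · rw [degree_C_mul hχ]
      have h4 := h3.trans_lt h2
      rw [degree_eq_natDegree hP0] at h4 hP
      have h5 : P.natDegree ≤ n := by
        have : P.natDegree < n + 1 := by exact_mod_cast hP
        omega
      exact h4.trans_le (by exact_mod_cast h5)

omit [CharZero K] in
private lemma mem_shift (χ : K) (P : K[X]) :
    (fun k : ℕ => χ ^ k * P.eval (k : K)) ∈ (shift K).maxGenEigenspace χ := by
  rw [Module.End.mem_maxGenEigenspace]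
  refine ⟨P.natDegree + 1, shift_pow χ _ P ?_⟩
  refine lt_of_le_of_lt degree_le_natDegree ?_
  exact_mod_cast Nat.lt_succ_self _

theorem EP.eq_zero {r : EP K} (h : ∀ k : ℕ, ev k r = 0) : r = 0 := by
  classical
  obtain ⟨φ, hφ⟩ := r
  obtain ⟨ι, _, c, P, hc, hP⟩ := exists_sum φ hφ
  set S : Finset K := Finset.univ.image c with hS
  set Q : K → K[X] := fun χ => ∑ i with c i = χ, P i with hQ
  have hsum : ∀ (M : Type _) [AddCommMonoid M] (g : ι → M),
      ∑ i, g i = ∑ χ ∈ S, ∑ i with c i = χ, g i := by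
    intro M _ g
    exact (Finset.sum_fiberwise_of_maps_to
      (fun i _ => Finset.mem_image_of_mem c (Finset.mem_univ i)) g).symm
  have hφ2 : ∀ a, φ a = ∑ χ ∈ S, C (χ ^ a) * Q χ := by
    intro a
    rw [hP, hsum]
    refine Finset.sum_congr rfl fun χ _ => ?_
    rw [hQ, Finset.mul_sum]
    refine Finset.sum_congr rfl fun i hi => ?_
    rw [(Finset.mem_filter.1 hi).2]
  have hv := (iSupIndep_iff_finsetSum_eq_zero_imp_eq_zero _).1
    (Module.End.independent_maxGenEigenspace (shift K)) S
    (fun χ => fun k : ℕ => χ ^ k * (Q χ).eval (k : K)) (fun χ _ => mem_shift χ (Q χ)) (by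
      ext k
      have h1 := h k
      rw [ev_apply] at h1
      change (φ k).eval (k : K) = 0 at h1
      rw [hφ2, eval_finsetSum] at h1
      rw [Finset.sum_apply, Pi.zero_apply, ← h1]
      refine Finset.sum_congr rfl fun χ _ => ?_
      rw [eval_mul, eval_C])
  have hQ0 : ∀ χ ∈ S, Q χ = 0 := by
    intro χ hχ
    obtain ⟨i, _, hi⟩ := Finset.mem_image.1 hχ
    have hχ0 : χ ≠ 0 := hi ▸ hc i
    have h1 := hv χ hχ
    apply Polynomial.eq_zero_of_infinite_isRoot
    refine Set.Infinite.mono (s := Set.range (fun k : ℕ => (k : K))) ?_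
      (Set.infinite_range_of_injective Nat.cast_injective)
    rintro _ ⟨k, rfl⟩
    have h2 := congrFun h1 k
    simp only [Pi.zero_apply, mul_eq_zero] at h2
    exact h2.resolve_left (pow_ne_zero _ hχ0)
  apply Subtype.ext
  funext a
  change φ a = 0
  rw [hφ2]
  exact Finset.sum_eq_zero fun χ hχ => by rw [hQ0 χ hχ, mul_zero]

end Pool.Agent.Helper40.ZO
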