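import Pool.Agent.Helper40.ZO.MorB
import Pool.Agent.Helper40.ZO.Cart

/-!
# Block ZO-MORC (part (c)): the local criterion (Morozov's argument)

`T` is a space of endomorphisms closed under commutators with nondegenerate trace form, stable under
conjugation by the semisimple `S` (inverse `S'`), `N ∈ T` nilpotent commuting with `S`, `P` an
idempotent polynomial in `S`, and `trace (N P Y) = 0` for all `Y ∈ T`. Then `N P = 0`.
PROOF. Write `[X, Y] = X Y - Y X`.
(a) `exists_double`: there is `Y ∈ T` with `N = [N, [N, Y]]`. Let `θ : T → T`, `θ Y = [N, [N, Y]]`;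
`trace (θ X * Y) = trace (X * θ Y)`. If `N ∉ range θ` there is a linear form `f` on `T`, zero on
`range θ`, with `f N ≠ 0`; by nondegeneracy (and finite dimension) `f = trace (Z * ·)`, `Z ∈ T`.
`trace (θ Z * Y) = trace (Z * θ Y) = 0` for all `Y`, so `θ Z = 0`, i.e. `[N, [N, Z]] = 0`, so
`trace (Z N) = 0` by `trace_mul_eq_zero`: contradiction with `f N ≠ 0`.
(b) `exists_double_comm`: `Y` can be chosen to commute with `S`. Let `τ X = S X S'` on
`Module.End K V`: it is a semisimple endomorphism (left multiplication by `S` and right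
multiplication by `S'` are killed by squarefree polynomials and commute, see
`Module.End.IsSemisimple.of_mem_adjoin_pair`), `T` is `τ`-stable, so
`T = ker (τ - 1) ⊕ range (τ - 1)` on `T`: `Y = Y₁ + (τ Y' - Y')`, `Y₁, Y' ∈ T`, `τ Y₁ = Y₁`.
`[N, [N, ·]]` commutes with `τ` (`τ N = N`, `τ` is multiplicative), so
`N - [N, [N, Y₁]] = τ Z - Z`, `Z = [N, [N, Y']]`, is fixed by `τ` and in `range (τ - 1)`, hence `0`
(semisimplicity again). And `S Y₁ S' = Y₁` means that `Y₁` commutes with `S`.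
(c) Let `C = {Y ∈ T | Commute Y S}`; its elements commute with `P`. Let
`A = {X ∈ C | ∀ Z ∈ C, trace (X * Z * P) = 0}`: for `X ∈ A`, `Z ∈ C`: `[X, Z] ∈ A`; `N ∈ A`.
`B = {X * P | X ∈ A}` is closed under commutators (`[X P, Z P] = [X, Z] P`) with zero trace form, so
by `cartan` the span of the commutators of elements of `B` consists of nilpotent elements.
Put `H = [N, Y]` (`Y` from (b), `Y ∈ C`), so `H ∈ A`, `N = [N, H]`, and
`H = [[N, H], Y] = [N, [H, Y]] + [[N, Y], H] = [N, [H, Y]]` with `[H, Y] ∈ A`. So `H P` is nilpotent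
by `cartan`, and `N P = [N P, H P]`, so `N P = 0` because `X ↦ [X, H P]` is nilpotent
(`LieAlgebra.ad_nilpotent_of_nilpotent`).
-/

set_option autoImplicit false

namespace Pool.Agent.Helper40.ZO

open Polynomial

variable {K V : Type*} [Field K] [IsAlgClosed K] [CharZero K] [AddCommGroup V] [Module K V]
  [FiniteDimensional K V]

theorem morozov {T : Submodule K (Module.End K V)}
    (hlie : ∀ X ∈ T, ∀ Y ∈ T, X * Y - Y * X ∈ T)
    (hnd : ∀ X ∈ T, (∀ Y ∈ T, LinearMap.trace K V (X * Y) = 0) → X = 0)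
    {S S' N P : Module.End K V} (h1 : S * S' = 1) (h2 : S' * S = 1)
    (hss : ∃ p : K[X], Squarefree p ∧ aeval S p = 0) (hST : ∀ X ∈ T, S * X * S' ∈ T)
    (hN : N ∈ T) (hnil : IsNilpotent N) (hNS : Commute N S)
    (hP : P ∈ Algebra.adjoin K {S}) (hPP : P * P = P)
    (horth : ∀ Y ∈ T, LinearMap.trace K V (N * P * Y) = 0) : N * P = 0 := by
  obtain ⟨Y, hYT, hYS, hY⟩ := exists_double_comm hlie hnd h1 h2 hss hST hN hnil hNS
  have hcomP : ∀ Z : Module.End K V, Commute Z S → Commute Z P := fun Z hZ =>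
    Algebra.commute_of_mem_adjoin_singleton_of_commute hP hZ
  let A : Submodule K (Module.End K V) :=
    { carrier := {X | (X ∈ T ∧ Commute X S) ∧
        ∀ Z ∈ T, Commute Z S → LinearMap.trace K V (X * Z * P) = 0}
      add_mem' := by
        rintro X X' ⟨⟨a1, a2⟩, a3⟩ ⟨⟨b1, b2⟩, b3⟩
        refine ⟨⟨T.add_mem a1 b1, a2.add_left b2⟩, fun Z hZ hZS => ?_⟩
        rw [add_mul, add_mul, map_add, a3 Z hZ hZS, b3 Z hZ hZS, add_zero]
      zero_mem' := by
        refine ⟨⟨T.zero_mem, Commute.zero_left S⟩, fun Z _ _ => ?_⟩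
        rw [zero_mul, zero_mul, map_zero]
      smul_mem' := by
        rintro c X ⟨⟨a1, a2⟩, a3⟩
        refine ⟨⟨T.smul_mem c a1, a2.smul_left c⟩, fun Z hZ hZS => ?_⟩
        rw [smul_mul_assoc, smul_mul_assoc, map_smul, a3 Z hZ hZS, smul_zero] }
  have hcomS : ∀ X Z : Module.End K V, Commute X S → Commute Z S → Commute (X * Z - Z * X) S :=
    fun X Z hX hZ => (hX.mul_left hZ).sub_left (hZ.mul_left hX)
  have hAC : ∀ X ∈ A, ∀ Z ∈ T, Commute Z S → X * Z - Z * X ∈ A := by
    rintro X ⟨⟨a1, a2⟩, a3⟩ Z hZ hZS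
    refine ⟨⟨hlie X a1 Z hZ, hcomS X Z a2 hZS⟩, fun W hW hWS => ?_⟩
    have e1 := a3 (Z * W - W * Z) (hlie Z hZ W hW) (hcomS Z W hZS hWS)
    have hZP : Z * P = P * Z := hcomP Z hZS
    have e2 : LinearMap.trace K V (Z * X * W * P) = LinearMap.trace K V (X * W * Z * P) := by
      have e3 : Z * X * W * P = Z * (X * W * P) := by simp only [mul_assoc]
      have e4 : X * W * Z * P = X * W * P * Z := by
        rw [mul_assoc (X * W) Z P, hZP, ← mul_assoc]
      rw [e3, e4, LinearMap.trace_mul_comm]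
    rw [mul_sub, sub_mul, map_sub] at e1
    rw [sub_mul, sub_mul, map_sub, e2]
    have e5 : X * (Z * W) * P = X * Z * W * P := by simp only [mul_assoc]
    have e6 : X * (W * Z) * P = X * W * Z * P := by simp only [mul_assoc]
    rw [e5, e6] at e1
    exact e1
  have hNA : N ∈ A := by
    refine ⟨⟨hN, hNS⟩, fun Z hZ hZS => ?_⟩
    have hZP : Z * P = P * Z := hcomP Z hZS
    rw [mul_assoc, hZP, ← mul_assoc]
    exact horth Z hZ
  have hmulP : ∀ X Z : Module.End K V, Commute Z S → X * P * (Z * P) = X * Z * P := by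
    intro X Z hZ
    have hZP : Z * P = P * Z := hcomP Z hZ
    calc X * P * (Z * P) = X * (P * Z) * P := by simp only [mul_assoc]
      _ = X * Z * (P * P) := by rw [← hZP]; simp only [mul_assoc]
      _ = X * Z * P := by rw [hPP]
  -- the elements `H = [N, Y]`, `E = [H, Y]`
  obtain ⟨H, hHdef⟩ : ∃ H, H = N * Y - Y * N := ⟨_, rfl⟩
  obtain ⟨E, hEdef⟩ : ∃ E, E = H * Y - Y * H := ⟨_, rfl⟩
  have hHA : H ∈ A := by rw [hHdef]; exact hAC N hNA Y hYT hYS
  have hEA : E ∈ A := by rw [hEdef]; exact hAC H hHA Y hYT hYS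
  have hNH : N = N * H - H * N := by rw [hHdef]; exact hY
  have hHE : H = N * E - E * N := by
    have e1 : H = (N * H - H * N) * Y - Y * (N * H - H * N) := by rw [← hNH]; exact hHdef
    have e2 : (N * H - H * N) * Y - Y * (N * H - H * N) =
        (N * (H * Y - Y * H) - (H * Y - Y * H) * N) +
          ((N * Y - Y * N) * H - H * (N * Y - Y * N)) := by
      noncomm_ring
    rw [e2, ← hHdef, ← hEdef, sub_self, add_zero] at e1
    exact e1
  have hDnil : IsNilpotent (H * P) := by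
    have hB : ∀ X ∈ A.map (LinearMap.mulRight K P), ∃ X' ∈ A, X = X' * P := by
      rintro _ ⟨X', hX', rfl⟩
      exact ⟨X', hX', rfl⟩
    apply cartan (B := A.map (LinearMap.mulRight K P))
    · intro X hX Z hZ
      obtain ⟨X', hX', rfl⟩ := hB X hX
      obtain ⟨Z', hZ', rfl⟩ := hB Z hZ
      refine ⟨X' * Z' - Z' * X', hAC X' hX' Z' hZ'.1.1 hZ'.1.2, ?_⟩
      change (X' * Z' - Z' * X') * P = _
      rw [hmulP X' Z' hZ'.1.2, hmulP Z' X' hX'.1.2, sub_mul]
    · intro X hX Z hZ
      obtain ⟨X', hX', rfl⟩ := hB X hX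
      obtain ⟨Z', hZ', rfl⟩ := hB Z hZ
      rw [hmulP X' Z' hZ'.1.2]
      exact hX'.2 Z' hZ'.1.1 hZ'.1.2
    · apply Submodule.subset_span
      refine ⟨N * P, ⟨N, hNA, rfl⟩, E * P, ⟨E, hEA, rfl⟩, ?_⟩
      rw [hmulP N E hEA.1.2, hmulP E N hNS, ← sub_mul, ← hHE]
  have hM : N * P = N * P * (H * P) - H * P * (N * P) := by
    rw [hmulP N H hHA.1.2, hmulP H N hNS, ← sub_mul, ← hNH]
  have hf : IsNilpotent (LinearMap.mulRight K (H * P) - LinearMap.mulLeft K (H * P)) :=
    Commute.isNilpotent_sub (LinearMap.commute_mulLeft_right (R := K) (H * P) (H * P)).symm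
      ((LinearMap.isNilpotent_mulRight_iff (R := K) (H * P)).mpr hDnil)
      ((LinearMap.isNilpotent_mulLeft_iff (R := K) (H * P)).mpr hDnil)
  obtain ⟨n, hn⟩ := hf
  have h3 : (LinearMap.mulRight K (H * P) - LinearMap.mulLeft K (H * P)) (N * P) = N * P := by
    rw [LinearMap.sub_apply, LinearMap.mulRight_apply, LinearMap.mulLeft_apply]
    exact hM.symm
  have key : ∀ m : ℕ, ((LinearMap.mulRight K (H * P) - LinearMap.mulLeft K (H * P)) ^ m)
      (N * P) = N * P := by
    intro m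
    induction m with
    | zero => rfl
    | succ m ih => rw [pow_succ', Module.End.mul_apply, ih, h3]
  have h4 := key n
  rw [hn, LinearMap.zero_apply] at h4
  exact h4.symm

end Pool.Agent.Helper40.ZO
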