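import Pool.Agent.Helper40.ZO.Tr

/-!
# Block ZO-MORA (part (a)): the local criterion (Morozov's argument)

`T` is a space of endomorphisms closed under commutators with nondegenerate trace form, stable under
conjugation by the semisimple `S` (inverse `S'`), `N ∈ T` nilpotent commuting with `S`, `P` an
idempotent polynomial in `S`, and `trace (N P Y) = 0` for all `Y ∈ T`. Then `N P = 0`.
PROOF. Write `[X, Y] = X Y - Y X`.
(a) `exists_double`: there is `Y ∈ T` with `N = [N, [N, Y]]`. Let `θ : T → T`, `θ Y = [N, [N, Y]]`;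
`trace (θ X * Y) = trace (X * θ Y)`. If `N ∉ range θ` there is a linear form `f` on `T`, zero on
`range θ`, with `f N ≠ 0`; by nondegeneracy (and finite dimension) `f = trace (Z * ·)`, `Z ∈ T`.
`trace (θ Z * Y) = trace (Z * θ Y) = 0` for all `Y`, so `θ Z = 0`, i.e. `[N, [N, Z]] = 0`, so
`trace (Z N) = 0` by `trace_mul_eq_zero`: contradiction with `f N ≠ 0`.
(b) `exists_double_comm`: `Y` can be chosen to commute with `S`. Let `τ X = S X S'` on
`Module.End K V`: it is a semisimple endomorphism (left multiplication by `S` and right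
multiplication by `S'` are killed by squarefree polynomials and commute, see
`Module.End.IsSemisimple.of_mem_adjoin_pair`), `T` is `τ`-stable, so
`T = ker (τ - 1) ⊕ range (τ - 1)` on `T`: `Y = Y₁ + (τ Y' - Y')`, `Y₁, Y' ∈ T`, `τ Y₁ = Y₁`.
`[N, [N, ·]]` commutes with `τ` (`τ N = N`, `τ` is multiplicative), so
`N - [N, [N, Y₁]] = τ Z - Z`, `Z = [N, [N, Y']]`, is fixed by `τ` and in `range (τ - 1)`, hence `0`
(semisimplicity again). And `S Y₁ S' = Y₁` means that `Y₁` commutes with `S`.
(c) Let `C = {Y ∈ T | Commute Y S}`; its elements commute with `P`. Let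
`A = {X ∈ C | ∀ Z ∈ C, trace (X * Z * P) = 0}`: for `X ∈ A`, `Z ∈ C`: `[X, Z] ∈ A`; `N ∈ A`.
`B = {X * P | X ∈ A}` is closed under commutators (`[X P, Z P] = [X, Z] P`) with zero trace form, so
by `cartan` the span of the commutators of elements of `B` consists of nilpotent elements.
Put `H = [N, Y]` (`Y` from (b), `Y ∈ C`), so `H ∈ A`, `N = [N, H]`, and
`H = [[N, H], Y] = [N, [H, Y]] + [[N, Y], H] = [N, [H, Y]]` with `[H, Y] ∈ A`. So `H P` is nilpotent
by `cartan`, and `N P = [N P, H P]`, so `N P = 0` because `X ↦ [X, H P]` is nilpotent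
(`LieAlgebra.ad_nilpotent_of_nilpotent`).
-/

set_option autoImplicit false

namespace Pool.Agent.Helper40.ZO

open Polynomial

variable {K V : Type*} [Field K] [IsAlgClosed K] [CharZero K] [AddCommGroup V] [Module K V]
  [FiniteDimensional K V]

omit [IsAlgClosed K] [CharZero K] [FiniteDimensional K V] in
private lemma trace_double (N X Y : Module.End K V) :
    LinearMap.trace K V ((N * (N * X - X * N) - (N * X - X * N) * N) * Y) =
      LinearMap.trace K V (X * (N * (N * Y - Y * N) - (N * Y - Y * N) * N)) := by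
  have h1 : (N * (N * X - X * N) - (N * X - X * N) * N) * Y =
      N * (N * X * Y) - N * (X * N * Y) - N * (X * N * Y) + X * N * N * Y := by noncomm_ring
  have h2 : X * (N * (N * Y - Y * N) - (N * Y - Y * N) * N) =
      X * N * N * Y - (X * N * Y) * N - (X * N * Y) * N + (X * Y * N) * N := by noncomm_ring
  have h3 : LinearMap.trace K V (N * (N * X * Y)) = LinearMap.trace K V ((X * Y * N) * N) := by
    have h4 : N * (N * X * Y) = (N * N) * (X * Y) := by noncomm_ring
    have h5 : (X * Y * N) * N = (X * Y) * (N * N) := by noncomm_ring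
    rw [h4, h5, LinearMap.trace_mul_comm]
  have h6 : LinearMap.trace K V (N * (X * N * Y)) = LinearMap.trace K V ((X * N * Y) * N) :=
    LinearMap.trace_mul_comm K _ _
  rw [h1, h2]
  simp only [map_add, map_sub]
  rw [h3, h6]
  ring

theorem exists_double {T : Submodule K (Module.End K V)}
    (hlie : ∀ X ∈ T, ∀ Y ∈ T, X * Y - Y * X ∈ T)
    (hnd : ∀ X ∈ T, (∀ Y ∈ T, LinearMap.trace K V (X * Y) = 0) → X = 0)
    {N : Module.End K V} (hN : N ∈ T) (hnil : IsNilpotent N) :
    ∃ Y ∈ T, N = N * (N * Y - Y * N) - (N * Y - Y * N) * N := by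
  classical
  let θ : Module.End K V →ₗ[K] Module.End K V :=
    { toFun := fun Y => N * (N * Y - Y * N) - (N * Y - Y * N) * N
      map_add' := fun X Y => by noncomm_ring
      map_smul' := fun c X => by
        simp only [mul_smul_comm, smul_mul_assoc, ← smul_sub, RingHom.id_apply] }
  by_contra hcon
  push Not at hcon
  have hNot : N ∉ T.map θ := by
    rintro ⟨Y, hY, hYN⟩
    exact hcon Y hY hYN.symm
  obtain ⟨f, hf1, hf2⟩ := Submodule.exists_dual_map_eq_bot_of_notMem hNot inferInstance
  let Φ : T →ₗ[K] Module.Dual K T :=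
    { toFun := fun Z =>
        { toFun := fun Y => LinearMap.trace K V ((Z : Module.End K V) * (Y : Module.End K V))
          map_add' := fun X Y => by simp [mul_add]
          map_smul' := fun c X => by simp }
      map_add' := fun X Y => by ext Z; simp [add_mul]
      map_smul' := fun c X => by ext Z; simp }
  have hinj : Function.Injective Φ := by
    rw [injective_iff_map_eq_zero]
    intro Z hZ
    apply Subtype.ext
    refine hnd Z Z.2 fun Y hY => ?_
    have := congrArg (fun g : Module.Dual K T => g ⟨Y, hY⟩) hZ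
    simpa [Φ] using this
  have hsurj : Function.Surjective Φ :=
    (LinearMap.injective_iff_surjective_of_finrank_eq_finrank Subspace.dual_finrank_eq.symm).1 hinj
  obtain ⟨Z, hZ⟩ := hsurj (f.comp T.subtype)
  have hZf : ∀ Y ∈ T, LinearMap.trace K V ((Z : Module.End K V) * Y) = f Y := by
    intro Y hY
    have := congrArg (fun g : Module.Dual K T => g ⟨Y, hY⟩) hZ
    simpa [Φ] using this
  have hθZ : N * (N * (Z : Module.End K V) - Z * N) - (N * (Z : Module.End K V) - Z * N) * N = 0 := by
    have hT1 : N * (Z : Module.End K V) - Z * N ∈ T := hlie N hN Z Z.2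
    refine hnd _ (hlie N hN _ hT1) fun Y hY => ?_
    rw [trace_double]
    have hT2 : N * (N * Y - Y * N) - (N * Y - Y * N) * N ∈ T := hlie N hN _ (hlie N hN Y hY)
    rw [hZf _ hT2]
    have h1 : f (θ Y) ∈ (T.map θ).map f := Submodule.mem_map_of_mem (Submodule.mem_map_of_mem hY)
    rw [hf2, Submodule.mem_bot] at h1
    exact h1
  have hcomm : Commute N (N * (Z : Module.End K V) - Z * N) := sub_eq_zero.1 hθZ
  have htr := trace_mul_eq_zero hnil hcomm
  rw [LinearMap.trace_mul_comm, hZf N hN] at htr
  exact hf1 htr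

end Pool.Agent.Helper40.ZO
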