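import Pool.Agent.Helper40.ZO.MorA

/-!
# Block ZO-MORB (part (b)): the local criterion (Morozov's argument)

`T` is a space of endomorphisms closed under commutators with nondegenerate trace form, stable under
conjugation by the semisimple `S` (inverse `S'`), `N ∈ T` nilpotent commuting with `S`, `P` an
idempotent polynomial in `S`, and `trace (N P Y) = 0` for all `Y ∈ T`. Then `N P = 0`.
PROOF. Write `[X, Y] = X Y - Y X`.
(a) `exists_double`: there is `Y ∈ T` with `N = [N, [N, Y]]`. Let `θ : T → T`, `θ Y = [N, [N, Y]]`;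
`trace (θ X * Y) = trace (X * θ Y)`. If `N ∉ range θ` there is a linear form `f` on `T`, zero on
`range θ`, with `f N ≠ 0`; by nondegeneracy (and finite dimension) `f = trace (Z * ·)`, `Z ∈ T`.
`trace (θ Z * Y) = trace (Z * θ Y) = 0` for all `Y`, so `θ Z = 0`, i.e. `[N, [N, Z]] = 0`, so
`trace (Z N) = 0` by `trace_mul_eq_zero`: contradiction with `f N ≠ 0`.
(b) `exists_double_comm`: `Y` can be chosen to commute with `S`. Let `τ X = S X S'` on
`Module.End K V`: it is a semisimple endomorphism (left multiplication by `S` and right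
multiplication by `S'` are killed by squarefree polynomials and commute, see
`Module.End.IsSemisimple.of_mem_adjoin_pair`), `T` is `τ`-stable, so
`T = ker (τ - 1) ⊕ range (τ - 1)` on `T`: `Y = Y₁ + (τ Y' - Y')`, `Y₁, Y' ∈ T`, `τ Y₁ = Y₁`.
`[N, [N, ·]]` commutes with `τ` (`τ N = N`, `τ` is multiplicative), so
`N - [N, [N, Y₁]] = τ Z - Z`, `Z = [N, [N, Y']]`, is fixed by `τ` and in `range (τ - 1)`, hence `0`
(semisimplicity again). And `S Y₁ S' = Y₁` means that `Y₁` commutes with `S`.
(c) Let `C = {Y ∈ T | Commute Y S}`; its elements commute with `P`. Let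
`A = {X ∈ C | ∀ Z ∈ C, trace (X * Z * P) = 0}`: for `X ∈ A`, `Z ∈ C`: `[X, Z] ∈ A`; `N ∈ A`.
`B = {X * P | X ∈ A}` is closed under commutators (`[X P, Z P] = [X, Z] P`) with zero trace form, so
by `cartan` the span of the commutators of elements of `B` consists of nilpotent elements.
Put `H = [N, Y]` (`Y` from (b), `Y ∈ C`), so `H ∈ A`, `N = [N, H]`, and
`H = [[N, H], Y] = [N, [H, Y]] + [[N, Y], H] = [N, [H, Y]]` with `[H, Y] ∈ A`. So `H P` is nilpotent
by `cartan`, and `N P = [N P, H P]`, so `N P = 0` because `X ↦ [X, H P]` is nilpotent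
(`LieAlgebra.ad_nilpotent_of_nilpotent`).
-/

set_option autoImplicit false

namespace Pool.Agent.Helper40.ZO

open Polynomial

variable {K V : Type*} [Field K] [IsAlgClosed K] [CharZero K] [AddCommGroup V] [Module K V]
  [FiniteDimensional K V]

omit [IsAlgClosed K] in
/-- If `S` is semisimple then `[S, [S, Z]] = 0` implies `[S, Z] = 0`. -/
private theorem comm_of_comm {S Z : Module.End K V}
    (hss : ∃ p : K[X], Squarefree p ∧ aeval S p = 0)
    (h : S * (S * Z - Z * S) = (S * Z - Z * S) * S) : S * Z = Z * S := by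
  obtain ⟨p, hp, hpS⟩ := hss
  set L : Module.End K (Module.End K V) := LinearMap.mulLeft K S with hLdef
  set R : Module.End K (Module.End K V) := LinearMap.mulRight K S with hRdef
  have hL : aeval L p = 0 := by
    ext1 Z
    rw [aeval_eq_sum_range, LinearMap.sum_apply]
    have h1 : ∀ i, (p.coeff i • L ^ i) Z = (p.coeff i • S ^ i) * Z := by
      intro i
      rw [LinearMap.smul_apply, hLdef, LinearMap.pow_mulLeft, LinearMap.mulLeft_apply,
        smul_mul_assoc]
    simp only [h1]
    rw [← Finset.sum_mul, ← aeval_eq_sum_range, hpS, zero_mul, LinearMap.zero_apply]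
  have hR : aeval R p = 0 := by
    ext1 Z
    rw [aeval_eq_sum_range, LinearMap.sum_apply]
    have h1 : ∀ i, (p.coeff i • R ^ i) Z = Z * (p.coeff i • S ^ i) := by
      intro i
      rw [LinearMap.smul_apply, hRdef, LinearMap.pow_mulRight, LinearMap.mulRight_apply,
        mul_smul_comm]
    simp only [h1]
    rw [← Finset.mul_sum, ← aeval_eq_sum_range, hpS, mul_zero, LinearMap.zero_apply]
  have hLs : L.IsSemisimple := Module.End.isSemisimple_of_squarefree_aeval_eq_zero hp hL
  have hRs : R.IsSemisimple := Module.End.isSemisimple_of_squarefree_aeval_eq_zero hp hR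
  have hLR : Commute L R := by
    ext1 Z
    change S * (Z * S) = (S * Z) * S
    rw [mul_assoc]
  have hD : (L - R).IsSemisimple := hLs.sub_of_commute hLR hRs
  have hmem : Z ∈ (L - R).genEigenspace 0 ((2 : ℕ) : ℕ∞) := by
    rw [Module.End.mem_genEigenspace_nat, LinearMap.mem_ker, zero_smul, sub_zero, pow_two,
      Module.End.mul_apply]
    change S * (S * Z - Z * S) - (S * Z - Z * S) * S = 0
    rw [h, sub_self]
  rw [hD.isFinitelySemisimple.genEigenspace_eq_eigenspace 0 (by norm_num),
    Module.End.mem_eigenspace_iff, zero_smul] at hmem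
  exact sub_eq_zero.1 hmem

omit [IsAlgClosed K] in
/-- If `S X S' - X` commutes with `S` then `X` commutes with `S`. -/
private theorem comm_of_conj {S S' X : Module.End K V}
    (h2 : S' * S = 1)
    (hss : ∃ p : K[X], Squarefree p ∧ aeval S p = 0)
    (h : Commute (S * X * S' - X) S) : S * X = X * S := by
  refine comm_of_comm hss ?_
  have h3 : S * X - X * S = (S * X * S' - X) * S := by
    rw [sub_mul, mul_assoc (S * X) S' S, h2, mul_one]
  rw [h3, ← mul_assoc, ← h.eq]

theorem exists_double_comm {T : Submodule K (Module.End K V)}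
    (hlie : ∀ X ∈ T, ∀ Y ∈ T, X * Y - Y * X ∈ T)
    (hnd : ∀ X ∈ T, (∀ Y ∈ T, LinearMap.trace K V (X * Y) = 0) → X = 0)
    {S S' N : Module.End K V} (h1 : S * S' = 1) (h2 : S' * S = 1)
    (hss : ∃ p : K[X], Squarefree p ∧ aeval S p = 0) (hST : ∀ X ∈ T, S * X * S' ∈ T)
    (hN : N ∈ T) (hnil : IsNilpotent N) (hNS : Commute N S) :
    ∃ Y ∈ T, Commute Y S ∧ N = N * (N * Y - Y * N) - (N * Y - Y * N) * N := by
  classical
  obtain ⟨Y, hY, hYN⟩ := exists_double hlie hnd hN hnil
  -- conjugation minus the identity, on the whole algebra and on `T`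
  let g : Module.End K V →ₗ[K] Module.End K V :=
    { toFun := fun X => S * X * S' - X
      map_add' := fun X Y => by noncomm_ring
      map_smul' := fun c X => by
        simp only [mul_smul_comm, smul_mul_assoc, ← smul_sub, RingHom.id_apply] }
  have hg : ∀ X, g X = S * X * S' - X := fun X => rfl
  have hgT : ∀ X ∈ T, g X ∈ T := fun X hX => T.sub_mem (hST X hX) hX
  let f : T →ₗ[K] T := g.restrict hgT
  have hf : ∀ X : T, ((f X : T) : Module.End K V) = S * X * S' - X := fun X => rfl
  have hcommS : ∀ X : Module.End K V, S * X * S' - X = 0 → Commute X S := by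
    intro X hX
    have h3 : S * X * S' * S = X * S := by rw [sub_eq_zero.1 hX]
    rw [mul_assoc (S * X) S' S, h2, mul_one] at h3
    exact h3.symm
  have hcommS' : ∀ X : Module.End K V, Commute X S → S * X * S' - X = 0 := by
    intro X hX
    rw [← hX.eq, mul_assoc, h1, mul_one, sub_self]
  have hdisj : Disjoint (LinearMap.ker f) (LinearMap.range f) := by
    rw [Submodule.disjoint_def]
    rintro X hX1 ⟨Z, rfl⟩
    have h3 : S * ((f Z : T) : Module.End K V) * S' - ((f Z : T) : Module.End K V) = 0 := by
      rw [← hf]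
      exact congrArg Subtype.val (LinearMap.mem_ker.1 hX1)
    have h4 : Commute (S * (Z : Module.End K V) * S' - Z) S := by
      have := hcommS _ h3
      rwa [hf] at this
    have h5 := comm_of_conj h2 hss h4
    apply Subtype.ext
    rw [hf]
    exact hcommS' _ h5.symm
  have htop : LinearMap.ker f ⊔ LinearMap.range f = ⊤ := by
    apply Submodule.eq_top_of_disjoint _ _ _ hdisj
    rw [add_comm]
    exact (LinearMap.finrank_range_add_finrank_ker f).ge
  obtain ⟨Y1, hY1, Y2, ⟨Y3, rfl⟩, hY12⟩ := Submodule.mem_sup.1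
    (htop ▸ Submodule.mem_top : (⟨Y, hY⟩ : T) ∈ LinearMap.ker f ⊔ LinearMap.range f)
  have hYeq : Y = Y1 + (S * (Y3 : Module.End K V) * S' - Y3) := by
    have := congrArg Subtype.val hY12
    rw [Submodule.coe_add, hf] at this
    exact this.symm
  have hY1S : Commute (Y1 : Module.End K V) S := by
    apply hcommS
    rw [← hf]
    exact congrArg Subtype.val (LinearMap.mem_ker.1 hY1)
  have hNS' : N * S' = S' * N := by
    calc N * S' = (S' * S) * N * S' := by rw [h2, one_mul]
      _ = S' * (S * N) * S' := by noncomm_ring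
      _ = S' * (N * S) * S' := by rw [hNS.eq]
      _ = S' * N * (S * S') := by noncomm_ring
      _ = S' * N := by rw [h1, mul_one]
  -- `θ = (ad N) ^ 2`
  let θ : Module.End K V →ₗ[K] Module.End K V :=
    { toFun := fun Y => N * (N * Y - Y * N) - (N * Y - Y * N) * N
      map_add' := fun X Y => by noncomm_ring
      map_smul' := fun c X => by
        simp only [mul_smul_comm, smul_mul_assoc, ← smul_sub, RingHom.id_apply] }
  have hθ : ∀ X, θ X = N * (N * X - X * N) - (N * X - X * N) * N := fun X => rfl
  have hconj : ∀ X, N * (S * X * S') - (S * X * S') * N = S * (N * X - X * N) * S' := by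
    intro X
    calc N * (S * X * S') - (S * X * S') * N = (N * S) * X * S' - S * X * (S' * N) := by
          noncomm_ring
      _ = (S * N) * X * S' - S * X * (N * S') := by rw [hNS.eq, hNS']
      _ = S * (N * X - X * N) * S' := by noncomm_ring
  have hθconj : ∀ X, θ (S * X * S') = S * θ X * S' := by
    intro X
    rw [hθ, hθ, hconj, hconj]
  have hθcomm : ∀ X, Commute X S → Commute (θ X) S := by
    intro X hX
    have h3 : Commute (N * X - X * N) S := (hNS.mul_left hX).sub_left (hX.mul_left hNS)
    exact (hNS.mul_left h3).sub_left (h3.mul_left hNS)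
  have hW : N - θ Y1 = S * θ Y3 * S' - θ Y3 := by
    have h3 : N = θ Y := hYN
    rw [hYeq, map_add, map_sub, hθconj] at h3
    nth_rewrite 1 [h3]
    abel
  have hWc : Commute (S * θ Y3 * S' - θ Y3) S := by
    rw [← hW]
    exact hNS.sub_left (hθcomm _ hY1S)
  have hZ := comm_of_conj h2 hss hWc
  have hW0 : N - θ Y1 = 0 := by
    rw [hW]
    exact hcommS' _ hZ.symm
  exact ⟨Y1, Y1.2, hY1S, sub_eq_zero.1 hW0⟩

end Pool.Agent.Helper40.ZO
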