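import Pool.Agent.Helper40.ZO.Curve
import Pool.Agent.Helper40.ZO.Hank
import Pool.Agent.Helper40.ZO.JCA

/-!
# Block ZO-ORTHA (orth_of_max): orthogonality

`h`, `g` invertible, `h = S U` the Jordan decomposition, `N = lg K m U`. Take a basis
(`LinearMap.toMatrixAlgEquiv`) and `A`, `A'` from `exists_curve`; let
`x = g * A * g⁻¹ * A' * h`, a matrix over `EP K`; `x.map (ev k) = g h ^ k g⁻¹ h⁻¹ ^ k h` and
`y = x.map (sp 0) = g * cv m U * g⁻¹ * cv m U⁻¹ * h` (constants as matrices over `K[X]`);
`y (0) = h`, the coefficient of `X` of `y` is `y₁ = (g N g⁻¹ - N) h` (`cv_coeff_zero`,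
`cv_coeff_one`, `lg_inv`).
* `orth_of_max`, `r = numEig h`. For `f : K[X]` the Hankel determinant of `x` (an element of `EP K`)
  has value zero at all `k` by `hankel_vanish`, so it is zero (`EP.eq_zero`; ring homomorphisms
  commute with `det`, `trace`, `aeval`), so the Hankel determinant of `y` is zero and `hankel_deriv`
  says `trace (G (h) y₁) = 0` for every `G` vanishing at all eigenvalues.
* `orth_of_min`, `μ` = multiplicity of `l` in the characteristic polynomial of `h`. `(X - l) ^ μ`
  divides the characteristic polynomials of `x.map (ev k)`; divisible by `(X - l) ^ μ` means that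
  the coefficients `j < μ` of `Polynomial.taylor l` vanish; so the same is true over `EP K` and for
  `y`; `charpoly_deriv` gives `trace (G (h) y₁) = 0` for every multiple `G` of `R`.
* In both cases: `F (h)` nilpotent means that `F` vanishes at all eigenvalues. Choose `q` with
  `q (h) = h⁻¹` (Cayley-Hamilton), `G = F q`; `trace (G (h) y₁) = trace (F (h) h⁻¹ (g N g⁻¹ - N) h)
  = trace (F (h) (g N g⁻¹ - N))` (cyclic, `F (h)` commutes with `h`), and `trace (F (h) N) = 0` because
  `F (h) N` is nilpotent (commuting, `N` is a polynomial in `h`).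
-/

set_option autoImplicit false

namespace Pool.Agent.Helper40.ZO

open Polynomial

variable {K V : Type*} [Field K] [IsAlgClosed K] [CharZero K] [AddCommGroup V] [Module K V]
  [FiniteDimensional K V]

omit [IsAlgClosed K] [CharZero K] in
private lemma oa_c0_mul {n : ℕ} (M N : Mat n K[X]) :
    (M * N).map (fun p => p.coeff 0) = M.map (fun p => p.coeff 0) * N.map (fun p => p.coeff 0) := by
  ext i j
  simp only [Matrix.map_apply, Matrix.mul_apply, finsetSum_coeff, mul_coeff_zero]

omit [IsAlgClosed K] [CharZero K] in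
private lemma oa_c1_mul {n : ℕ} (M N : Mat n K[X]) :
    (M * N).map (fun p => p.coeff 1) = M.map (fun p => p.coeff 0) * N.map (fun p => p.coeff 1) +
      M.map (fun p => p.coeff 1) * N.map (fun p => p.coeff 0) := by
  ext i j
  simp only [Matrix.map_apply, Matrix.mul_apply, Matrix.add_apply, finsetSum_coeff, mul_coeff_one,
    Finset.sum_add_distrib]

omit [IsAlgClosed K] [CharZero K] in
private lemma oa_c0_const {n : ℕ} (M : Mat n K) :
    (M.map (C : K → K[X])).map (fun p => p.coeff 0) = M := by
  ext i j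
  simp [Matrix.map_apply]

omit [IsAlgClosed K] [CharZero K] in
private lemma oa_c1_const {n : ℕ} (M : Mat n K) :
    (M.map (C : K → K[X])).map (fun p => p.coeff 1) = 0 := by
  ext i j
  simp [Matrix.map_apply]

omit [IsAlgClosed K] [CharZero K] in
private lemma oa_eval0 {n : ℕ} (x : Mat n K[X]) :
    (x.map fun p => p.eval 0) = x.map fun p => p.coeff 0 := by
  ext i j
  simp [coeff_zero_eq_eval_zero]

omit [IsAlgClosed K] in
/-- the matrix `y` -/
private lemma oa_y {n m : ℕ} {U : Mat n K} (hU : (U - 1) ^ m = 0) (G G' H : Mat n K) (hG : G * G' = 1) :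
    (G.map (C : K → K[X]) * cv m U * G'.map C * cv m U⁻¹ * H.map C).map (fun p => p.eval 0) = H ∧
    (G.map (C : K → K[X]) * cv m U * G'.map C * cv m U⁻¹ * H.map C).map (fun p => p.coeff 1) =
      (G * lg K m U * G' - lg K m U) * H := by
  obtain ⟨h1, h2⟩ := lg_inv hU
  have h3 := cv_coeff_zero hU
  have h4 := cv_coeff_zero h1
  have h5 := cv_coeff_one hU
  have h6 := cv_coeff_one h1
  constructor
  · rw [oa_eval0, oa_c0_mul, oa_c0_mul, oa_c0_mul, oa_c0_mul, oa_c0_const, oa_c0_const, oa_c0_const, h3, h4]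
    rw [mul_one, mul_one, hG, one_mul]
  · simp only [oa_c1_mul, oa_c0_mul, oa_c0_const, oa_c1_const, h3, h4, h5, h6, h2]
    simp only [mul_zero, add_zero, zero_add, mul_one]
    rw [hG]
    simp only [one_mul]
    congr 1
    abel

omit [IsAlgClosed K] [CharZero K] in
private lemma oa_map {A B : Type*} [CommRing A] [CommRing B] [Algebra K A] [Algebra K B] (φ : A →ₐ[K] B)
    {n : ℕ} (G G' h : Mat n K) (Y Z : Mat n A) :
    (G.map (algebraMap K A) * Y * G'.map (algebraMap K A) * Z * h.map (algebraMap K A)).map φ =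
      G.map (algebraMap K B) * Y.map φ * G'.map (algebraMap K B) * Z.map φ * h.map (algebraMap K B) := by
  have h2 : ∀ M : Mat n K, φ.mapMatrix (M.map (algebraMap K A)) = M.map (algebraMap K B) := by
    intro M
    ext i j
    simp [Matrix.map_apply]
  change φ.mapMatrix _ = _
  rw [map_mul, map_mul, map_mul, map_mul, h2, h2, h2]
  rfl

omit [IsAlgClosed K] [CharZero K] in
/-- a ring homomorphism commutes with the Hankel determinant -/
private lemma oa_map_hankel {A B : Type*} [CommRing A] [CommRing B] [Algebra K A] [Algebra K B] (φ : A →ₐ[K] B)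
    {n r : ℕ} (x : Mat n A) (f : K[X]) :
    φ (Matrix.of fun a b : Fin (r + 1) => Matrix.trace (aeval x f * x ^ ((a : ℕ) + b))).det =
      (Matrix.of fun a b : Fin (r + 1) =>
        Matrix.trace (aeval (x.map φ) f * (x.map φ) ^ ((a : ℕ) + b))).det := by
  rw [AlgHom.map_det]
  congr 1
  ext a b
  rw [AlgHom.mapMatrix_apply, Matrix.map_apply, Matrix.of_apply, Matrix.of_apply]
  have h1 : x.map φ = φ.mapMatrix x := rfl
  rw [h1, aeval_algHom_apply, ← map_pow, ← map_mul, AlgHom.mapMatrix_apply]
  unfold Matrix.trace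
  rw [map_sum]
  rfl

/-- the orthogonality on the level of matrices -/
private lemma oa_matrix {n m : ℕ} {h S U : Mat n K} (hJ : JC K m h S U) (hu : IsUnit h) {G G' : Mat n K}
    (hG : G * G' = 1) (hmax : ∀ k : ℕ, numEigM (G * h ^ k * G' * h⁻¹ ^ k * h) ≤ numEigM h) {F : K[X]}
    (hF : ∀ l : K, h.charpoly.IsRoot l → F.IsRoot l) :
    Matrix.trace (aeval h F * ((G * lg K m U * G' - lg K m U) * h)) = 0 := by
  obtain ⟨A, A', hA, ⟨hA0, hA0'⟩, -⟩ := exists_curve hJ hu
  set x : Mat n (EP K) := G.map (algebraMap K (EP K)) * A * G'.map (algebraMap K (EP K)) * A' *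
    h.map (algebraMap K (EP K)) with hx
  have hxev : ∀ k : ℕ, x.map (ev k) = G * h ^ k * G' * h⁻¹ ^ k * h := by
    intro k
    have h2 : ∀ M : Mat n K, M.map (algebraMap K K) = M := by
      intro M
      ext i j
      simp [Matrix.map_apply]
    have h3 := oa_map (ev k) G G' h A A'
    rw [h2, h2, h2, (hA k).1, (hA k).2] at h3
    exact h3
  have hxsp : x.map (sp 0) = G.map (C : K → K[X]) * cv m U * G'.map C * cv m U⁻¹ * h.map C := by
    have h3 := oa_map (sp 0) G G' h A A'
    rw [hA0, hA0'] at h3
    exact h3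
  obtain ⟨hy0, hy1⟩ := oa_y hJ.nil G G' h hG
  have hdet : ∀ f : K[X], (Matrix.of fun a b : Fin (numEigM h + 1) =>
      Matrix.trace (aeval (x.map (sp 0)) f * (x.map (sp 0)) ^ ((a : ℕ) + b))).det = 0 := by
    intro f
    rw [← oa_map_hankel (sp 0) x f]
    have h1 : (Matrix.of fun a b : Fin (numEigM h + 1) => Matrix.trace (aeval x f * x ^ ((a : ℕ) + b))).det = 0 := by
      apply EP.eq_zero
      intro k
      rw [oa_map_hankel (ev k) x f, hxev k]
      exact hankel_vanish _ (hmax k) f
    rw [h1, map_zero]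
  have key := hankel_deriv (x.map (sp 0)) hdet (by rw [hxsp, hy0]) (F := F) (by rw [hxsp, hy0]; exact hF)
  rw [hxsp, hy0, hy1] at key
  exact key

theorem orth_of_max {h g : (Module.End K V)ˣ} {m : ℕ} {S U : Module.End K V}
    (hJ : JC K m (h : Module.End K V) S U)
    (hmax : ∀ k : ℕ, numEig ((g * h ^ k * g⁻¹ * h⁻¹ ^ k * h : (Module.End K V)ˣ) :
      Module.End K V) ≤ numEig (h : Module.End K V))
    {F : K[X]} (hF : IsNilpotent (aeval (h : Module.End K V) F)) :
    LinearMap.trace K V (aeval (h : Module.End K V) F *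
      ((g : Module.End K V) * lg K m U * (g⁻¹ : (Module.End K V)ˣ))) = 0 := by
  classical
  set b := Module.finBasis K V with hb
  set φ : Module.End K V ≃ₐ[K] Mat (Module.finrank K V) K := LinearMap.toMatrixAlgEquiv b with hφ
  set N : Module.End K V := lg K m U with hN
  -- transport to matrices
  have hlg : φ N = lg K m (φ U) := by
    rw [hN]
    unfold lg
    rw [map_sum]
    refine Finset.sum_congr rfl fun j _ => ?_
    rw [map_smul, map_pow, map_sub, map_one]
  have hadj : ∀ {T : Module.End K V}, T ∈ Algebra.adjoin K {(h : Module.End K V)} →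
      φ T ∈ Algebra.adjoin K {φ (h : Module.End K V)} := by
    intro T hT
    have h1 : φ T ∈ (Algebra.adjoin K {(h : Module.End K V)}).map (φ : Module.End K V →ₐ[K] _) :=
      ⟨T, hT, rfl⟩
    rw [AlgHom.map_adjoin, Set.image_singleton] at h1
    exact h1
  have hJ' : JC K m (φ (h : Module.End K V)) (φ S) (φ U) := by
    refine ⟨hJ.pos, ?_, ?_, ?_, ?_, hadj hJ.memS, hadj hJ.memU⟩
    · rw [← map_mul, ← hJ.mul]
    · rw [← map_mul, ← map_mul, hJ.comm]
    · obtain ⟨p, hp, hpS⟩ := hJ.ss
      refine ⟨p, hp, ?_⟩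
      have h1 := aeval_algHom_apply (φ : Module.End K V →ₐ[K] Mat (Module.finrank K V) K) S p
      rw [hpS, map_zero] at h1
      exact h1
    · rw [← map_one φ, ← map_sub, ← map_pow, hJ.nil, map_zero]
  have hcp : ∀ T : Module.End K V, (φ T).charpoly = T.charpoly := fun T => LinearMap.charpoly_toMatrix T b
  have hnum : ∀ T : Module.End K V, numEigM (φ T) = numEig T := by
    intro T
    unfold numEigM numEig
    rw [hcp]
  have hunit : IsUnit (φ (h : Module.End K V)) := h.isUnit.map φ
  have hinv : φ ((h⁻¹ : (Module.End K V)ˣ) : Module.End K V) = (φ (h : Module.End K V))⁻¹ := by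
    symm
    apply Matrix.inv_eq_right_inv
    rw [← map_mul, Units.mul_inv, map_one]
  have hgg : φ (g : Module.End K V) * φ ((g⁻¹ : (Module.End K V)ˣ) : Module.End K V) = 1 := by
    rw [← map_mul, Units.mul_inv, map_one]
  -- eigenvalues
  have hroot : ∀ l : K, (φ (h : Module.End K V)).charpoly.IsRoot l → F.IsRoot l := by
    intro l hl
    rw [hcp, ← Module.End.hasEigenvalue_iff_isRoot_charpoly] at hl
    obtain ⟨v, hv⟩ := hl.exists_hasEigenvector
    have h1 := Module.End.aeval_apply_of_hasEigenvector (p := F) hv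
    obtain ⟨k, hk⟩ := hF
    have h2 : ∀ j : ℕ, ((aeval (h : Module.End K V) F) ^ j) v = (F.eval l) ^ j • v := by
      intro j
      induction j with
      | zero => simp
      | succ j ih =>
        rw [pow_succ', Module.End.mul_apply, ih, map_smul, h1, smul_smul, ← pow_succ]
    have h3 := h2 k
    rw [hk, LinearMap.zero_apply] at h3
    rcases smul_eq_zero.1 h3.symm with h4 | h4
    · exact eq_zero_of_pow_eq_zero h4
    · exact absurd h4 hv.2
  -- the inverse is a polynomial
  obtain ⟨q, hq⟩ : ∃ q : K[X], aeval (φ (h : Module.End K V)) q = (φ (h : Module.End K V))⁻¹ := by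
    set M := φ (h : Module.End K V) with hM
    have h1 : M.charpoly.coeff 0 ≠ 0 := by
      intro h2
      have h3 := Matrix.det_eq_sign_charpoly_coeff M
      rw [h2, mul_zero] at h3
      exact ((Matrix.isUnit_iff_isUnit_det M).1 hunit).ne_zero h3
    refine ⟨-C (M.charpoly.coeff 0)⁻¹ * M.charpoly.divX, ?_⟩
    symm
    apply Matrix.inv_eq_right_inv
    have h2 := Matrix.aeval_self_charpoly M
    rw [← divX_mul_X_add M.charpoly, map_add, map_mul, aeval_X, aeval_C] at h2
    have h3 : aeval M M.charpoly.divX * M = -algebraMap K _ (M.charpoly.coeff 0) := eq_neg_of_add_eq_zero_left h2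
    have h4 : Commute M (aeval M M.charpoly.divX) :=
      (Algebra.commute_of_mem_adjoin_self (aeval_mem_adjoin_singleton K M))
    rw [map_mul, map_neg, aeval_C, neg_mul, mul_neg, ← mul_assoc,
      (Algebra.commutes (M.charpoly.coeff 0)⁻¹ M).symm, mul_assoc, h4.eq, h3, mul_neg, neg_neg, ← map_mul,
      inv_mul_cancel₀ h1, map_one]
  have key := oa_matrix hJ' hunit hgg (F := F * q) (fun k => by
    have h1 := hmax k
    rw [← hnum, ← hnum] at h1
    simp only [Units.val_mul, Units.val_pow_eq_pow_val, map_mul, map_pow, hinv] at h1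
    exact h1) (fun l hl => by
      rw [IsRoot, eval_mul, hroot l hl, zero_mul])
  have hcH : Commute (φ (h : Module.End K V)) (aeval (φ (h : Module.End K V)) F) :=
    Algebra.commute_of_mem_adjoin_self (aeval_mem_adjoin_singleton K _)
  have haF : aeval (φ (h : Module.End K V)) F = φ (aeval (h : Module.End K V) F) :=
    aeval_algHom_apply (φ : Module.End K V →ₐ[K] Mat (Module.finrank K V) K) _ F
  have hdetu := (Matrix.isUnit_iff_isUnit_det _).1 hunit
  rw [map_mul, hq, ← mul_assoc, Matrix.trace_mul_comm, ← mul_assoc, ← mul_assoc, hcH.eq,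
    mul_assoc (aeval (φ (h : Module.End K V)) F), Matrix.mul_nonsing_inv _ hdetu, mul_one, mul_sub,
    Matrix.trace_sub, sub_eq_zero, haF, ← hlg] at key
  have hnil : Matrix.trace (φ (aeval (h : Module.End K V) F) * φ N) = 0 := by
    rw [← map_mul]
    have h1 : Commute (aeval (h : Module.End K V) F) N := by
      have h2 : N ∈ Algebra.adjoin K {(h : Module.End K V)} := lg_mem hJ
      obtain ⟨p, hp⟩ := (Algebra.adjoin_singleton_eq_range_aeval K (h : Module.End K V)) ▸ h2
      have hp' : aeval (h : Module.End K V) p = N := hp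
      rw [← hp']
      exact (Commute.all F p).map (aeval (h : Module.End K V))
    have h3 : IsNilpotent (aeval (h : Module.End K V) F * N) := h1.isNilpotent_mul_right hF
    have h4 := (LinearMap.isNilpotent_trace_of_isNilpotent h3).eq_zero
    rw [LinearMap.trace_eq_matrix_trace K b] at h4
    exact h4
  rw [hnil] at key
  rw [LinearMap.trace_eq_matrix_trace K b]
  have h5 : LinearMap.toMatrix b b (aeval (h : Module.End K V) F *
      ((g : Module.End K V) * N * (g⁻¹ : (Module.End K V)ˣ))) = φ (aeval (h : Module.End K V) F) *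
      (φ (g : Module.End K V) * φ N * φ ((g⁻¹ : (Module.End K V)ˣ) : Module.End K V)) := by
    rw [← map_mul, ← map_mul, ← map_mul]
    rfl
  rw [h5]
  exact key

end Pool.Agent.Helper40.ZO
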