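import Pool.Agent.Helper40.ZO.Rad
import Pool.Agent.Helper40.ZO.Mor
import Pool.Agent.Helper40.ZO.Comm
import Pool.Agent.Helper40.ZO.OrthA
import Pool.Agent.Helper40.ZO.OrthB
import Pool.Agent.Helper40.ZO.JCx

/-!
# The pointwise criteria (assembly, helper40)
-/

set_option autoImplicit false

namespace Pool.Agent.Helper40.ZO

open Polynomial

variable {K V : Type*} [Field K] [IsAlgClosed K] [CharZero K] [AddCommGroup V] [Module K V]
  [FiniteDimensional K V]


private lemma hN_comm {h : (Module.End K V)ˣ} {m : ℕ} {S U : Module.End K V}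
    (hJ : JC K m (h : Module.End K V) S U) : Commute (h : Module.End K V) (lg K m U) := by
  have h1 := lg_mem hJ
  exact (Algebra.commute_of_mem_adjoin_self h1)

/-- The pointwise criteria, if the logarithm of the unipotent part commutes with the commutant. -/
theorem pointwise_core {Γ : Subgroup (Module.End K V)ˣ} (hΓ : ActsSemisimply (img Γ))
    {h : (Module.End K V)ˣ} (hh : ∀ g ∈ Γ, h * g * h⁻¹ ∈ Γ)
    (hNC : ∀ {m : ℕ} {S U : Module.End K V}, JC K m (h : Module.End K V) S U →
      ∀ X : Module.End K V, (∀ g ∈ Γ, (g : Module.End K V) * X = X * g) →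
        Commute (lg K m U) X) :
    ((∀ g ∈ Γ, numEig ((g * h : (Module.End K V)ˣ) : Module.End K V) ≤
      numEig (h : Module.End K V)) → (h : Module.End K V).IsSemisimple) ∧
    ∀ l : K, (∀ g ∈ Γ, (h : Module.End K V).charpoly.rootMultiplicity l ≤
      ((g * h : (Module.End K V)ˣ) : Module.End K V).charpoly.rootMultiplicity l) →
      SSAt (h : Module.End K V) l := by
  classical
  obtain ⟨m, S, U, hJ⟩ := exists_JC h
  set N := lg K m U with hN
  have hhN : Commute (h : Module.End K V) N := hN_comm hJ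
  have hNnil : IsNilpotent N := lg_nil hJ.nil
  -- stable subspaces
  have hNst : ∀ W : Submodule K V, Stable (img Γ) W → ∀ v ∈ W, N v ∈ W := by
    intro W hW v hv
    obtain ⟨W', hW', hc⟩ := hΓ W hW
    have hp : ∀ g ∈ Γ, (g : Module.End K V) * (W.subtype ∘ₗ W.projectionOnto W' hc : Module.End K V) =
        (W.subtype ∘ₗ W.projectionOnto W' hc : Module.End K V) * g := by
      intro g hg
      ext x
      obtain ⟨a, ha, b, hb, rfl⟩ := Submodule.mem_sup.1
        (show x ∈ W ⊔ W' by rw [hc.sup_eq_top]; trivial)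
      have e1 : W.projectionOnto W' hc (a + b) = ⟨a, ha⟩ := by
        rw [map_add, Submodule.projectionOnto_apply_left (x := ⟨a, ha⟩),
          Submodule.projectionOnto_apply_right (x := ⟨b, hb⟩), add_zero]
      have e2 : W.projectionOnto W' hc ((g : Module.End K V) (a + b)) =
          ⟨(g : Module.End K V) a, hW _ ⟨g, hg, rfl⟩ a ha⟩ := by
        rw [map_add, map_add,
          Submodule.projectionOnto_apply_left (x := ⟨_, hW _ ⟨g, hg, rfl⟩ a ha⟩),
          Submodule.projectionOnto_apply_right (x := ⟨_, hW' _ ⟨g, hg, rfl⟩ b hb⟩), add_zero]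
      simp only [Module.End.mul_apply, LinearMap.comp_apply, Submodule.subtype_apply, e1, e2]
    have h1 := hNC hJ _ hp
    have h2 : W.projectionOnto W' hc v = ⟨v, hv⟩ :=
      Submodule.projectionOnto_apply_left hc ⟨v, hv⟩
    have h3 : N v = (W.subtype ∘ₗ W.projectionOnto W' hc : Module.End K V) (N v) := by
      have h4 := congrArg (fun f : Module.End K V => f v) h1.eq
      simp only [Module.End.mul_apply, LinearMap.comp_apply, Submodule.subtype_apply, h2] at h4
      exact h4
    rw [h3]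
    exact Submodule.coe_mem _
  -- the Lie algebra
  let T : Submodule K (Module.End K V) := Submodule.span K
    {X | ∃ g ∈ Γ, X = (g : Module.End K V) * N * (g⁻¹ : (Module.End K V)ˣ)}
  have hTmem : ∀ g ∈ Γ, (g : Module.End K V) * N * (g⁻¹ : (Module.End K V)ˣ) ∈ T :=
    fun g hg => Submodule.subset_span ⟨g, hg, rfl⟩
  have hNT : N ∈ T := by
    have h1 := hTmem 1 Γ.one_mem
    simpa using h1
  -- conjugation as a linear map
  let cj : (Module.End K V)ˣ → (Module.End K V) →ₗ[K] (Module.End K V) := fun τ =>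
    (LinearMap.mulLeft K (τ : Module.End K V)).comp
      (LinearMap.mulRight K ((τ⁻¹ : (Module.End K V)ˣ) : Module.End K V))
  have hcj : ∀ τ X, cj τ X = (τ : Module.End K V) * X * (τ⁻¹ : (Module.End K V)ˣ) := by
    intro τ X
    simp [cj, mul_assoc]
  have hTconj : ∀ τ : (Module.End K V)ˣ,
      (∀ g ∈ Γ, ∃ g' ∈ Γ, (τ : Module.End K V) * ((g : Module.End K V) * N *
        (g⁻¹ : (Module.End K V)ˣ)) * (τ⁻¹ : (Module.End K V)ˣ) =
        (g' : Module.End K V) * N * (g'⁻¹ : (Module.End K V)ˣ)) →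
      ∀ X ∈ T, (τ : Module.End K V) * X * (τ⁻¹ : (Module.End K V)ˣ) ∈ T := by
    intro τ hτ X hX
    rw [← hcj]
    have h1 : T ≤ T.comap (cj τ) := by
      refine Submodule.span_le.2 ?_
      rintro _ ⟨g, hg, rfl⟩
      obtain ⟨g', hg', h2⟩ := hτ g hg
      show cj τ _ ∈ T
      rw [hcj, h2]
      exact hTmem g' hg'
    exact h1 hX
  have hTΓ : ∀ τ ∈ Γ, ∀ X ∈ T, (τ : Module.End K V) * X * (τ⁻¹ : (Module.End K V)ˣ) ∈ T := by
    intro τ hτ
    refine hTconj τ (fun g hg => ⟨τ * g, Γ.mul_mem hτ hg, ?_⟩)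
    rw [mul_inv_rev, Units.val_mul, Units.val_mul]
    simp only [mul_assoc]
  have hTh : ∀ X ∈ T, (h : Module.End K V) * X * (h⁻¹ : (Module.End K V)ˣ) ∈ T := by
    refine hTconj h (fun g hg => ⟨h * g * h⁻¹, hh g hg, ?_⟩)
    have h1 : ((h⁻¹ : (Module.End K V)ˣ) : Module.End K V) * N =
        N * ((h⁻¹ : (Module.End K V)ˣ) : Module.End K V) := by
      have h2 : (h : Module.End K V) * N = N * h := hhN.eq
      calc ((h⁻¹ : (Module.End K V)ˣ) : Module.End K V) * N
          = ((h⁻¹ : (Module.End K V)ˣ) : Module.End K V) * (N * h) *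
            ((h⁻¹ : (Module.End K V)ˣ) : Module.End K V) := by
            rw [mul_assoc, mul_assoc, Units.mul_inv, mul_one]
        _ = _ := by rw [← h2, ← mul_assoc, Units.inv_mul, one_mul]
    have h3 : ((h * g * h⁻¹ : (Module.End K V)ˣ)⁻¹ : (Module.End K V)ˣ) = h * g⁻¹ * h⁻¹ := by group
    rw [h3]
    simp only [Units.val_mul, mul_assoc]
    rw [← mul_assoc N (h : Module.End K V), ← hhN.eq, mul_assoc (h : Module.End K V) N,
      Units.inv_mul_cancel_left]
  have hbr : ∀ X ∈ T, ∀ Y ∈ T, X * Y - Y * X ∈ T := by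
    have h0 : ∀ Y ∈ T, N * Y - Y * N ∈ T := stab_lg hJ hTh
    intro X hX Y hY
    refine Submodule.span_induction (p := fun X _ => ∀ Y ∈ T, X * Y - Y * X ∈ T)
      ?_ ?_ ?_ ?_ hX Y hY
    · rintro _ ⟨g, hg, rfl⟩ Y hY
      have h1 : (g : Module.End K V) * (N * ((g⁻¹ : (Module.End K V)ˣ) * Y * g) -
          ((g⁻¹ : (Module.End K V)ˣ) * Y * g) * N) * (g⁻¹ : (Module.End K V)ˣ) ∈ T := by
        refine hTΓ g hg _ (h0 _ ?_)
        have h2 := hTΓ g⁻¹ (Γ.inv_mem hg) Y hY
        rwa [inv_inv] at h2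
      convert h1 using 1
      simp only [mul_sub, sub_mul, mul_assoc, Units.mul_inv_cancel_left, Units.mul_inv, mul_one]
    · intro Y _
      rw [zero_mul, mul_zero, sub_zero]
      exact T.zero_mem
    · intro X X' _ _ h1 h2 Y hY
      have h3 : (X + X') * Y - Y * (X + X') = (X * Y - Y * X) + (X' * Y - Y * X') := by
        rw [add_mul, mul_add]; abel
      rw [h3]
      exact T.add_mem (h1 Y hY) (h2 Y hY)
    · intro c X _ h1 Y hY
      have h3 : (c • X) * Y - Y * (c • X) = c • (X * Y - Y * X) := by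
        rw [smul_mul_assoc, mul_smul_comm, smul_sub]
      rw [h3]
      exact T.smul_mem c (h1 Y hY)
  have hTst : ∀ X ∈ T, ∀ W : Submodule K V, Stable (img Γ) W → ∀ v ∈ W, X v ∈ W := by
    intro X hX W hW
    refine Submodule.span_induction (p := fun X _ => ∀ v ∈ W, X v ∈ W) ?_ ?_ ?_ ?_ hX
    · rintro _ ⟨g, hg, rfl⟩ v hv
      exact hW _ ⟨g, hg, rfl⟩ _ (hNst W hW _ (hW _ ⟨g⁻¹, Γ.inv_mem hg, rfl⟩ v hv))
    · intro v _
      exact W.zero_mem
    · intro X X' _ _ h1 h2 v hv
      exact W.add_mem (h1 v hv) (h2 v hv)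
    · intro c X _ h1 v hv
      exact W.smul_mem c (h1 v hv)
  have hspan : T = Submodule.span K {X | X ∈ T ∧ IsNilpotent X} := by
    apply le_antisymm
    · refine Submodule.span_mono ?_
      rintro _ ⟨g, hg, rfl⟩
      refine ⟨hTmem g hg, ?_⟩
      obtain ⟨e, he⟩ := hNnil
      refine ⟨e, ?_⟩
      have h1 : ∀ j : ℕ, ((g : Module.End K V) * N * (g⁻¹ : (Module.End K V)ˣ)) ^ j =
          (g : Module.End K V) * N ^ j * (g⁻¹ : (Module.End K V)ˣ) := by
        intro j
        induction j with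
        | zero => simp
        | succ j ih =>
          rw [pow_succ, ih, pow_succ]
          simp only [mul_assoc, Units.inv_mul_cancel_left]
      rw [h1, he, mul_zero, zero_mul]
    · refine Submodule.span_le.2 ?_
      rintro X ⟨hX, -⟩
      exact hX
  have hnd : ∀ X ∈ T, (∀ Y ∈ T, LinearMap.trace K V (X * Y) = 0) → X = 0 :=
    fun X hX h1 => trace_nondeg hΓ hbr hTΓ hTst hspan hX h1
  -- elements of the coset
  have hcoset : ∀ g ∈ Γ, ∀ j : ℕ, ∃ g' ∈ Γ, g * h ^ j * g⁻¹ * h⁻¹ ^ j * h = g' * h := by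
    intro g hg j
    have h1 : ∀ j : ℕ, ∀ g ∈ Γ, h ^ j * g * h⁻¹ ^ j ∈ Γ := by
      intro j
      induction j with
      | zero => intro g hg; simpa using hg
      | succ j ih =>
        intro g hg
        have h2 : h ^ (j + 1) * g * h⁻¹ ^ (j + 1) = h * (h ^ j * g * h⁻¹ ^ j) * h⁻¹ := by
          rw [pow_succ' h, pow_succ h⁻¹]
          group
        rw [h2]
        exact hh _ (ih g hg)
    refine ⟨g * (h ^ j * g⁻¹ * h⁻¹ ^ j), Γ.mul_mem hg (h1 j _ (Γ.inv_mem hg)), ?_⟩
    group
  constructor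
  · intro hmax
    apply ss_of_lg hJ
    apply hnd N hNT
    obtain ⟨F, hF⟩ := Algebra.adjoin_singleton_eq_range_aeval K (h : Module.End K V) ▸ lg_mem hJ
    have hF' : aeval (h : Module.End K V) F = N := hF
    have h1 : ∀ g ∈ Γ, LinearMap.trace K V (N *
        ((g : Module.End K V) * N * (g⁻¹ : (Module.End K V)ˣ))) = 0 := by
      intro g hg
      have h2 := orth_of_max hJ (g := g) (F := F) ?_ (by rw [hF']; exact hNnil)
      · rw [hF'] at h2
        exact h2
      · intro j
        obtain ⟨g', hg', h3⟩ := hcoset g hg j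
        rw [h3]
        exact hmax g' hg'
    intro Y hY
    refine Submodule.span_induction (p := fun Y _ => LinearMap.trace K V (N * Y) = 0)
      ?_ ?_ ?_ ?_ hY
    · rintro _ ⟨g, hg, rfl⟩
      exact h1 g hg
    · rw [mul_zero, map_zero]
    · intro Y Y' _ _ h2 h3
      rw [mul_add, map_add, h2, h3, add_zero]
    · intro c Y _ h2
      rw [mul_smul_comm, map_smul, h2, smul_zero]
  · intro l hmin
    obtain ⟨G, hG1, hG2, hG3, hG4⟩ := exists_proj hJ l
    apply hG4
    obtain ⟨R, hR⟩ := Polynomial.pow_rootMultiplicity_dvd (h : Module.End K V).charpoly l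
    obtain ⟨F, hF⟩ := Algebra.adjoin_singleton_eq_range_aeval K (h : Module.End K V) ▸ lg_mem hJ
    have hF' : aeval (h : Module.End K V) F = N := hF
    have hFG : aeval (h : Module.End K V) (F * G) = N * aeval (h : Module.End K V) G := by
      rw [map_mul, hF']
    have hGN : Commute N (aeval (h : Module.End K V) G) := by
      rw [← hF']
      exact (Commute.all F G).map (aeval (h : Module.End K V))
    have hFGnil : IsNilpotent (aeval (h : Module.End K V) (F * G)) := by
      rw [hFG]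
      exact hGN.isNilpotent_mul_right hNnil
    -- the inverse of S
    have hhu : IsUnit (S * U) := by rw [← hJ.mul]; exact h.isUnit
    obtain ⟨S', hS1, hS2⟩ : ∃ S', S * S' = 1 ∧ S' * S = 1 := by
      have hcomm : Commute S U := hJ.comm
      obtain ⟨u, hu⟩ := (hcomm.isUnit_mul_iff.1 hhu).1
      exact ⟨(u⁻¹ : (Module.End K V)ˣ), by rw [← hu]; exact u.mul_inv, by rw [← hu]; exact u.inv_mul⟩
    have hNS : Commute N S := by
      have h1 : N ∈ Algebra.adjoin K {(h : Module.End K V)} := lg_mem hJ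
      have h2 : Commute (h : Module.End K V) S := Algebra.commute_of_mem_adjoin_self hJ.memS
      exact (Algebra.commute_of_mem_adjoin_singleton_of_commute h1 h2.symm).symm
    refine morozov hbr hnd hS1 hS2 hJ.ss (stab_S hJ hTh hS1) hNT hNnil hNS hG2 hG1 ?_
    intro Y hY
    refine Submodule.span_induction
      (p := fun Y _ => LinearMap.trace K V (N * aeval (h : Module.End K V) G * Y) = 0)
      ?_ ?_ ?_ ?_ hY
    · rintro _ ⟨g, hg, rfl⟩
      have h2 := orth_of_min hJ (g := g) (F := F * G) (l := l) ?_ hR hFGnil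
        ((hG3 R hR).mul_left F)
      · rw [hFG] at h2
        exact h2
      · intro j
        obtain ⟨g', hg', h3⟩ := hcoset g hg j
        rw [h3]
        exact hmin g' hg'
    · rw [mul_zero, map_zero]
    · intro Y Y' _ _ h2 h3
      rw [mul_add, map_add, h2, h3, add_zero]
    · intro c Y _ h2
      rw [mul_smul_comm, map_smul, h2, smul_zero]

theorem pointwise {Γ : Subgroup (Module.End K V)ˣ} (hΓ : ActsSemisimply (img Γ))
    {h σ : (Module.End K V)ˣ} (hh : ∀ g ∈ Γ, h * g * h⁻¹ ∈ Γ) (hh' : ∀ g ∈ Γ, h⁻¹ * g * h ∈ Γ)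
    (hσσ : ∀ g ∈ Γ, σ⁻¹ * g * σ ∈ Γ) (hσ : (σ : Module.End K V).IsSemisimple) {k : ℕ}
    (hk : 1 ≤ k) (hkj : h ^ k * σ⁻¹ ∈ Γ) :
    ((∀ g ∈ Γ, numEig ((g * h : (Module.End K V)ˣ) : Module.End K V) ≤
      numEig (h : Module.End K V)) → (h : Module.End K V).IsSemisimple) ∧
    ∀ l : K, (∀ g ∈ Γ, (h : Module.End K V).charpoly.rootMultiplicity l ≤
      ((g * h : (Module.End K V)ˣ) : Module.End K V).charpoly.rootMultiplicity l) →
      SSAt (h : Module.End K V) l := by
  refine pointwise_core hΓ hh ?_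
  intro m S U hJ
  -- the commutant
  let CC : Submodule K (Module.End K V) :=
    { carrier := {X | ∀ g ∈ Γ, (g : Module.End K V) * X = X * g}
      add_mem' := by
        intro a b ha hb g hg
        rw [mul_add, add_mul, ha g hg, hb g hg]
      zero_mem' := by intro g _; rw [mul_zero, zero_mul]
      smul_mem' := by
        intro c a ha g hg
        rw [mul_smul_comm, smul_mul_assoc, ha g hg] }
  have hCC : ∀ X, X ∈ CC ↔ ∀ g ∈ Γ, (g : Module.End K V) * X = X * g := fun X => Iff.rfl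
  have hconjCC : ∀ (τ : (Module.End K V)ˣ), (∀ g ∈ Γ, τ⁻¹ * g * τ ∈ Γ) → ∀ X ∈ CC,
      (τ : Module.End K V) * X * (τ⁻¹ : (Module.End K V)ˣ) ∈ CC := by
    intro τ hτ X hX g hg
    have h1 := hX _ (hτ g hg)
    have h2 : (τ : Module.End K V) * (((τ⁻¹ * g * τ : (Module.End K V)ˣ) : Module.End K V) * X) *
        (τ⁻¹ : (Module.End K V)ˣ) =
        (τ : Module.End K V) * (X * ((τ⁻¹ * g * τ : (Module.End K V)ˣ) : Module.End K V)) *
        (τ⁻¹ : (Module.End K V)ˣ) := by rw [h1]
    simp only [Units.val_mul, mul_assoc, Units.mul_inv_cancel_left, Units.mul_inv,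
      mul_one] at h2
    simp only [mul_assoc]
    exact h2
  have hNC : ∀ X ∈ CC, Commute (lg K m U) X := by
    refine comm_of_pow hJ hσ (hconjCC h hh') hk ?_
    intro X hX
    have h1 : (σ : Module.End K V) * X * (σ⁻¹ : (Module.End K V)ˣ) ∈ CC := hconjCC σ hσσ X hX
    have h2 := h1 _ hkj
    have h3 : ((h ^ k : (Module.End K V)ˣ) : Module.End K V) =
        ((h ^ k * σ⁻¹ : (Module.End K V)ˣ) : Module.End K V) * σ := by
      rw [← Units.val_mul, inv_mul_cancel_right]
    have h4 : (((h ^ k)⁻¹ : (Module.End K V)ˣ) : Module.End K V) =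
        (σ⁻¹ : (Module.End K V)ˣ) * (((h ^ k * σ⁻¹)⁻¹ : (Module.End K V)ˣ) : Module.End K V) := by
      rw [← Units.val_mul, mul_inv_rev, inv_inv, inv_mul_cancel_left]
    rw [h3, h4]
    calc ((h ^ k * σ⁻¹ : (Module.End K V)ˣ) : Module.End K V) * σ * X *
          ((σ⁻¹ : (Module.End K V)ˣ) * (((h ^ k * σ⁻¹)⁻¹ : (Module.End K V)ˣ) : Module.End K V))
        = (((h ^ k * σ⁻¹ : (Module.End K V)ˣ) : Module.End K V) *
          ((σ : Module.End K V) * X * (σ⁻¹ : (Module.End K V)ˣ))) *
          (((h ^ k * σ⁻¹)⁻¹ : (Module.End K V)ˣ) : Module.End K V) := by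
          simp only [mul_assoc]
      _ = _ := by rw [h2, mul_assoc, Units.mul_inv, mul_one]
  exact hNC

end Pool.Agent.Helper40.ZO
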