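import Pool.Agent.Helper40.ZO.Tr
import Pool.Agent.Helper40.ZO.Cart

/-!
# Block ZO-RAD: the trace form is nondegenerate

`Γ` acts semisimply on `V`, the subspaces `J`, `T` of `Module.End K V` are stable under conjugation
by `Γ` and all their elements preserve the `Γ`-stable subspaces of `V`.

* `eq_zero_of_nilpotent`. Let `W₁ = span {X v | X ∈ J}`. It is `Γ`-stable (`g X v = (g X g⁻¹) g v`);
  let `W'` be a stable complement. For `X ∈ J`, `w' ∈ W'`: `X w' ∈ W'` and `X w' ∈ W₁`, so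
  `X w' = 0`. Hence `W₁ = span {X v | X ∈ J, v ∈ W₁}` and `W₁ = 0` by `act_eq_bot`; so `J = 0`.
* `trace_nondeg`. Let `R = {X ∈ T | ∀ Y ∈ T, trace (X Y) = 0}`.
  (1) For `X ∈ R`, `Y ∈ T`: `X Y - Y X ∈ R` (`trace ([X, Y] Z) = trace (X [Y, Z])`). `R` is stable
  under conjugation by `Γ` (the trace is conjugation invariant and `g⁻¹ T g ⊆ T`).
  (2) `D = span {commutators of elements of R}` is closed under commutators (`D ⊆ R`), conjugation
  stable, consists of nilpotent elements by `cartan`, so `D = 0` by `eq_zero_of_nilpotent`: `R` is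
  commutative.
  (3) `J = {X ∈ R | X nilpotent}` is a subspace since `R` is commutative; `J = 0` by
  `eq_zero_of_nilpotent`.
  (4) `X ∈ R`, `Y ∈ T`: `Z = X Y - Y X ∈ R` commutes with `X`, so it is nilpotent
  (`isNilpotent_comm`), `Z ∈ J`, `Z = 0`. So `X` commutes with all elements of `T`, and
  `isNilpotent_of_mem_span` shows that `X` is nilpotent; `X ∈ J`, `X = 0`.
-/

set_option autoImplicit false

namespace Pool.Agent.Helper40.ZO

open Polynomial

variable {K V : Type*} [Field K] [IsAlgClosed K] [CharZero K] [AddCommGroup V] [Module K V]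
  [FiniteDimensional K V]

theorem eq_zero_of_nilpotent {Γ : Subgroup (Module.End K V)ˣ} (hΓ : ActsSemisimply (img Γ))
    {J : Submodule K (Module.End K V)} (hlie : ∀ X ∈ J, ∀ Y ∈ J, X * Y - Y * X ∈ J)
    (hconj : ∀ g ∈ Γ, ∀ X ∈ J, (g : Module.End K V) * X * (g⁻¹ : (Module.End K V)ˣ) ∈ J)
    (hst : ∀ X ∈ J, ∀ W : Submodule K V, Stable (img Γ) W → ∀ v ∈ W, X v ∈ W)
    (hnil : ∀ X ∈ J, IsNilpotent X) {X : Module.End K V} (hX : X ∈ J) : X = 0 := by
  set W₁ : Submodule K V := Submodule.span K {w | ∃ X ∈ J, ∃ v : V, w = X v} with hW₁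
  have hmem : ∀ X ∈ J, ∀ v : V, X v ∈ W₁ := fun X hX v =>
    Submodule.subset_span ⟨X, hX, v, rfl⟩
  have hstab : Stable (img Γ) W₁ := by
    rintro A ⟨g, hg, rfl⟩ v hv
    induction hv using Submodule.span_induction with
    | mem w hw =>
      obtain ⟨Y, hY, u, rfl⟩ := hw
      have h1 : (g : Module.End K V) (Y u) =
          ((g : Module.End K V) * Y * (g⁻¹ : (Module.End K V)ˣ)) ((g : Module.End K V) u) := by
        have h2 : ((g⁻¹ : (Module.End K V)ˣ) : Module.End K V) ((g : Module.End K V) u) = u := by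
          rw [← Module.End.mul_apply, Units.inv_mul, Module.End.one_apply]
        rw [Module.End.mul_apply, Module.End.mul_apply, h2]
      rw [h1]
      exact hmem _ (hconj g hg Y hY) _
    | zero => rw [map_zero]; exact W₁.zero_mem
    | add x y _ _ hx hy => rw [map_add]; exact W₁.add_mem hx hy
    | smul c x _ hx => rw [map_smul]; exact W₁.smul_mem c hx
  obtain ⟨W', hW', hcompl⟩ := hΓ W₁ hstab
  have hzero : ∀ X ∈ J, ∀ w ∈ W', X w = 0 := by
    intro X hX w hw
    have h1 : X w ∈ W₁ ⊓ W' := ⟨hmem X hX w, hst X hX W' hW' w hw⟩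
    rw [hcompl.inf_eq_bot] at h1
    exact (Submodule.mem_bot K).1 h1
  have hle : W₁ ≤ Submodule.span K {w | ∃ X ∈ J, ∃ v ∈ W₁, w = X v} := by
    rw [hW₁, Submodule.span_le]
    rintro w ⟨Y, hY, u, rfl⟩
    have hu : u ∈ W₁ ⊔ W' := by rw [hcompl.sup_eq_top]; exact Submodule.mem_top
    obtain ⟨a, ha, b, hb, rfl⟩ := Submodule.mem_sup.1 hu
    refine Submodule.subset_span ⟨Y, hY, a, ha, ?_⟩
    rw [map_add, hzero Y hY b hb, add_zero]
  have hbot : W₁ = ⊥ := act_eq_bot hlie hnil hle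
  ext v
  have h1 := hmem X hX v
  rw [hbot] at h1
  exact (Submodule.mem_bot K).1 h1

theorem trace_nondeg {Γ : Subgroup (Module.End K V)ˣ} (hΓ : ActsSemisimply (img Γ))
    {T : Submodule K (Module.End K V)} (hlie : ∀ X ∈ T, ∀ Y ∈ T, X * Y - Y * X ∈ T)
    (hconj : ∀ g ∈ Γ, ∀ X ∈ T, (g : Module.End K V) * X * (g⁻¹ : (Module.End K V)ˣ) ∈ T)
    (hst : ∀ X ∈ T, ∀ W : Submodule K V, Stable (img Γ) W → ∀ v ∈ W, X v ∈ W)
    (hspan : T = Submodule.span K {X | X ∈ T ∧ IsNilpotent X})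
    {X : Module.End K V} (hX : X ∈ T) (h : ∀ Y ∈ T, LinearMap.trace K V (X * Y) = 0) :
    X = 0 := by
  -- the radical
  let R : Submodule K (Module.End K V) :=
    { carrier := {X | X ∈ T ∧ ∀ Y ∈ T, LinearMap.trace K V (X * Y) = 0}
      add_mem' := by
        rintro a b ⟨ha, ha'⟩ ⟨hb, hb'⟩
        refine ⟨T.add_mem ha hb, fun Y hY => ?_⟩
        rw [add_mul, map_add, ha' Y hY, hb' Y hY, add_zero]
      zero_mem' := ⟨T.zero_mem, fun Y _ => by rw [zero_mul, map_zero]⟩
      smul_mem' := by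
        rintro c a ⟨ha, ha'⟩
        refine ⟨T.smul_mem c ha, fun Y hY => ?_⟩
        rw [smul_mul_assoc, map_smul, ha' Y hY, smul_zero] }
  have hRT : ∀ Y ∈ R, Y ∈ T := fun Y hY => hY.1
  have hRbr : ∀ Y ∈ R, ∀ Z ∈ T, Y * Z - Z * Y ∈ R := by
    intro Y hY Z hZ
    refine ⟨hlie Y hY.1 Z hZ, fun W hW => ?_⟩
    have h1 : LinearMap.trace K V (Z * Y * W) = LinearMap.trace K V (Y * (W * Z)) := by
      rw [mul_assoc, LinearMap.trace_mul_comm, mul_assoc]
    have h2 : LinearMap.trace K V (Y * (Z * W - W * Z)) = 0 := hY.2 _ (hlie Z hZ W hW)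
    rw [sub_mul, map_sub, h1, mul_assoc, ← map_sub, ← mul_sub]
    exact h2
  have hRconj : ∀ g ∈ Γ, ∀ X ∈ R,
      (g : Module.End K V) * X * (g⁻¹ : (Module.End K V)ˣ) ∈ R := by
    intro g hg Y hY
    refine ⟨hconj g hg Y hY.1, fun Z hZ => ?_⟩
    have h1 := hconj g⁻¹ (Γ.inv_mem hg) Z hZ
    rw [inv_inv] at h1
    have h2 := hY.2 _ h1
    have h3 : LinearMap.trace K V
        ((g : Module.End K V) * Y * ((g⁻¹ : (Module.End K V)ˣ) : Module.End K V) * Z) =
        LinearMap.trace K V (Y * (((g⁻¹ : (Module.End K V)ˣ) : Module.End K V) * Z *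
          (g : Module.End K V))) := by
      rw [mul_assoc, mul_assoc, LinearMap.trace_mul_comm]
      simp only [mul_assoc]
    rw [h3]
    exact h2
  -- the derived algebra of the radical
  set D : Submodule K (Module.End K V) :=
    Submodule.span K {D | ∃ X ∈ R, ∃ Y ∈ R, D = X * Y - Y * X} with hD
  have hDR : ∀ Y ∈ D, Y ∈ R := by
    intro Y hY
    have h1 : D ≤ R := by
      rw [hD, Submodule.span_le]
      rintro _ ⟨A, hA, B, hB, rfl⟩
      exact hRbr A hA B (hRT B hB)
    exact h1 hY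
  have hDconj : ∀ g ∈ Γ, ∀ X ∈ D,
      (g : Module.End K V) * X * (g⁻¹ : (Module.End K V)ˣ) ∈ D := by
    intro g hg Y hY
    induction hY using Submodule.span_induction with
    | mem w hw =>
      obtain ⟨A, hA, B, hB, rfl⟩ := hw
      refine Submodule.subset_span ⟨_, hRconj g hg A hA, _, hRconj g hg B hB, ?_⟩
      have key : ∀ A B : Module.End K V,
          (g : Module.End K V) * A * ((g⁻¹ : (Module.End K V)ˣ) : Module.End K V) *
            ((g : Module.End K V) * B * ((g⁻¹ : (Module.End K V)ˣ) : Module.End K V)) =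
          (g : Module.End K V) * (A * B) * ((g⁻¹ : (Module.End K V)ˣ) : Module.End K V) := by
        intro A B
        have : (g : Module.End K V) * A * ((g⁻¹ : (Module.End K V)ˣ) : Module.End K V) *
            ((g : Module.End K V) * B * ((g⁻¹ : (Module.End K V)ˣ) : Module.End K V)) =
            (g : Module.End K V) * A * (((g⁻¹ : (Module.End K V)ˣ) : Module.End K V) *
            (g : Module.End K V)) * B * ((g⁻¹ : (Module.End K V)ˣ) : Module.End K V) := by
          simp only [mul_assoc]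
        rw [this, Units.inv_mul, mul_one]
        simp only [mul_assoc]
      rw [key, key, mul_sub, sub_mul]
    | zero => rw [mul_zero, zero_mul]; exact D.zero_mem
    | add x y _ _ hx hy => rw [mul_add, add_mul]; exact D.add_mem hx hy
    | smul c x _ hx =>
      rw [mul_smul_comm, smul_mul_assoc]; exact D.smul_mem c hx
  have hDzero : ∀ Y ∈ D, Y = 0 := by
    intro Y hY
    refine eq_zero_of_nilpotent hΓ (J := D) ?_ hDconj ?_ ?_ hY
    · intro A hA B hB
      exact Submodule.subset_span ⟨A, hDR A hA, B, hDR B hB, rfl⟩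
    · intro A hA W hW v hv
      exact hst A (hRT A (hDR A hA)) W hW v hv
    · intro A hA
      exact cartan (B := R) (fun X hX Y hY => hRbr X hX Y (hRT Y hY))
        (fun X hX Y hY => hX.2 Y (hRT Y hY)) hA
  have hcomm : ∀ A ∈ R, ∀ B ∈ R, Commute A B := by
    intro A hA B hB
    exact sub_eq_zero.1 (hDzero _ (Submodule.subset_span ⟨A, hA, B, hB, rfl⟩))
  -- the nilpotent elements of the radical
  let J : Submodule K (Module.End K V) :=
    { carrier := {X | X ∈ R ∧ IsNilpotent X}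
      add_mem' := by
        rintro a b ⟨ha, ha'⟩ ⟨hb, hb'⟩
        exact ⟨R.add_mem ha hb, (hcomm a ha b hb).isNilpotent_add ha' hb'⟩
      zero_mem' := ⟨R.zero_mem, IsNilpotent.zero⟩
      smul_mem' := by
        rintro c a ⟨ha, ha'⟩
        exact ⟨R.smul_mem c ha, ha'.smul c⟩ }
  have hJzero : ∀ Y ∈ J, Y = 0 := by
    intro Y hY
    refine eq_zero_of_nilpotent hΓ (J := J) ?_ ?_ ?_ (fun A hA => hA.2) hY
    · intro A hA B hB
      rw [(hcomm A hA.1 B hB.1).eq, sub_self]
      exact J.zero_mem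
    · intro g hg A hA
      refine ⟨hRconj g hg A hA.1, ?_⟩
      obtain ⟨n, hn⟩ := hA.2
      exact ⟨n, by rw [Units.conj_pow, hn, mul_zero, zero_mul]⟩
    · intro A hA W hW v hv
      exact hst A (hRT A hA.1) W hW v hv
  have hXR : X ∈ R := ⟨hX, h⟩
  have hXT : ∀ Y ∈ T, Commute X Y := by
    intro Y hY
    have h1 : X * Y - Y * X ∈ R := hRbr X hXR Y hY
    have h2 : IsNilpotent (X * Y - Y * X) := isNilpotent_comm (hcomm X hXR _ h1)
    exact sub_eq_zero.1 (hJzero _ ⟨h1, h2⟩)
  have hXnil : IsNilpotent X := by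
    refine isNilpotent_of_mem_span (T := {X | X ∈ T ∧ IsNilpotent X}) ?_ ?_
    · rintro N ⟨hN, hN'⟩
      exact ⟨hN', hXT N hN⟩
    · rw [← hspan]
      exact hX
  exact hJzero X ⟨hXR, hXnil⟩

end Pool.Agent.Helper40.ZO
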